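import Mathlib

open MeasureTheory Set Metric Real
open scoped ENNReal Pointwise

namespace Pool.Agent.Helper442.DRBeam

/-- Three dimensional Euclidean space. -/
abbrev E := EuclideanSpace ℝ (Fin 3)

/-- The unit sphere `S²`. -/
abbrev S := sphere (0 : E) 1

/-- The standard surface measure of `S²` (total mass `4 π`). -/
noncomputable def sig : Measure S := (volume : Measure E).toSphere

/-- The symbol `Λ(n) = √(n (n-1) (n+2))`. -/
noncomputable def Lam (n : ℕ) : ℝ := √((n : ℝ) * ((n : ℝ) - 1) * ((n : ℝ) + 2))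

/-- `f` is a spherical harmonic of degree `n`: the restriction to the sphere of a homogeneous
harmonic polynomial of degree `n` with complex coefficients. -/
def IsSphHarm (n : ℕ) (f : S → ℂ) : Prop :=
  ∃ P : MvPolynomial (Fin 3) ℂ, P.IsHomogeneous n ∧
    ∑ i, MvPolynomial.pderiv i (MvPolynomial.pderiv i P) = 0 ∧
    ∀ x : S, f x = MvPolynomial.eval (fun i => (((x : E) i : ℝ) : ℂ)) P

/-- The solution `e^{itΛ} f` for `f = ∑_{n < K} F n`, where `F n` is the degree `n` part. -/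
noncomputable def sol (K : ℕ) (F : ℕ → S → ℂ) (t : ℝ) (x : S) : ℂ :=
  ∑ n ∈ Finset.range K, Complex.exp (((t * Lam n : ℝ) : ℂ) * Complex.I) * F n x

/-- The Sobolev norm `‖f‖_{H^s}` of `f = ∑_{n < K} F n`. -/
noncomputable def Hnorm (s : ℝ) (K : ℕ) (F : ℕ → S → ℂ) : ℝ :=
  √(∑ n ∈ Finset.range K, (1 + (n : ℝ)) ^ (2 * s) * ∫ x, ‖F n x‖ ^ 2 ∂sig)

/-- The Strichartz estimate `(p, q, s)`, tested only on finite sums of spherical harmonics
(all of which are smooth functions on the sphere). -/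
def StrichartzFin (p q : ℝ≥0∞) (s : ℝ) : Prop :=
  ∀ T : ℝ, 0 < T → ∃ C : ℝ, ∀ (K : ℕ) (F : ℕ → S → ℂ), (∀ n, IsSphHarm n (F n)) →
    eLpNorm (fun t => (eLpNorm (sol K F t) q sig).toReal) p (volume.restrict (Icc 0 T)) ≤
      ENNReal.ofReal (C * Hnorm s K F)

/-- The Gaussian beams `(x + i y)^m`. -/
noncomputable def g (m : ℕ) (x : S) : ℂ := ((((x : E) 0 : ℝ) : ℂ) + (((x : E) 1 : ℝ) : ℂ) * Complex.I) ^ m

/-! ### The sphere -/

theorem norm_sq_three (w : E) : ‖w‖ ^ 2 = w 0 ^ 2 + w 1 ^ 2 + w 2 ^ 2 := by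
  rw [EuclideanSpace.norm_sq_eq, Fin.sum_univ_three]
  simp

theorem gamma_int (k : ℕ) : ∫ t in Ioi (0 : ℝ), (t ^ 2) ^ k * Real.exp (-t ^ 2) =
    1 / 2 * Real.Gamma (k + 1 / 2) := by
  have h := integral_rpow_mul_exp_neg_rpow (p := 2) (q := 2 * k) (by norm_num)
    (by have : (0 : ℝ) ≤ k := Nat.cast_nonneg _
        linarith)
  have e : ((2 * (k : ℝ) + 1) / 2) = k + 1 / 2 := by ring
  rw [e] at h
  rw [← h]
  refine setIntegral_congr_fun measurableSet_Ioi (fun t ht => ?_)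
  have h1 : t ^ (2 : ℝ) = t ^ 2 := by
    rw [← Real.rpow_natCast]
    norm_num
  have h2 : t ^ (2 * (k : ℝ)) = (t ^ 2) ^ k := by
    rw [← pow_mul, ← Real.rpow_natCast]
    push_cast
    rfl
  simp only [h1, h2]

theorem gamma_int_line (k : ℕ) : ∫ t : ℝ, (t ^ 2) ^ k * Real.exp (-t ^ 2) =
    Real.Gamma (k + 1 / 2) := by
  have h := integral_comp_abs (f := fun t : ℝ => (t ^ 2) ^ k * Real.exp (-t ^ 2))
  simp only [sq_abs] at h
  rw [h, gamma_int]
  ring

theorem gauss_cart (k : ℕ) : ∫ y : E, (y 2 ^ 2) ^ k * Real.exp (-‖y‖ ^ 2) =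
    π * Real.Gamma (k + 1 / 2) := by
  rw [← (PiLp.volume_preserving_toLp (Fin 3)).integral_comp
    (MeasurableEquiv.toLp 2 _).measurableEmbedding]
  have h1 : ∀ x : Fin 3 → ℝ, ((WithLp.toLp 2 x : E) 2 ^ 2) ^ k *
      Real.exp (-‖(WithLp.toLp 2 x : E)‖ ^ 2) =
      ∏ i, (fun (i : Fin 3) (t : ℝ) => (t ^ 2) ^ (if i = 2 then k else 0) * Real.exp (-t ^ 2))
        i (x i) := by
    intro x
    rw [Fin.prod_univ_three, norm_sq_three]
    simp only [Fin.isValue]
    have e : Real.exp (-(x 0 ^ 2 + x 1 ^ 2 + x 2 ^ 2)) =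
        Real.exp (-x 0 ^ 2) * Real.exp (-x 1 ^ 2) * Real.exp (-x 2 ^ 2) := by
      rw [← Real.exp_add, ← Real.exp_add]
      congr 1
      ring
    rw [e]
    simp
    ring
  have h4 := integral_fintype_prod_volume_eq_prod (ι := Fin 3) (E := fun _ => ℝ)
    (fun (i : Fin 3) (t : ℝ) => (t ^ 2) ^ (if i = 2 then k else 0) * Real.exp (-t ^ 2))
  refine ((integral_congr_ae (Filter.Eventually.of_forall h1)).trans h4).trans ?_
  rw [Fin.prod_univ_three]
  simp only [gamma_int_line]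
  have hG : Real.Gamma 2⁻¹ = √π := by
    rw [← one_div]
    exact Real.Gamma_one_half_eq
  have h2 : Real.Gamma (((if (0 : Fin 3) = 2 then k else 0 : ℕ) : ℝ) + 1 / 2) = √π := by
    simp [hG]
  have h3 : Real.Gamma (((if (1 : Fin 3) = 2 then k else 0 : ℕ) : ℝ) + 1 / 2) = √π := by
    simp [hG]
  rw [h2, h3, Real.mul_self_sqrt Real.pi_pos.le]
  simp

theorem gauss_polar (k : ℕ) : ∫ y : E, (y 2 ^ 2) ^ k * Real.exp (-‖y‖ ^ 2) =
    (∫ x : S, ((x : E) 2 ^ 2) ^ k ∂(volume : Measure E).toSphere) *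
      ∫ r in Ioi (0 : ℝ), (r ^ 2) ^ (k + 1) * Real.exp (-r ^ 2) := by
  have hdim : Module.finrank ℝ E - 1 = 2 := by simp
  calc ∫ y : E, (y 2 ^ 2) ^ k * Real.exp (-‖y‖ ^ 2)
      = ∫ y : ({(0)}ᶜ : Set E), ((y : E) 2 ^ 2) ^ k * Real.exp (-‖(y : E)‖ ^ 2)
        ∂((volume : Measure E).comap ((↑) : ({(0)}ᶜ : Set E) → E)) := by
        rw [integral_subtype_comap (measurableSet_singleton _).compl
          fun y : E => (y 2 ^ 2) ^ k * Real.exp (-‖y‖ ^ 2), restrict_compl_singleton]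
    _ = ∫ p : S × Ioi (0 : ℝ), ((p.1 : E) 2 ^ 2) ^ k * (((p.2 : ℝ) ^ 2) ^ k *
        Real.exp (-(p.2 : ℝ) ^ 2))
        ∂((volume : Measure E).toSphere.prod (.volumeIoiPow (Module.finrank ℝ E - 1))) := by
        rw [← (volume : Measure E).measurePreserving_homeomorphUnitSphereProd.integral_comp
          (Homeomorph.measurableEmbedding _)]
        refine integral_congr_ae (Filter.Eventually.of_forall fun y => ?_)
        have hy : ‖(y : E)‖ ≠ 0 := norm_ne_zero_iff.2 y.2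
        have h1 : ((homeomorphUnitSphereProd E y).1 : E) = ‖(y : E)‖⁻¹ • (y : E) := by
          simp
        have h2 : ((homeomorphUnitSphereProd E y).2 : ℝ) = ‖(y : E)‖ := by
          simp
        simp only [h1, h2, PiLp.smul_apply, smul_eq_mul]
        rw [← mul_assoc, ← mul_pow]
        congr 2
        field_simp
    _ = (∫ x : S, ((x : E) 2 ^ 2) ^ k ∂(volume : Measure E).toSphere) *
        ∫ r : Ioi (0 : ℝ), (((r : ℝ) ^ 2) ^ k * Real.exp (-(r : ℝ) ^ 2))
        ∂(.volumeIoiPow (Module.finrank ℝ E - 1)) := by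
        exact integral_prod_mul (fun x : S => ((x : E) 2 ^ 2) ^ k)
          (fun r : Ioi (0 : ℝ) => (((r : ℝ) ^ 2) ^ k * Real.exp (-(r : ℝ) ^ 2)))
    _ = _ := by
        rw [hdim]
        congr 1
        simp only [Measure.volumeIoiPow, ENNReal.ofReal]
        rw [integral_withDensity_eq_integral_smul
          ((measurable_subtype_coe.pow_const _).real_toNNReal),
          integral_subtype_comap measurableSet_Ioi fun a : ℝ => Real.toNNReal (a ^ 2) •
            ((a ^ 2) ^ k * Real.exp (-a ^ 2))]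
        refine setIntegral_congr_fun measurableSet_Ioi fun r hr => ?_
        simp only [NNReal.smul_def, smul_eq_mul]
        rw [Real.coe_toNNReal _ (sq_nonneg _)]
        ring

/-- The even moments of a coordinate on the sphere. -/
theorem moment (k : ℕ) : ∫ x : S, ((x : E) 2 ^ 2) ^ k ∂sig =
    4 * π / (2 * k + 1) := by
  unfold sig
  have h1 := gauss_polar k
  rw [gauss_cart, gamma_int] at h1
  have h2 : Real.Gamma (((k + 1 : ℕ) : ℝ) + 1 / 2) = (k + 1 / 2) * Real.Gamma (k + 1 / 2) := by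
    rw [← Real.Gamma_add_one (by positivity)]
    congr 1
    push_cast
    ring
  rw [h2] at h1
  have h3 : 0 < Real.Gamma ((k : ℝ) + 1 / 2) := Real.Gamma_pos_of_pos (by positivity)
  have h4 : π = (∫ x : S, ((x : E) 2 ^ 2) ^ k ∂(volume : Measure E).toSphere) *
      (1 / 2 * (k + 1 / 2)) := by
    apply mul_right_cancel₀ h3.ne'
    rw [h1]
    ring
  rw [eq_div_iff (by positivity)]
  linear_combination (-4) * h4

instance : IsFiniteMeasure sig := by unfold sig; infer_instance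

theorem integrable_cont {F : Type*} [NormedAddCommGroup F] {f : S → F} (hf : Continuous f) :
    Integrable f sig :=
  hf.integrable_of_hasCompactSupport (HasCompactSupport.of_compactSpace _)

/-- `∫_{S²} (1 - z²)^m = 4π ∫_0^1 (1 - s²)^m ds`. -/
theorem beam_int (m : ℕ) : ∫ x : S, (1 - (x : E) 2 ^ 2) ^ m ∂sig =
    4 * π * ∫ s in (0:ℝ)..1, (1 - s ^ 2) ^ m := by
  have e1 : ∀ z : ℝ, (1 - z ^ 2) ^ m =
      ∑ k ∈ Finset.range (m + 1), ((-1) ^ k * (m.choose k : ℝ)) * (z ^ 2) ^ k := by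
    intro z
    have := add_pow (-(z ^ 2)) 1 m
    rw [show (1 - z ^ 2) = -(z ^ 2) + 1 by ring, this]
    refine Finset.sum_congr rfl fun k _ => ?_
    rw [neg_pow]
    ring
  simp only [e1]
  rw [integral_finsetSum _ (fun k _ => integrable_cont (by fun_prop)),
    intervalIntegral.integral_finsetSum (fun k _ => by
      apply Continuous.intervalIntegrable
      fun_prop), Finset.mul_sum]
  refine Finset.sum_congr rfl fun k _ => ?_
  rw [integral_const_mul, moment, intervalIntegral.integral_const_mul]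
  have : ∫ s in (0:ℝ)..1, (s ^ 2) ^ k = 1 / (2 * k + 1) := by
    simp only [← pow_mul]
    rw [integral_pow]
    push_cast
    simp
  rw [this]
  ring

theorem w_lower (m : ℕ) (hm : 1 ≤ m) : 2 / 3 / √m ≤ ∫ s in (0:ℝ)..1, (1 - s ^ 2) ^ m := by
  have hm0 : (0:ℝ) < m := by exact_mod_cast hm
  have hs0 : (0:ℝ) < √m := Real.sqrt_pos.2 hm0
  have hs1 : 1 ≤ √(m:ℝ) := by
    rw [Real.one_le_sqrt]; exact_mod_cast hm
  have hr : 1 / √(m:ℝ) ≤ 1 := by rw [div_le_one hs0]; exact hs1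
  have hr0 : 0 < 1 / √(m:ℝ) := by positivity
  have hint : ∀ a b : ℝ, IntervalIntegrable (fun s : ℝ => (1 - s ^ 2) ^ m) volume a b := by
    intro a b
    apply Continuous.intervalIntegrable
    fun_prop
  rw [← intervalIntegral.integral_add_adjacent_intervals (hint 0 (1/√m)) (hint (1/√m) 1)]
  have h1 : 0 ≤ ∫ s in (1/√(m:ℝ))..1, (1 - s ^ 2) ^ m := by
    apply intervalIntegral.integral_nonneg hr
    intro u hu
    apply pow_nonneg
    nlinarith [hu.1, hu.2, hr0]
  have h2 : ∫ s in (0:ℝ)..(1/√m), (1 - m * s ^ 2) ≤ ∫ s in (0:ℝ)..(1/√m), (1 - s ^ 2) ^ m := by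
    apply intervalIntegral.integral_mono_on hr0.le _ (hint _ _)
    · intro u hu
      have hu1 : u ^ 2 ≤ 1 := by nlinarith [hu.1, hu.2, hr]
      have := one_add_mul_le_pow (a := -(u^2)) (by nlinarith) m
      calc 1 - m * u ^ 2 = 1 + m * (-(u^2)) := by ring
        _ ≤ (1 + -(u^2)) ^ m := this
        _ = _ := by ring_nf
    · apply Continuous.intervalIntegrable
      fun_prop
  have h3 : ∫ s in (0:ℝ)..(1/√m), (1 - m * s ^ 2) = 2 / 3 / √m := by
    rw [intervalIntegral.integral_sub (by simp) (by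
      apply Continuous.intervalIntegrable
      fun_prop)]
    rw [intervalIntegral.integral_const_mul, integral_pow]
    simp only [intervalIntegral.integral_const, smul_eq_mul]
    have hsq : (m:ℝ) = √(m:ℝ) ^ 2 := (Real.sq_sqrt hm0.le).symm
    generalize √(m:ℝ) = r at hsq hs0
    rw [hsq]
    norm_num
    field_simp
    norm_num
  linarith

theorem w_upper (m : ℕ) (hm : 1 ≤ m) : ∫ s in (0:ℝ)..1, (1 - s ^ 2) ^ m ≤ 1 / √m := by
  have hm0 : (0:ℝ) < m := by exact_mod_cast hm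
  have hs0 : (0:ℝ) < √m := Real.sqrt_pos.2 hm0
  have h1 : ∫ s in (0:ℝ)..1, (1 - s ^ 2) ^ m ≤ ∫ s in (0:ℝ)..1, Real.exp (-m * s ^ 2) := by
    apply intervalIntegral.integral_mono_on zero_le_one
    · apply Continuous.intervalIntegrable
      fun_prop
    · apply Continuous.intervalIntegrable
      fun_prop
    · intro u hu
      have : (1 - u ^ 2) ≤ Real.exp (-(u^2)) := by
        have := Real.add_one_le_exp (-(u^2))
        linarith
      have h0 : 0 ≤ 1 - u ^ 2 := by nlinarith [hu.1, hu.2]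
      calc (1 - u ^ 2) ^ m ≤ (Real.exp (-(u^2))) ^ m := pow_le_pow_left₀ h0 this m
        _ = _ := by
          rw [← Real.exp_nat_mul]
          congr 1
          ring
  have h2 : ∫ s in (0:ℝ)..1, Real.exp (-m * s ^ 2) ≤ ∫ s in Ioi (0:ℝ), Real.exp (-m * s ^ 2) := by
    rw [intervalIntegral.integral_of_le zero_le_one]
    apply setIntegral_mono_set
    · exact (integrable_exp_neg_mul_sq hm0).integrableOn
    · exact Filter.Eventually.of_forall (fun x => (Real.exp_pos _).le)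
    · exact (Ioc_subset_Ioi_self).eventuallyLE
  have h3 : ∫ s in Ioi (0:ℝ), Real.exp (-m * s ^ 2) = √(π / m) / 2 := integral_gaussian_Ioi m
  have h4 : √(π / m) / 2 ≤ 1 / √m := by
    rw [Real.sqrt_div' _ hm0.le]
    have : √π ≤ 2 := by
      rw [Real.sqrt_le_left (by norm_num)]
      nlinarith [Real.pi_lt_four]
    rw [div_div, div_le_div_iff₀ (by positivity) hs0]
    nlinarith
  linarith

/-! ### Rotations and orthogonality -/

/-- The action of an isometry on the sphere. -/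
noncomputable def sphMap (L : E ≃ₗᵢ[ℝ] E) (θ : S) : S :=
  ⟨L θ, by
    have h : ‖(θ : E)‖ = 1 := by simp
    simp [h]⟩

lemma continuous_sphMap (L : E ≃ₗᵢ[ℝ] E) : Continuous (sphMap L) :=
  Continuous.subtype_mk (L.continuous.comp continuous_subtype_val) _

lemma map_sphMap (L : E ≃ₗᵢ[ℝ] E) : sig.map (sphMap L) = sig := by
  unfold sig
  ext s hs
  have hs' : MeasurableSet (sphMap L ⁻¹' s) := (continuous_sphMap L).measurable hs
  rw [Measure.map_apply (continuous_sphMap L).measurable hs, Measure.toSphere_apply' _ hs,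
    Measure.toSphere_apply' _ hs']
  congr 1
  have h1 : (Ioo (0 : ℝ) 1 • ((↑) '' (sphMap L ⁻¹' s) : Set E)) =
      L ⁻¹' (Ioo (0 : ℝ) 1 • ((↑) '' s : Set E)) := by
    ext x
    simp only [Set.mem_smul, Set.mem_image, Set.mem_preimage]
    constructor
    · rintro ⟨r, hr, _, ⟨θ, hθ, rfl⟩, rfl⟩
      refine ⟨r, hr, _, ⟨sphMap L θ, hθ, rfl⟩, ?_⟩
      simp [sphMap]
    · rintro ⟨r, hr, _, ⟨θ, hθ, rfl⟩, h⟩
      have hn : ‖(θ : E)‖ = 1 := by simp
      refine ⟨r, hr, _, ⟨⟨L.symm θ, by simp [hn]⟩, ?_, rfl⟩, ?_⟩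
      · have : sphMap L ⟨L.symm θ, by simp [hn]⟩ = θ := by
          apply Subtype.ext
          simp [sphMap]
        rw [this]; exact hθ
      · apply L.injective
        rw [← h]
        simp
  rw [h1]
  exact (L.measurePreserving).measure_preimage_equiv (f := L.toHomeomorph.toMeasurableEquiv) _

/-- The rotation about the last axis as a linear map. -/
noncomputable def rotL (a b : ℝ) : E →ₗ[ℝ] E where
  toFun x := !₂[a * x 0 - b * x 1, b * x 0 + a * x 1, x 2]
  map_add' x y := by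
    ext i
    fin_cases i <;> simp <;> ring
  map_smul' c x := by
    ext i
    fin_cases i <;> simp <;> ring

noncomputable def rot (a b : ℝ) (h : a ^ 2 + b ^ 2 = 1) : E ≃ₗᵢ[ℝ] E :=
  LinearIsometry.toLinearIsometryEquiv ⟨rotL a b, by
    intro x
    rw [EuclideanSpace.norm_eq, EuclideanSpace.norm_eq]
    congr 1
    simp only [Fin.sum_univ_three, Real.norm_eq_abs, sq_abs]
    simp only [rotL, LinearMap.coe_mk, AddHom.coe_mk]
    simp
    linear_combination (x 0 ^ 2 + x 1 ^ 2) * h⟩ rfl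

lemma g_rot (a b : ℝ) (h : a ^ 2 + b ^ 2 = 1) (m : ℕ) (x : S) :
    g m (sphMap (rot a b h) x) = ((a : ℂ) + b * Complex.I) ^ m * g m x := by
  unfold g
  rw [← mul_pow]
  congr 1
  have h0 : ((sphMap (rot a b h) x : S) : E) = rotL a b (x : E) := rfl
  rw [h0]
  simp only [rotL, LinearMap.coe_mk, AddHom.coe_mk]
  simp
  linear_combination (-(b:ℂ) * (((x : E) 1 : ℝ) : ℂ)) * Complex.I_sq

lemma continuous_g (m : ℕ) : Continuous (g m) := by
  unfold g
  fun_prop

lemma norm_g_sq (m : ℕ) (x : S) : ‖g m x‖ ^ 2 = (1 - (x : E) 2 ^ 2) ^ m := by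
  unfold g
  rw [norm_pow, ← pow_mul, mul_comm m 2, pow_mul]
  congr 1
  rw [← Complex.normSq_eq_norm_sq, Complex.normSq_apply]
  have h := norm_sq_three (x : E)
  have h1 : ‖(x : E)‖ = 1 := by simp
  rw [h1] at h
  simp
  nlinarith

lemma norm_g_le (m : ℕ) (x : S) : ‖g m x‖ ≤ 1 := by
  have h := norm_g_sq m x
  have h2 : 0 ≤ 1 - (x : E) 2 ^ 2 := by
    have := norm_sq_three (x : E)
    have h1 : ‖(x : E)‖ = 1 := by simp
    rw [h1] at this
    nlinarith [sq_nonneg ((x : E) 0), sq_nonneg ((x : E) 1)]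
  have h3 : (1 - (x : E) 2 ^ 2) ^ m ≤ 1 := pow_le_one₀ h2 (by nlinarith [sq_nonneg ((x : E) 2)])
  rw [← h] at h3
  nlinarith [norm_nonneg (g m x)]

lemma orth {m k : ℕ} (hmk : k < m) :
    ∫ x, g m x * (starRingEnd ℂ) (g k x) ∂sig = 0 := by
  set α : ℝ := π / ((m : ℝ) - k) with hα
  have hd : ((m : ℝ) - k) ≠ 0 := by
    have : (k : ℝ) < m := by exact_mod_cast hmk
    linarith
  have hab : Real.cos α ^ 2 + Real.sin α ^ 2 = 1 := Real.cos_sq_add_sin_sq α
  set L := rot (Real.cos α) (Real.sin α) hab with hL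
  have hc : Continuous (fun x => g m x * (starRingEnd ℂ) (g k x)) :=
    (continuous_g m).mul (Complex.continuous_conj.comp (continuous_g k))
  have h1 : ∫ x, g m x * (starRingEnd ℂ) (g k x) ∂sig =
      ∫ x, g m (sphMap L x) * (starRingEnd ℂ) (g k (sphMap L x)) ∂sig := by
    conv_lhs => rw [← map_sphMap L]
    rw [integral_map (continuous_sphMap L).measurable.aemeasurable hc.aestronglyMeasurable]
  have he : ((Real.cos α : ℝ) : ℂ) + ((Real.sin α : ℝ) : ℂ) * Complex.I =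
      Complex.exp ((α : ℂ) * Complex.I) := by
    rw [Complex.exp_mul_I]
    push_cast
    rfl
  have h2 : ∀ x, g m (sphMap L x) * (starRingEnd ℂ) (g k (sphMap L x)) =
      -1 * (g m x * (starRingEnd ℂ) (g k x)) := by
    intro x
    rw [hL, g_rot, g_rot, he, map_mul, map_pow]
    have h3 : (starRingEnd ℂ) (Complex.exp ((α : ℂ) * Complex.I)) =
        Complex.exp (-((α : ℂ) * Complex.I)) := by
      rw [← Complex.exp_conj]
      congr 1
      simp
    have h4 : Complex.exp ((α : ℂ) * Complex.I) ^ m *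
        Complex.exp (-((α : ℂ) * Complex.I)) ^ k = -1 := by
      rw [← Complex.exp_nat_mul, ← Complex.exp_nat_mul, ← Complex.exp_add, ← Complex.exp_pi_mul_I]
      congr 1
      have h5 : ((m : ℂ) - k) * (α : ℂ) = π := by
        rw [hα]
        have : ((m : ℂ) - k) ≠ 0 := by
          exact_mod_cast hd
        push_cast
        field_simp
      linear_combination Complex.I * h5
    rw [h3]
    linear_combination (g m x * (starRingEnd ℂ) (g k x)) * h4
  simp only [h2] at h1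
  rw [integral_const_mul] at h1
  have h6 := h1
  have : (2 : ℂ) * ∫ x, g m x * (starRingEnd ℂ) (g k x) ∂sig = 0 := by
    linear_combination h6
  simpa using this

lemma orth' {m k : ℕ} (hmk : m ≠ k) :
    ∫ x, g m x * (starRingEnd ℂ) (g k x) ∂sig = 0 := by
  rcases lt_or_gt_of_ne hmk with h | h
  · have h1 := orth h
    have h2 : ∫ x, g m x * (starRingEnd ℂ) (g k x) ∂sig =
        (starRingEnd ℂ) (∫ x, g k x * (starRingEnd ℂ) (g m x) ∂sig) := by
      rw [← integral_conj]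
      congr 1
      ext x
      simp [mul_comm]
    rw [h2, h1]
    simp
  · exact orth h

/-- The squared norms of the beams. -/
noncomputable def J (m : ℕ) : ℝ := ∫ x, ‖g m x‖ ^ 2 ∂sig

lemma J_eq (m : ℕ) : J m = 4 * π * ∫ s in (0:ℝ)..1, (1 - s ^ 2) ^ m := by
  unfold J
  simp only [norm_g_sq]
  exact beam_int m

lemma parseval (s : Finset ℕ) (a : ℕ → ℂ) :
    ∫ x, ‖∑ r ∈ s, a r * g r x‖ ^ 2 ∂sig = ∑ r ∈ s, ‖a r‖ ^ 2 * J r := by
  have h1 : ((∫ x, ‖∑ r ∈ s, a r * g r x‖ ^ 2 ∂sig : ℝ) : ℂ) =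
      ((∑ r ∈ s, ‖a r‖ ^ 2 * J r : ℝ) : ℂ) := by
    rw [← integral_complex_ofReal]
    have h2 : ∀ x, ((‖∑ r ∈ s, a r * g r x‖ ^ 2 : ℝ) : ℂ) =
        ∑ r ∈ s, ∑ k ∈ s, (a r * (starRingEnd ℂ) (a k)) *
          (g r x * (starRingEnd ℂ) (g k x)) := by
      intro x
      rw [Complex.ofReal_pow, ← Complex.mul_conj', map_sum, Finset.sum_mul_sum]
      refine Finset.sum_congr rfl fun r _ => Finset.sum_congr rfl fun k _ => ?_
      rw [map_mul]
      ring
    have hc : ∀ r k : ℕ, Integrable (fun x => (a r * (starRingEnd ℂ) (a k)) *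
          (g r x * (starRingEnd ℂ) (g k x))) sig := by
      intro r k
      apply integrable_cont
      exact continuous_const.mul ((continuous_g r).mul (Complex.continuous_conj.comp
        (continuous_g k)))
    have h2' := funext h2
    rw [show (fun x => ((‖∑ r ∈ s, a r * g r x‖ ^ 2 : ℝ) : ℂ)) = _ from h2']
    rw [integral_finsetSum _ (fun r _ => integrable_finsetSum _ (fun k _ => hc r k))]
    push_cast
    refine Finset.sum_congr rfl fun r hr => ?_
    rw [integral_finsetSum _ (fun k _ => hc r k)]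
    rw [Finset.sum_eq_single r]
    · rw [integral_const_mul]
      have h3 : ∫ x, g r x * (starRingEnd ℂ) (g r x) ∂sig = ((J r : ℝ) : ℂ) := by
        unfold J
        rw [← integral_complex_ofReal]
        congr 1
        ext x
        rw [Complex.mul_conj']
        push_cast
        rfl
      rw [h3, Complex.mul_conj']
    · intro k _ hk
      rw [integral_const_mul, orth' (Ne.symm hk), mul_zero]
    · intro h
      exact absurd hr h
  exact_mod_cast h1

/-! ### Phases -/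

lemma lam_lin (N j : ℕ) (hN : 2 ≤ N) (hj : j ≤ N) :
    |Lam (N + j) - (Lam N + j * ((3 * (N:ℝ) ^ 2 + 2 * N - 2) / (2 * Lam N)))| ≤
      5 * (j:ℝ) ^ 2 / √N := by
  have hx : (2:ℝ) ≤ N := by exact_mod_cast hN
  have hjx : (j:ℝ) ≤ N := by exact_mod_cast hj
  have hj0 : (0:ℝ) ≤ j := Nat.cast_nonneg j
  set x : ℝ := (N:ℝ) with hxdef
  set y : ℝ := (j:ℝ) with hydef
  have hL2 : Lam N ^ 2 = x * (x - 1) * (x + 2) := by
    unfold Lam
    rw [Real.sq_sqrt]
    have : 0 ≤ x - 1 := by linarith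
    positivity
  have hL3 : x ^ 3 ≤ Lam N ^ 2 := by
    rw [hL2]; nlinarith [mul_nonneg (by linarith : (0:ℝ) ≤ x) (by linarith : (0:ℝ) ≤ x - 2)]
  have hs0 : 0 < √x := Real.sqrt_pos.2 (by linarith)
  have hsx : √x ^ 2 = x := Real.sq_sqrt (by linarith)
  have hLpos : x * √x ≤ Lam N := by
    have h0 : 0 ≤ Lam N := Real.sqrt_nonneg _
    apply le_of_sq_le_sq _ h0
    calc (x * √x) ^ 2 = x ^ 2 * √x ^ 2 := by ring
      _ = x ^ 3 := by rw [hsx]; ring
      _ ≤ _ := hL3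
  have hLp : 0 < Lam N := lt_of_lt_of_le (by positivity) hLpos
  set D : ℝ := (3 * x ^ 2 + 2 * x - 2) / (2 * Lam N) with hD
  have hLD : 2 * Lam N * D = 3 * x ^ 2 + 2 * x - 2 := by
    rw [hD]; field_simp
  have hD0 : 0 ≤ D := by
    rw [hD]; apply div_nonneg _ (by positivity); nlinarith
  have hD2 : D ^ 2 ≤ 4 * x := by
    have h1 : (2 * Lam N * D) ^ 2 ≤ (4 * x ^ 2) ^ 2 := by
      rw [hLD]
      apply pow_le_pow_left₀ (by nlinarith)
      nlinarith [sq_nonneg (x - 1)]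
    have h2 : 4 * x ^ 3 * D ^ 2 ≤ 16 * x ^ 4 := by
      calc 4 * x ^ 3 * D ^ 2 ≤ 4 * Lam N ^ 2 * D ^ 2 := by gcongr
        _ = (2 * Lam N * D) ^ 2 := by ring
        _ ≤ (4 * x ^ 2) ^ 2 := h1
        _ = 16 * x ^ 4 := by ring
    have h3 : 0 < 4 * x ^ 3 := by positivity
    have h4 : 4 * x ^ 3 * D ^ 2 ≤ 4 * x ^ 3 * (4 * x) := by linarith
    exact le_of_mul_le_mul_left h4 h3
  have hA2 : Lam (N + j) ^ 2 = (x + y) * (x + y - 1) * (x + y + 2) := by
    unfold Lam
    push_cast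
    rw [Real.sq_sqrt]
    have : 0 ≤ x + y - 1 := by linarith
    positivity
  have hA0 : 0 ≤ Lam (N + j) := Real.sqrt_nonneg _
  have hB0 : 0 ≤ Lam N + y * D := by positivity
  have hdiff : Lam (N + j) ^ 2 - (Lam N + y * D) ^ 2 = y ^ 2 * (3 * x + y + 1 - D ^ 2) := by
    rw [hA2]
    linear_combination (-1) * hL2 - y * hLD
  have habs : |Lam (N + j) ^ 2 - (Lam N + y * D) ^ 2| ≤ 5 * x * y ^ 2 := by
    rw [hdiff, abs_mul, abs_of_nonneg (sq_nonneg y), mul_comm (5 * x)]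
    apply mul_le_mul_of_nonneg_left _ (sq_nonneg y)
    rw [abs_le]
    constructor
    · nlinarith
    · nlinarith [sq_nonneg D]
  have hfac : |Lam (N + j) ^ 2 - (Lam N + y * D) ^ 2| =
      |Lam (N + j) - (Lam N + y * D)| * (Lam (N + j) + (Lam N + y * D)) := by
    rw [sq_sub_sq, abs_mul, abs_of_nonneg (add_nonneg hA0 hB0), mul_comm]
  have hsum : x * √x ≤ Lam (N + j) + (Lam N + y * D) := by
    have : 0 ≤ y * D := by positivity
    linarith
  rw [le_div_iff₀ hs0]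
  have h5 : |Lam (N + j) - (Lam N + y * D)| * (x * √x) ≤ 5 * x * y ^ 2 := by
    calc _ ≤ |Lam (N + j) - (Lam N + y * D)| * (Lam (N + j) + (Lam N + y * D)) := by gcongr
      _ = _ := hfac.symm
      _ ≤ _ := habs
  have h6 : x * (|Lam (N + j) - (Lam N + y * D)| * √x) ≤ x * (5 * y ^ 2) := by linarith
  exact le_of_mul_le_mul_left h6 (by linarith)

lemma align {ι : Type*} (F : Finset ι) (φ : ι → ℝ) (β : ℝ) (h : ∀ i ∈ F, |φ i - β| ≤ 1 / 2) :
    (F.card : ℝ) / 2 ≤ ‖∑ i ∈ F, Complex.exp ((φ i : ℂ) * Complex.I)‖ := by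
  have h1 : ‖∑ i ∈ F, Complex.exp ((φ i : ℂ) * Complex.I)‖ =
      ‖∑ i ∈ F, Complex.exp (((φ i - β : ℝ) : ℂ) * Complex.I)‖ := by
    have h2 : ∑ i ∈ F, Complex.exp (((φ i - β : ℝ) : ℂ) * Complex.I) =
        Complex.exp (((-β : ℝ) : ℂ) * Complex.I) * ∑ i ∈ F, Complex.exp ((φ i : ℂ) * Complex.I) := by
      rw [Finset.mul_sum]
      refine Finset.sum_congr rfl fun i _ => ?_
      rw [← Complex.exp_add]
      congr 1
      push_cast
      ring
    rw [h2, norm_mul, Complex.norm_exp_ofReal_mul_I, one_mul]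
  rw [h1]
  refine le_trans ?_ (Complex.re_le_norm _)
  rw [Complex.re_sum]
  have h3 : ∀ i ∈ F, (1 : ℝ) / 2 ≤ (Complex.exp (((φ i - β : ℝ) : ℂ) * Complex.I)).re := by
    intro i hi
    rw [Complex.exp_ofReal_mul_I_re]
    have h4 := Real.one_sub_sq_div_two_le_cos (x := φ i - β)
    have h5 := h i hi
    have h6 : (φ i - β) ^ 2 ≤ 1 / 4 := by
      rw [← sq_abs]
      nlinarith [abs_nonneg (φ i - β)]
    linarith
  calc (F.card : ℝ) / 2 = ∑ i ∈ F, (1 : ℝ) / 2 := by simp [Finset.sum_const]; ring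
    _ ≤ _ := Finset.sum_le_sum h3

/-- The frequency used in the construction. -/
def NN (K : ℕ) : ℕ := 1600 * K ^ 4

lemma sqrt_NN (K : ℕ) : √(NN K : ℝ) = 40 * (K:ℝ) ^ 2 := by
  unfold NN
  push_cast
  rw [show (1600 * (K:ℝ) ^ 4) = (40 * (K:ℝ) ^ 2) ^ 2 by ring]
  exact Real.sqrt_sq (by positivity)

lemma K_le_NN (K : ℕ) : K ≤ NN K := by
  unfold NN
  nlinarith [Nat.le_self_pow (n := 4) (by norm_num) K]

lemma NN_ge (K : ℕ) (hK : 1 ≤ K) : 1600 ≤ NN K := by
  unfold NN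
  have : 1 ≤ K ^ 4 := Nat.one_le_pow _ _ hK
  omega

/-- The wave packet. -/
noncomputable def U (K : ℕ) (t : ℝ) (x : S) : ℂ :=
  ∑ n ∈ Finset.Ico (NN K) (NN K + K), Complex.exp (((t * Lam n : ℝ) : ℂ) * Complex.I) * g n x

lemma J_lower (K m : ℕ) (hK : 1 ≤ K) (h1 : 2 * NN K ≤ m) (h2 : m < 2 * NN K + 2 * K) :
    π / (30 * (K:ℝ) ^ 2) ≤ J m := by
  have hN := NN_ge K hK
  have hK' := K_le_NN K
  have hm : 1 ≤ m := by omega
  have hK0 : (0:ℝ) < K := by exact_mod_cast hK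
  rw [J_eq]
  have h3 := w_lower m hm
  have h4 : √(m:ℝ) ≤ 80 * (K:ℝ) ^ 2 := by
    have : (m:ℝ) ≤ 4 * NN K := by
      have : m ≤ 4 * NN K := by omega
      exact_mod_cast this
    calc √(m:ℝ) ≤ √(4 * (NN K:ℝ)) := Real.sqrt_le_sqrt this
      _ = 2 * √(NN K : ℝ) := by
        rw [Real.sqrt_mul (by norm_num)]
        congr 1
        rw [show (4:ℝ) = 2 ^ 2 by norm_num]
        exact Real.sqrt_sq (by norm_num)
      _ = _ := by rw [sqrt_NN]; ring
  have hm0 : (0:ℝ) < √(m:ℝ) := Real.sqrt_pos.2 (by exact_mod_cast hm)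
  calc π / (30 * (K:ℝ) ^ 2) = 4 * π * (2 / 3 / (80 * (K:ℝ) ^ 2)) := by
        field_simp
        norm_num
    _ ≤ 4 * π * (2 / 3 / √m) := by gcongr
    _ ≤ _ := by gcongr

lemma J_upper (K m : ℕ) (hK : 1 ≤ K) (h1 : NN K ≤ m) :
    J m ≤ π / (10 * (K:ℝ) ^ 2) := by
  have hN := NN_ge K hK
  have hm : 1 ≤ m := by omega
  have hK0 : (0:ℝ) < K := by exact_mod_cast hK
  rw [J_eq]
  have h3 := w_upper m hm
  have h4 : 40 * (K:ℝ) ^ 2 ≤ √(m:ℝ) := by
    rw [← sqrt_NN]
    exact Real.sqrt_le_sqrt (by exact_mod_cast h1)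
  calc 4 * π * ∫ s in (0:ℝ)..1, (1 - s ^ 2) ^ m ≤ 4 * π * (1 / √m) := by gcongr
    _ ≤ 4 * π * (1 / (40 * (K:ℝ) ^ 2)) := by gcongr
    _ = _ := by
      field_simp
      norm_num

lemma J_nonneg (m : ℕ) : 0 ≤ J m := integral_nonneg fun x => by positivity

/-- The coefficients of the square of the wave packet. -/
noncomputable def co (K : ℕ) (t : ℝ) (r : ℕ) : ℂ :=
  ∑ p ∈ (Finset.Ico (NN K) (NN K + K) ×ˢ Finset.Ico (NN K) (NN K + K)) with p.1 + p.2 = r,
    Complex.exp (((t * Lam p.1 + t * Lam p.2 : ℝ) : ℂ) * Complex.I)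

lemma U_sq (K : ℕ) (t : ℝ) (x : S) :
    U K t x ^ 2 = ∑ r ∈ Finset.Ico (2 * NN K) (2 * NN K + 2 * K), co K t r * g r x := by
  unfold U co
  rw [sq, Finset.sum_mul_sum, ← Finset.sum_product']
  rw [← Finset.sum_fiberwise_of_maps_to (g := fun p : ℕ × ℕ => p.1 + p.2)
    (t := Finset.Ico (2 * NN K) (2 * NN K + 2 * K))]
  · refine Finset.sum_congr rfl fun r _ => ?_
    rw [Finset.sum_mul]
    refine Finset.sum_congr rfl fun p hp => ?_
    have hp2 := (Finset.mem_filter.1 hp).2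
    have hg : g p.1 x * g p.2 x = g r x := by
      rw [← hp2]
      unfold g
      rw [pow_add]
    push_cast
    rw [add_mul, Complex.exp_add, ← hg]
    ring
  · intro p hp
    simp only [Finset.mem_product, Finset.mem_Ico] at hp ⊢
    omega

lemma co_lower (K : ℕ) (hK : 1 ≤ K) (t : ℝ) (ht : t ∈ Icc (0:ℝ) 1) (r : ℕ) :
    (((Finset.Ico (NN K) (NN K + K) ×ˢ Finset.Ico (NN K) (NN K + K)).filter
      (fun p => p.1 + p.2 = r)).card : ℝ) / 2 ≤ ‖co K t r‖ := by
  set D : ℝ := ((3 * (NN K:ℝ) ^ 2 + 2 * NN K - 2) / (2 * Lam (NN K))) with hD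
  unfold co
  apply align _ _ (t * (2 * Lam (NN K) + ((r:ℝ) - 2 * NN K) * D))
  intro p hp
  rw [Finset.mem_filter, Finset.mem_product, Finset.mem_Ico, Finset.mem_Ico] at hp
  obtain ⟨⟨⟨h1, h2⟩, h3, h4⟩, h5⟩ := hp
  have hN := NN_ge K hK
  have hKN := K_le_NN K
  have hK0 : (0:ℝ) < K := by exact_mod_cast hK
  have key : ∀ n : ℕ, NN K ≤ n → n < NN K + K →
      |Lam n - (Lam (NN K) + ((n:ℝ) - NN K) * D)| ≤ 1 / 8 := by
    intro n hn1 hn2
    obtain ⟨j, rfl⟩ := Nat.exists_eq_add_of_le hn1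
    have h := lam_lin (NN K) j (by omega) (by omega)
    have hjK : (j:ℝ) ≤ K := by
      have : j ≤ K := by omega
      exact_mod_cast this
    have h6 : 5 * (j:ℝ) ^ 2 / √(NN K) ≤ 1 / 8 := by
      rw [sqrt_NN, div_le_div_iff₀ (by positivity) (by norm_num)]
      nlinarith [Nat.cast_nonneg (α := ℝ) j]
    have h7 : ((NN K + j : ℕ) : ℝ) - NN K = j := by push_cast; ring
    rw [h7]
    exact h.trans h6
  have k1 := key p.1 h1 h2
  have k2 := key p.2 h3 h4
  have h8 : (r:ℝ) = p.1 + p.2 := by rw [← h5]; push_cast; ring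
  have h9 : t * Lam p.1 + t * Lam p.2 - t * (2 * Lam (NN K) + ((r:ℝ) - 2 * NN K) * D) =
      t * ((Lam p.1 - (Lam (NN K) + ((p.1:ℝ) - NN K) * D)) +
        (Lam p.2 - (Lam (NN K) + ((p.2:ℝ) - NN K) * D))) := by
    rw [h8]; ring
  rw [h9, abs_mul, abs_of_nonneg ht.1]
  have h10 := abs_add_le (Lam p.1 - (Lam (NN K) + ((p.1:ℝ) - NN K) * D))
    (Lam p.2 - (Lam (NN K) + ((p.2:ℝ) - NN K) * D))
  have h11 := abs_nonneg ((Lam p.1 - (Lam (NN K) + ((p.1:ℝ) - NN K) * D)) +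
        (Lam p.2 - (Lam (NN K) + ((p.2:ℝ) - NN K) * D)))
  nlinarith [ht.1, ht.2]

lemma L4_lower (K : ℕ) (hK : 1 ≤ K) (t : ℝ) (ht : t ∈ Icc (0:ℝ) 1) :
    π * K / 240 ≤ ∫ x, ‖U K t x‖ ^ 4 ∂sig := by
  have hK0 : (0:ℝ) < K := by exact_mod_cast hK
  have h1 : ∀ x, ‖U K t x‖ ^ 4 =
      ‖∑ r ∈ Finset.Ico (2 * NN K) (2 * NN K + 2 * K), co K t r * g r x‖ ^ 2 := by
    intro x
    rw [← U_sq, norm_pow]
    ring
  simp only [h1]
  rw [parseval]
  set ν : ℕ → ℝ := fun r => (((Finset.Ico (NN K) (NN K + K) ×ˢ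
    Finset.Ico (NN K) (NN K + K)).filter (fun p => p.1 + p.2 = r)).card : ℝ) with hν
  have h2 : ∀ r ∈ Finset.Ico (2 * NN K) (2 * NN K + 2 * K),
      (ν r) ^ 2 * (π / (120 * (K:ℝ) ^ 2)) ≤ ‖co K t r‖ ^ 2 * J r := by
    intro r hr
    rw [Finset.mem_Ico] at hr
    have h3 := co_lower K hK t ht r
    have h4 := J_lower K r hK hr.1 hr.2
    have h5 : 0 ≤ ν r := by simp only [hν]; positivity
    have h6 : (ν r) ^ 2 / 4 ≤ ‖co K t r‖ ^ 2 := by
      have : (ν r / 2) ^ 2 ≤ ‖co K t r‖ ^ 2 := pow_le_pow_left₀ (by positivity) h3 2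
      linarith [this, show (ν r / 2) ^ 2 = (ν r) ^ 2 / 4 by ring]
    calc (ν r) ^ 2 * (π / (120 * (K:ℝ) ^ 2)) = (ν r) ^ 2 / 4 * (π / (30 * (K:ℝ) ^ 2)) := by
          field_simp
          ring
      _ ≤ _ := by
        apply mul_le_mul h6 h4 (by positivity) (by positivity)
  refine le_trans ?_ (Finset.sum_le_sum h2)
  rw [← Finset.sum_mul]
  have h7 : ∑ r ∈ Finset.Ico (2 * NN K) (2 * NN K + 2 * K), ν r = (K:ℝ) ^ 2 := by
    simp only [hν]
    rw [← Nat.cast_sum, ← Finset.card_eq_sum_card_fiberwise]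
    · rw [Finset.card_product, Nat.card_Ico]
      push_cast
      simp
      ring
    · intro p hp
      simp only [Finset.coe_product, Set.mem_prod, Finset.coe_Ico, Set.mem_Ico] at hp ⊢
      omega
  have h8 := sq_sum_le_card_mul_sum_sq (s := Finset.Ico (2 * NN K) (2 * NN K + 2 * K)) (f := ν)
  rw [h7, Nat.card_Ico] at h8
  have h9 : ((2 * NN K + 2 * K - 2 * NN K : ℕ) : ℝ) = 2 * K := by
    rw [Nat.add_sub_cancel_left]; push_cast; ring
  rw [h9] at h8
  have h10 : (K:ℝ) ^ 3 / 2 ≤ ∑ r ∈ Finset.Ico (2 * NN K) (2 * NN K + 2 * K), ν r ^ 2 := by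
    have : (K:ℝ) * (K:ℝ) ^ 3 ≤ K * (2 * ∑ r ∈ Finset.Ico (2 * NN K) (2 * NN K + 2 * K), ν r ^ 2) := by
      nlinarith [h8]
    have := le_of_mul_le_mul_left this hK0
    linarith
  calc π * K / 240 = (K:ℝ) ^ 3 / 2 * (π / (120 * (K:ℝ) ^ 2)) := by
        field_simp
        norm_num
    _ ≤ _ := by gcongr

/-! ### The test functions -/

lemma isSphHarm_g (n : ℕ) : IsSphHarm n (g n) := by
  classical
  set a : MvPolynomial (Fin 3) ℂ := MvPolynomial.X 0 + MvPolynomial.C Complex.I * MvPolynomial.X 1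
    with ha
  refine ⟨a ^ n, ?_, ?_, ?_⟩
  · have h1 : a.IsHomogeneous 1 := by
      apply MvPolynomial.IsHomogeneous.add (MvPolynomial.isHomogeneous_X _ _)
      have := (MvPolynomial.isHomogeneous_C (Fin 3) Complex.I).mul
        (MvPolynomial.isHomogeneous_X ℂ (1 : Fin 3))
      simpa using this
    simpa using h1.pow n
  · have h0 : MvPolynomial.pderiv (0 : Fin 3) a = 1 := by
      simp [ha, MvPolynomial.pderiv_X]
    have h1 : MvPolynomial.pderiv (1 : Fin 3) a = MvPolynomial.C Complex.I := by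
      simp [ha, MvPolynomial.pderiv_X]
    have h2 : MvPolynomial.pderiv (2 : Fin 3) a = 0 := by
      simp [ha, MvPolynomial.pderiv_X]
    have key : ∀ i : Fin 3, ∀ c : ℂ, MvPolynomial.pderiv i a = MvPolynomial.C c →
        MvPolynomial.pderiv i (MvPolynomial.pderiv i (a ^ n)) =
          MvPolynomial.C c ^ 2 * ((n : MvPolynomial (Fin 3) ℂ) * ((n - 1 : ℕ) : MvPolynomial (Fin 3) ℂ) * a ^ (n - 1 - 1)) := by
      intro i c h
      rw [Derivation.leibniz_pow, h]
      simp only [nsmul_eq_mul, smul_eq_mul]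
      rw [Derivation.leibniz, Derivation.leibniz, Derivation.leibniz_pow, h]
      simp
      ring
    rw [Fin.sum_univ_three, key 0 1 (by simpa using h0), key 1 Complex.I h1,
      key 2 0 (by simpa using h2)]
    rw [← map_pow, ← map_pow, ← map_pow, Complex.I_sq]
    simp
  · intro x
    simp [g, ha, mul_comm]

lemma isSphHarm_zero (n : ℕ) : IsSphHarm n (fun _ => 0) :=
  ⟨0, MvPolynomial.isHomogeneous_zero _ _ _, by simp, by simp⟩

/-- The initial data of the wave packet. -/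
noncomputable def FF (K : ℕ) (n : ℕ) : S → ℂ :=
  if n ∈ Finset.Ico (NN K) (NN K + K) then g n else fun _ => 0

lemma isSphHarm_FF (K n : ℕ) : IsSphHarm n (FF K n) := by
  unfold FF
  split_ifs
  · exact isSphHarm_g n
  · exact isSphHarm_zero n

lemma sol_FF (K : ℕ) (t : ℝ) : sol (NN K + K) (FF K) t = U K t := by
  funext x
  unfold sol U
  have hsub : Finset.Ico (NN K) (NN K + K) ⊆ Finset.range (NN K + K) := by
    intro n hn
    rw [Finset.mem_Ico] at hn
    exact Finset.mem_range.2 hn.2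
  rw [← Finset.sum_subset hsub]
  · refine Finset.sum_congr rfl fun n hn => ?_
    unfold FF
    rw [if_pos hn]
  · intro n _ hn
    unfold FF
    rw [if_neg hn]
    simp

lemma Hnorm_sq (s : ℝ) (K : ℕ) :
    ∑ n ∈ Finset.range (NN K + K), (1 + (n : ℝ)) ^ (2 * s) * ∫ x, ‖FF K n x‖ ^ 2 ∂sig =
      ∑ n ∈ Finset.Ico (NN K) (NN K + K), (1 + (n : ℝ)) ^ (2 * s) * J n := by
  have hsub : Finset.Ico (NN K) (NN K + K) ⊆ Finset.range (NN K + K) := by
    intro n hn
    rw [Finset.mem_Ico] at hn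
    exact Finset.mem_range.2 hn.2
  rw [← Finset.sum_subset hsub]
  · refine Finset.sum_congr rfl fun n hn => ?_
    unfold FF J
    rw [if_pos hn]
  · intro n _ hn
    unfold FF
    rw [if_neg hn]
    simp

/-- The constant in the bound for the Sobolev norm. -/
noncomputable def As (s : ℝ) : ℝ := (2:ℝ) ^ (2 * |s|) * (1600:ℝ) ^ (2 * s) * (π / 10)

lemma As_pos (s : ℝ) : 0 < As s := by unfold As; positivity

lemma Hnorm_upper (s : ℝ) (K : ℕ) (hK : 1 ≤ K) :
    Hnorm s (NN K + K) (FF K) ≤ √(As s) * (K:ℝ) ^ (4 * s - 1 / 2) := by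
  have hK0 : (0:ℝ) < K := by exact_mod_cast hK
  have hN := NN_ge K hK
  have hKN := K_le_NN K
  have hN0 : (0:ℝ) < NN K := by
    have : 0 < NN K := by omega
    exact_mod_cast this
  have h1 : ∀ n ∈ Finset.Ico (NN K) (NN K + K), (1 + (n : ℝ)) ^ (2 * s) * J n ≤
      ((2:ℝ) ^ (2 * |s|) * (NN K : ℝ) ^ (2 * s)) * (π / (10 * (K:ℝ) ^ 2)) := by
    intro n hn
    rw [Finset.mem_Ico] at hn
    have ha : (NN K : ℝ) ≤ 1 + n := by
      have : (NN K : ℝ) ≤ n := by exact_mod_cast hn.1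
      linarith
    have hb : (1 + n : ℝ) ≤ 2 * NN K := by
      have : 1 + n ≤ 2 * NN K := by omega
      exact_mod_cast this
    apply mul_le_mul _ (J_upper K n hK hn.1) (J_nonneg n) (by positivity)
    rcases le_total 0 s with hs | hs
    · rw [abs_of_nonneg hs, ← Real.mul_rpow (by norm_num) hN0.le]
      exact Real.rpow_le_rpow (by positivity) hb (by linarith)
    · calc (1 + (n:ℝ)) ^ (2 * s) ≤ (NN K : ℝ) ^ (2 * s) :=
            Real.rpow_le_rpow_of_nonpos hN0 ha (by linarith)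
        _ = 1 * (NN K : ℝ) ^ (2 * s) := by ring
        _ ≤ _ := by
          apply mul_le_mul_of_nonneg_right _ (by positivity)
          apply Real.one_le_rpow (by norm_num)
          positivity
  have h2 : ∑ n ∈ Finset.Ico (NN K) (NN K + K), (1 + (n : ℝ)) ^ (2 * s) * J n ≤
      As s * (K:ℝ) ^ (2 * (4 * s - 1 / 2)) := by
    refine (Finset.sum_le_sum h1).trans ?_
    rw [Finset.sum_const, Nat.card_Ico, Nat.add_sub_cancel_left, nsmul_eq_mul]
    apply le_of_eq
    have h3 : (NN K : ℝ) ^ (2 * s) = (1600:ℝ) ^ (2 * s) * (K:ℝ) ^ (8 * s) := by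
      unfold NN
      push_cast
      rw [Real.mul_rpow (by norm_num) (by positivity)]
      congr 1
      rw [← Real.rpow_natCast, ← Real.rpow_mul hK0.le]
      congr 1
      push_cast
      ring
    have h4 : (K:ℝ) ^ (2 * (4 * s - 1 / 2)) = (K:ℝ) ^ (8 * s) / K := by
      rw [show 2 * (4 * s - 1 / 2) = 8 * s - 1 by ring, Real.rpow_sub hK0, Real.rpow_one]
    rw [h3, h4]
    unfold As
    field_simp
  unfold Hnorm
  rw [Hnorm_sq]
  calc √(∑ n ∈ Finset.Ico (NN K) (NN K + K), (1 + (n : ℝ)) ^ (2 * s) * J n)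
      ≤ √(As s * (K:ℝ) ^ (2 * (4 * s - 1 / 2))) := Real.sqrt_le_sqrt h2
    _ = _ := by
      rw [Real.sqrt_mul (As_pos s).le]
      congr 1
      rw [mul_comm 2, Real.rpow_mul hK0.le]
      rw [show ((K:ℝ) ^ (4 * s - 1 / 2)) ^ (2:ℝ) = ((K:ℝ) ^ (4 * s - 1 / 2)) ^ 2 by
        rw [← Real.rpow_natCast]; norm_num]
      exact Real.sqrt_sq (by positivity)

lemma continuous_U (K : ℕ) (t : ℝ) : Continuous (U K t) := by
  unfold U
  exact continuous_finsetSum _ fun n _ => continuous_const.mul (continuous_g n)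

lemma norm_U_le (K : ℕ) (t : ℝ) (x : S) : ‖U K t x‖ ≤ K := by
  unfold U
  calc _ ≤ ∑ n ∈ Finset.Ico (NN K) (NN K + K),
        ‖Complex.exp (((t * Lam n : ℝ) : ℂ) * Complex.I) * g n x‖ := norm_sum_le _ _
    _ ≤ ∑ n ∈ Finset.Ico (NN K) (NN K + K), (1:ℝ) := by
        apply Finset.sum_le_sum
        intro n _
        rw [norm_mul, Complex.norm_exp_ofReal_mul_I, one_mul]
        exact norm_g_le n x
    _ = K := by simp

lemma L2_upper (K : ℕ) (hK : 1 ≤ K) (t : ℝ) : ∫ x, ‖U K t x‖ ^ 2 ∂sig ≤ π / (10 * K) := by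
  have hK0 : (0:ℝ) < K := by exact_mod_cast hK
  unfold U
  rw [parseval]
  calc _ ≤ ∑ r ∈ Finset.Ico (NN K) (NN K + K), π / (10 * (K:ℝ) ^ 2) := by
        apply Finset.sum_le_sum
        intro r hr
        rw [Complex.norm_exp_ofReal_mul_I, one_pow, one_mul]
        exact J_upper K r hK (Finset.mem_Ico.1 hr).1
    _ = _ := by
        rw [Finset.sum_const, Nat.card_Ico, Nat.add_sub_cancel_left, nsmul_eq_mul]
        field_simp

lemma level_set (K : ℕ) (hK : 1 ≤ K) (t : ℝ) (ht : t ∈ Icc (0:ℝ) 1) :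
    π / 480 / (K:ℝ) ^ 3 ≤ sig.real {x | (K:ℝ) / 7 ≤ ‖U K t x‖} := by
  have hK0 : (0:ℝ) < K := by exact_mod_cast hK
  set A : Set S := {x | (K:ℝ) / 7 ≤ ‖U K t x‖} with hA
  have hAm : MeasurableSet A :=
    (isClosed_le continuous_const (continuous_U K t).norm).measurableSet
  have h1 : ∀ x, ‖U K t x‖ ^ 4 ≤ ((K:ℝ) / 7) ^ 2 * ‖U K t x‖ ^ 2 +
      A.indicator (fun _ => (K:ℝ) ^ 4) x := by
    intro x
    by_cases hx : x ∈ A
    · rw [Set.indicator_of_mem hx]
      have := pow_le_pow_left₀ (norm_nonneg _) (norm_U_le K t x) 4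
      have h2 : 0 ≤ ((K:ℝ) / 7) ^ 2 * ‖U K t x‖ ^ 2 := by positivity
      linarith
    · rw [Set.indicator_of_notMem hx, add_zero]
      have h3 : ‖U K t x‖ ≤ (K:ℝ) / 7 := by
        have : ¬ ((K:ℝ) / 7 ≤ ‖U K t x‖) := hx
        linarith
      have h4 := pow_le_pow_left₀ (norm_nonneg _) h3 2
      calc ‖U K t x‖ ^ 4 = ‖U K t x‖ ^ 2 * ‖U K t x‖ ^ 2 := by ring
        _ ≤ _ := by gcongr
  have hi1 : Integrable (fun x => ‖U K t x‖ ^ 4) sig :=
    integrable_cont ((continuous_U K t).norm.pow 4)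
  have hi2 : Integrable (fun x => ((K:ℝ) / 7) ^ 2 * ‖U K t x‖ ^ 2) sig :=
    integrable_cont (continuous_const.mul ((continuous_U K t).norm.pow 2))
  have hi3 : Integrable (A.indicator (fun _ => (K:ℝ) ^ 4)) sig :=
    (integrable_const _).indicator hAm
  have h5 := integral_mono hi1 (hi2.add hi3) h1
  have h6 := L4_lower K hK t ht
  have h7 := L2_upper K hK t
  rw [integral_add' hi2 hi3, integral_const_mul, integral_indicator_const _ hAm, smul_eq_mul] at h5
  have h8 : ((K:ℝ) / 7) ^ 2 * ∫ x, ‖U K t x‖ ^ 2 ∂sig ≤ π * K / 490 := by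
    calc _ ≤ ((K:ℝ) / 7) ^ 2 * (π / (10 * K)) := by gcongr
      _ = _ := by field_simp; norm_num
  have h9 : π * K / 480 ≤ sig.real A * (K:ℝ) ^ 4 := by
    have : π * K / 480 ≤ π * K / 240 - π * K / 490 := by
      have : 0 < π * K := by positivity
      linarith
    linarith
  rw [div_div, div_le_iff₀ (by positivity)]
  have h10 : K * (π / 480) ≤ K * (sig.real A * (K:ℝ) ^ 3) := by
    calc (K:ℝ) * (π / 480) = π * K / 480 := by ring
      _ ≤ sig.real A * (K:ℝ) ^ 4 := h9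
      _ = _ := by ring
  have h11 := le_of_mul_le_mul_left h10 hK0
  linarith

lemma space_lower (K : ℕ) (hK : 1 ≤ K) (t : ℝ) (ht : t ∈ Icc (0:ℝ) 1) (q : ℝ≥0∞) (hq : 1 ≤ q) :
    (1 / 7 * (π / 480) ^ (1 / q.toReal)) * (K:ℝ) ^ (1 - 3 * (1 / q.toReal)) ≤
      (eLpNorm (U K t) q sig).toReal := by
  have hK0 : (0:ℝ) < K := by exact_mod_cast hK
  set A : Set S := {x | (K:ℝ) / 7 ≤ ‖U K t x‖} with hA
  have hAm : MeasurableSet A :=
    (isClosed_le continuous_const (continuous_U K t).norm).measurableSet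
  have hlev := level_set K hK t ht
  rw [← hA] at hlev
  have hApos : 0 < sig.real A := lt_of_lt_of_le (by positivity) hlev
  have hA0 : sig A ≠ 0 := by
    intro h
    rw [Measure.real, h] at hApos
    simp at hApos
  have hq0 : q ≠ 0 := by
    intro h
    rw [h] at hq
    simp at hq
  have h1 : eLpNorm (A.indicator fun _ => ((K:ℝ) / 7)) q sig ≤ eLpNorm (U K t) q sig := by
    apply eLpNorm_mono
    intro x
    by_cases hx : x ∈ A
    · rw [Set.indicator_of_mem hx, Real.norm_of_nonneg (by positivity)]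
      exact hx
    · rw [Set.indicator_of_notMem hx, norm_zero]
      exact norm_nonneg _
  rw [eLpNorm_indicator_const' hAm hA0 hq0] at h1
  have hfin : eLpNorm (U K t) q sig ≠ ⊤ := by
    have : MemLp (U K t) q sig :=
      MemLp.of_bound (continuous_U K t).aestronglyMeasurable K
        (Filter.Eventually.of_forall (norm_U_le K t))
    exact this.2.ne
  have h2 := ENNReal.toReal_mono hfin h1
  refine le_trans ?_ h2
  rw [ENNReal.toReal_mul, ← ENNReal.toReal_rpow]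
  have h3 : (‖((K:ℝ) / 7)‖ₑ).toReal = K / 7 := by
    rw [toReal_enorm, Real.norm_of_nonneg (by positivity)]
  rw [h3]
  have he : 0 ≤ 1 / q.toReal := by positivity
  have h4 : (π / 480 / (K:ℝ) ^ 3) ^ (1 / q.toReal) ≤ (sig A).toReal ^ (1 / q.toReal) :=
    Real.rpow_le_rpow (by positivity) hlev he
  calc _ = (K / 7) * (π / 480 / (K:ℝ) ^ 3) ^ (1 / q.toReal) := by
        have h6 : (π / 480 / (K:ℝ) ^ 3) ^ (1 / q.toReal) =
            (π / 480) ^ (1 / q.toReal) / ((K:ℝ) ^ 3) ^ (1 / q.toReal) :=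
          Real.div_rpow (by positivity) (by positivity) _
        rw [h6, Real.rpow_sub hK0, Real.rpow_one]
        have h5 : ((K:ℝ) ^ 3) ^ (1 / q.toReal) = (K:ℝ) ^ (3 * (1 / q.toReal)) := by
          rw [← Real.rpow_natCast, ← Real.rpow_mul hK0.le]
          norm_num
        rw [h5]
        ring
    _ ≤ _ := by gcongr

/-- For every time exponent `p`, every space exponent `q` and every `s < (3/8)(1 - 2/q)` the
Strichartz estimate `(p, q, s)` fails (for `q = ∞` the convention `2 / ∞ = 0` is in force). -/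
theorem fails (p q : ℝ≥0∞) (hp : 1 ≤ p) (hq : 1 ≤ q) (s : ℝ)
    (hs : s < 3 / 8 * (1 - 2 / q.toReal)) : ¬ StrichartzFin p q s := by
  intro hS
  obtain ⟨C, hC⟩ := hS 1 one_pos
  set e : ℝ := 1 / q.toReal with he
  set c : ℝ := 1 / 7 * (π / 480) ^ e with hc
  have hcpos : 0 < c := by positivity
  have hp0 : p ≠ 0 := by
    intro h
    rw [h] at hp
    simp at hp
  have key : ∀ K : ℕ, 1 ≤ K → (K:ℝ) ^ (3 / 2 - 3 * e - 4 * s) ≤ |C| * √(As s) / c := by
    intro K hK
    have hK0 : (0:ℝ) < K := by exact_mod_cast hK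
    have h1 := hC (NN K + K) (FF K) (isSphHarm_FF K)
    set L : ℝ := c * (K:ℝ) ^ (1 - 3 * e) with hL
    have hL0 : 0 < L := by positivity
    have hμ : (volume.restrict (Icc (0:ℝ) 1)) ≠ 0 := by
      rw [Ne, Measure.restrict_eq_zero]
      simp
    have h2 : eLpNorm (fun _ : ℝ => L) p (volume.restrict (Icc (0:ℝ) 1)) ≤
        eLpNorm (fun t => (eLpNorm (sol (NN K + K) (FF K) t) q sig).toReal) p
          (volume.restrict (Icc (0:ℝ) 1)) := by
      apply eLpNorm_mono_ae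
      filter_upwards [ae_restrict_mem measurableSet_Icc] with t ht
      rw [Real.norm_of_nonneg hL0.le, Real.norm_of_nonneg ENNReal.toReal_nonneg, sol_FF]
      exact space_lower K hK t ht q hq
    rw [eLpNorm_const _ hp0 hμ] at h2
    have h3 : (volume.restrict (Icc (0:ℝ) 1)) univ = 1 := by simp
    rw [h3, ENNReal.one_rpow, mul_one] at h2
    have h4 : ENNReal.ofReal L ≤ ENNReal.ofReal (C * Hnorm s (NN K + K) (FF K)) := by
      refine le_trans ?_ (h2.trans h1)
      rw [Real.enorm_of_nonneg hL0.le]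
    have h5 : L ≤ C * Hnorm s (NN K + K) (FF K) := by
      by_contra hcon
      push Not at hcon
      have := (ENNReal.ofReal_lt_ofReal_iff hL0).2 hcon
      exact absurd h4 (not_le.2 this)
    have h6 : L ≤ |C| * (√(As s) * (K:ℝ) ^ (4 * s - 1 / 2)) := by
      have hH0 : 0 ≤ Hnorm s (NN K + K) (FF K) := Real.sqrt_nonneg _
      calc L ≤ C * Hnorm s (NN K + K) (FF K) := h5
        _ ≤ |C| * Hnorm s (NN K + K) (FF K) := by gcongr; exact le_abs_self C
        _ ≤ _ := by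
          gcongr
          exact Hnorm_upper s K hK
    rw [le_div_iff₀ hcpos]
    have h7 : (K:ℝ) ^ (3 / 2 - 3 * e - 4 * s) * (K:ℝ) ^ (4 * s - 1 / 2) = (K:ℝ) ^ (1 - 3 * e) := by
      rw [← Real.rpow_add hK0]
      congr 1
      ring
    have hx : 0 < (K:ℝ) ^ (4 * s - 1 / 2) := by positivity
    have h8 : ((K:ℝ) ^ (3 / 2 - 3 * e - 4 * s) * c) * (K:ℝ) ^ (4 * s - 1 / 2) ≤
        (|C| * √(As s)) * (K:ℝ) ^ (4 * s - 1 / 2) := by
      calc _ = c * ((K:ℝ) ^ (3 / 2 - 3 * e - 4 * s) * (K:ℝ) ^ (4 * s - 1 / 2)) := by ring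
        _ = L := by rw [h7]
        _ ≤ _ := h6
        _ = _ := by ring
    exact le_of_mul_le_mul_right h8 hx
  have hα : 0 < 3 / 2 - 3 * e - 4 * s := by
    have : 2 / q.toReal = 2 * e := by rw [he]; ring
    rw [this] at hs
    linarith
  have ht : Filter.Tendsto (fun K : ℕ => (K:ℝ) ^ (3 / 2 - 3 * e - 4 * s)) Filter.atTop
      Filter.atTop := (tendsto_rpow_atTop hα).comp tendsto_natCast_atTop_atTop
  obtain ⟨K, hK1, hK2⟩ := ((ht.eventually_gt_atTop (|C| * √(As s) / c)).and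
    (Filter.eventually_ge_atTop 1)).exists
  exact absurd (key K hK2) (not_le.2 hK1)

/-- Main result. (1) The Strichartz estimate `(p, q, s)` for the linearised droplet water waves
fails for all `1 ≤ p ≤ ∞`, `1 ≤ q ≤ ∞` and all `s < (3/8)(1 - 2/q)`.
(2) In particular, if `(4, 4, s)` holds, then `s ≥ 3/16`, so `s_4 ≥ 3/16 > 1/8`. -/
theorem result :
    (∀ p q : ℝ≥0∞, 1 ≤ p → 1 ≤ q → ∀ s : ℝ, s < 3 / 8 * (1 - 2 / q.toReal) →
      ¬ StrichartzFin p q s) ∧
    (∀ s : ℝ, StrichartzFin 4 4 s → 3 / 16 ≤ s) := by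
  refine ⟨fun p q hp hq s hs => fails p q hp hq s hs, fun s h => ?_⟩
  by_contra hcon
  push Not at hcon
  refine fails 4 4 (by norm_num) (by norm_num) s ?_ h
  have : (4 : ℝ≥0∞).toReal = 4 := by simp
  rw [this]
  norm_num
  linarith

end Pool.Agent.Helper442.DRBeam
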