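import Mathlib

open MeasureTheory Set Metric Real
open scoped ENNReal

namespace Pool.Agent.Helper442.DR

abbrev E := EuclideanSpace ℝ (Fin 3)
abbrev S := sphere (0 : E) 1
noncomputable def sig : Measure S := (volume : Measure E).toSphere
noncomputable def Lam (n : ℕ) : ℝ := √((n : ℝ) * ((n : ℝ) - 1) * ((n : ℝ) + 2))

/-- `f` is a spherical harmonic of degree `n` -/
def IsSphHarm (n : ℕ) (f : S → ℂ) : Prop :=
  ∃ P : MvPolynomial (Fin 3) ℂ, P.IsHomogeneous n ∧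
    ∑ i, MvPolynomial.pderiv i (MvPolynomial.pderiv i P) = 0 ∧
    ∀ x : S, f x = MvPolynomial.eval (fun i => (((x : E) i : ℝ) : ℂ)) P

noncomputable def sol (K : ℕ) (F : ℕ → S → ℂ) (t : ℝ) (x : S) : ℂ :=
  ∑ n ∈ Finset.range K, Complex.exp (((t * Lam n : ℝ) : ℂ) * Complex.I) * F n x

noncomputable def Hnorm (s : ℝ) (K : ℕ) (F : ℕ → S → ℂ) : ℝ :=
  √(∑ n ∈ Finset.range K, (1 + (n : ℝ)) ^ (2 * s) * ∫ x, ‖F n x‖ ^ 2 ∂sig)

def StrichartzFin (p q : ℝ≥0∞) (s : ℝ) : Prop :=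
  ∀ T : ℝ, 0 < T → ∃ C : ℝ, ∀ (K : ℕ) (F : ℕ → S → ℂ), (∀ n, IsSphHarm n (F n)) →
    eLpNorm (fun t => (eLpNorm (sol K F t) q sig).toReal) p (volume.restrict (Icc 0 T)) ≤
      ENNReal.ofReal (C * Hnorm s K F)

/-- Legendre polynomials -/
noncomputable def leg : ℕ → ℝ → ℝ
  | 0, _ => 1
  | 1, x => x
  | (n + 2), x => ((2 * n + 3) * x * leg (n + 1) x - (n + 1) * leg n x) / (n + 2)

/-- the dot product of two points of the sphere -/
noncomputable def dot (x y : S) : ℝ := ∑ i, (x : E) i * (y : E) i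

/-- `w r = C(2r,r)/4^r` -/
noncomputable def w (r : ℕ) : ℝ := (Nat.centralBinom r : ℝ) / 4 ^ r

/-- Adams coefficient -/
noncomputable def ad (n m r : ℕ) : ℝ :=
  w r * w (n - r) * w (m - r) / (w (n + m - r) * (2 * ((n + m - r : ℕ) : ℝ) + 1))

/-- the square of the Clebsch-Gordan type constant, for `k = n + m - 2 r`, `r ≤ min n m` -/
noncomputable def c2 (n m r : ℕ) : ℝ := (2 * n + 1) * (2 * m + 1) / (4 * π) * ad n m r

/-- evaluation of a polynomial at a point of `ℝ³` -/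
noncomputable def ev (q : MvPolynomial (Fin 3) ℂ) (y : E) : ℂ :=
  MvPolynomial.eval (fun i => ((y i : ℝ) : ℂ)) q

/-- the pairs of the unit band at `b` -/
noncomputable def band (N : ℕ) (b : ℤ) : Finset (ℕ × ℕ) :=
  ((Finset.Ico N (2 * N)) ×ˢ (Finset.Ico N (2 * N))).filter (fun p => ⌊Lam p.1 + Lam p.2⌋ = b)

/-- the pairs of the band whose product has a component of degree `k` -/
noncomputable def bandk (N : ℕ) (b : ℤ) (k : ℕ) : Finset (ℕ × ℕ) :=
  (band N b).filter (fun p => p.1 ≤ p.2 + k ∧ p.2 ≤ p.1 + k ∧ k ≤ p.1 + p.2 ∧ Even (p.1 + p.2 + k))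

/-- the difference `|n-m|` of a pair -/
def dd (p : ℕ × ℕ) : ℕ := max p.1 p.2 - min p.1 p.2

end Pool.Agent.Helper442.DR
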