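import Mathlib
import Pool.Agent.Helper442.DR.Defs

open MeasureTheory Set Metric Real
open scoped ENNReal

namespace Pool.Agent.Helper442.DR




-- ===== TARGET (prove this; the lemmas above may be used with their sorry) =====
/-- growth of the symbol (real variable) -/
noncomputable def lam (x : ℝ) : ℝ := √(x * (x - 1) * (x + 2))

theorem lam_q_pos (x : ℝ) (hx : 2 ≤ x) : 0 < x * (x - 1) * (x + 2) := by
  have h1 : 0 < x := by linarith
  have h2 : 0 < x - 1 := by linarith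
  have h3 : 0 < x + 2 := by linarith
  positivity

theorem lam_q_deriv (x : ℝ) : HasDerivAt (fun y : ℝ => y * (y - 1) * (y + 2)) (3 * x ^ 2 + 2 * x - 2) x := by
  have h := (((hasDerivAt_id x).mul ((hasDerivAt_id x).sub_const 1)).mul ((hasDerivAt_id x).add_const 2))
  refine HasDerivAt.congr_deriv h ?_
  show (1 * (x - 1) + x * 1) * (x + 2) + (x * (x - 1)) * 1 = _
  ring

theorem lam_bounds (x : ℝ) (hx : 2 ≤ x) :
    x * √x ≤ √(x * (x - 1) * (x + 2)) ∧ √(x * (x - 1) * (x + 2)) ≤ (13 / 10) * (x * √x) := by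
  have hx0 : 0 < x := by linarith
  have hs : √x ^ 2 = x := Real.sq_sqrt hx0.le
  constructor
  · apply Real.le_sqrt_of_sq_le
    rw [mul_pow, hs]
    nlinarith [mul_nonneg hx0.le (by linarith : (0:ℝ) ≤ x - 2)]
  · rw [Real.sqrt_le_left (by positivity), mul_pow, mul_pow, hs]
    have h2 : 0 ≤ x ^ 2 * (x - 2) := by
      have : (0:ℝ) ≤ x - 2 := by linarith
      positivity
    have h3 : 0 ≤ x ^ 3 := by positivity
    nlinarith

theorem lam_deriv : ∃ l1 l2 : ℝ → ℝ, (∀ x, 2 ≤ x → HasDerivAt lam (l1 x) x) ∧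
    (∀ x, 2 ≤ x → HasDerivAt l1 (l2 x) x) ∧
    (∀ x, 2 ≤ x → √x ≤ l1 x ∧ l1 x ≤ 4 * √x) ∧ (∀ x, 2 ≤ x → 1 / (100 * √x) ≤ l2 x ∧ l2 x ≤ 100 / √x) := by
  refine ⟨fun x => (3 * x ^ 2 + 2 * x - 2) / (2 * √(x * (x - 1) * (x + 2))),
    fun x => (3 * x ^ 4 + 4 * x ^ 3 - 12 * x ^ 2 - 4) /
      (4 * (x * (x - 1) * (x + 2)) * √(x * (x - 1) * (x + 2))), ?_, ?_, ?_, ?_⟩
  · intro x hx
    exact (lam_q_deriv x).sqrt (lam_q_pos x hx).ne'
  · intro x hx
    have hq := lam_q_pos x hx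
    have hQ : 0 < √(x * (x - 1) * (x + 2)) := Real.sqrt_pos.mpr hq
    have hQ2 : √(x * (x - 1) * (x + 2)) ^ 2 = x * (x - 1) * (x + 2) := Real.sq_sqrt hq.le
    have hn : HasDerivAt (fun y : ℝ => 3 * y ^ 2 + 2 * y - 2) (6 * x + 2) x := by
      have h := (((hasDerivAt_pow 2 x).const_mul 3).add ((hasDerivAt_id x).const_mul 2)).sub_const 2
      refine HasDerivAt.congr_deriv h ?_
      push_cast
      ring
    have hd : HasDerivAt (fun y : ℝ => 2 * √(y * (y - 1) * (y + 2)))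
        (2 * ((3 * x ^ 2 + 2 * x - 2) / (2 * √(x * (x - 1) * (x + 2))))) x :=
      ((lam_q_deriv x).sqrt hq.ne').const_mul 2
    have h := hn.div hd (by positivity)
    refine HasDerivAt.congr_deriv h ?_
    symm
    show (3 * x ^ 4 + 4 * x ^ 3 - 12 * x ^ 2 - 4) / (4 * (x * (x - 1) * (x + 2)) * √(x * (x - 1) * (x + 2))) = _
    set Q := √(x * (x - 1) * (x + 2)) with hQdef
    rw [div_eq_div_iff (by positivity) (by positivity)]
    have e1 : (6 * x + 2) * (2 * Q) - (3 * x ^ 2 + 2 * x - 2) * (2 * ((3 * x ^ 2 + 2 * x - 2) / (2 * Q)))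
        = (2 * (6 * x + 2) * Q ^ 2 - (3 * x ^ 2 + 2 * x - 2) ^ 2) / Q := by
      field_simp
    rw [e1, hQ2]
    rw [div_mul_eq_mul_div, eq_div_iff hQ.ne']
    have e2 : (2 * (6 * x + 2) * (x * (x - 1) * (x + 2)) - (3 * x ^ 2 + 2 * x - 2) ^ 2)
        = 3 * x ^ 4 + 4 * x ^ 3 - 12 * x ^ 2 - 4 := by ring
    rw [e2]
    have e3 : (2 * Q) ^ 2 = 4 * (x * (x - 1) * (x + 2)) := by rw [mul_pow, hQ2]; norm_num
    rw [e3]
    ring
  · intro x hx
    have hx0 : 0 < x := by linarith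
    have hs : √x ^ 2 = x := Real.sq_sqrt hx0.le
    have hs0 : 0 < √x := Real.sqrt_pos.mpr hx0
    obtain ⟨hlo, hhi⟩ := lam_bounds x hx
    have hq := lam_q_pos x hx
    have hQ : 0 < √(x * (x - 1) * (x + 2)) := Real.sqrt_pos.mpr hq
    constructor
    · show √x ≤ (3 * x ^ 2 + 2 * x - 2) / (2 * √(x * (x - 1) * (x + 2)))
      rw [le_div_iff₀ (by positivity)]
      calc √x * (2 * √(x * (x - 1) * (x + 2))) ≤ √x * (2 * ((13 / 10) * (x * √x))) := by gcongr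
        _ = (26 / 10) * x * √x ^ 2 := by ring
        _ = (26 / 10) * x ^ 2 := by rw [hs]; ring
        _ ≤ 3 * x ^ 2 + 2 * x - 2 := by nlinarith
    · show (3 * x ^ 2 + 2 * x - 2) / (2 * √(x * (x - 1) * (x + 2))) ≤ 4 * √x
      rw [div_le_iff₀ (by positivity)]
      calc 3 * x ^ 2 + 2 * x - 2 ≤ 8 * x ^ 2 := by nlinarith
        _ = 8 * x * √x ^ 2 := by rw [hs]; ring
        _ = 4 * √x * (2 * (x * √x)) := by ring
        _ ≤ 4 * √x * (2 * √(x * (x - 1) * (x + 2))) := by gcongr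
  · intro x hx
    have hx0 : 0 < x := by linarith
    have hs : √x ^ 2 = x := Real.sq_sqrt hx0.le
    have hs0 : 0 < √x := Real.sqrt_pos.mpr hx0
    obtain ⟨hlo, hhi⟩ := lam_bounds x hx
    have hq := lam_q_pos x hx
    have hQ : 0 < √(x * (x - 1) * (x + 2)) := Real.sqrt_pos.mpr hq
    have hx2 : 0 ≤ x - 2 := by linarith
    have hqlo : x ^ 3 ≤ x * (x - 1) * (x + 2) := by nlinarith [mul_nonneg hx0.le hx2]
    have hqhi : x * (x - 1) * (x + 2) ≤ (3 / 2) * x ^ 3 := by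
      have h2 : 0 ≤ x ^ 2 * (x - 2) := by positivity
      nlinarith
    have hNlo : (1 / 10) * x ^ 4 ≤ 3 * x ^ 4 + 4 * x ^ 3 - 12 * x ^ 2 - 4 := by
      have h1 : 4 ≤ x ^ 2 := by nlinarith
      have h2 : 4 * x ^ 2 ≤ x ^ 4 := by nlinarith [sq_nonneg x]
      have h3 : 2 * x ^ 2 ≤ x ^ 3 := by nlinarith [sq_nonneg x]
      nlinarith
    have hNhi : 3 * x ^ 4 + 4 * x ^ 3 - 12 * x ^ 2 - 4 ≤ 5 * x ^ 4 := by
      have h3 : 0 ≤ x ^ 3 * (x - 2) := by positivity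
      nlinarith [sq_nonneg x]
    constructor
    · show 1 / (100 * √x) ≤ (3 * x ^ 4 + 4 * x ^ 3 - 12 * x ^ 2 - 4) /
        (4 * (x * (x - 1) * (x + 2)) * √(x * (x - 1) * (x + 2)))
      rw [div_le_div_iff₀ (by positivity) (by positivity)]
      calc 1 * (4 * (x * (x - 1) * (x + 2)) * √(x * (x - 1) * (x + 2)))
          ≤ 1 * (4 * ((3 / 2) * x ^ 3) * ((13 / 10) * (x * √x))) := by gcongr
        _ = (78 / 10) * x ^ 4 * √x := by ring
        _ ≤ ((1 / 10) * x ^ 4) * (100 * √x) := by nlinarith [mul_pos (pow_pos hx0 4) hs0]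
        _ ≤ (3 * x ^ 4 + 4 * x ^ 3 - 12 * x ^ 2 - 4) * (100 * √x) := by gcongr
    · show (3 * x ^ 4 + 4 * x ^ 3 - 12 * x ^ 2 - 4) /
        (4 * (x * (x - 1) * (x + 2)) * √(x * (x - 1) * (x + 2))) ≤ 100 / √x
      rw [div_le_div_iff₀ (by positivity) (by positivity)]
      calc (3 * x ^ 4 + 4 * x ^ 3 - 12 * x ^ 2 - 4) * √x ≤ (5 * x ^ 4) * √x := by gcongr
        _ ≤ 100 * (4 * (x ^ 3) * (x * √x)) := by nlinarith [mul_pos (pow_pos hx0 4) hs0]
        _ ≤ 100 * (4 * (x * (x - 1) * (x + 2)) * √(x * (x - 1) * (x + 2))) := by gcongr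

end Pool.Agent.Helper442.DR
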