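import Mathlib
import Pool.Agent.Helper442.DR.Defs
import Pool.Agent.Helper442.DR.N0

open MeasureTheory Set Metric Real
open scoped ENNReal

namespace Pool.Agent.Helper442.DR






-- ===== TARGET (prove this; the lemmas above may be used with their sorry) =====
/-- the symbol grows: increments are at least a constant times `√N` -/
theorem lam_incr : ∃ c : ℝ, 0 < c ∧ ∀ (N n m : ℕ), 2 ≤ N → N ≤ n → n ≤ m → m ≤ 2 * N →
    c * √N * ((m : ℝ) - n) ≤ Lam m - Lam n ∧ Lam m - Lam n ≤ c⁻¹ * √N * ((m : ℝ) - n) := by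
  obtain ⟨l1, l2, h1, -, h3, -⟩ := lam_deriv
  refine ⟨1 / 6, by norm_num, ?_⟩
  intro N n m hN hNn hnm hm
  have hLm : Lam m = lam m := rfl
  have hLn : Lam n = lam n := rfl
  rw [hLm, hLn]
  rcases hnm.eq_or_lt with h | h
  · rw [h]; simp
  · have hlt : (n : ℝ) < (m : ℝ) := by exact_mod_cast h
    have hn2 : (2 : ℝ) ≤ (n : ℝ) := by exact_mod_cast hN.trans hNn
    obtain ⟨ξ, hξ, he⟩ := exists_hasDerivAt_eq_slope lam l1 hlt
      (fun x hx => (h1 x (hn2.trans hx.1)).continuousAt.continuousWithinAt)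
      (fun x hx => h1 x (hn2.trans hx.1.le))
    have hd : 0 < (m : ℝ) - n := by linarith
    have he' : lam m - lam n = l1 ξ * ((m : ℝ) - n) := by
      rw [he, div_mul_cancel₀ _ hd.ne']
    rw [he']
    have h5 := h3 ξ (hn2.trans hξ.1.le)
    have hNn' : (N : ℝ) ≤ (n : ℝ) := by exact_mod_cast hNn
    have hm' : (m : ℝ) ≤ 2 * (N : ℝ) := by exact_mod_cast hm
    have h6 : √(N : ℝ) ≤ √ξ := Real.sqrt_le_sqrt (by linarith [hξ.1])
    have h7 : √ξ ≤ 3 / 2 * √(N : ℝ) := by
      rw [Real.sqrt_le_left (by positivity), mul_pow, Real.sq_sqrt (Nat.cast_nonneg N)]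
      have h8 : (0 : ℝ) ≤ (N : ℝ) := Nat.cast_nonneg N
      nlinarith [hξ.2]
    have h9 : 0 ≤ √(N : ℝ) := Real.sqrt_nonneg _
    constructor
    · refine mul_le_mul_of_nonneg_right ?_ hd.le
      linarith [h5.1]
    · refine mul_le_mul_of_nonneg_right ?_ hd.le
      norm_num
      linarith [h5.2]

end Pool.Agent.Helper442.DR
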