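import Mathlib
import Pool.Agent.Helper442.DR.Defs
import Pool.Agent.Helper442.DR.N0

open MeasureTheory Set Metric Real
open scoped ENNReal

namespace Pool.Agent.Helper442.DR






-- ===== TARGET (prove this; the lemmas above may be used with their sorry) =====
/-- same sum: `Λ(n)+Λ(m)` grows quadratically in `|n-m|` -/
theorem same_sum : ∃ c : ℝ, 0 < c ∧ ∀ (N n m n' m' : ℕ), 2 ≤ N → N ≤ n' → n' ≤ n → n ≤ m → m ≤ m' →
    m' ≤ 2 * N → n + m = n' + m' →
    c * (((m' : ℝ) - n') ^ 2 - ((m : ℝ) - n) ^ 2) / √N ≤ Lam n' + Lam m' - Lam n - Lam m ∧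
    Lam n' + Lam m' - Lam n - Lam m ≤ c⁻¹ * (((m' : ℝ) - n') ^ 2 - ((m : ℝ) - n) ^ 2) / √N := by
  obtain ⟨l1, l2, h1, h2, -, hb⟩ := lam_deriv
  refine ⟨1 / 1000, by norm_num, ?_⟩
  intro N n m n' m' hN hn' hn hnm hm hm' hsum
  have hNpos : (0 : ℝ) < √(N : ℝ) := Real.sqrt_pos.mpr (by exact_mod_cast (by omega : 0 < N))
  have key : ∃ v : ℝ, Lam n' + Lam m' - Lam n - Lam m =
      ((((m' : ℝ) - n') ^ 2 - ((m : ℝ) - n) ^ 2) / 4) * v ∧ 1 / (200 * √N) ≤ v ∧ v ≤ 100 / √N := by
    rcases Nat.eq_or_lt_of_le hn with heq | hlt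
    · have hmm : m = m' := by omega
      refine ⟨100 / √N, ?_, ?_, le_refl _⟩
      · rw [heq, hmm]; ring
      · rw [div_le_div_iff₀ (by positivity) hNpos]
        nlinarith
    · set h : ℝ := ((n : ℝ) + m) / 2 with hh
      set d : ℝ := ((m : ℝ) - n) / 2 with hd
      set d' : ℝ := ((m' : ℝ) - n') / 2 with hd'
      have hsumR : (n : ℝ) + m = n' + m' := by exact_mod_cast hsum
      have e1 : (n : ℝ) = h - d := by rw [hh, hd]; ring
      have e2 : (m : ℝ) = h + d := by rw [hh, hd]; ring
      have e3 : (n' : ℝ) = h - d' := by rw [hh, hd']; linarith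
      have e4 : (m' : ℝ) = h + d' := by rw [hh, hd']; linarith
      have hltR : (n' : ℝ) < n := by exact_mod_cast hlt
      have hdd : d < d' := by linarith
      have hd0 : 0 ≤ d := by
        have : (n : ℝ) ≤ m := by exact_mod_cast hnm
        rw [hd]; linarith
      have hNR : (2 : ℝ) ≤ N := by exact_mod_cast hN
      have hn'R : (N : ℝ) ≤ h - d' := by rw [← e3]; exact_mod_cast hn'
      have hm'R : h + d' ≤ 2 * N := by rw [← e4]; exact_mod_cast hm'
      have hG : ∀ s : ℝ, 0 ≤ s → s ≤ d' → HasDerivAt (fun s => lam (h - s) + lam (h + s))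
          (-(l1 (h - s)) + l1 (h + s)) s := by
        intro s hs0 hs
        have ha : HasDerivAt (fun s => lam (h - s)) (-(l1 (h - s))) s := by
          have := (h1 (h - s) (by linarith)).comp s ((hasDerivAt_id s).const_sub h)
          simpa [Function.comp_def] using this
        have hb' : HasDerivAt (fun s => lam (h + s)) (l1 (h + s)) s := by
          have := (h1 (h + s) (by linarith)).comp s ((hasDerivAt_id s).const_add h)
          simpa [Function.comp_def] using this
        exact ha.add hb'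
      have hcont : ContinuousOn (fun s => lam (h - s) + lam (h + s)) (Icc d d') := by
        intro s hs
        exact (hG s (hd0.trans hs.1) hs.2).continuousAt.continuousWithinAt
      obtain ⟨s, hs, hse⟩ := exists_ratio_hasDerivAt_eq_ratio_slope
        (fun s => lam (h - s) + lam (h + s)) (fun s => -(l1 (h - s)) + l1 (h + s)) hdd hcont
        (fun x hx => hG x (hd0.trans hx.1.le) hx.2.le)
        (fun s => s ^ 2) (fun s => 2 * s) (by fun_prop)
        (fun x hx => by simpa using hasDerivAt_pow 2 x)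
      have hs0 : 0 < s := lt_of_le_of_lt hd0 hs.1
      have hlt2 : h - s < h + s := by linarith
      have hcont2 : ContinuousOn l1 (Icc (h - s) (h + s)) := by
        intro y hy
        exact (h2 y (by linarith [hy.1, hs.2])).continuousAt.continuousWithinAt
      obtain ⟨ξ, hξ, hξe⟩ := exists_hasDerivAt_eq_slope l1 l2 hlt2 hcont2
        (fun y hy => h2 y (by linarith [hy.1, hs.2]))
      have hξ2 : N ≤ ξ := by linarith [hξ.1, hs.2]
      have hξ3 : ξ ≤ 2 * N := by linarith [hξ.2, hs.2]
      have hξb := hb ξ (by linarith)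
      refine ⟨l2 ξ, ?_, ?_, ?_⟩
      · have hl : l1 (h + s) - l1 (h - s) = l2 ξ * (2 * s) := by
          have h2s : (2 * s) ≠ 0 := by positivity
          rw [hξe, show h + s - (h - s) = 2 * s by ring, div_mul_cancel₀ _ h2s]
        have hse' : (d' ^ 2 - d ^ 2) * (-(l1 (h - s)) + l1 (h + s)) =
            ((lam (h - d') + lam (h + d')) - (lam (h - d) + lam (h + d))) * (2 * s) := hse
        have hval : (d' ^ 2 - d ^ 2) * l2 ξ =
            (lam (h - d') + lam (h + d')) - (lam (h - d) + lam (h + d)) := by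
          have h2s : (2 * s) ≠ 0 := by positivity
          apply mul_right_cancel₀ h2s
          rw [← hse', ← sub_eq_neg_add, hl]
          ring
        have L : ∀ k : ℕ, Lam k = lam (k : ℝ) := fun k => rfl
        rw [L, L, L, L, e1, e2, e3, e4]
        have : (h + d' - (h - d')) ^ 2 - (h + d - (h - d)) ^ 2 = 4 * (d' ^ 2 - d ^ 2) := by ring
        rw [this]
        linarith
      · refine le_trans ?_ hξb.1
        have hsq : √ξ ≤ 2 * √(N : ℝ) := by
          calc √ξ ≤ √(4 * (N : ℝ)) := Real.sqrt_le_sqrt (by linarith)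
            _ = 2 * √(N : ℝ) := by
              rw [Real.sqrt_mul (by norm_num), show (4 : ℝ) = 2 ^ 2 by norm_num,
                Real.sqrt_sq (by norm_num)]
        have hξpos : 0 < √ξ := Real.sqrt_pos.mpr (by linarith)
        apply one_div_le_one_div_of_le (by positivity)
        linarith
      · refine hξb.2.trans ?_
        apply div_le_div_of_nonneg_left (by norm_num) hNpos
        exact Real.sqrt_le_sqrt hξ2
  obtain ⟨v, hv, hv1, hv2⟩ := key
  have hX : 0 ≤ ((m' : ℝ) - n') ^ 2 - ((m : ℝ) - n) ^ 2 := by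
    have a1 : (n' : ℝ) ≤ n := by exact_mod_cast hn
    have a2 : (n : ℝ) ≤ m := by exact_mod_cast hnm
    have a3 : (m : ℝ) ≤ m' := by exact_mod_cast hm
    nlinarith
  rw [hv]
  set X : ℝ := ((m' : ℝ) - n') ^ 2 - ((m : ℝ) - n) ^ 2 with hXd
  constructor
  · have : 1 / 1000 * X / √N ≤ X / 4 * (1 / (200 * √N)) := by
      rw [div_mul_div_comm, div_le_div_iff₀ hNpos (by positivity)]
      nlinarith [mul_nonneg hX hNpos.le]
    exact this.trans (mul_le_mul_of_nonneg_left hv1 (by positivity))
  · have : X / 4 * (100 / √N) ≤ (1 / 1000)⁻¹ * X / √N := by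
      rw [div_mul_div_comm, div_le_div_iff₀ (by positivity) hNpos]
      nlinarith [mul_nonneg hX hNpos.le]
    exact (mul_le_mul_of_nonneg_left hv2 (by positivity)).trans this

end Pool.Agent.Helper442.DR
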