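import Mathlib
import Pool.Agent.Helper442.DR.Defs
import Pool.Agent.Helper442.DR.N0
import Pool.Agent.Helper442.DR.N1
import Pool.Agent.Helper442.DR.N2

open MeasureTheory Set Metric Real
open scoped ENNReal

namespace Pool.Agent.Helper442.DR














theorem h290_mv (l1 : ℝ → ℝ) (h1 : ∀ x, 2 ≤ x → HasDerivAt lam (l1 x) x)
    (h3 : ∀ x, 2 ≤ x → √x ≤ l1 x ∧ l1 x ≤ 4 * √x) (N : ℝ) (hN : 4 ≤ N) (a b : ℝ)
    (ha1 : N / 2 ≤ a) (ha2 : a ≤ 3 * N) (hb1 : N / 2 ≤ b) (hb2 : b ≤ 3 * N) :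
    ∃ κ : ℝ, √(N / 2) ≤ κ ∧ κ ≤ 4 * √(3 * N) ∧ lam b - lam a = (b - a) * κ := by
  have main : ∀ a b : ℝ, N / 2 ≤ a → a ≤ 3 * N → N / 2 ≤ b → b ≤ 3 * N → a < b →
      ∃ κ : ℝ, √(N / 2) ≤ κ ∧ κ ≤ 4 * √(3 * N) ∧ lam b - lam a = (b - a) * κ := by
    intro a b ha1 ha2 hb1 hb2 hab
    obtain ⟨c, hc, hcs⟩ := exists_hasDerivAt_eq_slope lam l1 hab
      (fun x hx => (h1 x (by linarith [hx.1])).continuousAt.continuousWithinAt)
      (fun x hx => h1 x (by linarith [hx.1]))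
    have hc2 : 2 ≤ c := by linarith [hc.1]
    refine ⟨l1 c, ?_, ?_, ?_⟩
    · exact (Real.sqrt_le_sqrt (by linarith [hc.1])).trans (h3 c hc2).1
    · refine (h3 c hc2).2.trans ?_
      have := Real.sqrt_le_sqrt (show c ≤ 3 * N by linarith [hc.2])
      linarith
    · rw [hcs, mul_div_cancel₀]
      exact (sub_pos.2 hab).ne'
  rcases lt_trichotomy a b with h | h | h
  · exact main a b ha1 ha2 hb1 hb2 h
  · subst h
    refine ⟨√(N / 2), le_rfl, ?_, by ring⟩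
    have h5 : √(N / 2) ≤ √(3 * N) := Real.sqrt_le_sqrt (by linarith)
    have h6 : 0 ≤ √(3 * N) := Real.sqrt_nonneg _
    linarith
  · obtain ⟨κ, hk1, hk2, hk3⟩ := main b a hb1 hb2 ha1 ha2 h
    exact ⟨κ, hk1, hk2, by linarith⟩

theorem h290_mv2 (l1 l2 : ℝ → ℝ) (h1 : ∀ x, 2 ≤ x → HasDerivAt lam (l1 x) x)
    (h2 : ∀ x, 2 ≤ x → HasDerivAt l1 (l2 x) x)
    (h4 : ∀ x, 2 ≤ x → 1 / (100 * √x) ≤ l2 x ∧ l2 x ≤ 100 / √x) (N : ℝ) (hN : 4 ≤ N) (T D D' : ℝ)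
    (hT1 : 2 * N ≤ T) (hT2 : T ≤ 4 * N) (hD1 : 0 ≤ D) (hD2 : D ≤ N) (hD1' : 0 ≤ D') (hD2' : D' ≤ N) :
    ∃ κ : ℝ, 1 / (400 * √(3 * N)) ≤ κ ∧ κ ≤ 25 / √(N / 2) ∧
      (lam ((T - D) / 2) + lam ((T + D) / 2)) - (lam ((T - D') / 2) + lam ((T + D') / 2)) =
        (D ^ 2 - D' ^ 2) * κ := by
  have hN2 : 0 < √(N / 2) := Real.sqrt_pos.2 (by linarith)
  have hN3 : 0 < √(3 * N) := Real.sqrt_pos.2 (by linarith)
  have hbd : ∀ ξ : ℝ, N / 2 ≤ ξ → ξ ≤ 3 * N →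
      1 / (400 * √(3 * N)) ≤ l2 ξ / 4 ∧ l2 ξ / 4 ≤ 25 / √(N / 2) := by
    intro ξ hξ1 hξ2
    have hξ0 : 0 < √ξ := Real.sqrt_pos.2 (by linarith)
    obtain ⟨k1, k2⟩ := h4 ξ (by linarith)
    constructor
    · have h5 : 1 / (100 * √(3 * N)) ≤ 1 / (100 * √ξ) := by
        apply one_div_le_one_div_of_le (by positivity)
        have := Real.sqrt_le_sqrt hξ2
        linarith
      have h6 : 1 / (400 * √(3 * N)) = 1 / (100 * √(3 * N)) / 4 := by
        rw [div_div]; congr 1; ring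
      rw [h6]
      linarith
    · have h5 : 100 / √ξ ≤ 100 / √(N / 2) := by
        apply div_le_div_of_nonneg_left (by norm_num) hN2
        exact Real.sqrt_le_sqrt hξ1
      have h6 : 25 / √(N / 2) = 100 / √(N / 2) / 4 := by ring
      rw [h6]
      linarith
  have main : ∀ D D' : ℝ, 0 ≤ D → D ≤ N → 0 ≤ D' → D' ≤ N → D' < D → ∃ κ : ℝ, 1 / (400 * √(3 * N)) ≤ κ ∧ κ ≤ 25 / √(N / 2) ∧
      (lam ((T - D) / 2) + lam ((T + D) / 2)) - (lam ((T - D') / 2) + lam ((T + D') / 2)) =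
        (D ^ 2 - D' ^ 2) * κ := by
    intro D D' hD1 hD2 hD1' hD2' hlt
    have hder : ∀ u : ℝ, 0 ≤ u → u ≤ N → HasDerivAt (fun u => lam ((T - u) / 2) + lam ((T + u) / 2))
        (l1 ((T - u) / 2) * (-1 / 2) + l1 ((T + u) / 2) * (1 / 2)) u := by
      intro u hu1 hu2
      have e1 : HasDerivAt (fun u : ℝ => (T - u) / 2) (-1 / 2) u :=
        ((hasDerivAt_id u).const_sub T).div_const 2
      have e2 : HasDerivAt (fun u : ℝ => (T + u) / 2) (1 / 2) u :=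
        ((hasDerivAt_id u).const_add T).div_const 2
      exact ((h1 ((T - u) / 2) (by linarith)).comp u e1).add ((h1 ((T + u) / 2) (by linarith)).comp u e2)
    obtain ⟨c, hc, hcs⟩ := exists_ratio_hasDerivAt_eq_ratio_slope
      (fun u => lam ((T - u) / 2) + lam ((T + u) / 2))
      (fun u => l1 ((T - u) / 2) * (-1 / 2) + l1 ((T + u) / 2) * (1 / 2)) hlt
      (fun x hx => (hder x (by linarith [hx.1]) (by linarith [hx.2])).continuousAt.continuousWithinAt)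
      (fun x hx => hder x (by linarith [hx.1]) (by linarith [hx.2]))
      (fun u => u ^ 2) (fun u => 2 * u)
      (by fun_prop) (fun x _ => by simpa using hasDerivAt_pow 2 x)
    have hc0 : 0 < c := by linarith [hc.1]
    have hcN : c ≤ N := by linarith [hc.2]
    obtain ⟨ξ, hξ, hξs⟩ := exists_hasDerivAt_eq_slope l1 l2 (show (T - c) / 2 < (T + c) / 2 by linarith)
      (fun x hx => (h2 x (by linarith [hx.1])).continuousAt.continuousWithinAt)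
      (fun x hx => h2 x (by linarith [hx.1]))
    have hξ3 : l1 ((T + c) / 2) - l1 ((T - c) / 2) = c * l2 ξ := by
      rw [hξs]
      have : (T + c) / 2 - (T - c) / 2 = c := by ring
      rw [this, mul_div_cancel₀]
      exact hc0.ne'
    obtain ⟨k1, k2⟩ := hbd ξ (by linarith [hξ.1]) (by linarith [hξ.2])
    refine ⟨l2 ξ / 4, k1, k2, ?_⟩
    have h7 : (D ^ 2 - D' ^ 2) * (c * l2 ξ / 2) =
        ((lam ((T - D) / 2) + lam ((T + D) / 2)) - (lam ((T - D') / 2) + lam ((T + D') / 2))) * (2 * c) := by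
      rw [← hcs, ← hξ3]; ring
    have h8 : (2 * c) ≠ 0 := by positivity
    apply mul_right_cancel₀ h8
    rw [← h7]; ring
  rcases lt_trichotomy D' D with h | h | h
  · exact main D D' hD1 hD2 hD1' hD2' h
  · subst h
    obtain ⟨k1, k2⟩ := hbd N (by linarith) (by linarith)
    exact ⟨l2 N / 4, k1, k2, by ring⟩
  · obtain ⟨κ, hk1, hk2, hk3⟩ := main D' D hD1' hD2' hD1 hD2 h
    exact ⟨κ, hk1, hk2, by linarith⟩

theorem h290_band (N : ℕ) (b : ℤ) (p : ℕ × ℕ) (hp : p ∈ band N b) :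
    ((p.1 + p.2 : ℕ) : ℝ) ≤ 4 * N ∧ 2 * (N : ℝ) ≤ ((p.1 + p.2 : ℕ) : ℝ) ∧ (0:ℝ) ≤ (dd p : ℝ) ∧ (dd p : ℝ) ≤ N ∧
    ⌊lam ((((p.1 + p.2 : ℕ) : ℝ) - dd p) / 2) + lam ((((p.1 + p.2 : ℕ) : ℝ) + dd p) / 2)⌋ = b := by
  unfold band at hp
  rw [Finset.mem_filter, Finset.mem_product, Finset.mem_Ico, Finset.mem_Ico] at hp
  obtain ⟨⟨⟨a1, a2⟩, a3, a4⟩, a5⟩ := hp
  have hdd : dd p ≤ N := by unfold dd; omega
  refine ⟨?_, ?_, by positivity, by exact_mod_cast hdd, ?_⟩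
  · exact_mod_cast (show p.1 + p.2 ≤ 4 * N by omega)
  · exact_mod_cast (show 2 * N ≤ p.1 + p.2 by omega)
  · rw [← a5]
    congr 1
    rcases le_total p.1 p.2 with h | h
    · have e : ((dd p : ℕ) : ℝ) = (p.2 : ℝ) - p.1 := by
        unfold dd
        rw [max_eq_right h, min_eq_left h, Nat.cast_sub h]
      rw [e]
      have e1 : (((p.1 + p.2 : ℕ) : ℝ) - ((p.2 : ℝ) - p.1)) / 2 = p.1 := by push_cast; ring
      have e2 : (((p.1 + p.2 : ℕ) : ℝ) + ((p.2 : ℝ) - p.1)) / 2 = p.2 := by push_cast; ring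
      rw [e1, e2]
      rfl
    · have e : ((dd p : ℕ) : ℝ) = (p.1 : ℝ) - p.2 := by
        unfold dd
        rw [max_eq_left h, min_eq_right h, Nat.cast_sub h]
      rw [e]
      have e1 : (((p.1 + p.2 : ℕ) : ℝ) - ((p.1 : ℝ) - p.2)) / 2 = p.2 := by push_cast; ring
      have e2 : (((p.1 + p.2 : ℕ) : ℝ) + ((p.1 : ℝ) - p.2)) / 2 = p.1 := by push_cast; ring
      rw [e1, e2, add_comm]
      rfl

-- ===== TARGET (prove this; the lemmas above may be used with their sorry) =====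
/-- two pairs of the band: differences against sums -/
theorem sum_diff : ∃ C : ℝ, 0 < C ∧ ∀ (N : ℕ) (b : ℤ) (p q : ℕ × ℕ), 2 ≤ N → p ∈ band N b → q ∈ band N b →
    |(dd p : ℝ) ^ 2 - (dd q : ℝ) ^ 2| ≤ C * (N * |((p.1 + p.2 : ℕ) : ℝ) - ((q.1 + q.2 : ℕ) : ℝ)| + √N) ∧
    |((p.1 + p.2 : ℕ) : ℝ) - ((q.1 + q.2 : ℕ) : ℝ)| ≤ C * (|(dd p : ℝ) ^ 2 - (dd q : ℝ) ^ 2| / N + 1 / √N) := by
  obtain ⟨l1, l2, h1, h2, h3, h4⟩ := lam_deriv
  refine ⟨10000, by norm_num, ?_⟩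
  intro N b p q hN hp hq
  obtain ⟨p1, p2, p3, p4, p5⟩ := h290_band N b p hp
  obtain ⟨q1, q2, q3, q4, q5⟩ := h290_band N b q hq
  generalize ((p.1 + p.2 : ℕ) : ℝ) = S at *
  generalize ((q.1 + q.2 : ℕ) : ℝ) = T at *
  generalize (dd p : ℝ) = D at *
  generalize (dd q : ℝ) = D' at *
  have hNr : (2:ℝ) ≤ N := by exact_mod_cast hN
  have hr : 0 < √(N:ℝ) := Real.sqrt_pos.2 (by linarith)
  have hrr : √(N:ℝ) * √(N:ℝ) = N := Real.mul_self_sqrt (by linarith)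
  by_cases hN4 : N < 4
  · have hN3 : (N:ℝ) ≤ 3 := by exact_mod_cast (show N ≤ 3 by omega)
    have hr1 : 1 ≤ √(N:ℝ) := by rw [Real.one_le_sqrt]; linarith
    have hr2 : √(N:ℝ) ≤ 3 := by
      rw [Real.sqrt_le_left (by norm_num)]; linarith
    constructor
    · have a1 : |D ^ 2 - D' ^ 2| ≤ 9 := by
        rw [abs_le]; constructor <;> nlinarith
      have a2 : (0:ℝ) ≤ N * |S - T| := by positivity
      linarith
    · have a1 : |S - T| ≤ 12 := by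
        rw [abs_le]; constructor <;> linarith
      have a2 : (0:ℝ) ≤ |D ^ 2 - D' ^ 2| / N := by positivity
      have a3 : (1:ℝ) / 3 ≤ 1 / √(N:ℝ) := one_div_le_one_div_of_le hr hr2
      linarith
  · have hN4' : (4:ℝ) ≤ N := by exact_mod_cast (show 4 ≤ N by omega)
    have hF : |(lam ((S - D) / 2) + lam ((S + D) / 2)) - (lam ((T - D') / 2) + lam ((T + D') / 2))| < 1 :=
      Int.abs_sub_lt_one_of_floor_eq_floor (p5.trans q5.symm)
    obtain ⟨κ, k1, k2, k3⟩ := h290_mv l1 h1 h3 N hN4' ((T - D) / 2) ((S - D) / 2)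
      (by linarith) (by linarith) (by linarith) (by linarith)
    obtain ⟨κ', k1', k2', k3'⟩ := h290_mv l1 h1 h3 N hN4' ((T + D) / 2) ((S + D) / 2)
      (by linarith) (by linarith) (by linarith) (by linarith)
    obtain ⟨μ, m1, m2, m3⟩ := h290_mv2 l1 l2 h1 h2 h4 N hN4' T D D' q2 q1 p3 p4 q3 q4
    have hsum : (lam ((S - D) / 2) + lam ((S + D) / 2)) - (lam ((T - D') / 2) + lam ((T + D') / 2)) =
        (S - T) * ((κ + κ') / 2) + (D ^ 2 - D' ^ 2) * μ := by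
      rw [← m3]
      have e1 : (S - D) / 2 - (T - D) / 2 = (S - T) / 2 := by ring
      have e2 : (S + D) / 2 - (T + D) / 2 = (S - T) / 2 := by ring
      rw [e1] at k3
      rw [e2] at k3'
      linarith
    rw [hsum] at hF
    obtain ⟨K, hK⟩ : ∃ K : ℝ, K = (κ + κ') / 2 := ⟨_, rfl⟩
    rw [← hK] at hF
    have b1 : √(N:ℝ) / 2 ≤ √((N:ℝ) / 2) := by
      apply Real.le_sqrt_of_sq_le
      rw [div_pow, Real.sq_sqrt (by linarith)]
      linarith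
    have b2 : √(3 * (N:ℝ)) ≤ 2 * √(N:ℝ) := by
      rw [Real.sqrt_le_left (by positivity), mul_pow, Real.sq_sqrt (by linarith)]
      linarith
    have K1 : √(N:ℝ) / 2 ≤ K := by rw [hK]; linarith
    have K2 : K ≤ 8 * √(N:ℝ) := by rw [hK]; linarith
    have M1 : 1 / (800 * √(N:ℝ)) ≤ μ := by
      refine le_trans ?_ m1
      apply one_div_le_one_div_of_le
      · have : 0 < √(3 * (N:ℝ)) := Real.sqrt_pos.2 (by linarith)
        positivity
      · linarith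
    have M2 : μ ≤ 50 / √(N:ℝ) := by
      refine m2.trans ?_
      rw [div_le_div_iff₀ (Real.sqrt_pos.2 (by linarith)) hr]
      linarith
    have hK0 : 0 < K := by linarith
    have hμ0 : 0 < μ := lt_of_lt_of_le (by positivity) M1
    obtain ⟨X, hX⟩ : ∃ X : ℝ, X = D ^ 2 - D' ^ 2 := ⟨_, rfl⟩
    obtain ⟨Y, hY⟩ : ∃ Y : ℝ, Y = S - T := ⟨_, rfl⟩
    rw [← hX, ← hY] at hF
    rw [← hX, ← hY]
    have c1 : |X| * μ ≤ 1 + |Y| * K := by
      have e : X * μ = (Y * K + X * μ) - Y * K := by ring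
      have e2 : |X * μ| ≤ |Y * K + X * μ| + |Y * K| := by
        calc |X * μ| = |(Y * K + X * μ) - Y * K| := by rw [← e]
          _ ≤ _ := abs_sub _ _
      rw [abs_mul, abs_mul Y K, abs_of_pos hμ0, abs_of_pos hK0] at e2
      linarith
    have c2 : |Y| * K ≤ 1 + |X| * μ := by
      have e : Y * K = (Y * K + X * μ) - X * μ := by ring
      have e2 : |Y * K| ≤ |Y * K + X * μ| + |X * μ| := by
        calc |Y * K| = |(Y * K + X * μ) - X * μ| := by rw [← e]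
          _ ≤ _ := abs_sub _ _
      rw [abs_mul Y K, abs_mul X μ, abs_of_pos hμ0, abs_of_pos hK0] at e2
      linarith
    have hX0 : 0 ≤ |X| := abs_nonneg _
    have hY0 : 0 ≤ |Y| := abs_nonneg _
    constructor
    · have d1 : |X| * (1 / (800 * √(N:ℝ))) ≤ 1 + |Y| * (8 * √(N:ℝ)) := by
        calc |X| * (1 / (800 * √(N:ℝ))) ≤ |X| * μ := by gcongr
          _ ≤ 1 + |Y| * K := c1
          _ ≤ _ := by gcongr
      have d2 : |X| ≤ (1 + |Y| * (8 * √(N:ℝ))) * (800 * √(N:ℝ)) := by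
        rw [mul_one_div, div_le_iff₀ (by positivity)] at d1
        exact d1
      have d3 : (1 + |Y| * (8 * √(N:ℝ))) * (800 * √(N:ℝ)) = 800 * √(N:ℝ) + 6400 * (N * |Y|) := by
        calc _ = 800 * √(N:ℝ) + 6400 * ((√(N:ℝ) * √(N:ℝ)) * |Y|) := by ring
          _ = _ := by rw [hrr]
      rw [d3] at d2
      have d4 : 0 ≤ (N:ℝ) * |Y| := by positivity
      linarith
    · have d1 : |Y| * (√(N:ℝ) / 2) ≤ 1 + |X| * (50 / √(N:ℝ)) := by
        calc |Y| * (√(N:ℝ) / 2) ≤ |Y| * K := by gcongr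
          _ ≤ 1 + |X| * μ := c2
          _ ≤ _ := by gcongr
      have d2 : |Y| ≤ (1 + |X| * (50 / √(N:ℝ))) * (2 / √(N:ℝ)) := by
        calc |Y| = (|Y| * (√(N:ℝ) / 2)) * (2 / √(N:ℝ)) := by field_simp
          _ ≤ _ := by gcongr
      have d3 : (1 + |X| * (50 / √(N:ℝ))) * (2 / √(N:ℝ)) = 2 * (1 / √(N:ℝ)) + 100 * (|X| / N) := by
        calc _ = 2 * (1 / √(N:ℝ)) + 100 * (|X| / (√(N:ℝ) * √(N:ℝ))) := by ring
          _ = _ := by rw [hrr]
      rw [d3] at d2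
      have d4 : 0 ≤ |X| / (N:ℝ) := by positivity
      have d5 : 0 ≤ 1 / √(N:ℝ) := by positivity
      linarith

end Pool.Agent.Helper442.DR
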