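import Mathlib
import Pool.Agent.Helper442.DR.Defs
import Pool.Agent.Helper442.DR.N0
import Pool.Agent.Helper442.DR.N1
import Pool.Agent.Helper442.DR.N2

open MeasureTheory Set Metric Real
open scoped ENNReal

namespace Pool.Agent.Helper442.DR














theorem lam_step512 (n : ℕ) (hn : 2 ≤ n) : Lam n + 1 ≤ Lam (n + 1) := by
  unfold Lam
  have hx : (2 : ℝ) ≤ (n : ℝ) := by exact_mod_cast hn
  push_cast
  set x : ℝ := (n : ℝ) with hxdef
  have h0 : 0 ≤ x * (x - 1) * (x + 2) := mul_nonneg (mul_nonneg (by linarith) (by linarith)) (by linarith)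
  have h1 : √(x * (x - 1) * (x + 2)) ≤ x ^ 2 := by
    apply Real.sqrt_le_iff.2
    refine ⟨by positivity, ?_⟩
    nlinarith [mul_nonneg (mul_nonneg (by linarith : (0:ℝ) ≤ x) (by linarith : (0:ℝ) ≤ x - 2)) (sq_nonneg x), mul_nonneg (by linarith : (0:ℝ) ≤ x) (by linarith : (0:ℝ) ≤ x - 2), sq_nonneg x, mul_nonneg (mul_nonneg (by linarith : (0:ℝ) ≤ x) (by linarith : (0:ℝ) ≤ x)) (by linarith : (0:ℝ) ≤ x - 2)]
  apply Real.le_sqrt_of_sq_le
  have h2 : (√(x * (x - 1) * (x + 2)) + 1) ^ 2 = x * (x - 1) * (x + 2) + 2 * √(x * (x - 1) * (x + 2)) + 1 := by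
    have := Real.sq_sqrt h0
    ring_nf at this ⊢
    linarith
  rw [h2]
  nlinarith

theorem lam_mono512 (n m : ℕ) (hn : 2 ≤ n) (hm : n ≤ m) : Lam n + ((m : ℝ) - n) ≤ Lam m := by
  induction m, hm using Nat.le_induction with
  | base => simp
  | succ k hk ih =>
    have := lam_step512 k (le_trans hn hk)
    push_cast
    linarith

theorem key512 (N : ℕ) (b : ℤ) (hN : 2 ≤ N) (p q : ℕ × ℕ) (hp : p ∈ band N b) (hq : q ∈ band N b)
    (h : p.1 + q.2 = q.1 + p.2) (hlt : p.1 < q.1) : False := by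
  simp only [band, Finset.mem_filter, Finset.mem_product, Finset.mem_Ico] at hp hq
  obtain ⟨⟨⟨hp1, _⟩, hp2, _⟩, hpf⟩ := hp
  obtain ⟨⟨⟨hq1, _⟩, hq2, _⟩, hqf⟩ := hq
  rw [Int.floor_eq_iff] at hpf hqf
  have h1 := lam_mono512 p.1 q.1 (by omega) (by omega)
  have h2 := lam_mono512 p.2 q.2 (by omega) (by omega)
  have h3 : (p.1 : ℝ) + 1 ≤ q.1 := by exact_mod_cast hlt
  have h4 : (p.2 : ℝ) + 1 ≤ q.2 := by
    have : p.2 + 1 ≤ q.2 := by omega
    exact_mod_cast this
  linarith [hpf.1, hqf.2]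

-- ===== TARGET (prove this; the lemmas above may be used with their sorry) =====
/-- for each difference at most one pair -/
theorem same_diff (N : ℕ) (b : ℤ) (hN : 2 ≤ N) (p q : ℕ × ℕ) (hp : p ∈ band N b) (hq : q ∈ band N b)
    (h : p.1 + q.2 = q.1 + p.2) : p = q := by
  rcases lt_trichotomy p.1 q.1 with h1 | h1 | h1
  · exact (key512 N b hN p q hp hq h h1).elim
  · exact Prod.ext h1 (by omega)
  · exact (key512 N b hN q p hq hp (by omega) h1).elim

end Pool.Agent.Helper442.DR
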