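import Mathlib
import Pool.Agent.Helper442.DR.Defs
import Pool.Agent.Helper442.DR.N3
import Pool.Agent.Helper442.DR.E2

open MeasureTheory Set Metric Real
open scoped ENNReal

namespace Pool.Agent.Helper442.DR












-- ===== C2n (helper250) =====
theorem C2n.near (A : Finset ℕ) (c R : ℝ) (hR : 0 ≤ R) (h : ∀ a ∈ A, |(a : ℝ) - c| ≤ R) :
    (A.card : ℝ) ≤ 2 * R + 1 := by
  have hsub : A.map ⟨fun a : ℕ => (a : ℤ), fun a b h => by have h' : (a : ℤ) = (b : ℤ) := h; exact_mod_cast h'⟩ ⊆ Finset.Icc ⌈c - R⌉ ⌊c + R⌋ := by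
    intro z hz
    simp only [Finset.mem_map, Function.Embedding.coeFn_mk] at hz
    obtain ⟨a, ha, rfl⟩ := hz
    have h1 := abs_le.mp (h a ha)
    rw [Finset.mem_Icc]
    constructor
    · rw [Int.ceil_le]; push_cast; linarith [h1.1]
    · rw [Int.le_floor]; push_cast; linarith [h1.2]
  have h1 := Finset.card_le_card hsub
  rw [Finset.card_map, Int.card_Icc] at h1
  have h2 : ((⌊c + R⌋ + 1 - ⌈c - R⌉).toNat : ℝ) ≤ 2 * R + 1 := by
    rcases le_or_gt 0 (⌊c + R⌋ + 1 - ⌈c - R⌉) with h3 | h3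
    · have h4 : (((⌊c + R⌋ + 1 - ⌈c - R⌉).toNat : ℤ) : ℝ) = ((⌊c + R⌋ + 1 - ⌈c - R⌉ : ℤ) : ℝ) := by
        rw [Int.toNat_of_nonneg h3]
      have h5 : ((⌊c + R⌋ + 1 - ⌈c - R⌉).toNat : ℝ) = ((⌊c + R⌋ + 1 - ⌈c - R⌉ : ℤ) : ℝ) := by
        rw [← h4]; push_cast; rfl
      rw [h5]
      push_cast
      have h6 := Int.floor_le (c + R)
      have h7 := Int.le_ceil (c - R)
      linarith
    · rw [Int.toNat_of_nonpos h3.le]
      push_cast; linarith
  have h8 : (A.card : ℝ) ≤ ((⌊c + R⌋ + 1 - ⌈c - R⌉).toNat : ℝ) := by exact_mod_cast h1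
  linarith

/-- pairs with the difference just below `k` -/
theorem near_count : ∃ C : ℝ, 0 < C ∧ ∀ (N : ℕ) (b : ℤ) (k Y : ℝ), 2 ≤ N → √N ≤ k → k ≤ 2 * N → 0 ≤ Y → Y ≤ k / 2 →
    (((band N b).filter (fun p => k - Y ≤ (dd p : ℝ) ∧ (dd p : ℝ) ≤ k)).card : ℝ) ≤ C * (1 + Y * k / N) := by
  obtain ⟨C, hC, hSD⟩ := sum_diff
  refine ⟨2 * (2 * C + 1) * (4 * C + 1), by positivity, ?_⟩
  intro N b k Y hN hk1 hk2 hY hY2
  have hN' : (2 : ℝ) ≤ N := by exact_mod_cast hN
  have hN0 : (0 : ℝ) < N := by linarith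
  have hsN : 1 ≤ √(N : ℝ) := by
    rw [show (1 : ℝ) = √1 by simp]
    exact Real.sqrt_le_sqrt (by linarith)
  have hsN0 : 0 < √(N : ℝ) := by linarith
  have hk0 : 0 < k := by linarith
  set T := (band N b).filter (fun p => k - Y ≤ (dd p : ℝ) ∧ (dd p : ℝ) ≤ k) with hT
  have hYk : 0 ≤ Y * k / N := by positivity
  rcases T.eq_empty_or_nonempty with hemp | ⟨p0, hp0⟩
  · rw [hemp]; simp only [Finset.card_empty, Nat.cast_zero]; positivity
  have mem : ∀ p ∈ T, p ∈ band N b ∧ k - Y ≤ (dd p : ℝ) ∧ (dd p : ℝ) ≤ k := by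
    intro p hp
    rw [hT, Finset.mem_filter] at hp
    exact hp
  obtain ⟨hb0, hl0, hu0⟩ := mem p0 hp0
  -- sums
  have hsum : ((T.image (fun p => p.1 + p.2)).card : ℝ) ≤ 2 * (C * (2 * k * Y / N + 1)) + 1 := by
    apply C2n.near _ (((p0.1 + p0.2 : ℕ) : ℝ)) _ (by positivity)
    intro a ha
    rw [Finset.mem_image] at ha
    obtain ⟨p, hp, rfl⟩ := ha
    obtain ⟨hb, hl, hu⟩ := mem p hp
    refine (hSD N b p p0 hN hb hb0).2.trans ?_
    apply mul_le_mul_of_nonneg_left _ hC.le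
    have h1 : |(dd p : ℝ) ^ 2 - (dd p0 : ℝ) ^ 2| ≤ 2 * k * Y := by
      have e : (dd p : ℝ) ^ 2 - (dd p0 : ℝ) ^ 2 = ((dd p : ℝ) - dd p0) * (dd p + dd p0) := by ring
      rw [e, abs_mul]
      have a1 : |(dd p : ℝ) - dd p0| ≤ Y := by rw [abs_le]; constructor <;> linarith
      have a2 : |(dd p : ℝ) + dd p0| ≤ 2 * k := by
        rw [abs_of_nonneg (by positivity)]; linarith
      calc |(dd p : ℝ) - dd p0| * |(dd p : ℝ) + dd p0| ≤ Y * (2 * k) :=
            mul_le_mul a1 a2 (abs_nonneg _) hY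
        _ = 2 * k * Y := by ring
    have h2 : |(dd p : ℝ) ^ 2 - (dd p0 : ℝ) ^ 2| / N ≤ 2 * k * Y / N := by gcongr
    have h3 : 1 / √(N : ℝ) ≤ 1 := by rw [div_le_one hsN0]; exact hsN
    linarith
  -- fibres
  have hfib : ∀ s ∈ T.image (fun p => p.1 + p.2), (T.filter (fun p => p.1 + p.2 = s)).card ≤ ⌊2 * (2 * C + 1)⌋₊ := by
    intro s _
    apply Nat.le_floor
    set F := T.filter (fun p => p.1 + p.2 = s) with hF
    have hclose : ∀ p ∈ F, ∀ q ∈ F, |(dd p : ℝ) - dd q| ≤ C := by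
      intro p hp q hq
      rw [hF, Finset.mem_filter] at hp hq
      obtain ⟨hb, hl, hu⟩ := mem p hp.1
      obtain ⟨hb', hl', hu'⟩ := mem q hq.1
      have h1 := (hSD N b p q hN hb hb').1
      have e0 : ((p.1 + p.2 : ℕ) : ℝ) - ((q.1 + q.2 : ℕ) : ℝ) = 0 := by rw [hp.2, hq.2]; ring
      rw [e0, abs_zero, mul_zero, zero_add] at h1
      have e : (dd p : ℝ) ^ 2 - (dd q : ℝ) ^ 2 = ((dd p : ℝ) - dd q) * (dd p + dd q) := by ring
      rw [e, abs_mul] at h1
      have h2 : √(N : ℝ) ≤ |(dd p : ℝ) + dd q| := by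
        rw [abs_of_nonneg (by positivity)]; linarith
      have h3 : |(dd p : ℝ) - dd q| * √(N : ℝ) ≤ C * √(N : ℝ) :=
        (mul_le_mul_of_nonneg_left h2 (abs_nonneg _)).trans h1
      exact le_of_mul_le_mul_right h3 hsN0
    have hhalf : ∀ (Q : ℕ × ℕ → Prop) [DecidablePred Q],
        (∀ p ∈ F.filter Q, ∀ q ∈ F.filter Q, dd p = dd q → p = q) → ((F.filter Q).card : ℝ) ≤ 2 * C + 1 := by
      intro Q _ hinj
      rcases (F.filter Q).eq_empty_or_nonempty with he | ⟨q0, hq0⟩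
      · rw [he]; simp only [Finset.card_empty, Nat.cast_zero]; positivity
      have hc : ((F.filter Q).image dd).card = (F.filter Q).card :=
        Finset.card_image_of_injOn (fun p hp q hq h => hinj p hp q hq h)
      rw [← hc]
      apply C2n.near _ ((dd q0 : ℕ) : ℝ) _ hC.le
      intro a ha
      rw [Finset.mem_image] at ha
      obtain ⟨p, hp, rfl⟩ := ha
      exact hclose p (Finset.mem_filter.mp hp).1 q0 (Finset.mem_filter.mp hq0).1
    have hs : ∀ p ∈ F, p.1 + p.2 = s := by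
      intro p hp; rw [hF, Finset.mem_filter] at hp; exact hp.2
    have h1 := hhalf (fun p => p.1 ≤ p.2) (by
      intro p hp q hq h
      rw [Finset.mem_filter] at hp hq
      have a1 := hs p hp.1
      have a2 := hs q hq.1
      have a3 := hp.2
      have a4 := hq.2
      unfold dd at h
      rw [max_eq_right a3, min_eq_left a3, max_eq_right a4, min_eq_left a4] at h
      apply Prod.ext <;> omega)
    have h2 := hhalf (fun p => ¬ p.1 ≤ p.2) (by
      intro p hp q hq h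
      rw [Finset.mem_filter] at hp hq
      have a1 := hs p hp.1
      have a2 := hs q hq.1
      have a3 := (not_le.mp hp.2).le
      have a4 := (not_le.mp hq.2).le
      unfold dd at h
      rw [max_eq_left a3, min_eq_right a3, max_eq_left a4, min_eq_right a4] at h
      apply Prod.ext <;> omega)
    have h3 := Finset.card_filter_add_card_filter_not (s := F) (fun p => p.1 ≤ p.2)
    have h4 : (F.card : ℝ) = ((F.filter (fun p => p.1 ≤ p.2)).card : ℝ) + ((F.filter (fun p => ¬ p.1 ≤ p.2)).card : ℝ) := by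
      exact_mod_cast h3.symm
    rw [h4]; linarith
  have hcard := Finset.card_le_mul_card_image T ⌊2 * (2 * C + 1)⌋₊ hfib
  have hfl : ((⌊2 * (2 * C + 1)⌋₊ : ℕ) : ℝ) ≤ 2 * (2 * C + 1) := Nat.floor_le (by positivity)
  calc (T.card : ℝ) ≤ ((⌊2 * (2 * C + 1)⌋₊ : ℕ) : ℝ) * ((T.image (fun p => p.1 + p.2)).card : ℝ) := by exact_mod_cast hcard
    _ ≤ (2 * (2 * C + 1)) * (2 * (C * (2 * k * Y / N + 1)) + 1) := by
        apply mul_le_mul hfl hsum (by positivity) (by positivity)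
    _ ≤ (2 * (2 * C + 1)) * ((4 * C + 1) * (1 + Y * k / N)) := by
        apply mul_le_mul_of_nonneg_left _ (by positivity)
        have : 2 * k * Y / N = 2 * (Y * k / N) := by ring
        rw [this]
        nlinarith
    _ = 2 * (2 * C + 1) * (4 * C + 1) * (1 + Y * k / N) := by ring

end Pool.Agent.Helper442.DR
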