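import Mathlib
import Pool.Agent.Helper442.DR.Defs

open MeasureTheory Set Metric Real
open scoped ENNReal

namespace Pool.Agent.Helper442.DR







theorem ev_growth (q : MvPolynomial (Fin 3) ℂ) :
    ∃ (C : ℝ) (k : ℕ), 0 ≤ C ∧ ∀ y : E, ‖ev q y‖ ≤ C * (1 + ‖y‖) ^ k := by
  induction q using MvPolynomial.induction_on with
  | C a => exact ⟨‖a‖, 0, norm_nonneg _, fun y => by simp [ev]⟩
  | add p q hp hq =>
    obtain ⟨C1, k1, h1, hb1⟩ := hp
    obtain ⟨C2, k2, h2, hb2⟩ := hq
    refine ⟨C1 + C2, max k1 k2, by positivity, fun y => ?_⟩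
    have h0 : 1 ≤ 1 + ‖y‖ := by linarith [norm_nonneg y]
    have e : ev (p + q) y = ev p y + ev q y := by simp [ev]
    rw [e]
    refine (norm_add_le _ _).trans ?_
    rw [add_mul]
    refine add_le_add ((hb1 y).trans ?_) ((hb2 y).trans ?_)
    · exact mul_le_mul_of_nonneg_left (pow_le_pow_right₀ h0 (le_max_left _ _)) h1
    · exact mul_le_mul_of_nonneg_left (pow_le_pow_right₀ h0 (le_max_right _ _)) h2
  | mul_X p i hp =>
    obtain ⟨C1, k1, h1, hb1⟩ := hp
    refine ⟨C1, k1 + 1, h1, fun y => ?_⟩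
    have e : ev (p * MvPolynomial.X i) y = ev p y * ((y i : ℝ) : ℂ) := by simp [ev]
    rw [e, norm_mul, pow_succ, ← mul_assoc]
    have h2 : ‖((y i : ℝ) : ℂ)‖ ≤ 1 + ‖y‖ := by
      rw [Complex.norm_real]
      have := PiLp.norm_apply_le y i
      linarith
    exact mul_le_mul (hb1 y) h2 (norm_nonneg _) (by have := norm_nonneg y; positivity)

-- ===== TARGET (prove this; the lemmas above may be used with their sorry) =====
theorem gauss_integrable (q : MvPolynomial (Fin 3) ℂ) :
    Integrable (fun y : E => ev q y * ((Real.exp (-‖y‖ ^ 2) : ℝ) : ℂ)) := by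
  obtain ⟨C, k, hC, hb⟩ := ev_growth q
  have hg : Integrable (fun y : E => Real.exp (-(1/2:ℝ) * ‖y‖ ^ 2)) := by
    have h := GaussianFourier.integrable_cexp_neg_mul_sq_norm_add (b := ((1/2:ℝ):ℂ))
      (by simp) 0 (0 : E)
    have h2 := h.re
    refine h2.congr (Filter.Eventually.of_forall fun y => ?_)
    simp only [zero_mul, add_zero]
    rw [show (-((1/2:ℝ):ℂ) * (‖y‖:ℂ) ^ 2) = ((-(1/2:ℝ) * ‖y‖ ^ 2 : ℝ) : ℂ) by push_cast; ring,
      ← Complex.ofReal_exp]
    exact Complex.ofReal_re _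
  have hcont : Continuous (fun y : E => ev q y) := by
    unfold ev
    exact (MvPolynomial.continuous_eval q).comp
      (continuous_pi fun i => Complex.continuous_ofReal.comp (by fun_prop))
  refine Integrable.mono' (hg.const_mul (C * (k.factorial * Real.exp 2)))
    ((hcont.mul (Complex.continuous_ofReal.comp (by fun_prop))).aestronglyMeasurable)
    (Filter.Eventually.of_forall fun y => ?_)
  rw [norm_mul, Complex.norm_real, Real.norm_eq_abs, abs_of_pos (Real.exp_pos _)]
  have h1 := hb y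
  set r := ‖y‖ with hr
  have hr0 : 0 ≤ r := norm_nonneg y
  have h2 : (1 + r) ^ k ≤ k.factorial * Real.exp (1 + r) := by
    have := Real.pow_div_factorial_le_exp (1 + r) (by linarith) k
    rw [div_le_iff₀ (by positivity)] at this
    linarith
  have h3 : Real.exp (1 + r) * Real.exp (-r ^ 2) ≤ Real.exp 2 * Real.exp (-(1/2:ℝ) * r ^ 2) := by
    rw [← Real.exp_add, ← Real.exp_add]
    apply Real.exp_le_exp.2
    nlinarith [sq_nonneg (r - 1)]
  calc ‖ev q y‖ * Real.exp (-r ^ 2) ≤ (C * (1 + r) ^ k) * Real.exp (-r ^ 2) :=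
        mul_le_mul_of_nonneg_right h1 (Real.exp_pos _).le
    _ ≤ (C * (k.factorial * Real.exp (1 + r))) * Real.exp (-r ^ 2) :=
        mul_le_mul_of_nonneg_right (mul_le_mul_of_nonneg_left h2 hC) (Real.exp_pos _).le
    _ = C * k.factorial * (Real.exp (1 + r) * Real.exp (-r ^ 2)) := by ring
    _ ≤ C * k.factorial * (Real.exp 2 * Real.exp (-(1/2:ℝ) * r ^ 2)) :=
        mul_le_mul_of_nonneg_left h3 (by positivity)
    _ = C * (k.factorial * Real.exp 2) * Real.exp (-(1/2:ℝ) * r ^ 2) := by ring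

end Pool.Agent.Helper442.DR
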