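import Mathlib
import Pool.Agent.Helper442.DR.Defs
import Pool.Agent.Helper442.DR.G1c

open MeasureTheory Set Metric Real
open scoped ENNReal

namespace Pool.Agent.Helper442.DR








theorem gauss_polar_smul (d : ℕ) (q : MvPolynomial (Fin 3) ℂ) (hq : q.IsHomogeneous d)
    (r : ℝ) (y z : E) (h : y = r • z) : ev q y = ((r ^ d : ℝ) : ℂ) * ev q z := by
  subst h
  unfold ev
  rw [MvPolynomial.eval_eq', MvPolynomial.eval_eq', Finset.mul_sum]
  refine Finset.sum_congr rfl fun m hm => ?_
  have h1 : ∑ i, m i = d := by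
    have h2 := hq (MvPolynomial.mem_support_iff.1 hm)
    rw [← h2, Finsupp.weight_apply, Finsupp.sum_fintype]
    · simp
    · intro i; simp
  have h3 : ∏ i, ((((r • z : E) i : ℝ) : ℂ)) ^ m i =
      ((r ^ d : ℝ) : ℂ) * ∏ i, (((z i : ℝ) : ℂ)) ^ m i := by
    have h4 : ∀ i, ((((r • z : E) i : ℝ) : ℂ)) ^ m i = (r : ℂ) ^ m i * (((z i : ℝ) : ℂ)) ^ m i := by
      intro i
      rw [PiLp.smul_apply, smul_eq_mul, Complex.ofReal_mul, mul_pow]
    rw [Finset.prod_congr rfl fun i _ => h4 i, Finset.prod_mul_distrib,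
      Finset.prod_pow_eq_pow_sum, h1, Complex.ofReal_pow]
  rw [h3]
  ring

-- ===== TARGET (prove this; the lemmas above may be used with their sorry) =====
theorem gauss_polar (d : ℕ) (q : MvPolynomial (Fin 3) ℂ) (hq : q.IsHomogeneous d) :
    ∫ y : E, ev q y * ((Real.exp (-‖y‖ ^ 2) : ℝ) : ℂ) =
      ((∫ r in Ioi (0 : ℝ), r ^ (d + 2) * Real.exp (-r ^ 2) : ℝ) : ℂ) * ∫ x : S, ev q (x : E) ∂sig := by
  have hdim : Module.finrank ℝ E - 1 = 2 := by simp
  calc ∫ y : E, ev q y * ((Real.exp (-‖y‖ ^ 2) : ℝ) : ℂ)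
      = ∫ y : ({(0)}ᶜ : Set E), ev q (y : E) * ((Real.exp (-‖(y : E)‖ ^ 2) : ℝ) : ℂ)
        ∂((volume : Measure E).comap ((↑) : ({(0)}ᶜ : Set E) → E)) := by
        rw [integral_subtype_comap (measurableSet_singleton _).compl
          fun y : E => ev q y * ((Real.exp (-‖y‖ ^ 2) : ℝ) : ℂ), restrict_compl_singleton]
    _ = ∫ p : S × Ioi (0 : ℝ), ev q (p.1 : E) * (((p.2 : ℝ) ^ d *
        Real.exp (-(p.2 : ℝ) ^ 2) : ℝ) : ℂ)
        ∂((volume : Measure E).toSphere.prod (.volumeIoiPow (Module.finrank ℝ E - 1))) := by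
        rw [← (volume : Measure E).measurePreserving_homeomorphUnitSphereProd.integral_comp
          (Homeomorph.measurableEmbedding _)]
        refine integral_congr_ae (Filter.Eventually.of_forall fun y => ?_)
        have hy : ‖(y : E)‖ ≠ 0 := norm_ne_zero_iff.2 y.2
        have h1 : ((homeomorphUnitSphereProd E y).1 : E) = ‖(y : E)‖⁻¹ • (y : E) := by
          simp
        have h2 : ((homeomorphUnitSphereProd E y).2 : ℝ) = ‖(y : E)‖ := by
          simp
        have h3 : ev q (y : E) = ((‖(y : E)‖ ^ d : ℝ) : ℂ) * ev q (‖(y : E)‖⁻¹ • (y : E)) :=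
          gauss_polar_smul d q hq _ _ _ (by rw [smul_smul, mul_inv_cancel₀ hy, one_smul])
        simp only [h1, h2]
        rw [h3]
        push_cast
        ring
    _ = (∫ x : S, ev q (x : E) ∂(volume : Measure E).toSphere) *
        ∫ r : Ioi (0 : ℝ), (((r : ℝ) ^ d * Real.exp (-(r : ℝ) ^ 2) : ℝ) : ℂ)
        ∂(.volumeIoiPow (Module.finrank ℝ E - 1)) := by
        exact integral_prod_mul (fun x : S => ev q (x : E))
          (fun r : Ioi (0 : ℝ) => (((r : ℝ) ^ d * Real.exp (-(r : ℝ) ^ 2) : ℝ) : ℂ))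
    _ = _ := by
        rw [mul_comm]
        congr 1
        refine (integral_complex_ofReal (f := fun r : Ioi (0 : ℝ) =>
          (r : ℝ) ^ d * Real.exp (-(r : ℝ) ^ 2))).trans ?_
        congr 1
        rw [hdim]
        simp only [Measure.volumeIoiPow, ENNReal.ofReal]
        rw [integral_withDensity_eq_integral_smul
          ((measurable_subtype_coe.pow_const _).real_toNNReal),
          integral_subtype_comap measurableSet_Ioi fun a : ℝ => Real.toNNReal (a ^ 2) •
            (a ^ d * Real.exp (-a ^ 2))]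
        refine setIntegral_congr_fun measurableSet_Ioi fun r hr => ?_
        simp only [NNReal.smul_def, smul_eq_mul]
        rw [Real.coe_toNNReal _ (sq_nonneg _)]
        ring

end Pool.Agent.Helper442.DR
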