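import Mathlib
import Pool.Agent.Helper442.DR.Defs
import Pool.Agent.Helper442.DR.G1a
import Pool.Agent.Helper442.DR.G1c

open MeasureTheory Set Metric Real
open scoped ENNReal

namespace Pool.Agent.Helper442.DR











noncomputable def Iq (q : MvPolynomial (Fin 3) ℂ) : ℂ :=
  ∫ y : E, ev q y * ((Real.exp (-‖y‖ ^ 2) : ℝ) : ℂ)

theorem Iq_add (p q : MvPolynomial (Fin 3) ℂ) : Iq (p + q) = Iq p + Iq q := by
  unfold Iq
  rw [← integral_add (gauss_integrable p) (gauss_integrable q)]
  congr 1
  ext y
  simp only [ev, map_add]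
  ring

theorem Iq_C (c : ℂ) (q : MvPolynomial (Fin 3) ℂ) : Iq (MvPolynomial.C c * q) = c * Iq q := by
  unfold Iq
  rw [← integral_const_mul]
  congr 1
  ext y
  simp only [ev, map_mul, MvPolynomial.eval_C]
  ring

theorem Iq_zero : Iq 0 = 0 := by
  have := Iq_C 0 0
  simpa using this

theorem Iq_sum {ι : Type*} (s : Finset ι) (f : ι → MvPolynomial (Fin 3) ℂ) :
    Iq (∑ i ∈ s, f i) = ∑ i ∈ s, Iq (f i) := by
  classical
  induction s using Finset.induction_on with
  | empty => simp [Iq_zero]
  | insert a s ha ih => rw [Finset.sum_insert ha, Finset.sum_insert ha, Iq_add, ih]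

theorem Iq_X (i : Fin 3) (q : MvPolynomial (Fin 3) ℂ) :
    Iq (MvPolynomial.X i * q) = (1 / 2) * Iq (MvPolynomial.pderiv i q) := by
  unfold Iq
  rw [← gauss_parts]
  congr 1
  ext y
  simp only [ev, map_mul, MvPolynomial.eval_X]

theorem pderiv_comm' (i j : Fin 3) (q : MvPolynomial (Fin 3) ℂ) :
    MvPolynomial.pderiv i (MvPolynomial.pderiv j q) =
      MvPolynomial.pderiv j (MvPolynomial.pderiv i q) := by
  have h : ⁅(MvPolynomial.pderiv i : Derivation ℂ (MvPolynomial (Fin 3) ℂ) (MvPolynomial (Fin 3) ℂ)),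
      (MvPolynomial.pderiv j : Derivation ℂ (MvPolynomial (Fin 3) ℂ) (MvPolynomial (Fin 3) ℂ))⁆ = 0 := by
    apply MvPolynomial.derivation_ext
    intro k
    rw [Derivation.commutator_apply]
    simp only [MvPolynomial.pderiv_X, Pi.single_apply]
    split_ifs <;> simp
  have h2 := congrArg (fun D => D q) h
  simp only [Derivation.commutator_apply, Derivation.coe_zero, Pi.zero_apply] at h2
  exact sub_eq_zero.mp h2

theorem low_const (k : ℕ) (g : MvPolynomial (Fin 3) ℂ) (hk : 0 < k) (hg : g.IsHomogeneous k)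
    (hh : ∑ i, MvPolynomial.pderiv i (MvPolynomial.pderiv i g) = 0) : Iq g = 0 := by
  have h1 := congrArg Iq hg.sum_X_mul_pderiv
  rw [Iq_sum] at h1
  simp only [Iq_X] at h1
  rw [← Finset.mul_sum, ← Iq_sum, hh, Iq_zero, mul_zero] at h1
  have h2 : (k • g : MvPolynomial (Fin 3) ℂ) = MvPolynomial.C ((k : ℕ) : ℂ) * g := by
    rw [nsmul_eq_mul]
    simp
  rw [h2, Iq_C] at h1
  rcases mul_eq_zero.mp h1.symm with h | h
  · exfalso
    rw [Nat.cast_eq_zero] at h
    omega
  · exact h

theorem low_mono (d : ℕ) : ∀ (m : Fin 3 →₀ ℕ), m.degree = d → ∀ (k : ℕ)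
    (g : MvPolynomial (Fin 3) ℂ), d < k → g.IsHomogeneous k →
    ∑ i, MvPolynomial.pderiv i (MvPolynomial.pderiv i g) = 0 →
    Iq (MvPolynomial.monomial m 1 * g) = 0 := by
  induction d using Nat.strong_induction_on with
  | _ d ih =>
    intro m hm k g hdk hg hh
    by_cases hm0 : m = 0
    · subst hm0
      have h1 : (MvPolynomial.monomial (0 : Fin 3 →₀ ℕ) (1 : ℂ)) = 1 := rfl
      rw [h1, one_mul]
      exact low_const k g (by omega) hg hh
    · obtain ⟨i, hi⟩ : ∃ i, m i ≠ 0 := by
        by_contra h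
        push Not at h
        exact hm0 (Finsupp.ext h)
      obtain ⟨m', rfl⟩ : ∃ m', m = Finsupp.single i 1 + m' := by
        refine ⟨m - Finsupp.single i 1, ?_⟩
        rw [add_tsub_cancel_of_le]
        rw [Finsupp.single_le_iff]
        omega
      have hdeg : d = 1 + m'.degree := by
        rw [← hm, map_add, Finsupp.degree_single]
      have h1 : (MvPolynomial.monomial (Finsupp.single i 1 + m') (1 : ℂ)) =
          MvPolynomial.X i * MvPolynomial.monomial m' 1 := by
        rw [MvPolynomial.X, MvPolynomial.monomial_mul, one_mul]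
      rw [h1, mul_assoc, Iq_X, Derivation.leibniz, Iq_add]
      have h2 : Iq (MvPolynomial.monomial m' (1 : ℂ) • MvPolynomial.pderiv i g) = 0 := by
        rw [smul_eq_mul]
        refine ih m'.degree (by omega) m' rfl (k - 1) _ (by omega) ?_ ?_
        · exact hg.pderiv
        · have : ∑ j, MvPolynomial.pderiv j (MvPolynomial.pderiv j (MvPolynomial.pderiv i g)) =
              MvPolynomial.pderiv i (∑ j, MvPolynomial.pderiv j (MvPolynomial.pderiv j g)) := by
            rw [map_sum]
            refine Finset.sum_congr rfl fun j _ => ?_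
            rw [pderiv_comm' j i g, pderiv_comm' j i]
          rw [this, hh, map_zero]
      have h3 : Iq (g • MvPolynomial.pderiv i (MvPolynomial.monomial m' (1 : ℂ))) = 0 := by
        rw [smul_eq_mul, MvPolynomial.pderiv_monomial]
        have e : g * MvPolynomial.monomial (m' - Finsupp.single i 1) (1 * ((m' i : ℕ) : ℂ)) =
            MvPolynomial.C ((m' i : ℕ) : ℂ) *
              (MvPolynomial.monomial (m' - Finsupp.single i 1) 1 * g) := by
          rw [← mul_assoc, MvPolynomial.C_mul_monomial, mul_one, one_mul, mul_comm]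
        rw [e, Iq_C]
        have hle : (m' - Finsupp.single i 1).degree ≤ m'.degree :=
          Finsupp.degree_mono tsub_le_self
        rw [ih (m' - Finsupp.single i 1).degree (by omega) _ rfl k g (by omega) hg hh, mul_zero]
      rw [h2, h3]
      ring

-- ===== TARGET (prove this; the lemmas above may be used with their sorry) =====
/-- a harmonic homogeneous polynomial of degree `k` is orthogonal to lower degree -/
theorem low (k : ℕ) (g p : MvPolynomial (Fin 3) ℂ) (hg : g.IsHomogeneous k)
    (hh : ∑ i, MvPolynomial.pderiv i (MvPolynomial.pderiv i g) = 0) (hp : p.totalDegree < k) :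
    ∫ y : E, ev (p * g) y * ((Real.exp (-‖y‖ ^ 2) : ℝ) : ℂ) = 0 := by
  change Iq (p * g) = 0
  conv_lhs => rw [p.as_sum, Finset.sum_mul, Iq_sum]
  refine Finset.sum_eq_zero fun m hm => ?_
  have e : MvPolynomial.monomial m (p.coeff m) * g =
      MvPolynomial.C (p.coeff m) * (MvPolynomial.monomial m 1 * g) := by
    rw [← mul_assoc, MvPolynomial.C_mul_monomial, mul_one]
  rw [e, Iq_C, low_mono m.degree m rfl k g ?_ hg hh, mul_zero]
  refine lt_of_le_of_lt ?_ hp
  exact MvPolynomial.le_totalDegree hm

end Pool.Agent.Helper442.DR
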