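import Mathlib
import Pool.Agent.Helper442.DR.Defs
import Pool.Agent.Helper442.DR.G1a
import Pool.Agent.Helper442.DR.G1c
import Pool.Agent.Helper442.DR.G1b
import Pool.Agent.Helper442.DR.G2a

open MeasureTheory Set Metric Real
open scoped ENNReal

namespace Pool.Agent.Helper442.DR














-- ===== TARGET (prove this; the lemmas above may be used with their sorry) =====
theorem low_sphere (k : ℕ) (g p : MvPolynomial (Fin 3) ℂ) (hg : g.IsHomogeneous k)
    (hh : ∑ i, MvPolynomial.pderiv i (MvPolynomial.pderiv i g) = 0) (hp : p.totalDegree < k) :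
    ∫ y : S, ev p (y : E) * ev g (y : E) ∂sig = 0 := by
  classical
  haveI : IsFiniteMeasure sig := by unfold sig; infer_instance
  have hc : ∀ d : ℕ, (∫ r in Ioi (0 : ℝ), r ^ (d + 2) * Real.exp (-r ^ 2)) ≠ 0 := by
    intro d
    have h1 := integral_rpow_mul_exp_neg_rpow (p := 2) (q := ((d + 2 : ℕ) : ℝ)) (by norm_num)
      (by have : (0:ℝ) ≤ ((d + 2 : ℕ) : ℝ) := Nat.cast_nonneg _
          linarith)
    have h2 : (∫ r in Ioi (0 : ℝ), r ^ (d + 2) * Real.exp (-r ^ 2)) =
        ∫ (x : ℝ) in Ioi 0, x ^ (((d + 2 : ℕ) : ℝ)) * rexp (-x ^ (2:ℝ)) := by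
      refine setIntegral_congr_fun measurableSet_Ioi (fun x _ => ?_)
      simp only [Real.rpow_natCast]
      rw [← Real.rpow_natCast x 2]
      norm_num
    rw [h2, h1]
    apply mul_ne_zero (by norm_num)
    apply (Real.Gamma_pos_of_pos _).ne'
    positivity
  have hcont : ∀ q : MvPolynomial (Fin 3) ℂ, Continuous (fun y : S => ev q (y : E)) := by
    intro q
    unfold ev
    have h1 : Continuous (fun z : Fin 3 → ℂ => MvPolynomial.eval z q) := MvPolynomial.continuous_eval q
    have h2 : Continuous (fun y : S => (fun i : Fin 3 => (((y : E) i : ℝ) : ℂ))) := by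
      apply continuous_pi
      intro i
      fun_prop
    exact h1.comp h2
  have hmul : ∀ (a b : MvPolynomial (Fin 3) ℂ) (y : E), ev (a * b) y = ev a y * ev b y := by
    intro a b y
    simp [ev]
  have hcomp : ∀ i ∈ Finset.range (p.totalDegree + 1),
      ∫ y : S, ev (MvPolynomial.homogeneousComponent i p) (y : E) * ev g (y : E) ∂sig = 0 := by
    intro i hi
    rw [Finset.mem_range] at hi
    have hhom : (MvPolynomial.homogeneousComponent i p).IsHomogeneous i :=
      MvPolynomial.homogeneousComponent_isHomogeneous i p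
    have h1 := low k g (MvPolynomial.homogeneousComponent i p) hg hh
      (lt_of_le_of_lt hhom.totalDegree_le (by omega))
    rw [gauss_polar (i + k) _ (hhom.mul hg)] at h1
    rcases mul_eq_zero.mp h1 with h | h
    · exact absurd (Complex.ofReal_eq_zero.mp h) (hc _)
    · rw [← h]
      refine integral_congr_ae (Filter.Eventually.of_forall (fun y => ?_))
      simp only [hmul]
  have hsum : ∀ y : S, ev p (y : E) * ev g (y : E) = ∑ i ∈ Finset.range (p.totalDegree + 1),
      ev (MvPolynomial.homogeneousComponent i p) (y : E) * ev g (y : E) := by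
    intro y
    rw [← Finset.sum_mul]
    congr 1
    conv_lhs => rw [← MvPolynomial.sum_homogeneousComponent p]
    unfold ev
    rw [map_sum]
  simp_rw [hsum]
  rw [integral_finset_sum]
  · exact Finset.sum_eq_zero hcomp
  · intro i _
    have h3 : Continuous (fun y : S => ev (MvPolynomial.homogeneousComponent i p) (y : E) * ev g (y : E)) :=
      (hcont _).mul (hcont g)
    haveI : CompactSpace S := isCompact_iff_compactSpace.mp (isCompact_sphere (0 : E) 1)
    exact h3.integrable_of_hasCompactSupport (HasCompactSupport.of_compactSpace _)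

end Pool.Agent.Helper442.DR
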