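import Mathlib
import Pool.Agent.Helper442.DR.Defs
import Pool.Agent.Helper442.DR.G1a
import Pool.Agent.Helper442.DR.G1c
import Pool.Agent.Helper442.DR.G1b
import Pool.Agent.Helper442.DR.G2a
import Pool.Agent.Helper442.DR.G2c

open MeasureTheory Set Metric Real
open scoped ENNReal

namespace Pool.Agent.Helper442.DR

















section powk
open MvPolynomial

theorem pd_comm (i j : Fin 3) (f : MvPolynomial (Fin 3) ℂ) :
    pderiv i (pderiv j f) = pderiv j (pderiv i f) := by
  have h : ⁅(pderiv i : Derivation ℂ (MvPolynomial (Fin 3) ℂ) (MvPolynomial (Fin 3) ℂ)),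
      (pderiv j : Derivation ℂ (MvPolynomial (Fin 3) ℂ) (MvPolynomial (Fin 3) ℂ))⁆ = 0 := by
    apply MvPolynomial.derivation_ext
    intro k
    rw [Derivation.commutator_apply]
    simp only [MvPolynomial.pderiv_X, Pi.single_apply]
    split_ifs <;> simp [MvPolynomial.pderiv_one]
  have h2 := congrArg (fun D => D f) h
  simpa [Derivation.commutator_apply, sub_eq_zero] using h2

noncomputable def GI (q : MvPolynomial (Fin 3) ℂ) : ℂ :=
  ∫ y : E, ev q y * ((Real.exp (-‖y‖ ^ 2) : ℝ) : ℂ)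

theorem GI_add (p q : MvPolynomial (Fin 3) ℂ) : GI (p + q) = GI p + GI q := by
  unfold GI
  rw [← integral_add (gauss_integrable p) (gauss_integrable q)]
  congr 1; funext y
  simp [ev, add_mul]

theorem GI_zero : GI 0 = 0 := by
  unfold GI; simp [ev]

theorem GI_C_mul (c : ℂ) (q : MvPolynomial (Fin 3) ℂ) : GI (C c * q) = c * GI q := by
  unfold GI
  rw [← integral_const_mul]
  congr 1; funext y
  simp [ev, mul_assoc]

theorem GI_sum (f : Fin 3 → MvPolynomial (Fin 3) ℂ) : GI (∑ i, f i) = ∑ i, GI (f i) := by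
  simp [Fin.sum_univ_three, GI_add]

theorem GI_X (i : Fin 3) (q : MvPolynomial (Fin 3) ℂ) :
    GI (X i * q) = (1 / 2) * GI (pderiv i q) := by
  unfold GI
  rw [← gauss_parts i q]
  congr 1; funext y
  simp [ev]

noncomputable def Lx (x : S) : MvPolynomial (Fin 3) ℂ := ∑ i, C ((((x : E) i : ℝ)) : ℂ) * X i

theorem Lx_hom (x : S) : (Lx x).IsHomogeneous 1 := by
  unfold Lx
  apply IsHomogeneous.sum
  intro i _
  have := (isHomogeneous_C (Fin 3) ((((x : E) i : ℝ)) : ℂ)).mul (isHomogeneous_X ℂ i)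
  simpa using this

noncomputable def Dx (x : S) (g : MvPolynomial (Fin 3) ℂ) : MvPolynomial (Fin 3) ℂ :=
  ∑ i, C ((((x : E) i : ℝ)) : ℂ) * pderiv i g

theorem GI_pow (x : S) : ∀ (k : ℕ) (g : MvPolynomial (Fin 3) ℂ), g.IsHomogeneous k →
    ∑ i, pderiv i (pderiv i g) = 0 →
    GI (Lx x ^ k * g) = ((k.factorial : ℂ) / 2 ^ k) * ev g (x : E) * GI 1 := by
  intro k
  induction k with
  | zero =>
    intro g hg _
    obtain ⟨c, rfl⟩ : ∃ c, g = C c := by
      refine ⟨coeff 0 g, ?_⟩
      exact (totalDegree_eq_zero_iff_eq_C).mp (Nat.le_zero.mp hg.totalDegree_le)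
    have : GI (C c) = c * GI 1 := by
      rw [← GI_C_mul, mul_one]
    simp [this, ev]
  | succ k ih =>
    intro g hg hh
    have hDhom : (Dx x g).IsHomogeneous k := by
      unfold Dx
      apply IsHomogeneous.sum
      intro i _
      have := (isHomogeneous_C (Fin 3) ((((x : E) i : ℝ)) : ℂ)).mul (hg.pderiv (i := i))
      simpa using this
    have hDharm : ∑ i, pderiv i (pderiv i (Dx x g)) = 0 := by
      have e1 : ∀ i, pderiv i (pderiv i (Dx x g)) =
          ∑ j, C ((((x : E) j : ℝ)) : ℂ) * pderiv j (pderiv i (pderiv i g)) := by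
        intro i
        unfold Dx
        simp only [map_sum, pderiv_C_mul]
        refine Finset.sum_congr rfl fun j _ => ?_
        rw [pd_comm i j g, pd_comm i j (pderiv i g)]
      simp only [e1]
      rw [Finset.sum_comm]
      have e2 : ∀ j, ∑ i, C ((((x : E) j : ℝ)) : ℂ) * pderiv j (pderiv i (pderiv i g)) = 0 := by
        intro j
        rw [← Finset.mul_sum, ← map_sum, hh, map_zero, mul_zero]
      simp [e2]
    have hev : ev (Dx x g) (x : E) = ((k + 1 : ℕ) : ℂ) * ev g (x : E) := by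
      have he := hg.sum_X_mul_pderiv
      have := congrArg (fun q => ev q (x : E)) he
      simp only [ev, map_sum, map_mul, eval_X, map_nsmul] at this
      unfold Dx
      simp only [ev, map_sum, map_mul, eval_C]
      rw [this, nsmul_eq_mul]
    have hstep : GI (Lx x ^ (k + 1) * g) = (1 / 2) * GI (Lx x ^ k * Dx x g) := by
      have e0 : Lx x ^ (k + 1) * g =
          ∑ i, C ((((x : E) i : ℝ)) : ℂ) * (X i * (Lx x ^ k * g)) := by
        rw [pow_succ]
        nth_rewrite 2 [Lx]
        rw [Finset.mul_sum, Finset.sum_mul]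
        refine Finset.sum_congr rfl fun i _ => ?_
        ring
      rw [e0, GI_sum]
      have e1 : ∀ i, GI (C ((((x : E) i : ℝ)) : ℂ) * (X i * (Lx x ^ k * g))) =
          (1 / 2) * GI (Lx x ^ k * (C ((((x : E) i : ℝ)) : ℂ) * pderiv i g)) := by
        intro i
        rw [GI_C_mul, GI_X, pderiv_mul, GI_add]
        have hz : GI (pderiv i (Lx x ^ k) * g) = 0 := by
          apply low (k + 1) g _ hg hh
          have h1 : (Lx x ^ k).IsHomogeneous k := by
            have := (Lx_hom x).pow k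
            simpa using this
          have := (h1.pderiv (i := i)).totalDegree_le
          omega
        rw [hz, zero_add]
        have : Lx x ^ k * (C ((((x : E) i : ℝ)) : ℂ) * pderiv i g) =
            C ((((x : E) i : ℝ)) : ℂ) * (Lx x ^ k * pderiv i g) := by ring
        rw [this, GI_C_mul]
        ring
      simp only [e1]
      rw [← Finset.mul_sum, ← GI_sum, ← Finset.mul_sum]
      rfl
    rw [hstep, ih _ hDhom hDharm, hev, Nat.factorial_succ]
    push_cast
    field_simp
    ring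

theorem rad (k : ℕ) : ∫ r in Ioi (0 : ℝ), r ^ (2 * k + 2) * Real.exp (-r ^ 2) =
    (((2 * k + 1).doubleFactorial : ℝ) / 2 ^ k) * ∫ r in Ioi (0 : ℝ), r ^ (0 + 2) * Real.exp (-r ^ 2) := by
  have key : ∀ m : ℕ, ∫ r in Ioi (0 : ℝ), r ^ m * Real.exp (-r ^ 2) =
      (1 / 2) * Real.Gamma ((m + 1) / 2) := by
    intro m
    have := integral_rpow_mul_exp_neg_rpow (p := 2) (q := m) (by norm_num)
      (by have : (0:ℝ) ≤ m := Nat.cast_nonneg m
          linarith)
    rw [← this]
    refine setIntegral_congr_fun measurableSet_Ioi (fun r hr => ?_)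
    simp only [Real.rpow_natCast]
    rw [show (2:ℝ) = ((2:ℕ):ℝ) by norm_num, Real.rpow_natCast]
  rw [key, key]
  have g1 := Real.Gamma_nat_add_one_add_half k
  have g0 := Real.Gamma_nat_add_one_add_half 0
  have e1 : (((2 * k + 2 : ℕ) : ℝ) + 1) / 2 = (k : ℝ) + 1 + 1 / 2 := by push_cast; ring
  have e0 : (((0 + 2 : ℕ) : ℝ) + 1) / 2 = ((0 : ℕ) : ℝ) + 1 + 1 / 2 := by push_cast; ring
  rw [e1, e0, g1, g0]
  simp
  field_simp
  ring

theorem sig_univ : ∫ _y : S, (1 : ℂ) ∂sig = ((4 * π : ℝ) : ℂ) := by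
  rw [integral_const]
  have h : sig.real univ = 4 * π := by
    unfold sig
    rw [Measure.toSphere_real_apply_univ]
    rw [Measure.real, EuclideanSpace.volume_ball_fin_three]
    simp [ENNReal.toReal_mul]
    rw [ENNReal.toReal_ofReal (by positivity)]
    ring
  rw [h]
  simp

end powk

/-- Hecke's formula for the `k`-th power -/
theorem pow_k (k : ℕ) (g : MvPolynomial (Fin 3) ℂ) (hg : g.IsHomogeneous k)
    (hh : ∑ i, MvPolynomial.pderiv i (MvPolynomial.pderiv i g) = 0) (x : S) :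
    ∫ y : S, ((dot x y ^ k : ℝ) : ℂ) * ev g (y : E) ∂sig =
      ((4 * π * (k.factorial : ℝ) / ((2 * k + 1).doubleFactorial : ℝ) : ℝ) : ℂ) * ev g (x : E) := by
  have h1 := GI_pow x k g hg hh
  have hhom : (Lx x ^ k * g).IsHomogeneous (2 * k) := by
    have := ((Lx_hom x).pow k).mul hg
    rw [show 2 * k = 1 * k + k by ring]
    exact this
  have h2 := gauss_polar (2 * k) _ hhom
  have h3 := gauss_polar 0 1 (MvPolynomial.isHomogeneous_one _ _)
  have hev1 : ∀ y : S, ev 1 (y : E) = 1 := by intro y; simp [ev]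
  simp only [hev1] at h3
  rw [sig_univ] at h3
  have hevL : ∀ y : S, ev (Lx x ^ k * g) (y : E) = ((dot x y ^ k : ℝ) : ℂ) * ev g (y : E) := by
    intro y
    simp [ev, Lx, dot]
  simp only [hevL] at h2
  have hpos : (0:ℝ) < ∫ r in Ioi (0 : ℝ), r ^ (0 + 2) * Real.exp (-r ^ 2) := by
    have key := integral_rpow_mul_exp_neg_rpow (p := 2) (q := 2) (by norm_num) (by norm_num)
    have : ∫ r in Ioi (0 : ℝ), r ^ (0 + 2) * Real.exp (-r ^ 2) = (1 / 2) * Real.Gamma ((2 + 1) / 2) := by
      rw [← key]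
      refine setIntegral_congr_fun measurableSet_Ioi (fun r hr => ?_)
      simp
    rw [this]
    have := Real.Gamma_pos_of_pos (s := (2 + 1) / 2) (by norm_num)
    positivity
  rw [rad k] at h2
  set I0 := ∫ r in Ioi (0 : ℝ), r ^ (0 + 2) * Real.exp (-r ^ 2) with hI0
  have hd : (0:ℝ) < ((2 * k + 1).doubleFactorial : ℝ) := by
    exact_mod_cast Nat.doubleFactorial_pos _
  change GI (Lx x ^ k * g) = _ at h2
  change GI 1 = _ at h3
  rw [h1, h3] at h2
  have hI0c : (I0 : ℂ) ≠ 0 := by exact_mod_cast hpos.ne'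
  have hdc : (((2 * k + 1).doubleFactorial : ℝ) : ℂ) ≠ 0 := by exact_mod_cast hd.ne'
  push_cast at h2 ⊢
  have h2k : ((2:ℂ) ^ k) ≠ 0 := pow_ne_zero _ two_ne_zero
  have hdc' : (((2 * k + 1).doubleFactorial : ℕ) : ℂ) ≠ 0 := by exact_mod_cast hd.ne'
  field_simp at h2 ⊢
  linear_combination (-1 : ℂ) * h2

end Pool.Agent.Helper442.DR
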