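import Mathlib
import Pool.Agent.Helper442.DR.Defs

open MeasureTheory Set Metric Real
open scoped ENNReal

namespace Pool.Agent.Helper442.DR




-- ===== TARGET (prove this; the lemmas above may be used with their sorry) =====
lemma w_pos581 (r : ℕ) : 0 < w r := by
  unfold w
  have := Nat.centralBinom_pos r
  positivity

lemma w_succ581 (r : ℕ) : w (r + 1) * (2 * ((r : ℝ) + 1)) = (2 * (r : ℝ) + 1) * w r := by
  unfold w
  have h := Nat.succ_mul_centralBinom_succ r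
  have h' : ((r : ℝ) + 1) * (Nat.centralBinom (r + 1) : ℝ) =
      2 * (2 * (r : ℝ) + 1) * (Nat.centralBinom r : ℝ) := by exact_mod_cast h
  have h4 : (4 : ℝ) ^ (r + 1) = 4 ^ r * 4 := pow_succ _ _
  have hp : (0 : ℝ) < 4 ^ r := by positivity
  rw [h4, div_mul_eq_mul_div, mul_div_assoc', div_eq_div_iff (by positivity) (by positivity)]
  linear_combination (2 * (4 : ℝ) ^ r) * h'

lemma w_up581 (r : ℕ) : (w r) ^ 2 * ((r : ℝ) + 1) ≤ 1 := by
  induction r with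
  | zero => simp [w]
  | succ k ih =>
    have h := w_succ581 k
    have h2 : (w (k + 1)) ^ 2 * (4 * ((k : ℝ) + 1) ^ 2) = (2 * (k : ℝ) + 1) ^ 2 * (w k) ^ 2 := by
      have e : (w (k + 1) * (2 * ((k : ℝ) + 1))) ^ 2 = ((2 * (k : ℝ) + 1) * w k) ^ 2 := by rw [h]
      linear_combination e
    have hk : (0 : ℝ) ≤ k := Nat.cast_nonneg k
    push_cast
    have h3 : ((w (k + 1)) ^ 2 * ((k : ℝ) + 1 + 1)) * (4 * ((k : ℝ) + 1) ^ 3) ≤
        1 * (4 * ((k : ℝ) + 1) ^ 3) := by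
      have e1 : ((w (k + 1)) ^ 2 * ((k : ℝ) + 1 + 1)) * (4 * ((k : ℝ) + 1) ^ 3) =
          ((2 * (k : ℝ) + 1) ^ 2 * ((k : ℝ) + 2)) * ((w k) ^ 2 * ((k : ℝ) + 1)) := by
        linear_combination (((k : ℝ) + 2) * ((k : ℝ) + 1)) * h2
      rw [e1]
      have e2 : ((2 * (k : ℝ) + 1) ^ 2 * ((k : ℝ) + 2)) * ((w k) ^ 2 * ((k : ℝ) + 1)) ≤
          ((2 * (k : ℝ) + 1) ^ 2 * ((k : ℝ) + 2)) * 1 :=
        mul_le_mul_of_nonneg_left ih (by positivity)
      nlinarith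
    exact le_of_mul_le_mul_right h3 (by positivity)

lemma w_lo581 (s : ℕ) (hs : 1 ≤ s) : 1 ≤ 4 * (s : ℝ) * (w s) ^ 2 := by
  induction s, hs using Nat.le_induction with
  | base => norm_num [w, Nat.centralBinom, Nat.choose]
  | succ k hk ih =>
    have h := w_succ581 k
    have h2 : (w (k + 1)) ^ 2 * (4 * ((k : ℝ) + 1) ^ 2) = (2 * (k : ℝ) + 1) ^ 2 * (w k) ^ 2 := by
      have e : (w (k + 1) * (2 * ((k : ℝ) + 1))) ^ 2 = ((2 * (k : ℝ) + 1) * w k) ^ 2 := by rw [h]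
      linear_combination e
    have hk0 : (0 : ℝ) < k := by exact_mod_cast hk
    push_cast
    have h3 : 1 * (4 * (k : ℝ) * ((k : ℝ) + 1)) ≤
        (4 * ((k : ℝ) + 1) * (w (k + 1)) ^ 2) * (4 * (k : ℝ) * ((k : ℝ) + 1)) := by
      have e1 : (4 * ((k : ℝ) + 1) * (w (k + 1)) ^ 2) * (4 * (k : ℝ) * ((k : ℝ) + 1)) =
          (2 * (k : ℝ) + 1) ^ 2 * (4 * (k : ℝ) * (w k) ^ 2) := by
        linear_combination (4 * (k : ℝ)) * h2
      rw [e1]
      have e2 : (2 * (k : ℝ) + 1) ^ 2 * 1 ≤ (2 * (k : ℝ) + 1) ^ 2 * (4 * (k : ℝ) * (w k) ^ 2) :=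
        mul_le_mul_of_nonneg_left ih (by positivity)
      nlinarith
    exact le_of_mul_le_mul_right h3 (by positivity)

lemma w_sqrt581 (r : ℕ) : w r * √((r : ℝ) + 1) ≤ 1 := by
  have h1 := w_up581 r
  have h2 : (w r * √((r : ℝ) + 1)) ^ 2 ≤ 1 := by
    rw [mul_pow, Real.sq_sqrt (by positivity)]
    exact h1
  have h3 : 0 ≤ w r * √((r : ℝ) + 1) := mul_nonneg (w_pos581 r).le (Real.sqrt_nonneg _)
  nlinarith

theorem c2_pos (n m r : ℕ) : 0 < c2 n m r := by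
  unfold c2 ad
  have h1 := w_pos581 r
  have h2 := w_pos581 (n - r)
  have h3 := w_pos581 (m - r)
  have h4 := w_pos581 (n + m - r)
  positivity

theorem c2_le (N n m r : ℕ) (hN : 1 ≤ N) (hn : N ≤ n) (hn2 : n < 2 * N) (hm : N ≤ m) (hm2 : m < 2 * N)
    (hr : r ≤ min n m) :
    c2 n m r ≤ 4 * (N : ℝ) ^ (3 / 2 : ℝ) / √(((r : ℝ) + 1) * (((n - r : ℕ) : ℝ) + 1) * (((m - r : ℕ) : ℝ) + 1)) := by
  have hrn : r ≤ n := hr.trans (min_le_left _ _)
  have hrm : r ≤ m := hr.trans (min_le_right _ _)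
  have hs : N ≤ n + m - r := by omega
  have hNpos : (0 : ℝ) < N := by exact_mod_cast hN
  have hNs : (N : ℝ) ≤ ((n + m - r : ℕ) : ℝ) := by exact_mod_cast hs
  have hd := w_lo581 (n + m - r) (hN.trans hs)
  have hdpos := w_pos581 (n + m - r)
  have ha := w_sqrt581 r
  have hb := w_sqrt581 (n - r)
  have hc := w_sqrt581 (m - r)
  have ha0 := w_pos581 r
  have hb0 := w_pos581 (n - r)
  have hc0 := w_pos581 (m - r)
  have hP : (0 : ℝ) < ((n - r : ℕ) : ℝ) + 1 := by positivity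
  have hQ : (0 : ℝ) < ((m - r : ℕ) : ℝ) + 1 := by positivity
  have hR : (0 : ℝ) < (r : ℝ) + 1 := by positivity
  unfold c2 ad
  generalize ((n + m - r : ℕ) : ℝ) = s at hNs hd ⊢
  generalize w (n + m - r) = d at hd hdpos ⊢
  generalize ((n - r : ℕ) : ℝ) + 1 = P at *
  generalize ((m - r : ℕ) : ℝ) + 1 = Q at *
  generalize (r : ℝ) + 1 = R at *
  generalize w r = a at *
  generalize w (n - r) = b at *
  generalize w (m - r) = c at *
  have hspos : 0 < s := lt_of_lt_of_le hNpos hNs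
  obtain ⟨q, hq⟩ : ∃ q, q = √(N : ℝ) := ⟨_, rfl⟩
  have hqpos : 0 < q := by rw [hq]; exact Real.sqrt_pos.2 hNpos
  have hqq : q * q = N := by rw [hq]; exact Real.mul_self_sqrt hNpos.le
  have hN32 : (N : ℝ) ^ (3 / 2 : ℝ) = N * q := by
    rw [show (3 / 2 : ℝ) = 1 + 1 / 2 by norm_num, Real.rpow_add hNpos, Real.rpow_one,
      ← Real.sqrt_eq_rpow, hq]
  have hY : q ≤ d * (2 * s + 1) := by
    rw [hq, Real.sqrt_le_iff]
    refine ⟨by positivity, hNs.trans ?_⟩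
    have e1 : s * 1 ≤ s * (4 * s * d ^ 2) := mul_le_mul_of_nonneg_left hd hspos.le
    have e2 : (d * (2 * s + 1)) ^ 2 = s * (4 * s * d ^ 2) + d ^ 2 * (4 * s + 1) := by ring
    rw [e2]
    have e3 : 0 ≤ d ^ 2 * (4 * s + 1) := by positivity
    linarith
  have hsq : √(R * P * Q) = √R * √P * √Q := by
    rw [Real.sqrt_mul (by positivity), Real.sqrt_mul (by positivity)]
  have hX : (a * √R) * (b * √P) * (c * √Q) ≤ 1 := by
    have e1 : (a * √R) * (b * √P) ≤ 1 := by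
      have := mul_le_mul ha hb (by positivity) zero_le_one
      simpa using this
    have := mul_le_mul e1 hc (by positivity) zero_le_one
    simpa using this
  have hK : (2 * (n : ℝ) + 1) * (2 * m + 1) / (4 * π) ≤ 4 * (N : ℝ) ^ 2 := by
    have h1 : 2 * (n : ℝ) + 1 ≤ 4 * N := by
      have : 2 * n + 1 ≤ 4 * N := by omega
      exact_mod_cast this
    have h2 : 2 * (m : ℝ) + 1 ≤ 4 * N := by
      have : 2 * m + 1 ≤ 4 * N := by omega
      exact_mod_cast this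
    have h3 : (2 * (n : ℝ) + 1) * (2 * m + 1) ≤ (4 * N) * (4 * N) :=
      mul_le_mul h1 h2 (by positivity) (by positivity)
    have hpi : (1 : ℝ) ≤ π := by linarith [Real.pi_gt_three]
    rw [div_le_iff₀ (by positivity)]
    have h4 : 4 * (N : ℝ) ^ 2 * (4 * 1) ≤ 4 * (N : ℝ) ^ 2 * (4 * π) := by gcongr
    nlinarith
  rw [le_div_iff₀ (Real.sqrt_pos.2 (by positivity)), hsq, hN32]
  have e1 : (2 * (n : ℝ) + 1) * (2 * m + 1) / (4 * π) * (a * b * c / (d * (2 * s + 1))) *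
      (√R * √P * √Q) = ((2 * (n : ℝ) + 1) * (2 * m + 1) / (4 * π)) *
        (((a * √R) * (b * √P) * (c * √Q)) / (d * (2 * s + 1))) := by ring
  rw [e1]
  have e2 : ((a * √R) * (b * √P) * (c * √Q)) / (d * (2 * s + 1)) ≤ 1 / q :=
    div_le_div₀ zero_le_one hX hqpos hY
  calc ((2 * (n : ℝ) + 1) * (2 * m + 1) / (4 * π)) *
        (((a * √R) * (b * √P) * (c * √Q)) / (d * (2 * s + 1))) ≤
        (4 * (N : ℝ) ^ 2) * (1 / q) := mul_le_mul hK e2 (by positivity) (by positivity)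
    _ = 4 * (N * q) := by
        rw [← hqq]
        field_simp

end Pool.Agent.Helper442.DR
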