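import Mathlib
import Pool.Agent.Helper442.DR.Defs
import Pool.Agent.Helper442.DR.N0
import Pool.Agent.Helper442.DR.N1
import Pool.Agent.Helper442.DR.N2
import Pool.Agent.Helper442.DR.N3

open MeasureTheory Set Metric Real
open scoped ENNReal

namespace Pool.Agent.Helper442.DR
















-- ===== TARGET (prove this; the lemmas above may be used with their sorry) =====
theorem ssc_count (A : Finset (ℕ × ℕ)) (s : ℕ) (hs : ∀ p ∈ A, p.1 + p.2 = s) (D0 : ℕ) (L : ℝ)
    (hL : 0 ≤ L) (h : ∀ p ∈ A, D0 ≤ dd p ∧ (dd p : ℝ) ≤ D0 + L) :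
    (A.card : ℝ) ≤ 2 * (L + 1) := by
  have h1 : A.card ≤ (Finset.range (⌊L⌋₊ + 1) ×ˢ (Finset.univ : Finset Bool)).card := by
    apply Finset.card_le_card_of_injOn (fun p : ℕ × ℕ => (dd p - D0, decide (p.1 ≤ p.2)))
    · intro p hp
      have hp' : p ∈ A := by simpa using hp
      obtain ⟨h2, h3⟩ := h p hp'
      have h4 : ((dd p - D0 : ℕ) : ℝ) ≤ L := by
        rw [Nat.cast_sub h2]; linarith
      have h5 : dd p - D0 ≤ ⌊L⌋₊ := Nat.le_floor h4
      simp only [Finset.coe_product, Set.mem_prod, Finset.coe_range, Set.mem_Iio,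
        Finset.coe_univ, Set.mem_univ, and_true]
      omega
    · intro p hp q hq hpq
      have hp' : p ∈ A := by simpa using hp
      have hq' : q ∈ A := by simpa using hq
      obtain ⟨h2, _⟩ := h p hp'
      obtain ⟨h3, _⟩ := h q hq'
      have h4 := hs p hp'
      have h5 := hs q hq'
      simp only [Prod.mk.injEq] at hpq
      obtain ⟨h6, h7⟩ := hpq
      have h8 : (p.1 ≤ p.2 ↔ q.1 ≤ q.2) := by
        simpa using h7
      have h9 : dd p = dd q := by omega
      unfold dd at h9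
      apply Prod.ext
      · rcases le_total p.1 p.2 with h10 | h10
        · have h11 := h8.1 h10
          rw [max_eq_right h10, min_eq_left h10, max_eq_right h11, min_eq_left h11] at h9
          omega
        · rcases le_total q.1 q.2 with h11 | h11
          · have h12 := h8.2 h11
            rw [max_eq_right h12, min_eq_left h12, max_eq_right h11, min_eq_left h11] at h9
            omega
          · rw [max_eq_left h10, min_eq_right h10, max_eq_left h11, min_eq_right h11] at h9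
            omega
      · rcases le_total p.1 p.2 with h10 | h10
        · have h11 := h8.1 h10
          rw [max_eq_right h10, min_eq_left h10, max_eq_right h11, min_eq_left h11] at h9
          omega
        · rcases le_total q.1 q.2 with h11 | h11
          · have h12 := h8.2 h11
            rw [max_eq_right h12, min_eq_left h12, max_eq_right h11, min_eq_left h11] at h9
            omega
          · rw [max_eq_left h10, min_eq_right h10, max_eq_left h11, min_eq_right h11] at h9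
            omega
  have h2 : (Finset.range (⌊L⌋₊ + 1) ×ˢ (Finset.univ : Finset Bool)).card = (⌊L⌋₊ + 1) * 2 := by
    simp
  rw [h2] at h1
  have h3 : (A.card : ℝ) ≤ ((⌊L⌋₊ : ℝ) + 1) * 2 := by exact_mod_cast h1
  have h4 : (⌊L⌋₊ : ℝ) ≤ L := Nat.floor_le hL
  linarith

theorem ssc_cmp (c : ℝ) (hc : 0 < c)
    (H : ∀ (N n m n' m' : ℕ), 2 ≤ N → N ≤ n' → n' ≤ n → n ≤ m → m ≤ m' →
      m' ≤ 2 * N → n + m = n' + m' →
      c * (((m' : ℝ) - n') ^ 2 - ((m : ℝ) - n) ^ 2) / √N ≤ Lam n' + Lam m' - Lam n - Lam m)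
    (N : ℕ) (b : ℤ) (s : ℕ) (hN : 2 ≤ N) (p q : ℕ × ℕ) (hp : p ∈ band N b) (hq : q ∈ band N b)
    (hps : p.1 + p.2 = s) (hqs : q.1 + q.2 = s) (hd : dd p ≤ dd q) :
    (dd q : ℝ) ^ 2 - (dd p : ℝ) ^ 2 ≤ √N / c := by
  unfold band at hp hq
  simp only [Finset.mem_filter, Finset.mem_product, Finset.mem_Ico] at hp hq
  obtain ⟨⟨⟨hp1, hp2⟩, hp3, hp4⟩, hpb⟩ := hp
  obtain ⟨⟨⟨hq1, hq2⟩, hq3, hq4⟩, hqb⟩ := hq
  have hsym : ∀ r : ℕ × ℕ, Lam (min r.1 r.2) + Lam (max r.1 r.2) = Lam r.1 + Lam r.2 := by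
    intro r
    rcases le_total r.1 r.2 with h | h
    · rw [min_eq_left h, max_eq_right h]
    · rw [min_eq_right h, max_eq_left h, add_comm]
  have hmm : ∀ r : ℕ × ℕ, min r.1 r.2 + max r.1 r.2 = r.1 + r.2 := fun r => min_add_max r.1 r.2
  have hle : ∀ r : ℕ × ℕ, min r.1 r.2 ≤ max r.1 r.2 := fun r => min_le_max
  have hdd : ∀ r : ℕ × ℕ, (dd r : ℝ) = ((max r.1 r.2 : ℕ) : ℝ) - ((min r.1 r.2 : ℕ) : ℝ) := by
    intro r
    unfold dd
    rw [Nat.cast_sub (hle r)]
  have hddn : ∀ r : ℕ × ℕ, dd r = max r.1 r.2 - min r.1 r.2 := fun r => rfl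
  have e1 := hmm p
  have e2 := hmm q
  have e3 := hle p
  have e4 := hle q
  have e5 := hddn p
  have e6 := hddn q
  have hNq : N ≤ min q.1 q.2 := le_min hq1 hq3
  have hNq2 : max q.1 q.2 ≤ 2 * N := max_le (by omega) (by omega)
  have g1 : min q.1 q.2 ≤ min p.1 p.2 := by omega
  have g2 : max p.1 p.2 ≤ max q.1 q.2 := by omega
  have h1 := H N (min p.1 p.2) (max p.1 p.2) (min q.1 q.2) (max q.1 q.2) hN hNq g1 e3 g2 hNq2
    (by omega)
  rw [← hdd p, ← hdd q] at h1
  have h2 : Lam (min q.1 q.2) + Lam (max q.1 q.2) - Lam (min p.1 p.2) - Lam (max p.1 p.2) =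
      (Lam q.1 + Lam q.2) - (Lam p.1 + Lam p.2) := by
    have := hsym p
    have := hsym q
    linarith
  rw [h2] at h1
  have h3 : (b : ℝ) ≤ Lam p.1 + Lam p.2 := by
    rw [← hpb]; exact Int.floor_le _
  have h4 : Lam q.1 + Lam q.2 < b + 1 := by
    rw [← hqb]; exact Int.lt_floor_add_one _
  have h5 : c * ((dd q : ℝ) ^ 2 - (dd p : ℝ) ^ 2) / √N ≤ 1 := by linarith
  have hN0 : 0 < √(N : ℝ) := Real.sqrt_pos.2 (by exact_mod_cast (by omega : 0 < N))
  rw [div_le_one hN0] at h5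
  rw [le_div_iff₀ hc]
  linarith

/-- (C2) for each sum at most `C N^{1/4}` pairs, at most `C` pairs with `|n-m| ≥ √N` -/
theorem same_sum_count : ∃ C : ℝ, 0 < C ∧ ∀ (N : ℕ) (b : ℤ) (s : ℕ), 2 ≤ N →
    (((band N b).filter (fun p => p.1 + p.2 = s)).card : ℝ) ≤ C * (N : ℝ) ^ (1 / 4 : ℝ) ∧
    (((band N b).filter (fun p => p.1 + p.2 = s ∧ √N ≤ (dd p : ℝ))).card : ℝ) ≤ C := by
  obtain ⟨c, hc, H0⟩ := same_sum
  have H : ∀ (N n m n' m' : ℕ), 2 ≤ N → N ≤ n' → n' ≤ n → n ≤ m → m ≤ m' →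
      m' ≤ 2 * N → n + m = n' + m' →
      c * (((m' : ℝ) - n') ^ 2 - ((m : ℝ) - n) ^ 2) / √N ≤ Lam n' + Lam m' - Lam n - Lam m :=
    fun N n m n' m' h1 h2 h3 h4 h5 h6 h7 => (H0 N n m n' m' h1 h2 h3 h4 h5 h6 h7).1
  have hsc : 0 < √(1 / c) := Real.sqrt_pos.2 (by positivity)
  refine ⟨2 * (√(1 / c) + 1 / c + 1), by positivity, ?_⟩
  intro N b s hN
  have hN0 : (0 : ℝ) < N := by exact_mod_cast (by omega : 0 < N)
  have hN1 : (1 : ℝ) ≤ N := by exact_mod_cast (by omega : 1 ≤ N)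
  have hq1 : (1 : ℝ) ≤ (N : ℝ) ^ (1 / 4 : ℝ) := Real.one_le_rpow hN1 (by norm_num)
  have hq2 : ((N : ℝ) ^ (1 / 4 : ℝ)) ^ 2 = √N := by
    rw [Real.sqrt_eq_rpow, ← Real.rpow_natCast, ← Real.rpow_mul hN0.le]
    norm_num
  have hsN : 0 < √(N : ℝ) := Real.sqrt_pos.2 hN0
  constructor
  · set A := (band N b).filter (fun p => p.1 + p.2 = s) with hA
    rcases A.eq_empty_or_nonempty with h0 | hne
    · rw [h0]
      simp only [Finset.card_empty, Nat.cast_zero]
      positivity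
    obtain ⟨p0, hp0, hmin⟩ := Finset.exists_min_image A dd hne
    have hAm : ∀ p ∈ A, p ∈ band N b ∧ p.1 + p.2 = s := by
      intro p hp
      rw [hA, Finset.mem_filter] at hp
      exact hp
    have hL : (0:ℝ) ≤ √(1 / c) * (N : ℝ) ^ (1 / 4 : ℝ) := by positivity
    have h1 := ssc_count A s (fun p hp => (hAm p hp).2) (dd p0) (√(1 / c) * (N : ℝ) ^ (1 / 4 : ℝ)) hL
      (by
        intro p hp
        refine ⟨hmin p hp, ?_⟩
        have h2 := ssc_cmp c hc H N b s hN p0 p (hAm p0 hp0).1 (hAm p hp).1 (hAm p0 hp0).2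
          (hAm p hp).2 (hmin p hp)
        have h3 : (√(1 / c) * (N : ℝ) ^ (1 / 4 : ℝ)) ^ 2 = √N / c := by
          rw [mul_pow, Real.sq_sqrt (by positivity), hq2]
          ring
        have h4 : (0 : ℝ) ≤ dd p0 := Nat.cast_nonneg _
        have h5 : (dd p : ℝ) ^ 2 ≤ (dd p0 + √(1 / c) * (N : ℝ) ^ (1 / 4 : ℝ)) ^ 2 := by
          nlinarith [mul_nonneg h4 hL]
        exact le_of_sq_le_sq h5 (by positivity))
    refine h1.trans ?_
    have h6 : 0 < 1 / c := by positivity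
    nlinarith [mul_nonneg hsc.le (sub_nonneg.2 hq1)]
  · set A := (band N b).filter (fun p => p.1 + p.2 = s ∧ √N ≤ (dd p : ℝ)) with hA
    rcases A.eq_empty_or_nonempty with h0 | hne
    · rw [h0]
      simp only [Finset.card_empty, Nat.cast_zero]
      positivity
    obtain ⟨p0, hp0, hmin⟩ := Finset.exists_min_image A dd hne
    have hAm : ∀ p ∈ A, p ∈ band N b ∧ p.1 + p.2 = s ∧ √N ≤ (dd p : ℝ) := by
      intro p hp
      rw [hA, Finset.mem_filter] at hp
      exact hp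
    have hL : (0:ℝ) ≤ 1 / c := by positivity
    have h1 := ssc_count A s (fun p hp => (hAm p hp).2.1) (dd p0) (1 / c) hL
      (by
        intro p hp
        refine ⟨hmin p hp, ?_⟩
        have h2 := ssc_cmp c hc H N b s hN p0 p (hAm p0 hp0).1 (hAm p hp).1 (hAm p0 hp0).2.1
          (hAm p hp).2.1 (hmin p hp)
        have h4 : √N ≤ (dd p0 : ℝ) := (hAm p0 hp0).2.2
        have h5 : (dd p0 : ℝ) ≤ dd p := by exact_mod_cast hmin p hp
        by_contra hcon
        push Not at hcon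
        have h6 : √N / c < (dd p : ℝ) ^ 2 - (dd p0 : ℝ) ^ 2 := by
          have h7 : √N / c = √N * (1 / c) := by ring
          rw [h7]
          have h8 : 1 / c < dd p - dd p0 := by linarith
          have h9 : √N ≤ (dd p : ℝ) + dd p0 := by linarith
          have h10 : √N * (1 / c) < √N * ((dd p : ℝ) - dd p0) := mul_lt_mul_of_pos_left h8 hsN
          have h11 : √N * ((dd p : ℝ) - dd p0) ≤ ((dd p : ℝ) + dd p0) * ((dd p : ℝ) - dd p0) :=
            mul_le_mul_of_nonneg_right h9 (by linarith)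
          nlinarith
        linarith)
    refine h1.trans ?_
    linarith

end Pool.Agent.Helper442.DR
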