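import Mathlib
import Pool.Agent.Helper442.DR.Defs
import Pool.Agent.Helper442.DR.N0
import Pool.Agent.Helper442.DR.N1
import Pool.Agent.Helper442.DR.N2
import Pool.Agent.Helper442.DR.N3

open MeasureTheory Set Metric Real
open scoped ENNReal

namespace Pool.Agent.Helper442.DR
















-- ===== TARGET (prove this; the lemmas above may be used with their sorry) =====

theorem few_sums_aux (N : ℕ) (b : ℤ) (s : ℕ)
    (hs : s ∈ ((band N b).filter (fun p => (dd p : ℝ) ≤ √N)).image (fun p => p.1 + p.2)) :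
    ∃ n m : ℕ, N ≤ n ∧ n ≤ m ∧ m ≤ 2 * N ∧ n + m = s ∧ (m : ℝ) - n ≤ √N ∧
      (b : ℝ) ≤ Lam n + Lam m ∧ Lam n + Lam m < b + 1 := by
  obtain ⟨⟨x, y⟩, hp, rfl⟩ := Finset.mem_image.mp hs
  obtain ⟨hb, hd⟩ := Finset.mem_filter.mp hp
  unfold band at hb
  obtain ⟨hm, hf⟩ := Finset.mem_filter.mp hb
  obtain ⟨hx, hy⟩ := Finset.mem_product.mp hm
  simp only [Finset.mem_Ico] at hx hy
  simp only [dd] at hd
  have h1 := Int.floor_le (Lam x + Lam y)
  have h2 := Int.lt_floor_add_one (Lam x + Lam y)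
  simp only at hf
  rw [hf] at h1 h2
  rcases le_total x y with h | h
  · refine ⟨x, y, hx.1, h, hy.2.le, rfl, ?_, h1, h2⟩
    rw [max_eq_right h, min_eq_left h, Nat.cast_sub h] at hd
    exact hd
  · refine ⟨y, x, hy.1, h, hx.2.le, by simp [add_comm], ?_, by linarith, by linarith⟩
    rw [max_eq_left h, min_eq_right h, Nat.cast_sub h] at hd
    exact hd

/-- the pairs with `|n-m| ≤ √N` have at most `C` values of the sum -/
theorem few_sums : ∃ C : ℝ, 0 < C ∧ ∀ (N : ℕ) (b : ℤ), 2 ≤ N →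
    ((((band N b).filter (fun p => (dd p : ℝ) ≤ √N)).image (fun p => p.1 + p.2)).card : ℝ) ≤ C := by
  obtain ⟨c1, hc1, H1⟩ := same_sum
  obtain ⟨c2, hc2, H2⟩ := lam_incr
  have hD0 : 0 < (c1⁻¹ + 1) / c2 := by positivity
  refine ⟨(c1⁻¹ + 1) / c2 + 1, by positivity, fun N b hN => ?_⟩
  have hN1 : (1 : ℝ) ≤ √N := by
    rw [Real.one_le_sqrt]
    exact_mod_cast (by omega : 1 ≤ N)
  have hN0 : (0 : ℝ) < √N := by linarith
  have hsq : √(N : ℝ) * √N = N := Real.mul_self_sqrt (Nat.cast_nonneg N)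
  have cen : ∀ n m : ℕ, N ≤ n → n ≤ m → m ≤ 2 * N → (m : ℝ) - n ≤ √N →
      Lam ((n + m) / 2) + Lam (n + m - (n + m) / 2) ≤ Lam n + Lam m ∧
      Lam n + Lam m ≤ Lam ((n + m) / 2) + Lam (n + m - (n + m) / 2) + c1⁻¹ * √N := by
    intro n m h1 h2 h3 h4
    obtain ⟨h5, h6⟩ := H1 N ((n + m) / 2) (n + m - (n + m) / 2) n m hN h1 (by omega) (by omega)
      (by omega) h3 (by omega)
    have h7 : (0 : ℝ) ≤ ((n + m - (n + m) / 2 : ℕ) : ℝ) - (((n + m) / 2 : ℕ) : ℝ) := by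
      have : (n + m) / 2 ≤ n + m - (n + m) / 2 := by omega
      have : (((n + m) / 2 : ℕ) : ℝ) ≤ ((n + m - (n + m) / 2 : ℕ) : ℝ) := by exact_mod_cast this
      linarith
    have h8 : ((n + m - (n + m) / 2 : ℕ) : ℝ) - (((n + m) / 2 : ℕ) : ℝ) ≤ (m : ℝ) - n := by
      have a1 : n + m - (n + m) / 2 ≤ m := by omega
      have a2 : n ≤ (n + m) / 2 := by omega
      have a3 : ((n + m - (n + m) / 2 : ℕ) : ℝ) ≤ m := by exact_mod_cast a1
      have a4 : (n : ℝ) ≤ (((n + m) / 2 : ℕ) : ℝ) := by exact_mod_cast a2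
      linarith
    generalize ((n + m - (n + m) / 2 : ℕ) : ℝ) - (((n + m) / 2 : ℕ) : ℝ) = e at h5 h6 h7 h8
    generalize (m : ℝ) - n = a at h4 h5 h6 h8
    have h9 : e ^ 2 ≤ a ^ 2 := pow_le_pow_left₀ h7 h8 2
    have h10 : a ^ 2 ≤ √(N : ℝ) * √N := by
      rw [← pow_two]
      exact pow_le_pow_left₀ (h7.trans h8) h4 2
    constructor
    · have : 0 ≤ c1 * (a ^ 2 - e ^ 2) / √N := by
        apply div_nonneg (mul_nonneg hc1.le (by linarith)) hN0.le
      linarith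
    · have h11 : c1⁻¹ * (a ^ 2 - e ^ 2) / √N ≤ c1⁻¹ * √N := by
        rw [div_le_iff₀ hN0, mul_assoc]
        apply mul_le_mul_of_nonneg_left _ (inv_nonneg.mpr hc1.le)
        nlinarith [sq_nonneg e]
      linarith
  have key : ∀ s ∈ ((band N b).filter (fun p => (dd p : ℝ) ≤ √N)).image (fun p => p.1 + p.2),
      ∀ s' ∈ ((band N b).filter (fun p => (dd p : ℝ) ≤ √N)).image (fun p => p.1 + p.2),
      s ≤ s' → (s' : ℝ) - s ≤ (c1⁻¹ + 1) / c2 := by
    intro s hs s' hs' hle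
    obtain ⟨n, m, a1, a2, a3, rfl, a5, a6, a7⟩ := few_sums_aux N b s hs
    obtain ⟨n', m', b1, b2, b3, rfl, b5, b6, b7⟩ := few_sums_aux N b s' hs'
    obtain ⟨e1, e2⟩ := cen n m a1 a2 a3 a5
    obtain ⟨f1, f2⟩ := cen n' m' b1 b2 b3 b5
    obtain ⟨g1, -⟩ := H2 N ((n + m) / 2) ((n' + m') / 2) hN (by omega) (by omega) (by omega)
    obtain ⟨g2, -⟩ := H2 N (n + m - (n + m) / 2) (n' + m' - (n' + m') / 2) hN (by omega)
      (by omega) (by omega)
    rw [Nat.cast_sub (by omega), Nat.cast_sub (by omega)] at g2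
    rw [le_div_iff₀ hc2]
    have h1 : c2 * √N * (((n' + m' : ℕ) : ℝ) - ((n + m : ℕ) : ℝ)) ≤ (c1⁻¹ + 1) * √N := by
      nlinarith
    have h2 : √N * ((((n' + m' : ℕ) : ℝ) - ((n + m : ℕ) : ℝ)) * c2) ≤ √N * (c1⁻¹ + 1) := by
      linarith
    exact le_of_mul_le_mul_left h2 hN0
  generalize ((band N b).filter (fun p => (dd p : ℝ) ≤ √N)).image (fun p => p.1 + p.2) = I at key
  rcases I.eq_empty_or_nonempty with rfl | hne
  · simp only [Finset.card_empty, Nat.cast_zero]; positivity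
  · have hsub : I ⊆ Finset.Icc (I.min' hne) (I.min' hne + ⌊(c1⁻¹ + 1) / c2⌋₊) := by
      intro x hx
      rw [Finset.mem_Icc]
      have h1 := I.min'_le x hx
      refine ⟨h1, ?_⟩
      have h2 := key _ (I.min'_mem hne) x hx h1
      rw [← Nat.cast_sub h1] at h2
      have h3 := Nat.le_floor h2
      omega
    have h1 := Finset.card_le_card hsub
    rw [Nat.card_Icc] at h1
    have h2 : I.card ≤ ⌊(c1⁻¹ + 1) / c2⌋₊ + 1 := by omega
    have h3 : (I.card : ℝ) ≤ (⌊(c1⁻¹ + 1) / c2⌋₊ : ℝ) + 1 := by exact_mod_cast h2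
    have h4 := Nat.floor_le hD0.le
    linarith

end Pool.Agent.Helper442.DR
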