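import Mathlib
import Pool.Agent.Helper442.DR.Defs
import Pool.Agent.Helper442.DR.N3
import Pool.Agent.Helper442.DR.N4
import Pool.Agent.Helper442.DR.N5

open MeasureTheory Set Metric Real
open scoped ENNReal

namespace Pool.Agent.Helper442.DR














-- ===== TARGET (prove this; the lemmas above may be used with their sorry) =====
theorem small_count2 : ∃ C : ℝ, 0 < C ∧ ∀ (N : ℕ) (b : ℤ), 1 ≤ N → ∀ k : ℕ, (k : ℝ) ≤ √N →
    ((bandk N b k).card : ℝ) ≤ C * (N : ℝ) ^ (1 / 4 : ℝ) := by
  classical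
  obtain ⟨C2, hC2, H2⟩ := same_sum_count
  obtain ⟨C1, hC1, H1⟩ := few_sums
  refine ⟨C1 * C2 + 1, by positivity, fun N b hN k hk => ?_⟩
  rcases Nat.lt_or_ge 1 N with h | h
  · have hN2 : 2 ≤ N := h
    set A := (band N b).filter (fun p => (dd p : ℝ) ≤ √N) with hA
    have hsub : bandk N b k ⊆ A := by
      intro p hp
      unfold bandk at hp
      rw [Finset.mem_filter] at hp
      rw [hA, Finset.mem_filter]
      refine ⟨hp.1, ?_⟩
      have h1 : dd p ≤ k := by
        unfold dd
        have := hp.2.1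
        have := hp.2.2.1
        omega
      have h2 : (dd p : ℝ) ≤ k := by exact_mod_cast h1
      exact h2.trans hk
    have h3 : (A.card : ℝ) = ∑ s ∈ A.image (fun p => p.1 + p.2),
        ((A.filter (fun p => p.1 + p.2 = s)).card : ℝ) := by
      have := Finset.card_eq_sum_card_image (fun p : ℕ × ℕ => p.1 + p.2) A
      exact_mod_cast this
    have h4 : ∀ s ∈ A.image (fun p => p.1 + p.2),
        ((A.filter (fun p => p.1 + p.2 = s)).card : ℝ) ≤ C2 * (N : ℝ) ^ (1 / 4 : ℝ) := by
      intro s _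
      refine le_trans ?_ (H2 N b s hN2).1
      have h5 : (A.filter (fun p => p.1 + p.2 = s)) ⊆ (band N b).filter (fun p => p.1 + p.2 = s) := by
        apply Finset.filter_subset_filter
        exact Finset.filter_subset _ _
      exact_mod_cast Finset.card_le_card h5
    have h6 := H1 N b hN2
    rw [← hA] at h6
    have hpos : 0 ≤ C2 * (N : ℝ) ^ (1 / 4 : ℝ) := by positivity
    have hpos' : 0 ≤ (N : ℝ) ^ (1 / 4 : ℝ) := by positivity
    calc ((bandk N b k).card : ℝ) ≤ A.card := by exact_mod_cast Finset.card_le_card hsub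
      _ = ∑ s ∈ A.image (fun p => p.1 + p.2),
        ((A.filter (fun p => p.1 + p.2 = s)).card : ℝ) := h3
      _ ≤ ∑ s ∈ A.image (fun p => p.1 + p.2), C2 * (N : ℝ) ^ (1 / 4 : ℝ) := Finset.sum_le_sum h4
      _ = ((A.image (fun p => p.1 + p.2)).card : ℝ) * (C2 * (N : ℝ) ^ (1 / 4 : ℝ)) := by
        rw [Finset.sum_const, nsmul_eq_mul]
      _ ≤ C1 * (C2 * (N : ℝ) ^ (1 / 4 : ℝ)) := mul_le_mul_of_nonneg_right h6 hpos
      _ ≤ _ := by nlinarith
  · have hN1 : N = 1 := le_antisymm h hN
    subst hN1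
    have h1 : (bandk 1 b k).card ≤ 1 := by
      unfold bandk band
      refine (Finset.card_le_card ((Finset.filter_subset _ _).trans (Finset.filter_subset _ _))).trans ?_
      simp
    have h2 : ((bandk 1 b k).card : ℝ) ≤ 1 := by exact_mod_cast h1
    have h3 : ((1 : ℕ) : ℝ) ^ (1 / 4 : ℝ) = 1 := by simp
    rw [h3]
    have : 0 < C1 * C2 := by positivity
    linarith

end Pool.Agent.Helper442.DR
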