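import Mathlib
import Pool.Agent.Helper442.DR.Defs
import Pool.Agent.Helper548.DR.W2

open MeasureTheory Set Metric Real
open scoped ENNReal

namespace Pool.Agent.Helper442.DR

theorem window2 : ∃ C : ℝ, 0 < C ∧ ∀ (N : ℕ) (b : ℤ) (D0 : ℝ), 2 ≤ N →
    (((band N b).filter (fun p => p.1 ≤ p.2 ∧ D0 ≤ (p.2 : ℝ) - p.1 ∧
      (p.2 : ℝ) - p.1 ≤ D0 + √N)).card : ℝ) ≤ C * (N : ℝ) ^ (1 / 4 : ℝ) :=
  Pool.Agent.Helper548.DR.window2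

end Pool.Agent.Helper442.DR
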