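import Mathlib
import Pool.Agent.Helper442.DR.Defs
import Pool.Agent.Helper442.DR.W2

open MeasureTheory Set Metric Real
open scoped ENNReal

namespace Pool.Agent.Helper442.DR










theorem dd_cast {p : ℕ × ℕ} (h : p.1 ≤ p.2) : (dd p : ℝ) = (p.2 : ℝ) - p.1 := by
  unfold dd
  rw [max_eq_right h, min_eq_left h, Nat.cast_sub h]

theorem dd_swap (p : ℕ × ℕ) : dd p.swap = dd p := by
  unfold dd
  simp [max_comm, min_comm]

theorem band_swap {N : ℕ} {b : ℤ} {p : ℕ × ℕ} (h : p ∈ band N b) : p.swap ∈ band N b := by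
  unfold band at h ⊢
  rw [Finset.mem_filter, Finset.mem_product] at h ⊢
  refine ⟨⟨h.1.2, h.1.1⟩, ?_⟩
  simp only [Prod.fst_swap, Prod.snd_swap]
  rw [add_comm]
  exact h.2

theorem win_count (C : ℝ) (N : ℕ) (b : ℤ) (D0 : ℝ)
    (h : (((band N b).filter (fun p => p.1 ≤ p.2 ∧ D0 ≤ (p.2 : ℝ) - p.1 ∧
      (p.2 : ℝ) - p.1 ≤ D0 + √N)).card : ℝ) ≤ C * (N : ℝ) ^ (1 / 4 : ℝ)) :
    (((band N b).filter (fun p => D0 ≤ (dd p : ℝ) ∧ (dd p : ℝ) ≤ D0 + √N)).card : ℝ) ≤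
      2 * (C * (N : ℝ) ^ (1 / 4 : ℝ)) := by
  classical
  set A := (band N b).filter (fun p => p.1 ≤ p.2 ∧ D0 ≤ (p.2 : ℝ) - p.1 ∧
      (p.2 : ℝ) - p.1 ≤ D0 + √N) with hA
  have hsub : (band N b).filter (fun p => D0 ≤ (dd p : ℝ) ∧ (dd p : ℝ) ≤ D0 + √N) ⊆
      A ∪ A.image Prod.swap := by
    intro p hp
    rw [Finset.mem_filter] at hp
    obtain ⟨hb, h1, h2⟩ := hp
    rcases le_total p.1 p.2 with hle | hle
    · refine Finset.mem_union_left _ ?_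
      rw [hA, Finset.mem_filter]
      rw [dd_cast hle] at h1 h2
      exact ⟨hb, hle, h1, h2⟩
    · refine Finset.mem_union_right _ ?_
      rw [Finset.mem_image]
      refine ⟨p.swap, ?_, Prod.swap_swap p⟩
      rw [hA, Finset.mem_filter]
      rw [← dd_swap p] at h1 h2
      have hle' : p.swap.1 ≤ p.swap.2 := hle
      rw [dd_cast hle'] at h1 h2
      exact ⟨band_swap hb, hle', h1, h2⟩
  have h3 : ((band N b).filter (fun p => D0 ≤ (dd p : ℝ) ∧ (dd p : ℝ) ≤ D0 + √N)).card ≤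
      A.card + A.card :=
    (Finset.card_le_card hsub).trans ((Finset.card_union_le _ _).trans
      (Nat.add_le_add_left Finset.card_image_le _))
  have h4 : (((band N b).filter (fun p => D0 ≤ (dd p : ℝ) ∧ (dd p : ℝ) ≤ D0 + √N)).card : ℝ) ≤
      (A.card : ℝ) + A.card := by exact_mod_cast h3
  linarith

-- ===== TARGET (prove this; the lemmas above may be used with their sorry) =====
theorem range_count : ∃ C : ℝ, 0 < C ∧ ∀ (N : ℕ) (b : ℤ) (D0 X : ℝ), 2 ≤ N → 0 ≤ X →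
    (((band N b).filter (fun p => D0 ≤ (dd p : ℝ) ∧ (dd p : ℝ) ≤ D0 + X)).card : ℝ) ≤
      C * (X * (N : ℝ) ^ (-(1 / 4) : ℝ) + (N : ℝ) ^ (1 / 4 : ℝ)) := by
  classical
  obtain ⟨C, hC, hw⟩ := window2
  refine ⟨2 * C, by positivity, fun N b D0 X hN hX => ?_⟩
  have hN0 : (0 : ℝ) < (N : ℝ) := by
    have : 0 < N := by omega
    exact_mod_cast this
  have hs : (0 : ℝ) < √(N : ℝ) := Real.sqrt_pos.2 hN0
  set J : ℕ := ⌊X / √(N : ℝ)⌋₊ with hJ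
  have hsub : (band N b).filter (fun p => D0 ≤ (dd p : ℝ) ∧ (dd p : ℝ) ≤ D0 + X) ⊆
      (Finset.range (J + 1)).biUnion (fun j => (band N b).filter
        (fun p => (D0 + j * √(N : ℝ)) ≤ (dd p : ℝ) ∧
          (dd p : ℝ) ≤ (D0 + j * √(N : ℝ)) + √(N : ℝ))) := by
    intro p hp
    rw [Finset.mem_filter] at hp
    obtain ⟨hb, h1, h2⟩ := hp
    rw [Finset.mem_biUnion]
    have h0 : 0 ≤ ((dd p : ℝ) - D0) / √(N : ℝ) := div_nonneg (by linarith) hs.le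
    refine ⟨⌊((dd p : ℝ) - D0) / √(N : ℝ)⌋₊, ?_, ?_⟩
    · rw [Finset.mem_range, Nat.lt_succ_iff, hJ]
      apply Nat.floor_le_floor
      gcongr
      linarith
    · rw [Finset.mem_filter]
      have h3 := Nat.floor_le h0
      have h4 := Nat.lt_floor_add_one (((dd p : ℝ) - D0) / √(N : ℝ))
      rw [le_div_iff₀ hs] at h3
      rw [div_lt_iff₀ hs] at h4
      refine ⟨hb, by linarith, by linarith⟩
  have h5 : (((band N b).filter (fun p => D0 ≤ (dd p : ℝ) ∧ (dd p : ℝ) ≤ D0 + X)).card : ℝ) ≤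
      ∑ j ∈ Finset.range (J + 1), (2 * (C * (N : ℝ) ^ (1 / 4 : ℝ))) := by
    have h6 := (Finset.card_le_card hsub).trans Finset.card_biUnion_le
    have h7 : (((band N b).filter (fun p => D0 ≤ (dd p : ℝ) ∧ (dd p : ℝ) ≤ D0 + X)).card : ℝ) ≤
        ∑ j ∈ Finset.range (J + 1), (((band N b).filter
        (fun p => (D0 + j * √(N : ℝ)) ≤ (dd p : ℝ) ∧
          (dd p : ℝ) ≤ (D0 + j * √(N : ℝ)) + √(N : ℝ))).card : ℝ) := by exact_mod_cast h6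
    refine h7.trans (Finset.sum_le_sum fun j _ => ?_)
    exact win_count C N b _ (hw N b _ hN)
  refine h5.trans ?_
  rw [Finset.sum_const, Finset.card_range, nsmul_eq_mul]
  have h8 : (J : ℝ) ≤ X / √(N : ℝ) := Nat.floor_le (div_nonneg hX hs.le)
  have h9 : X / √(N : ℝ) * (N : ℝ) ^ (1 / 4 : ℝ) = X * (N : ℝ) ^ (-(1 / 4) : ℝ) := by
    rw [Real.sqrt_eq_rpow, div_mul_eq_mul_div, mul_div_assoc, ← Real.rpow_sub hN0]
    norm_num
  have h10 : (0 : ℝ) ≤ (N : ℝ) ^ (1 / 4 : ℝ) := Real.rpow_nonneg hN0.le _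
  push_cast
  have h11 : (J : ℝ) * (N : ℝ) ^ (1 / 4 : ℝ) ≤ X * (N : ℝ) ^ (-(1 / 4) : ℝ) := by
    rw [← h9]
    gcongr
  calc ((J : ℝ) + 1) * (2 * (C * (N : ℝ) ^ (1 / 4 : ℝ)))
      = 2 * C * ((J : ℝ) * (N : ℝ) ^ (1 / 4 : ℝ) + (N : ℝ) ^ (1 / 4 : ℝ)) := by ring
    _ ≤ 2 * C * (X * (N : ℝ) ^ (-(1 / 4) : ℝ) + (N : ℝ) ^ (1 / 4 : ℝ)) := by gcongr

end Pool.Agent.Helper442.DR
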