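import Mathlib
import Pool.Agent.Helper442.DR.Defs
import Pool.Agent.Helper442.DR.M7
import Pool.Agent.Helper442.DR.N3
import Pool.Agent.Helper442.DR.N4
import Pool.Agent.Helper442.DR.N5
import Pool.Agent.Helper442.DR.R2
import Pool.Agent.Helper442.DR.E2
import Pool.Agent.Helper442.DR.C2n

open MeasureTheory Set Metric Real
open scoped ENNReal

namespace Pool.Agent.Helper442.DR























theorem le_of_sq_le_sq' {a b : ℝ} (h : a ^ 2 ≤ b ^ 2) (hb : 0 ≤ b) : a ≤ b :=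
  abs_le_of_sq_le_sq' h hb |>.2

theorem dyad275 (s : Finset (ℕ × ℕ)) (f : ℕ × ℕ → ℝ) (ρ : ℕ × ℕ → ℕ) (W B : ℝ) (N : ℕ) (hN : 1 ≤ N)
    (hW : 0 ≤ W) (hρ : ∀ p ∈ s, 1 ≤ ρ p ∧ ρ p ≤ 4 * N) (hf : ∀ p ∈ s, f p ≤ W / √(ρ p : ℝ))
    (hB : ∀ j : ℕ, ((s.filter (fun p => 2 ^ j ≤ ρ p ∧ ρ p < 2 ^ (j + 1))).card : ℝ) *
      (W / √((2 : ℝ) ^ j)) ≤ B) : ∑ p ∈ s, f p ≤ B * (4 * (1 + Real.log N)) := by
  have hB0 : 0 ≤ B := le_trans (by positivity) (hB 0)
  have h1 : ∑ p ∈ s, f p = ∑ j ∈ Finset.range (Nat.log 2 (4 * N) + 1),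
      ∑ p ∈ s.filter (fun p => Nat.log 2 (ρ p) = j), f p := by
    rw [Finset.sum_fiberwise_of_maps_to]
    intro p hp
    rw [Finset.mem_range]
    exact Nat.lt_succ_of_le (Nat.log_mono_right (hρ p hp).2)
  have h2 : ∀ j ∈ Finset.range (Nat.log 2 (4 * N) + 1),
      ∑ p ∈ s.filter (fun p => Nat.log 2 (ρ p) = j), f p ≤ B := by
    intro j _
    have h3 : s.filter (fun p => Nat.log 2 (ρ p) = j) ⊆
        s.filter (fun p => 2 ^ j ≤ ρ p ∧ ρ p < 2 ^ (j + 1)) := by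
      intro p hp
      rw [Finset.mem_filter] at hp ⊢
      refine ⟨hp.1, ?_, ?_⟩
      · rw [← hp.2]
        exact Nat.pow_log_le_self 2 (by have := (hρ p hp.1).1; omega)
      · rw [← hp.2]
        exact Nat.lt_pow_succ_log_self (by norm_num) _
    have h4 : ∑ p ∈ s.filter (fun p => Nat.log 2 (ρ p) = j), f p ≤
        ((s.filter (fun p => Nat.log 2 (ρ p) = j)).card : ℝ) * (W / √((2 : ℝ) ^ j)) := by
      rw [← nsmul_eq_mul]
      apply Finset.sum_le_card_nsmul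
      intro p hp
      have hp1 := (Finset.mem_filter.mp (h3 hp)).2.1
      have hps := (Finset.mem_filter.mp hp).1
      refine (hf p hps).trans ?_
      have h5 : (2 : ℝ) ^ j ≤ (ρ p : ℝ) := by exact_mod_cast hp1
      have h6 : √((2 : ℝ) ^ j) ≤ √(ρ p : ℝ) := Real.sqrt_le_sqrt h5
      have h7 : 0 < √((2 : ℝ) ^ j) := Real.sqrt_pos.mpr (by positivity)
      exact div_le_div_of_nonneg_left hW h7 h6
    refine h4.trans (le_trans ?_ (hB j))
    have h5 : ((s.filter (fun p => Nat.log 2 (ρ p) = j)).card : ℝ) ≤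
      ((s.filter (fun p => 2 ^ j ≤ ρ p ∧ ρ p < 2 ^ (j + 1))).card : ℝ) := by
      exact_mod_cast Finset.card_le_card h3
    exact mul_le_mul_of_nonneg_right h5 (by positivity)
  rw [h1]
  have h3 := Finset.sum_le_card_nsmul _ _ _ h2
  rw [Finset.card_range, nsmul_eq_mul] at h3
  refine h3.trans ?_
  rw [mul_comm]
  refine mul_le_mul_of_nonneg_left ?_ hB0
  have hNr : (1 : ℝ) ≤ N := by exact_mod_cast hN
  have hlogN : 0 ≤ Real.log N := Real.log_nonneg hNr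
  have h5 : ((Nat.log 2 (4 * N) : ℕ) : ℝ) * Real.log 2 ≤ Real.log 4 + Real.log N := by
    rw [← Real.log_mul (by norm_num) (by positivity), ← Real.log_pow]
    apply Real.log_le_log (by positivity)
    exact_mod_cast Nat.pow_log_le_self 2 (by omega)
  have h6 : Real.log 4 = 2 * Real.log 2 := by
    rw [show (4 : ℝ) = 2 ^ 2 by norm_num, Real.log_pow]
    push_cast
    ring
  have h7 := Real.log_two_gt_d9
  push_cast
  rw [h6] at h5
  set a : ℝ := ((Nat.log 2 (4 * N) : ℕ) : ℝ) with ha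
  have ha0 : 0 ≤ a := Nat.cast_nonneg _
  by_contra hcon
  push Not at hcon
  have h8 : (a - 2) * Real.log 2 ≤ Real.log N := by linarith
  have h9 : 1 + 4 * Real.log N < a - 2 := by linarith
  have h10 : 0 < a - 2 := by linarith
  have h11 : (a - 2) * (1 / 2) ≤ (a - 2) * Real.log 2 :=
    mul_le_mul_of_nonneg_left (by linarith) h10.le
  linarith

/-- elementary facts of a pair in `bandk` -/
theorem mem275 (N : ℕ) (b : ℤ) (k : ℕ) (p : ℕ × ℕ) (hp : p ∈ bandk N b k) :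
    p ∈ band N b ∧ N ≤ p.1 ∧ p.1 < 2 * N ∧ N ≤ p.2 ∧ p.2 < 2 * N ∧ p.1 ≤ p.2 + k ∧ p.2 ≤ p.1 + k ∧
      k ≤ p.1 + p.2 ∧ Even (p.1 + p.2 + k) := by
  unfold bandk at hp
  rw [Finset.mem_filter] at hp
  have h1 := hp.1
  unfold band at h1
  rw [Finset.mem_filter, Finset.mem_product, Finset.mem_Ico, Finset.mem_Ico] at h1
  exact ⟨hp.1, h1.1.1.1, h1.1.1.2, h1.1.2.1, h1.1.2.2, hp.2.1, hp.2.2.1, hp.2.2.2.1, hp.2.2.2.2⟩

theorem c2b275 (N : ℕ) (b : ℤ) (k : ℕ) (p : ℕ × ℕ) (hN : 1 ≤ N) (hp : p ∈ bandk N b k) (Q : ℝ)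
    (hQ : 0 < Q)
    (h : Q ≤ (((p.1 + p.2 - k) / 2 : ℕ) + 1 : ℝ) * (((k : ℝ) - dd p) / 2 + 1) *
      (((k : ℝ) + dd p) / 2 + 1)) :
    c2 p.1 p.2 ((p.1 + p.2 - k) / 2) ≤ 4 * (N : ℝ) ^ (3 / 2 : ℝ) / √Q := by
  obtain ⟨_, h1, h2, h3, h4, h5, h6, h7, h8⟩ := mem275 N b k p hp
  obtain ⟨e, he⟩ := h8
  set r := (p.1 + p.2 - k) / 2 with hr
  have hr1 : r ≤ p.1 := by omega
  have hr2 : r ≤ p.2 := by omega
  have h9 := c2_le N p.1 p.2 r hN h1 h2 h3 h4 (le_min hr1 hr2)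
  refine h9.trans ?_
  refine div_le_div_of_nonneg_left (by positivity) (Real.sqrt_pos.mpr hQ) (Real.sqrt_le_sqrt ?_)
  refine h.trans (le_of_eq ?_)
  have e1 : 2 * r + k = p.1 + p.2 := by omega
  have e1' : 2 * (r : ℝ) + k = p.1 + p.2 := by exact_mod_cast e1
  have e2 : (((p.1 - r : ℕ)) : ℝ) = p.1 - r := by rw [Nat.cast_sub hr1]
  have e3 : (((p.2 - r : ℕ)) : ℝ) = p.2 - r := by rw [Nat.cast_sub hr2]
  rw [e2, e3]
  rcases le_total p.1 p.2 with hle | hle
  · have e4 : (dd p : ℝ) = p.2 - p.1 := by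
      unfold dd
      rw [max_eq_right hle, min_eq_left hle, Nat.cast_sub hle]
    rw [e4]
    have e5 : (p.1 : ℝ) - r = (k - (p.2 - p.1)) / 2 := by linarith
    have e6 : (p.2 : ℝ) - r = (k + (p.2 - p.1)) / 2 := by linarith
    rw [e5, e6]
  · have e4 : (dd p : ℝ) = p.1 - p.2 := by
      unfold dd
      rw [max_eq_left hle, min_eq_right hle, Nat.cast_sub hle]
    rw [e4]
    have e5 : (p.2 : ℝ) - r = (k - (p.1 - p.2)) / 2 := by linarith
    have e6 : (p.1 : ℝ) - r = (k + (p.1 - p.2)) / 2 := by linarith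
    rw [e5, e6]
    ring

theorem dd275 (N : ℕ) (b : ℤ) (k : ℕ) (p : ℕ × ℕ) (hp : p ∈ bandk N b k) :
    dd p ≤ k ∧ dd p ≤ N := by
  obtain ⟨_, h1, h2, h3, h4, h5, h6, h7, h8⟩ := mem275 N b k p hp
  unfold dd
  rcases le_total p.1 p.2 with hle | hle
  · rw [max_eq_right hle, min_eq_left hle]
    omega
  · rw [max_eq_left hle, min_eq_right hle]
    omega

theorem caseA275 : ∃ C : ℝ, 0 < C ∧ ∀ (N : ℕ) (b : ℤ), 2 ≤ N → ∀ k : ℕ, √N ≤ (k : ℝ) → 2 * k < 3 * N →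
    ∀ x : ℝ, 1 ≤ x → x ^ 4 = N →
    ∑ p ∈ bandk N b k, c2 p.1 p.2 ((p.1 + p.2 - k) / 2) ≤ C * x ^ 3 * (4 * (1 + Real.log N)) := by
  obtain ⟨C1, hC1, H1⟩ := near_count
  obtain ⟨C2, hC2, H2⟩ := range_count
  refine ⟨48 * C1 + 96 * C2, by positivity, ?_⟩
  intro N b hN k hk hk2 x hx hxN
  have hx0 : 0 < x := by linarith
  have hsq : √(N : ℝ) = x ^ 2 := by
    rw [← hxN, show x ^ 4 = (x ^ 2) ^ 2 by ring, Real.sqrt_sq (by positivity)]
  have hN14 : (N : ℝ) ^ (1 / 4 : ℝ) = x := by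
    rw [← hxN, ← Real.rpow_natCast, ← Real.rpow_mul hx0.le]
    norm_num
  have hNm14 : (N : ℝ) ^ (-(1 / 4) : ℝ) = x⁻¹ := by
    rw [Real.rpow_neg (Nat.cast_nonneg _), hN14]
  have hN32 : (N : ℝ) ^ (3 / 2 : ℝ) = x ^ 6 := by
    rw [← hxN, ← Real.rpow_natCast, ← Real.rpow_natCast, ← Real.rpow_mul hx0.le]
    norm_num
  have hk0 : (0 : ℝ) < k := lt_of_lt_of_le (by rw [hsq]; positivity) hk
  rw [hsq] at hk
  have hk1 : (1 : ℝ) ≤ k := le_trans (by nlinarith) hk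
  have hk1' : 1 ≤ k := by exact_mod_cast hk1
  have hkN : (k : ℝ) ≤ 2 * N := by
    have : k ≤ 2 * N := by omega
    exact_mod_cast this
  have hN0 : (0 : ℝ) < N := by rw [← hxN]; positivity
  apply dyad275 (bandk N b k) _ (fun p => k + 1 - dd p) (16 * N / √(k : ℝ)) _ N (by omega) (by positivity)
  · intro p hp
    have := dd275 N b k p hp
    constructor <;> omega
  · intro p hp
    have hd := dd275 N b k p hp
    obtain ⟨_, h1, h2, h3, h4, h5, h6, h7, h8⟩ := mem275 N b k p hp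
    have hdk : (dd p : ℝ) ≤ k := by exact_mod_cast hd.1
    have hd0 : (0 : ℝ) ≤ dd p := Nat.cast_nonneg _
    have e1 : ((k + 1 - dd p : ℕ) : ℝ) = k + 1 - dd p := by
      rw [Nat.cast_sub (by omega)]
      push_cast
      ring
    have hr : (N : ℝ) / 4 ≤ (((p.1 + p.2 - k) / 2 : ℕ) : ℝ) + 1 := by
      have : N ≤ 4 * ((p.1 + p.2 - k) / 2 + 1) := by omega
      have h9 : (N : ℝ) ≤ 4 * ((((p.1 + p.2 - k) / 2 : ℕ) : ℝ) + 1) := by exact_mod_cast this
      linarith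
    have h10 := c2b275 N b k p (by omega) hp ((N : ℝ) / 4 * (((k : ℝ) + 1 - dd p) / 2) * (k / 2))
      (by
        have : (0 : ℝ) < (k : ℝ) + 1 - dd p := by linarith
        positivity)
      (by
        have h11 : ((k : ℝ) + 1 - dd p) / 2 ≤ ((k : ℝ) - dd p) / 2 + 1 := by linarith
        have h12 : (k : ℝ) / 2 ≤ ((k : ℝ) + dd p) / 2 + 1 := by linarith
        have h13 : (0 : ℝ) ≤ ((k : ℝ) + 1 - dd p) / 2 := by linarith
        exact mul_le_mul (mul_le_mul hr h11 h13 (by positivity)) h12 (by positivity)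
          (by have : (0 : ℝ) ≤ ((k : ℝ) - dd p) / 2 + 1 := by linarith
              positivity))
    refine h10.trans (le_of_eq ?_)
    have e2 : (N : ℝ) / 4 * (((k : ℝ) + 1 - dd p) / 2) * (k / 2) =
        N * k * ((k : ℝ) + 1 - dd p) / 4 ^ 2 := by ring
    have hρ0 : (0 : ℝ) < (k : ℝ) + 1 - dd p := by linarith
    rw [e2, Real.sqrt_div' _ (by positivity), Real.sqrt_sq (by norm_num : (0 : ℝ) ≤ 4),
      Real.sqrt_mul (by positivity), Real.sqrt_mul (by positivity), hsq, hN32]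
    rw [e1, ← hxN]
    have hs1 : √(k : ℝ) ≠ 0 := (Real.sqrt_pos.mpr hk0).ne'
    have hs2 : √((k : ℝ) + 1 - dd p) ≠ 0 := (Real.sqrt_pos.mpr hρ0).ne'
    field_simp
    ring
  · intro j
    set Y : ℝ := (2 : ℝ) ^ j with hY
    have hY1 : 1 ≤ Y := one_le_pow₀ (by norm_num)
    have hY0 : 0 < Y := by linarith
    set F := (bandk N b k).filter (fun p => 2 ^ j ≤ k + 1 - dd p ∧ k + 1 - dd p < 2 ^ (j + 1)) with hF
    rcases F.eq_empty_or_nonempty with hemp | ⟨p0, hp0⟩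
    · rw [hemp]
      simp only [Finset.card_empty, Nat.cast_zero, zero_mul]
      positivity
    have hYk : Y ≤ 2 * k := by
      have h1 := (Finset.mem_filter.mp hp0).2.1
      have h2 : 2 ^ j ≤ 2 * k := by omega
      rw [hY]
      exact_mod_cast h2
    have hsub : F ⊆ (band N b).filter (fun p => (k : ℝ) - 2 * Y ≤ (dd p : ℝ) ∧ (dd p : ℝ) ≤ k) := by
      intro p hp
      have h1 := Finset.mem_filter.mp hp
      have h2 := dd275 N b k p h1.1
      rw [Finset.mem_filter]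
      refine ⟨(mem275 N b k p h1.1).1, ?_, by exact_mod_cast h2.1⟩
      have h3 : k ≤ dd p + 2 * 2 ^ j := by
        have := h1.2.2
        rw [pow_succ] at this
        omega
      have h4 : (k : ℝ) ≤ dd p + 2 * 2 ^ j := by exact_mod_cast h3
      rw [hY]
      linarith
    have hcard : (F.card : ℝ) ≤ (((band N b).filter (fun p => (k : ℝ) - 2 * Y ≤ (dd p : ℝ) ∧
        (dd p : ℝ) ≤ k)).card : ℝ) := by
      exact_mod_cast Finset.card_le_card hsub
    set z : ℝ := √(k : ℝ) * √Y with hz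
    have hz0 : 0 < z := mul_pos (Real.sqrt_pos.mpr hk0) (Real.sqrt_pos.mpr hY0)
    have hz2 : z ^ 2 = k * Y := by
      rw [hz, mul_pow, Real.sq_sqrt hk0.le, Real.sq_sqrt hY0.le]
    have hWz : 16 * (N : ℝ) / √(k : ℝ) / √Y = 16 * x ^ 4 / z := by
      rw [div_div, hxN]
    rw [hWz]
    have hzx : x ≤ z := by
      have : x ^ 2 ≤ z ^ 2 := by
        rw [hz2]
        nlinarith
      exact le_of_sq_le_sq' this hz0.le
    by_cases hc : 2 * Y ≤ k / 2 ∧ k * Y ≤ x ^ 6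
    · have h1 := H1 N b k (2 * Y) hN (by rw [hsq]; exact hk) hkN (by positivity) hc.1
      have h2 : (F.card : ℝ) ≤ C1 * (1 + 2 * Y * k / N) := hcard.trans h1
      have hz3 : z ≤ x ^ 3 := by
        have : z ^ 2 ≤ (x ^ 3) ^ 2 := by
          rw [hz2]
          calc k * Y ≤ x ^ 6 := hc.2
            _ = _ := by ring
        exact le_of_sq_le_sq' this (by positivity)
      calc (F.card : ℝ) * (16 * x ^ 4 / z) ≤ C1 * (1 + 2 * Y * k / N) * (16 * x ^ 4 / z) :=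
            mul_le_mul_of_nonneg_right h2 (by positivity)
        _ = C1 * (16 * (x ^ 4 / z) + 32 * z) := by
            rw [show 2 * Y * k / N = 2 * z ^ 2 / x ^ 4 by rw [hz2, hxN]; ring]
            field_simp
            ring
        _ ≤ C1 * (16 * x ^ 3 + 32 * x ^ 3) := by
            have h3 : x ^ 4 / z ≤ x ^ 3 := by
              rw [div_le_iff₀ hz0]
              calc x ^ 4 = x ^ 3 * x := by ring
                _ ≤ x ^ 3 * z := mul_le_mul_of_nonneg_left hzx (by positivity)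
            refine mul_le_mul_of_nonneg_left ?_ hC1.le
            linarith
        _ ≤ (48 * C1 + 96 * C2) * x ^ 3 := by
            have : 0 ≤ 96 * C2 * x ^ 3 := by positivity
            linarith
    · have h1 := H2 N b (k - 2 * Y) (2 * Y) hN (by positivity)
      have h1' : (k : ℝ) - 2 * Y + 2 * Y = k := by ring
      rw [h1', hN14, hNm14] at h1
      have h2 : (F.card : ℝ) ≤ C2 * (2 * Y * x⁻¹ + x) := hcard.trans h1
      have hz3 : x ^ 2 ≤ 2 * z := by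
        rw [not_and_or] at hc
        have : (x ^ 2) ^ 2 ≤ (2 * z) ^ 2 := by
          rw [mul_pow, hz2]
          rcases hc with hc | hc
          · push Not at hc
            nlinarith [mul_pos hx0 hx0]
          · push Not at hc
            have h3 : x ^ 4 ≤ x ^ 6 := pow_le_pow_right₀ hx (by norm_num)
            nlinarith
        exact le_of_sq_le_sq' this (by positivity)
      have hz4 : Y ≤ 2 * z := by
        have : Y ^ 2 ≤ (2 * z) ^ 2 := by
          rw [mul_pow, hz2]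
          nlinarith
        exact le_of_sq_le_sq' this (by positivity)
      calc (F.card : ℝ) * (16 * x ^ 4 / z) ≤ C2 * (2 * Y * x⁻¹ + x) * (16 * x ^ 4 / z) :=
            mul_le_mul_of_nonneg_right h2 (by positivity)
        _ = C2 * (32 * (x ^ 3 * (Y / z)) + 16 * (x ^ 3 * (x ^ 2 / z))) := by
            field_simp
            ring
        _ ≤ C2 * (32 * (x ^ 3 * 2) + 16 * (x ^ 3 * 2)) := by
            have h3 : Y / z ≤ 2 := by rw [div_le_iff₀ hz0]; exact hz4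
            have h4 : x ^ 2 / z ≤ 2 := by rw [div_le_iff₀ hz0]; exact hz3
            gcongr
        _ ≤ (48 * C1 + 96 * C2) * x ^ 3 := by
            have : 0 ≤ 48 * C1 * x ^ 3 := by positivity
            linarith

theorem caseB275 : ∃ C : ℝ, 0 < C ∧ ∀ (N : ℕ) (b : ℤ), 2 ≤ N → ∀ k : ℕ, 3 * N ≤ 2 * k →
    ∀ x : ℝ, 1 ≤ x → x ^ 4 = N →
    ∑ p ∈ bandk N b k, c2 p.1 p.2 ((p.1 + p.2 - k) / 2) ≤ C * x ^ 3 * (4 * (1 + Real.log N)) := by
  obtain ⟨C3, hC3, H3⟩ := sum_diff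
  obtain ⟨C2, hC2, H2⟩ := range_count
  refine ⟨16 * C2 * (√(3 * C3) + 1), by positivity, ?_⟩
  intro N b hN k hk2 x hx hxN
  have hx0 : 0 < x := by linarith
  have hsq : √(N : ℝ) = x ^ 2 := by
    rw [← hxN, show x ^ 4 = (x ^ 2) ^ 2 by ring, Real.sqrt_sq (by positivity)]
  have hN14 : (N : ℝ) ^ (1 / 4 : ℝ) = x := by
    rw [← hxN, ← Real.rpow_natCast, ← Real.rpow_mul hx0.le]
    norm_num
  have hNm14 : (N : ℝ) ^ (-(1 / 4) : ℝ) = x⁻¹ := by
    rw [Real.rpow_neg (Nat.cast_nonneg _), hN14]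
  have hN32 : (N : ℝ) ^ (3 / 2 : ℝ) = x ^ 6 := by
    rw [← hxN, ← Real.rpow_natCast, ← Real.rpow_natCast, ← Real.rpow_mul hx0.le]
    norm_num
  have hN0 : (0 : ℝ) < N := by rw [← hxN]; positivity
  have hk3 : 3 * (N : ℝ) ≤ 2 * k := by exact_mod_cast hk2
  apply dyad275 (bandk N b k) _ (fun p => (p.1 + p.2 - k) / 2 + 1) (16 * x ^ 2) _ N (by omega)
    (by positivity)
  · intro p hp
    obtain ⟨_, h1, h2, h3, h4, h5, h6, h7, h8⟩ := mem275 N b k p hp
    constructor <;> omega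
  · intro p hp
    have hd := dd275 N b k p hp
    obtain ⟨_, h1, h2, h3, h4, h5, h6, h7, h8⟩ := mem275 N b k p hp
    have hdN : (dd p : ℝ) ≤ N := by exact_mod_cast hd.2
    have hd0 : (0 : ℝ) ≤ dd p := Nat.cast_nonneg _
    set ρ : ℝ := (((p.1 + p.2 - k) / 2 : ℕ) : ℝ) + 1 with hρ
    have hρ0 : 0 < ρ := by positivity
    have h10 := c2b275 N b k p (by omega) hp (ρ * (N / 4) * (N / 4))
      (by positivity)
      (by
        have h11 : (N : ℝ) / 4 ≤ ((k : ℝ) - dd p) / 2 + 1 := by linarith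
        have h12 : (N : ℝ) / 4 ≤ ((k : ℝ) + dd p) / 2 + 1 := by linarith
        exact mul_le_mul (mul_le_mul le_rfl h11 (by positivity) (by positivity)) h12 (by positivity)
          (by have : (0 : ℝ) ≤ ((k : ℝ) - dd p) / 2 + 1 := by linarith
              positivity))
    refine h10.trans (le_of_eq ?_)
    have e1 : (((p.1 + p.2 - k) / 2 + 1 : ℕ) : ℝ) = ρ := by
      rw [hρ]
      push_cast
      ring
    rw [e1, show ρ * ((N : ℝ) / 4) * (N / 4) = ρ * (N / 4) ^ 2 by ring, Real.sqrt_mul hρ0.le,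
      Real.sqrt_sq (by positivity), hN32, ← hxN]
    have hs2 : √ρ ≠ 0 := (Real.sqrt_pos.mpr hρ0).ne'
    field_simp
    ring
  · intro j
    set R : ℝ := (2 : ℝ) ^ j with hR
    have hR1 : 1 ≤ R := one_le_pow₀ (by norm_num)
    have hR0 : 0 < R := by linarith
    set F := (bandk N b k).filter (fun p => 2 ^ j ≤ (p.1 + p.2 - k) / 2 + 1 ∧
      (p.1 + p.2 - k) / 2 + 1 < 2 ^ (j + 1)) with hF
    rcases F.eq_empty_or_nonempty with hemp | hne
    · rw [hemp]
      simp only [Finset.card_empty, Nat.cast_zero, zero_mul]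
      positivity
    obtain ⟨q, hq, hmin⟩ := Finset.exists_min_image F dd hne
    have hqm := Finset.mem_filter.mp hq
    obtain ⟨hqb, q1, q2, q3, q4, q5, q6, q7, q8⟩ := mem275 N b k q hqm.1
    have hX0 : 0 ≤ √(3 * C3) * x ^ 2 * √R := by positivity
    have hsub : F ⊆ (band N b).filter (fun p => (dd q : ℝ) ≤ (dd p : ℝ) ∧
        (dd p : ℝ) ≤ (dd q : ℝ) + √(3 * C3) * x ^ 2 * √R) := by
      intro p hp
      have hpm := Finset.mem_filter.mp hp
      obtain ⟨hpb, p1, p2, p3, p4, p5, p6, p7, p8⟩ := mem275 N b k p hpm.1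
      have hqp : (dd q : ℝ) ≤ (dd p : ℝ) := by exact_mod_cast hmin p hp
      rw [Finset.mem_filter]
      refine ⟨hpb, hqp, ?_⟩
      have h1 := (H3 N b p q hN hpb hqb).1
      have h2 : |((p.1 + p.2 : ℕ) : ℝ) - ((q.1 + q.2 : ℕ) : ℝ)| ≤ 2 * R := by
        obtain ⟨e, he⟩ := p8
        obtain ⟨e', he'⟩ := q8
        have a1 := hpm.2.1
        have a2 := hpm.2.2
        have a3 := hqm.2.1
        have a4 := hqm.2.2
        rw [pow_succ] at a2 a4
        have a5 : p.1 + p.2 ≤ q.1 + q.2 + 2 * 2 ^ j := by omega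
        have a6 : q.1 + q.2 ≤ p.1 + p.2 + 2 * 2 ^ j := by omega
        have a7 : ((p.1 + p.2 : ℕ) : ℝ) ≤ ((q.1 + q.2 : ℕ) : ℝ) + 2 * 2 ^ j := by exact_mod_cast a5
        have a8 : ((q.1 + q.2 : ℕ) : ℝ) ≤ ((p.1 + p.2 : ℕ) : ℝ) + 2 * 2 ^ j := by exact_mod_cast a6
        rw [abs_le, hR]
        constructor <;> linarith
      have h3 : (dd p : ℝ) ^ 2 - (dd q : ℝ) ^ 2 ≤ 3 * C3 * (x ^ 4 * R) := by
        refine (le_abs_self _).trans (h1.trans ?_)
        rw [hsq]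
        have h4 : (N : ℝ) * |((p.1 + p.2 : ℕ) : ℝ) - ((q.1 + q.2 : ℕ) : ℝ)| ≤ N * (2 * R) :=
          mul_le_mul_of_nonneg_left h2 hN0.le
        rw [← hxN] at h4 ⊢
        have h5 : x ^ 2 ≤ x ^ 4 * R := by
          calc x ^ 2 ≤ x ^ 4 := pow_le_pow_right₀ hx (by norm_num)
            _ ≤ x ^ 4 * R := le_mul_of_one_le_right (by positivity) hR1
        calc C3 * (x ^ 4 * |((p.1 + p.2 : ℕ) : ℝ) - ((q.1 + q.2 : ℕ) : ℝ)| + x ^ 2) ≤
            C3 * (x ^ 4 * (2 * R) + x ^ 4 * R) :=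
              mul_le_mul_of_nonneg_left (add_le_add h4 h5) hC3.le
          _ = _ := by ring
      have hq0 : (0 : ℝ) ≤ dd q := Nat.cast_nonneg _
      have h6 : ((dd p : ℝ) - dd q) ^ 2 ≤ (√(3 * C3) * x ^ 2 * √R) ^ 2 := by
        rw [mul_pow, mul_pow, Real.sq_sqrt (by positivity), Real.sq_sqrt hR0.le]
        nlinarith
      have h7 := le_of_sq_le_sq' h6 hX0
      linarith
    have hcard : (F.card : ℝ) ≤ (((band N b).filter (fun p => (dd q : ℝ) ≤ (dd p : ℝ) ∧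
        (dd p : ℝ) ≤ (dd q : ℝ) + √(3 * C3) * x ^ 2 * √R)).card : ℝ) := by
      exact_mod_cast Finset.card_le_card hsub
    have h1 := H2 N b (dd q) (√(3 * C3) * x ^ 2 * √R) hN hX0
    rw [hN14, hNm14] at h1
    have h2 := hcard.trans h1
    have hsR : 1 ≤ √R := by
      rw [Real.one_le_sqrt]
      exact hR1
    calc (F.card : ℝ) * (16 * x ^ 2 / √R) ≤
        C2 * (√(3 * C3) * x ^ 2 * √R * x⁻¹ + x) * (16 * x ^ 2 / √R) :=
          mul_le_mul_of_nonneg_right h2 (by positivity)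
      _ ≤ C2 * (√(3 * C3) * x ^ 2 * √R * x⁻¹ + x * √R) * (16 * x ^ 2 / √R) := by
          have : x ≤ x * √R := le_mul_of_one_le_right hx0.le hsR
          gcongr
      _ = 16 * C2 * (√(3 * C3) + 1) * x ^ 3 := by
          have : √R ≠ 0 := by positivity
          field_simp

theorem weight_sum2 : ∃ C : ℝ, 0 < C ∧ ∀ (N : ℕ) (b : ℤ), 1 ≤ N → ∀ k : ℕ, √N ≤ (k : ℝ) →
    ∑ p ∈ bandk N b k, c2 p.1 p.2 ((p.1 + p.2 - k) / 2) ≤ C * (N : ℝ) ^ (3 / 4 : ℝ) * (1 + Real.log N) := by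
  obtain ⟨CA, hCA, HA⟩ := caseA275
  obtain ⟨CB, hCB, HB⟩ := caseB275
  refine ⟨4 * CA + 4 * CB + 4, by positivity, ?_⟩
  intro N b hN k hk
  have hNr : (1 : ℝ) ≤ N := by exact_mod_cast hN
  have hlogN : 0 ≤ Real.log N := Real.log_nonneg hNr
  rcases Nat.lt_or_ge 1 N with h2 | h2
  · set x : ℝ := (N : ℝ) ^ (1 / 4 : ℝ) with hx
    have hx1 : 1 ≤ x := Real.one_le_rpow hNr (by norm_num)
    have hx0 : 0 < x := by linarith
    have hxN : x ^ 4 = N := by
      rw [hx, ← Real.rpow_natCast, ← Real.rpow_mul (Nat.cast_nonneg _)]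
      norm_num
    have hx3 : (N : ℝ) ^ (3 / 4 : ℝ) = x ^ 3 := by
      rw [hx, ← Real.rpow_natCast, ← Real.rpow_mul (Nat.cast_nonneg _)]
      norm_num
    rw [hx3]
    have hp : 0 ≤ x ^ 3 * (1 + Real.log N) := by positivity
    rcases Nat.lt_or_ge (2 * k) (3 * N) with h3 | h3
    · refine (HA N b h2 k hk h3 x hx1 hxN).trans ?_
      have : 0 ≤ (4 * CB + 4) * (x ^ 3 * (1 + Real.log N)) := by positivity
      nlinarith
    · refine (HB N b h2 k h3 x hx1 hxN).trans ?_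
      have : 0 ≤ (4 * CA + 4) * (x ^ 3 * (1 + Real.log N)) := by positivity
      nlinarith
  · have hN1 : N = 1 := by omega
    subst hN1
    have h3 : ∑ p ∈ bandk 1 b k, c2 p.1 p.2 ((p.1 + p.2 - k) / 2) ≤ (bandk 1 b k).card • (4 : ℝ) := by
      apply Finset.sum_le_card_nsmul
      intro p hp
      have hd := dd275 1 b k p hp
      have hdk : (dd p : ℝ) ≤ k := by exact_mod_cast hd.1
      have hd0 : (0 : ℝ) ≤ dd p := Nat.cast_nonneg _
      have h10 := c2b275 1 b k p (by omega) hp 1 one_pos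
        (by
          have a1 : (1 : ℝ) ≤ (((p.1 + p.2 - k) / 2 : ℕ) : ℝ) + 1 := by
            have : (0 : ℝ) ≤ (((p.1 + p.2 - k) / 2 : ℕ) : ℝ) := Nat.cast_nonneg _
            linarith
          have a2 : (1 : ℝ) ≤ ((k : ℝ) - dd p) / 2 + 1 := by linarith
          have a3 : (1 : ℝ) ≤ ((k : ℝ) + dd p) / 2 + 1 := by linarith
          calc (1 : ℝ) = 1 * 1 * 1 := by norm_num
            _ ≤ _ := mul_le_mul (mul_le_mul a1 a2 (by norm_num) (by linarith)) a3 (by norm_num)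
                (by nlinarith))
      simpa using h10
    have h4 : (bandk 1 b k).card ≤ 1 := by
      rw [Finset.card_le_one]
      intro p hp q hq
      obtain ⟨_, p1, p2, p3, p4, _⟩ := mem275 1 b k p hp
      obtain ⟨_, q1, q2, q3, q4, _⟩ := mem275 1 b k q hq
      ext <;> omega
    refine h3.trans ?_
    rw [nsmul_eq_mul]
    have h5 : ((bandk 1 b k).card : ℝ) ≤ 1 := by exact_mod_cast h4
    simp only [Nat.cast_one, Real.one_rpow, mul_one, Real.log_one, add_zero]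
    nlinarith

end Pool.Agent.Helper442.DR
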