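import Mathlib
import Pool.Agent.Helper442.DR.Defs
import Pool.Agent.Helper442.DR.M7
import Pool.Agent.Helper442.DR.T2a
import Pool.Agent.Helper442.DR.T2b

open MeasureTheory Set Metric Real
open scoped ENNReal

namespace Pool.Agent.Helper442.DR













/-- regrouping: sum over degrees and bands is at most the sum over pairs and the parameter `r` -/
theorem regroup_w2 (N : ℕ) (Y : ℕ → ℕ → ℕ → ℝ) (hY : ∀ n m r, 0 ≤ Y n m r) (B : Finset ℤ) :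
    ∑ k ∈ Finset.range (4 * N), ∑ b ∈ B, ∑ p ∈ bandk N b k, Y p.1 p.2 ((p.1 + p.2 - k) / 2) ≤
      ∑ p ∈ (Finset.Ico N (2 * N)) ×ˢ (Finset.Ico N (2 * N)),
        ∑ r ∈ Finset.range (min p.1 p.2 + 1), Y p.1 p.2 r := by
  classical
  have step1 : ∀ k, ∑ b ∈ B, ∑ p ∈ bandk N b k, Y p.1 p.2 ((p.1 + p.2 - k) / 2) ≤
      ∑ p ∈ (Finset.Ico N (2 * N)) ×ˢ (Finset.Ico N (2 * N)),
        if (p.1 ≤ p.2 + k ∧ p.2 ≤ p.1 + k ∧ k ≤ p.1 + p.2 ∧ Even (p.1 + p.2 + k)) then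
          Y p.1 p.2 ((p.1 + p.2 - k) / 2) else 0 := by
    intro k
    have e1 : ∀ b ∈ B, ∑ p ∈ bandk N b k, Y p.1 p.2 ((p.1 + p.2 - k) / 2) =
        ∑ p ∈ (Finset.Ico N (2 * N)) ×ˢ (Finset.Ico N (2 * N)),
          if ⌊Lam p.1 + Lam p.2⌋ = b then
            (if (p.1 ≤ p.2 + k ∧ p.2 ≤ p.1 + k ∧ k ≤ p.1 + p.2 ∧ Even (p.1 + p.2 + k)) then
            Y p.1 p.2 ((p.1 + p.2 - k) / 2) else 0) else 0 := by
      intro b _
      unfold bandk band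
      rw [Finset.sum_filter, Finset.sum_filter]
    rw [Finset.sum_congr rfl e1, Finset.sum_comm]
    apply Finset.sum_le_sum
    intro p _
    rw [Finset.sum_ite_eq B]
    split_ifs
    · exact le_refl _
    · exact le_refl _
    · exact hY _ _ _
    · exact le_refl _
  calc _ ≤ ∑ k ∈ Finset.range (4 * N), _ := Finset.sum_le_sum (fun k _ => step1 k)
    _ = ∑ p ∈ (Finset.Ico N (2 * N)) ×ˢ (Finset.Ico N (2 * N)), ∑ k ∈ Finset.range (4 * N),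
        (if (p.1 ≤ p.2 + k ∧ p.2 ≤ p.1 + k ∧ k ≤ p.1 + p.2 ∧ Even (p.1 + p.2 + k)) then
          Y p.1 p.2 ((p.1 + p.2 - k) / 2) else 0) := Finset.sum_comm
    _ ≤ _ := by
      apply Finset.sum_le_sum
      rintro ⟨n, m⟩ _
      simp only
      rw [← Finset.sum_filter]
      have hinj : Set.InjOn (fun k => (n + m - k) / 2)
          ((Finset.range (4 * N)).filter
            (fun k => n ≤ m + k ∧ m ≤ n + k ∧ k ≤ n + m ∧ Even (n + m + k)) : Finset ℕ) := by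
        intro k hk k' hk' hkk
        simp only [Finset.coe_filter, Set.mem_setOf_eq] at hk hk'
        obtain ⟨_, _, _, h3, ⟨c, hc⟩⟩ := hk
        obtain ⟨_, _, _, h3', ⟨c', hc'⟩⟩ := hk'
        simp only at hkk
        omega
      rw [← Finset.sum_image (f := fun r => Y n m r) hinj]
      apply Finset.sum_le_sum_of_subset_of_nonneg
      · intro r hr
        rw [Finset.mem_image] at hr
        obtain ⟨k, hk, rfl⟩ := hr
        rw [Finset.mem_filter] at hk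
        obtain ⟨_, h1, h2, h3, ⟨c, hc⟩⟩ := hk
        rw [Finset.mem_range]
        rcases le_total n m with hnm | hnm
        · rw [min_eq_left hnm]; omega
        · rw [min_eq_right hnm]; omega
      · intro r _ _
        exact hY _ _ _

-- ===== TARGET (prove this; the lemmas above may be used with their sorry) =====
/-- the weighted Cauchy-Schwarz step (pure inequality), sharp version -/
theorem weights2 : ∃ C : ℝ, 0 < C ∧ ∀ (A : ℝ) (N : ℕ) (a : ℕ → ℝ) (X : ℕ → ℕ → ℕ → ℝ), 1 ≤ A → 1 ≤ N → (∀ n, 0 ≤ a n) →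
    (∀ n m r, 0 ≤ X n m r) →
    (∀ n m, ∑ r ∈ Finset.range (min n m + 1), (c2 n m r)⁻¹ * X n m r ≤ a n * a m) →
    (∀ n m, n ∈ Finset.Ico N (2 * N) → m ∈ Finset.Ico N (2 * N) →
      ∑ r ∈ Finset.range (min n m + 1), X n m r ≤ A * √N * (a n * a m)) →
    ∀ B : Finset ℤ, ∑ k ∈ Finset.range (4 * N), ∑ b ∈ B,
      (∑ p ∈ bandk N b k, √(X p.1 p.2 ((p.1 + p.2 - k) / 2))) ^ 2 ≤
      C * A * (N : ℝ) ^ (3 / 4 : ℝ) * (1 + Real.log N) * (∑ n ∈ Finset.Ico N (2 * N), a n) ^ 2 := by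
  obtain ⟨C1, hC1, h1⟩ := small_count2
  obtain ⟨C2, hC2, h2⟩ := weight_sum2
  refine ⟨C1 + C2, by positivity, ?_⟩
  intro A N a X hA hN ha hX hXc hXb B
  have hN' : (1 : ℝ) ≤ N := by exact_mod_cast hN
  have hN0 : (0 : ℝ) < N := by linarith
  have hlog : 0 ≤ Real.log N := Real.log_nonneg hN'
  obtain ⟨Y, hYdef⟩ : ∃ Y : ℕ → ℕ → ℕ → ℝ, ∀ n m r, Y n m r = C1 * (N : ℝ) ^ (1 / 4 : ℝ) * X n m r
      + C2 * (N : ℝ) ^ (3 / 4 : ℝ) * (1 + Real.log N) * ((c2 n m r)⁻¹ * X n m r) := ⟨_, fun _ _ _ => rfl⟩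
  have hp1 : 0 ≤ C1 * (N : ℝ) ^ (1 / 4 : ℝ) := by positivity
  have hp2 : 0 ≤ C2 * (N : ℝ) ^ (3 / 4 : ℝ) * (1 + Real.log N) := by positivity
  have hcX : ∀ n m r, 0 ≤ (c2 n m r)⁻¹ * X n m r := fun n m r =>
    mul_nonneg (inv_nonneg.mpr (c2_pos n m r).le) (hX n m r)
  have hY : ∀ n m r, 0 ≤ Y n m r := by
    intro n m r
    rw [hYdef]
    exact add_nonneg (mul_nonneg hp1 (hX n m r)) (mul_nonneg hp2 (hcX n m r))
  have hterm : ∀ (k : ℕ) (b : ℤ), (∑ p ∈ bandk N b k, √(X p.1 p.2 ((p.1 + p.2 - k) / 2))) ^ 2 ≤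
      ∑ p ∈ bandk N b k, Y p.1 p.2 ((p.1 + p.2 - k) / 2) := by
    intro k b
    have hsplit : ∑ p ∈ bandk N b k, Y p.1 p.2 ((p.1 + p.2 - k) / 2) =
        C1 * (N : ℝ) ^ (1 / 4 : ℝ) * ∑ p ∈ bandk N b k, X p.1 p.2 ((p.1 + p.2 - k) / 2)
        + C2 * (N : ℝ) ^ (3 / 4 : ℝ) * (1 + Real.log N) * ∑ p ∈ bandk N b k,
          (c2 p.1 p.2 ((p.1 + p.2 - k) / 2))⁻¹ * X p.1 p.2 ((p.1 + p.2 - k) / 2) := by
      rw [Finset.mul_sum, Finset.mul_sum, ← Finset.sum_add_distrib]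
      apply Finset.sum_congr rfl
      intro p _
      rw [hYdef]
    have hs1 : 0 ≤ ∑ p ∈ bandk N b k, X p.1 p.2 ((p.1 + p.2 - k) / 2) :=
      Finset.sum_nonneg (fun p _ => hX _ _ _)
    have hs2 : 0 ≤ ∑ p ∈ bandk N b k,
          (c2 p.1 p.2 ((p.1 + p.2 - k) / 2))⁻¹ * X p.1 p.2 ((p.1 + p.2 - k) / 2) :=
      Finset.sum_nonneg (fun p _ => hcX _ _ _)
    rw [hsplit]
    rcases le_total (k : ℝ) (√N) with hk | hk
    · have e1 : (∑ p ∈ bandk N b k, √(X p.1 p.2 ((p.1 + p.2 - k) / 2))) ^ 2 ≤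
          ((bandk N b k).card : ℝ) * ∑ p ∈ bandk N b k, (√(X p.1 p.2 ((p.1 + p.2 - k) / 2))) ^ 2 :=
        sq_sum_le_card_mul_sum_sq
      have e2 : ∑ p ∈ bandk N b k, (√(X p.1 p.2 ((p.1 + p.2 - k) / 2))) ^ 2 =
          ∑ p ∈ bandk N b k, X p.1 p.2 ((p.1 + p.2 - k) / 2) :=
        Finset.sum_congr rfl (fun p _ => Real.sq_sqrt (hX _ _ _))
      rw [e2] at e1
      have e3 := mul_le_mul_of_nonneg_right (h1 N b hN k hk) hs1
      have e4 := mul_nonneg hp2 hs2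
      linarith
    · have e1 : (∑ p ∈ bandk N b k, √(X p.1 p.2 ((p.1 + p.2 - k) / 2))) ^ 2 ≤
          (∑ p ∈ bandk N b k, c2 p.1 p.2 ((p.1 + p.2 - k) / 2)) * ∑ p ∈ bandk N b k,
          (c2 p.1 p.2 ((p.1 + p.2 - k) / 2))⁻¹ * X p.1 p.2 ((p.1 + p.2 - k) / 2) := by
        have f1 : ∑ p ∈ bandk N b k, √(X p.1 p.2 ((p.1 + p.2 - k) / 2)) =
            ∑ p ∈ bandk N b k, √(c2 p.1 p.2 ((p.1 + p.2 - k) / 2)) *
              √((c2 p.1 p.2 ((p.1 + p.2 - k) / 2))⁻¹ * X p.1 p.2 ((p.1 + p.2 - k) / 2)) := by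
          apply Finset.sum_congr rfl
          intro p _
          rw [← Real.sqrt_mul (c2_pos _ _ _).le, ← mul_assoc, mul_inv_cancel₀ (c2_pos _ _ _).ne', one_mul]
        rw [f1]
        refine (Finset.sum_mul_sq_le_sq_mul_sq _ _ _).trans (le_of_eq ?_)
        congr 1
        · exact Finset.sum_congr rfl (fun p _ => Real.sq_sqrt (c2_pos _ _ _).le)
        · exact Finset.sum_congr rfl (fun p _ => Real.sq_sqrt (hcX _ _ _))
      have e3 := mul_le_mul_of_nonneg_right (h2 N b hN k hk) hs2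
      have e4 := mul_nonneg hp1 hs1
      linarith
  have hmain : ∑ k ∈ Finset.range (4 * N), ∑ b ∈ B,
      (∑ p ∈ bandk N b k, √(X p.1 p.2 ((p.1 + p.2 - k) / 2))) ^ 2 ≤
      ∑ p ∈ (Finset.Ico N (2 * N)) ×ˢ (Finset.Ico N (2 * N)),
        ∑ r ∈ Finset.range (min p.1 p.2 + 1), Y p.1 p.2 r :=
    (Finset.sum_le_sum (fun k _ => Finset.sum_le_sum (fun b _ => hterm k b))).trans
      (regroup_w2 N Y hY B)
  refine hmain.trans ?_
  have hN34 : (N : ℝ) ^ (1 / 4 : ℝ) * √N = (N : ℝ) ^ (3 / 4 : ℝ) := by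
    rw [Real.sqrt_eq_rpow, ← Real.rpow_add hN0]
    norm_num
  have hpair : ∀ p ∈ (Finset.Ico N (2 * N)) ×ˢ (Finset.Ico N (2 * N)),
      ∑ r ∈ Finset.range (min p.1 p.2 + 1), Y p.1 p.2 r ≤
        (C1 + C2) * A * (N : ℝ) ^ (3 / 4 : ℝ) * (1 + Real.log N) * (a p.1 * a p.2) := by
    intro p hp
    rw [Finset.mem_product] at hp
    have g1 := hXb p.1 p.2 hp.1 hp.2
    have g2 := hXc p.1 p.2
    have g3 : ∑ r ∈ Finset.range (min p.1 p.2 + 1), Y p.1 p.2 r =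
        C1 * (N : ℝ) ^ (1 / 4 : ℝ) * ∑ r ∈ Finset.range (min p.1 p.2 + 1), X p.1 p.2 r
        + C2 * (N : ℝ) ^ (3 / 4 : ℝ) * (1 + Real.log N) *
          ∑ r ∈ Finset.range (min p.1 p.2 + 1), (c2 p.1 p.2 r)⁻¹ * X p.1 p.2 r := by
      rw [Finset.mul_sum, Finset.mul_sum, ← Finset.sum_add_distrib]
      apply Finset.sum_congr rfl
      intro r _
      rw [hYdef]
    rw [g3]
    have g4 := mul_le_mul_of_nonneg_left g1 hp1
    have g5 := mul_le_mul_of_nonneg_left g2 hp2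
    have haa : 0 ≤ a p.1 * a p.2 := mul_nonneg (ha _) (ha _)
    have g6 : C1 * (N : ℝ) ^ (1 / 4 : ℝ) * (A * √N * (a p.1 * a p.2)) =
        C1 * A * (N : ℝ) ^ (3 / 4 : ℝ) * (a p.1 * a p.2) := by
      rw [← hN34]; ring
    have hP : 0 ≤ (N : ℝ) ^ (3 / 4 : ℝ) * (a p.1 * a p.2) := by positivity
    have g7 : C1 * A * (N : ℝ) ^ (3 / 4 : ℝ) * (a p.1 * a p.2) ≤
        C1 * A * (1 + Real.log N) * ((N : ℝ) ^ (3 / 4 : ℝ) * (a p.1 * a p.2)) := by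
      have : C1 * A * 1 ≤ C1 * A * (1 + Real.log N) :=
        mul_le_mul_of_nonneg_left (by linarith) (by positivity)
      have := mul_le_mul_of_nonneg_right this hP
      linarith
    have g8 : C2 * (N : ℝ) ^ (3 / 4 : ℝ) * (1 + Real.log N) * (a p.1 * a p.2) ≤
        C2 * A * (1 + Real.log N) * ((N : ℝ) ^ (3 / 4 : ℝ) * (a p.1 * a p.2)) := by
      have h9 : C2 * (1 + Real.log N) * 1 ≤ C2 * (1 + Real.log N) * A :=
        mul_le_mul_of_nonneg_left hA (by positivity)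
      have := mul_le_mul_of_nonneg_right h9 hP
      linarith
    have g9 : (C1 + C2) * A * (N : ℝ) ^ (3 / 4 : ℝ) * (1 + Real.log N) * (a p.1 * a p.2) =
        C1 * A * (1 + Real.log N) * ((N : ℝ) ^ (3 / 4 : ℝ) * (a p.1 * a p.2)) +
        C2 * A * (1 + Real.log N) * ((N : ℝ) ^ (3 / 4 : ℝ) * (a p.1 * a p.2)) := by ring
    rw [g9]
    linarith
  refine (Finset.sum_le_sum hpair).trans (le_of_eq ?_)
  rw [← Finset.mul_sum, sq, Finset.sum_mul_sum, ← Finset.sum_product']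

end Pool.Agent.Helper442.DR
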