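import Mathlib
import Pool.Agent.Helper442.DR.Defs

namespace Pool.Agent.Helper442.DR.TB
open MeasureTheory Complex
theorem time_bound_summable : Summable (fun m : ℤ => Real.exp (-|(m : ℝ)|)) := by
  rw [summable_int_iff_summable_nat_and_neg]
  have h : Summable (fun n : ℕ => Real.exp (-(n : ℝ))) := Real.summable_exp_neg_nat
  constructor
  · refine h.congr fun n => ?_
    simp
  · refine h.congr fun n => ?_
    simp

theorem time_bound_gauss (w : ℝ) : ∫ t : ℝ, cexp (I * w * t) * cexp (-(1 : ℂ) * t ^ 2) =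
    ((Real.sqrt Real.pi * Real.exp (-w ^ 2 / 4) : ℝ) : ℂ) := by
  rw [fourierIntegral_gaussian (by norm_num)]
  push_cast
  rw [div_one, mul_one]
  congr 1
  rw [Real.sqrt_eq_rpow, Complex.ofReal_cpow Real.pi_pos.le]
  norm_num

theorem time_bound_abs {V : Type} [NormedAddCommGroup V] [InnerProductSpace ℂ V] (T : ℝ) (hT : 0 < T) :
    ∃ C : ℝ, 0 < C ∧ ∀ (ι : Type) (J : Finset ι) (w : ι → ℝ) (v : ι → V),
      ∫ t in (0:ℝ)..T, ‖∑ j ∈ J, cexp (I * (t * w j : ℝ)) • v j‖ ^ 2 ≤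
        C * ∑ b ∈ J.image (fun j => ⌊w j⌋), (∑ j ∈ J with ⌊w j⌋ = b, ‖v j‖) ^ 2 := by
  classical
  set S : ℝ := ∑' m : ℤ, Real.exp (-|(m : ℝ)|) with hS
  have hS0 : 0 < S := by
    refine time_bound_summable.tsum_pos (fun m => (Real.exp_pos _).le) 0 (Real.exp_pos _)
  refine ⟨Real.exp (T ^ 2) * (Real.sqrt Real.pi * (Real.exp 2 * S)), by positivity, ?_⟩
  intro ι J w v
  set F : ℝ → V := fun t => ∑ j ∈ J, cexp (I * (t * w j : ℝ)) • v j with hF
  have hFc : Continuous F := by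
    apply continuous_finsetSum
    intro j _
    fun_prop
  have hFb : ∀ t, ‖F t‖ ≤ ∑ j ∈ J, ‖v j‖ := by
    intro t
    refine (norm_sum_le _ _).trans (Finset.sum_le_sum fun j _ => ?_)
    rw [norm_smul, mul_comm I, Complex.norm_exp_ofReal_mul_I, one_mul]
  have hgint : Integrable (fun t : ℝ => Real.exp (-t ^ 2)) := by
    simpa using integrable_exp_neg_mul_sq (b := 1) one_pos
  have hint : Integrable (fun t : ℝ => Real.exp (-t ^ 2) * ‖F t‖ ^ 2) := by
    refine (hgint.mul_const ((∑ j ∈ J, ‖v j‖) ^ 2)).mono' (by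
      apply Continuous.aestronglyMeasurable; fun_prop) ?_
    filter_upwards with t
    rw [Real.norm_of_nonneg (by positivity)]
    gcongr
    exact hFb t
  -- step 1: pass to the Gaussian weight
  have step1 : ∫ t in (0:ℝ)..T, ‖F t‖ ^ 2 ≤
      Real.exp (T ^ 2) * ∫ t : ℝ, Real.exp (-t ^ 2) * ‖F t‖ ^ 2 := by
    rw [← integral_const_mul, intervalIntegral.integral_of_le hT.le]
    calc ∫ t in Set.Ioc 0 T, ‖F t‖ ^ 2
        ≤ ∫ t in Set.Ioc 0 T, Real.exp (T ^ 2) * (Real.exp (-t ^ 2) * ‖F t‖ ^ 2) := by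
          apply setIntegral_mono_on
          · exact (by fun_prop : Continuous fun t => ‖F t‖ ^ 2).integrableOn_Ioc
          · exact (hint.const_mul _).integrableOn
          · exact measurableSet_Ioc
          · intro t ht
            rw [← mul_assoc, ← Real.exp_add]
            have h1 : 1 ≤ Real.exp (T ^ 2 + -t ^ 2) := by
              apply Real.one_le_exp
              nlinarith [ht.1, ht.2]
            nlinarith [sq_nonneg ‖F t‖]
      _ ≤ ∫ t : ℝ, Real.exp (T ^ 2) * (Real.exp (-t ^ 2) * ‖F t‖ ^ 2) := by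
          apply setIntegral_le_integral (hint.const_mul _)
          filter_upwards with t
          positivity
  -- step 2: expand the square
  have hexp : ∀ t : ℝ, ((Real.exp (-t ^ 2) * ‖F t‖ ^ 2 : ℝ) : ℂ) =
      ∑ j ∈ J, ∑ k ∈ J, inner ℂ (v j) (v k) *
        (cexp (I * ((w k - w j : ℝ) : ℂ) * t) * cexp (-(1 : ℂ) * t ^ 2)) := by
    intro t
    have h1 : ((‖F t‖ ^ 2 : ℝ) : ℂ) = inner ℂ (F t) (F t) := by
      rw [inner_self_eq_norm_sq_to_K]; norm_cast
    have h2 : ((Real.exp (-t ^ 2) : ℝ) : ℂ) = cexp (-(1 : ℂ) * t ^ 2) := by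
      push_cast; congr 1; ring
    rw [Complex.ofReal_mul, h1, h2, hF]
    simp only [sum_inner, inner_sum, inner_smul_left, inner_smul_right, Finset.mul_sum]
    rw [Finset.sum_comm]
    refine Finset.sum_congr rfl fun j _ => Finset.sum_congr rfl fun k _ => ?_
    rw [← Complex.exp_conj, map_mul, Complex.conj_I, Complex.conj_ofReal]
    have h3 : cexp (I * ((w k - w j : ℝ) : ℂ) * t) =
        cexp (-I * ((t * w j : ℝ) : ℂ)) * cexp (I * ((t * w k : ℝ) : ℂ)) := by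
      rw [← Complex.exp_add]
      congr 1
      push_cast
      ring
    rw [h3]
    ring
  have hgi : ∀ u : ℝ, Integrable (fun t : ℝ => cexp (I * (u : ℂ) * t) * cexp (-(1 : ℂ) * t ^ 2)) := by
    intro u
    have h4 : Integrable (fun t : ℝ => ((Real.exp (-t ^ 2) : ℝ) : ℂ)) := hgint.ofReal
    refine h4.mono (by apply Continuous.aestronglyMeasurable; fun_prop) ?_
    filter_upwards with t
    rw [norm_mul]
    have h5 : ‖cexp (I * (u : ℂ) * t)‖ = 1 := by
      have : I * (u : ℂ) * t = ((u * t : ℝ) : ℂ) * I := by push_cast; ring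
      rw [this, Complex.norm_exp_ofReal_mul_I]
    have h6 : cexp (-(1 : ℂ) * t ^ 2) = ((Real.exp (-t ^ 2) : ℝ) : ℂ) := by
      push_cast; congr 1; ring
    rw [h5, h6, one_mul]
  have step2 : ((∫ t : ℝ, Real.exp (-t ^ 2) * ‖F t‖ ^ 2 : ℝ) : ℂ) =
      ∑ j ∈ J, ∑ k ∈ J, inner ℂ (v j) (v k) *
        ((Real.sqrt Real.pi * Real.exp (-(w k - w j) ^ 2 / 4) : ℝ) : ℂ) := by
    rw [← integral_complex_ofReal]
    simp only [hexp]
    rw [integral_finsetSum _ (fun j _ => integrable_finsetSum _ (fun k _ =>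
      (hgi (w k - w j)).const_mul _))]
    refine Finset.sum_congr rfl fun j _ => ?_
    rw [integral_finsetSum _ (fun k _ => (hgi (w k - w j)).const_mul _)]
    refine Finset.sum_congr rfl fun k _ => ?_
    rw [integral_const_mul, time_bound_gauss]
  have step3 : ∫ t : ℝ, Real.exp (-t ^ 2) * ‖F t‖ ^ 2 ≤
      ∑ j ∈ J, ∑ k ∈ J, Real.sqrt Real.pi * (‖v j‖ * ‖v k‖ * Real.exp (-(w k - w j) ^ 2 / 4)) := by
    have h7 : ‖((∫ t : ℝ, Real.exp (-t ^ 2) * ‖F t‖ ^ 2 : ℝ) : ℂ)‖ =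
        ∫ t : ℝ, Real.exp (-t ^ 2) * ‖F t‖ ^ 2 := by
      rw [Complex.norm_real, Real.norm_of_nonneg]
      exact integral_nonneg fun t => by positivity
    rw [← h7, step2]
    refine (norm_sum_le _ _).trans (Finset.sum_le_sum fun j _ => ?_)
    refine (norm_sum_le _ _).trans (Finset.sum_le_sum fun k _ => ?_)
    rw [norm_mul, Complex.norm_real, Real.norm_of_nonneg (by positivity)]
    have := norm_inner_le_norm (𝕜 := ℂ) (v j) (v k)
    calc ‖inner ℂ (v j) (v k)‖ * (Real.sqrt Real.pi * Real.exp (-(w k - w j) ^ 2 / 4))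
        ≤ (‖v j‖ * ‖v k‖) * (Real.sqrt Real.pi * Real.exp (-(w k - w j) ^ 2 / 4)) := by gcongr
      _ = _ := by ring
  -- step 4: blocks
  set B := J.image (fun j => ⌊w j⌋) with hB
  set A : ℤ → ℝ := fun b => ∑ j ∈ J with ⌊w j⌋ = b, ‖v j‖ with hA
  have hA0 : ∀ b, 0 ≤ A b := fun b => Finset.sum_nonneg fun j _ => norm_nonneg _
  have hker : ∀ j k, Real.exp (-(w k - w j) ^ 2 / 4) ≤
      Real.exp 2 * Real.exp (-|((⌊w j⌋ - ⌊w k⌋ : ℤ) : ℝ)|) := by
    intro j k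
    rw [← Real.exp_add]
    apply Real.exp_le_exp.2
    have h1 := Int.floor_le (w j)
    have h2 := Int.lt_floor_add_one (w j)
    have h3 := Int.floor_le (w k)
    have h4 := Int.lt_floor_add_one (w k)
    push_cast
    have h5 : |(⌊w j⌋ : ℝ) - ⌊w k⌋| ≤ |w k - w j| + 1 := by
      rw [abs_le]
      constructor
      · have := neg_abs_le (w k - w j); have := le_abs_self (w k - w j); linarith
      · have := neg_abs_le (w k - w j); have := le_abs_self (w k - w j); linarith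
    have h6 : -(w k - w j) ^ 2 / 4 ≤ 1 - |w k - w j| := by
      have := sq_nonneg (|w k - w j| / 2 - 1)
      have h7 : |w k - w j| ^ 2 = (w k - w j) ^ 2 := sq_abs _
      nlinarith
    linarith
  have hfib : ∀ f : ι → ℝ, ∑ j ∈ J, f j = ∑ b ∈ B, ∑ j ∈ J with ⌊w j⌋ = b, f j := by
    intro f
    rw [Finset.sum_fiberwise_of_maps_to (fun j hj => Finset.mem_image_of_mem _ hj)]
  have step4 : ∑ j ∈ J, ∑ k ∈ J, Real.sqrt Real.pi * (‖v j‖ * ‖v k‖ * Real.exp (-(w k - w j) ^ 2 / 4))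
      ≤ Real.sqrt Real.pi * (Real.exp 2 * ∑ b ∈ B, ∑ c ∈ B, A b * A c * Real.exp (-|((b - c : ℤ) : ℝ)|)) := by
    calc ∑ j ∈ J, ∑ k ∈ J, Real.sqrt Real.pi * (‖v j‖ * ‖v k‖ * Real.exp (-(w k - w j) ^ 2 / 4))
        ≤ ∑ j ∈ J, ∑ k ∈ J, Real.sqrt Real.pi * (Real.exp 2 *
          (‖v j‖ * ‖v k‖ * Real.exp (-|((⌊w j⌋ - ⌊w k⌋ : ℤ) : ℝ)|))) := by
          refine Finset.sum_le_sum fun j _ => Finset.sum_le_sum fun k _ => ?_
          have := hker j k
          calc Real.sqrt Real.pi * (‖v j‖ * ‖v k‖ * Real.exp (-(w k - w j) ^ 2 / 4))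
              ≤ Real.sqrt Real.pi * (‖v j‖ * ‖v k‖ *
                (Real.exp 2 * Real.exp (-|((⌊w j⌋ - ⌊w k⌋ : ℤ) : ℝ)|))) := by gcongr
            _ = _ := by ring
      _ = Real.sqrt Real.pi * (Real.exp 2 * ∑ j ∈ J, ∑ k ∈ J,
          (‖v j‖ * ‖v k‖ * Real.exp (-|((⌊w j⌋ - ⌊w k⌋ : ℤ) : ℝ)|))) := by
          simp only [Finset.mul_sum]
      _ = _ := by
          congr 2
          rw [hfib]
          refine Finset.sum_congr rfl fun b _ => ?_
          have h8 : ∀ j ∈ J.filter (fun j => ⌊w j⌋ = b), (∑ k ∈ J,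
              (‖v j‖ * ‖v k‖ * Real.exp (-|((⌊w j⌋ - ⌊w k⌋ : ℤ) : ℝ)|))) =
              ‖v j‖ * ∑ c ∈ B, A c * Real.exp (-|((b - c : ℤ) : ℝ)|) := by
            intro j hj
            have hjb : ⌊w j⌋ = b := (Finset.mem_filter.1 hj).2
            rw [hfib, Finset.mul_sum]
            refine Finset.sum_congr rfl fun c _ => ?_
            rw [hA, Finset.sum_mul, Finset.mul_sum]
            refine Finset.sum_congr rfl fun k hk => ?_
            have hkc : ⌊w k⌋ = c := (Finset.mem_filter.1 hk).2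
            rw [hjb, hkc]
            ring
          rw [Finset.sum_congr rfl h8, ← Finset.sum_mul, Finset.mul_sum]
          refine Finset.sum_congr rfl fun c _ => ?_
          rw [hA]
          ring
  have hrow : ∀ b : ℤ, ∑ c ∈ B, Real.exp (-|((b - c : ℤ) : ℝ)|) ≤ S := by
    intro b
    have h9 : Summable (fun c : ℤ => Real.exp (-|((b - c : ℤ) : ℝ)|)) := by
      have := (Equiv.subLeft b).summable_iff.2 time_bound_summable
      exact this
    have h10 : ∑' c : ℤ, Real.exp (-|((b - c : ℤ) : ℝ)|) = S :=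
      (Equiv.subLeft b).tsum_eq (fun m : ℤ => Real.exp (-|(m : ℝ)|))
    rw [← h10]
    exact h9.sum_le_tsum _ (fun c _ => (Real.exp_pos _).le)
  have step5 : ∑ b ∈ B, ∑ c ∈ B, A b * A c * Real.exp (-|((b - c : ℤ) : ℝ)|) ≤
      S * ∑ b ∈ B, A b ^ 2 := by
    have h11 : ∑ b ∈ B, ∑ c ∈ B, A b * A c * Real.exp (-|((b - c : ℤ) : ℝ)|) ≤
        ∑ b ∈ B, ∑ c ∈ B, (A b ^ 2 / 2 + A c ^ 2 / 2) * Real.exp (-|((b - c : ℤ) : ℝ)|) := by
      refine Finset.sum_le_sum fun b _ => Finset.sum_le_sum fun c _ => ?_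
      apply mul_le_mul_of_nonneg_right _ (Real.exp_pos _).le
      nlinarith [sq_nonneg (A b - A c)]
    have h12 : ∑ b ∈ B, ∑ c ∈ B, (A b ^ 2 / 2 + A c ^ 2 / 2) * Real.exp (-|((b - c : ℤ) : ℝ)|) =
        ∑ b ∈ B, A b ^ 2 * ∑ c ∈ B, Real.exp (-|((b - c : ℤ) : ℝ)|) := by
      have h13 : ∑ b ∈ B, ∑ c ∈ B, (A c ^ 2 / 2) * Real.exp (-|((b - c : ℤ) : ℝ)|) =
          ∑ b ∈ B, ∑ c ∈ B, (A b ^ 2 / 2) * Real.exp (-|((b - c : ℤ) : ℝ)|) := by
        rw [Finset.sum_comm]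
        refine Finset.sum_congr rfl fun b _ => Finset.sum_congr rfl fun c _ => ?_
        congr 3
        push_cast
        rw [abs_sub_comm]
      simp only [add_mul, Finset.sum_add_distrib]
      rw [h13, ← Finset.sum_add_distrib]
      refine Finset.sum_congr rfl fun b _ => ?_
      rw [← Finset.mul_sum]
      ring
    rw [h12] at h11
    refine h11.trans ?_
    rw [Finset.mul_sum]
    refine Finset.sum_le_sum fun b _ => ?_
    rw [mul_comm S]
    exact mul_le_mul_of_nonneg_left (hrow b) (sq_nonneg _)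
  calc ∫ t in (0:ℝ)..T, ‖F t‖ ^ 2
      ≤ Real.exp (T ^ 2) * ∫ t : ℝ, Real.exp (-t ^ 2) * ‖F t‖ ^ 2 := step1
    _ ≤ Real.exp (T ^ 2) * (Real.sqrt Real.pi * (Real.exp 2 * (S * ∑ b ∈ B, A b ^ 2))) := by
        apply mul_le_mul_of_nonneg_left _ (Real.exp_pos _).le
        refine (step3.trans step4).trans ?_
        gcongr
    _ = _ := by ring


end Pool.Agent.Helper442.DR.TB

open MeasureTheory Set Metric Real
open scoped ENNReal

namespace Pool.Agent.Helper442.DR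




-- ===== TARGET (prove this; the lemmas above may be used with their sorry) =====
theorem time_bound_norm (f : C(S, ℂ)) [IsFiniteMeasure sig] :
    ‖ContinuousMap.toLp (E := ℂ) 2 sig ℂ f‖ ^ 2 = ∫ x, ‖f x‖ ^ 2 ∂sig := by
  have h1 := ContinuousMap.inner_toLp (𝕜 := ℂ) sig f f
  have h2 := inner_self_eq_norm_sq_to_K (𝕜 := ℂ) (ContinuousMap.toLp (E := ℂ) 2 sig ℂ f)
  rw [h1] at h2
  have h3 : ∫ x, f x * (starRingEnd ℂ) (f x) ∂sig = ((∫ x, ‖f x‖ ^ 2 ∂sig : ℝ) : ℂ) := by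
    rw [← integral_complex_ofReal]
    congr 1
    funext x
    rw [Complex.mul_conj, Complex.normSq_eq_norm_sq]
  have h4 : ((‖ContinuousMap.toLp (E := ℂ) 2 sig ℂ f‖ ^ 2 : ℝ) : ℂ) =
      ((∫ x, ‖f x‖ ^ 2 ∂sig : ℝ) : ℂ) := by
    rw [← h3, h2]
    norm_cast
  exact_mod_cast h4

/-- almost orthogonality in time -/
theorem time_bound (T : ℝ) (hT : 0 < T) : ∃ C : ℝ, 0 < C ∧ ∀ {ι : Type} (J : Finset ι) (ω : ι → ℝ)
    (v : ι → S → ℂ), (∀ j ∈ J, Continuous (v j)) →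
    ∫ t in Icc (0 : ℝ) T, ∫ x, ‖∑ j ∈ J, Complex.exp (((t * ω j : ℝ) : ℂ) * Complex.I) * v j x‖ ^ 2 ∂sig ≤
      C * ∑ b ∈ J.image (fun j => ⌊ω j⌋), (∑ j ∈ J.filter (fun j => ⌊ω j⌋ = b), √(∫ x, ‖v j x‖ ^ 2 ∂sig)) ^ 2 := by
  classical
  haveI : IsFiniteMeasure sig := inferInstanceAs (IsFiniteMeasure (volume : Measure E).toSphere)
  obtain ⟨C, hC, h⟩ := TB.time_bound_abs (V := Lp ℂ 2 sig) T hT
  refine ⟨C, hC, ?_⟩
  intro ι J ω v hv
  let vc : ι → C(S, ℂ) := fun j => if hj : Continuous (v j) then ⟨v j, hj⟩ else 0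
  have hvc : ∀ j ∈ J, ∀ x, vc j x = v j x := by
    intro j hj x
    simp only [vc]
    rw [dif_pos (hv j hj)]
    rfl
  have h1 := h ι J ω (fun j => ContinuousMap.toLp (E := ℂ) 2 sig ℂ (vc j))
  have e1 : ∫ t in Icc (0 : ℝ) T, ∫ x, ‖∑ j ∈ J, Complex.exp (((t * ω j : ℝ) : ℂ) * Complex.I) * v j x‖ ^ 2 ∂sig
      = ∫ t in (0:ℝ)..T, ‖∑ j ∈ J, Complex.exp (Complex.I * (t * ω j : ℝ)) •
        (ContinuousMap.toLp (E := ℂ) 2 sig ℂ (vc j))‖ ^ 2 := by
    rw [intervalIntegral.integral_of_le hT.le, integral_Icc_eq_integral_Ioc]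
    congr 1
    funext t
    have e2 : ∑ j ∈ J, Complex.exp (Complex.I * (t * ω j : ℝ)) •
        (ContinuousMap.toLp (E := ℂ) 2 sig ℂ (vc j)) =
        ContinuousMap.toLp (E := ℂ) 2 sig ℂ
          (∑ j ∈ J, Complex.exp (Complex.I * (t * ω j : ℝ)) • vc j) := by
      rw [map_sum]
      refine Finset.sum_congr rfl fun j _ => ?_
      rw [map_smul]
    rw [e2, time_bound_norm]
    congr 1
    funext x
    congr 2
    rw [ContinuousMap.coe_sum, Finset.sum_apply]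
    refine Finset.sum_congr rfl fun j hj => ?_
    rw [ContinuousMap.coe_smul, Pi.smul_apply, smul_eq_mul, hvc j hj, mul_comm Complex.I]
  rw [e1]
  refine h1.trans (le_of_eq ?_)
  congr 1
  refine Finset.sum_congr (by congr) fun b _ => ?_
  congr 1
  refine Finset.sum_congr (by congr) fun j hj => ?_
  have hjJ : j ∈ J := (Finset.mem_filter.1 hj).1
  rw [eq_comm, Real.sqrt_eq_iff_mul_self_eq (by positivity) (norm_nonneg _), ← sq, time_bound_norm]
  congr 1
  funext x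
  rw [hvc j hjJ]

end Pool.Agent.Helper442.DR
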