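import Mathlib
import Pool.Agent.Helper442.DR.Defs
import Pool.Agent.Helper442.DR.G1a
import Pool.Agent.Helper442.DR.G1c
import Pool.Agent.Helper442.DR.G1b
import Pool.Agent.Helper442.DR.G2a
import Pool.Agent.Helper442.DR.G2c

open MeasureTheory Set Metric Real
open scoped ENNReal

namespace Pool.Agent.Helper442.DR
















-- ===== TARGET (prove this; the lemmas above may be used with their sorry) =====
/-- evaluation of the conjugate polynomial at a real point -/
theorem ev_conj (q : MvPolynomial (Fin 3) ℂ) (y : E) :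
    ev (MvPolynomial.map (starRingEnd ℂ) q) y = (starRingEnd ℂ) (ev q y) := by
  unfold ev
  induction q using MvPolynomial.induction_on with
  | C a => simp
  | add p q hp hq => simp only [map_add, hp, hq]
  | mul_X p i hp => simp only [map_mul, hp, MvPolynomial.map_X, MvPolynomial.eval_X, Complex.conj_ofReal]

theorem harm_conj (q : MvPolynomial (Fin 3) ℂ)
    (hq : ∑ i, MvPolynomial.pderiv i (MvPolynomial.pderiv i q) = 0) :
    ∑ i, MvPolynomial.pderiv i (MvPolynomial.pderiv i (MvPolynomial.map (starRingEnd ℂ) q)) = 0 := by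
  simp only [MvPolynomial.pderiv_map]
  rw [← map_sum, hq, map_zero]

/-- spherical harmonics of different degrees are orthogonal -/
theorem orth (j k : ℕ) (hjk : j ≠ k) (f g : S → ℂ) (hf : IsSphHarm j f) (hg : IsSphHarm k g) :
    ∫ y, f y * (starRingEnd ℂ) (g y) ∂sig = 0 := by
  obtain ⟨P, hP1, hP2, hP3⟩ := hf
  obtain ⟨Q, hQ1, hQ2, hQ3⟩ := hg
  have hQ1' : (MvPolynomial.map (starRingEnd ℂ) Q).IsHomogeneous k := hQ1.map _
  have hQ2' := harm_conj Q hQ2
  have hfun : (fun y : S => f y * (starRingEnd ℂ) (g y)) =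
      fun y : S => ev P (y : E) * ev (MvPolynomial.map (starRingEnd ℂ) Q) (y : E) := by
    funext y
    rw [ev_conj, hP3, hQ3]
    rfl
  rw [hfun]
  rcases lt_or_gt_of_ne hjk with h | h
  · exact low_sphere k _ P hQ1' hQ2' (lt_of_le_of_lt hP1.totalDegree_le h)
  · have := low_sphere j P (MvPolynomial.map (starRingEnd ℂ) Q) hP1 hP2
      (lt_of_le_of_lt hQ1'.totalDegree_le h)
    rw [← this]
    congr 1
    funext y
    ring

end Pool.Agent.Helper442.DR
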