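import Mathlib
import Pool.Agent.Helper442.DR.Defs
import Pool.Agent.Helper442.DR.M4
import Pool.Agent.Helper442.DR.M10

open MeasureTheory Set Metric Real
open scoped ENNReal

namespace Pool.Agent.Helper442.DR










-- ===== TARGET (prove this; the lemmas above may be used with their sorry) =====
theorem quartic_cont {k : ℕ} {f : S → ℂ} (hf : IsSphHarm k f) : Continuous f := by
  obtain ⟨P, _, _, h⟩ := hf
  have h0 : f = fun x : S => MvPolynomial.eval (fun i => (((x : E) i : ℝ) : ℂ)) P := funext h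
  rw [h0]
  have h1 : Continuous (fun v : Fin 3 → ℂ => MvPolynomial.eval v P) := MvPolynomial.continuous_eval P
  refine h1.comp (continuous_pi fun i => Complex.continuous_ofReal.comp ?_)
  fun_prop

theorem quartic_zero (k : ℕ) : IsSphHarm k (fun _ => 0) :=
  ⟨0, MvPolynomial.isHomogeneous_zero _ _ _, by simp, by simp⟩

theorem quartic_add {k : ℕ} {f g : S → ℂ} (hf : IsSphHarm k f) (hg : IsSphHarm k g) :
    IsSphHarm k (fun x => f x + g x) := by
  obtain ⟨P, h1, h2, h3⟩ := hf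
  obtain ⟨Q, h4, h5, h6⟩ := hg
  refine ⟨P + Q, h1.add h4, ?_, fun x => ?_⟩
  · simp only [map_add, Finset.sum_add_distrib, h2, h5, add_zero]
  · show f x + g x = _
    rw [map_add, h3, h6]

theorem quartic_smul {k : ℕ} {f : S → ℂ} (a : ℂ) (hf : IsSphHarm k f) :
    IsSphHarm k (fun x => a * f x) := by
  obtain ⟨P, h1, h2, h3⟩ := hf
  refine ⟨MvPolynomial.C a * P, ?_, ?_, fun x => ?_⟩
  · have := (MvPolynomial.isHomogeneous_C (Fin 3) a).mul h1
    rwa [zero_add] at this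
  · simp only [MvPolynomial.pderiv_C_mul]
    rw [← Finset.mul_sum, h2, mul_zero]
  · show a * f x = _
    rw [map_mul, MvPolynomial.eval_C, h3]

theorem quartic_sum {ι : Type} (k : ℕ) (J : Finset ι) (f : ι → S → ℂ)
    (hf : ∀ j ∈ J, IsSphHarm k (f j)) : IsSphHarm k (fun x => ∑ j ∈ J, f j x) := by
  classical
  induction J using Finset.induction_on with
  | empty => simpa using quartic_zero k
  | insert a J ha ih =>
    have h1 := quartic_add (hf a (Finset.mem_insert_self _ _))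
      (ih (fun j hj => hf j (Finset.mem_insert_of_mem hj)))
    simpa [Finset.sum_insert ha] using h1

instance quartic_fin : IsFiniteMeasure sig := by unfold sig; infer_instance

theorem quartic_int {G : Type} [NormedAddCommGroup G] {f : S → G} (hf : Continuous f) :
    Integrable f sig :=
  hf.integrable_of_hasCompactSupport (HasCompactSupport.of_compactSpace f)

theorem quartic_orth (K : Finset ℕ) (g : ℕ → S → ℂ) (hg : ∀ k ∈ K, IsSphHarm k (g k)) :
    ∫ x, ‖∑ k ∈ K, g k x‖ ^ 2 ∂sig = ∑ k ∈ K, ∫ x, ‖g k x‖ ^ 2 ∂sig := by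
  have hint : ∀ j ∈ K, ∀ k ∈ K, Integrable (fun x => g j x * (starRingEnd ℂ) (g k x)) sig := by
    intro j hj k hk
    exact quartic_int ((quartic_cont (hg j hj)).mul
      (Complex.continuous_conj.comp (quartic_cont (hg k hk))))
  have e1 : ∀ z : ℂ, ((‖z‖ ^ 2 : ℝ) : ℂ) = z * (starRingEnd ℂ) z := fun z => by
    rw [Complex.mul_conj, Complex.normSq_eq_norm_sq]
  have e2 : ∀ f : S → ℂ, ((∫ x, ‖f x‖ ^ 2 ∂sig : ℝ) : ℂ) =
      ∫ x, f x * (starRingEnd ℂ) (f x) ∂sig := by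
    intro f
    have h0 := integral_ofReal (𝕜 := ℂ) (μ := sig) (f := fun x => ‖f x‖ ^ 2)
    refine h0.symm.trans ?_
    exact integral_congr_ae (Filter.Eventually.of_forall fun x => e1 (f x))
  have h1 : ((∫ x, ‖∑ k ∈ K, g k x‖ ^ 2 ∂sig : ℝ) : ℂ) =
      ((∑ k ∈ K, ∫ x, ‖g k x‖ ^ 2 ∂sig : ℝ) : ℂ) := by
    rw [e2 (fun x => ∑ k ∈ K, g k x), Complex.ofReal_sum]
    calc ∫ x, (∑ k ∈ K, g k x) * (starRingEnd ℂ) (∑ k ∈ K, g k x) ∂sig
        = ∫ x, ∑ j ∈ K, ∑ k ∈ K, g j x * (starRingEnd ℂ) (g k x) ∂sig := by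
          refine integral_congr_ae (Filter.Eventually.of_forall fun x => ?_)
          simp only [map_sum, Finset.sum_mul_sum]
      _ = ∑ j ∈ K, ∫ x, ∑ k ∈ K, g j x * (starRingEnd ℂ) (g k x) ∂sig :=
          integral_finsetSum _ (fun j hj => integrable_finsetSum _ (fun k hk => hint j hj k hk))
      _ = ∑ j ∈ K, ∑ k ∈ K, ∫ x, g j x * (starRingEnd ℂ) (g k x) ∂sig :=
          Finset.sum_congr rfl (fun j hj => integral_finsetSum _ (fun k hk => hint j hj k hk))
      _ = ∑ j ∈ K, ∫ x, g j x * (starRingEnd ℂ) (g j x) ∂sig := by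
          refine Finset.sum_congr rfl (fun j hj => ?_)
          refine Finset.sum_eq_single_of_mem j hj (fun k hk hkj => ?_)
          exact orth j k hkj.symm (g j) (g k) (hg j hj) (hg k hk)
      _ = ∑ j ∈ K, ((∫ x, ‖g j x‖ ^ 2 ∂sig : ℝ) : ℂ) :=
          Finset.sum_congr rfl (fun j _ => (e2 (g j)).symm)
  exact Complex.ofReal_injective h1

theorem quartic_reindex (N n m : ℕ) (hn : n < 2 * N) (hm : m < 2 * N) (f : ℕ → ℂ) :
    ∑ r ∈ Finset.range (min n m + 1), f r =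
      ∑ k ∈ (Finset.range (4 * N)).filter
        (fun k => n ≤ m + k ∧ m ≤ n + k ∧ k ≤ n + m ∧ Even (n + m + k)), f ((n + m - k) / 2) := by
  refine Finset.sum_nbij' (fun r => n + m - 2 * r) (fun k => (n + m - k) / 2) ?_ ?_ ?_ ?_ ?_
  · intro r hr
    have h1 := Nat.lt_succ_iff.mp (Finset.mem_range.mp hr)
    obtain ⟨h2, h3⟩ := le_min_iff.mp h1
    refine Finset.mem_filter.mpr ⟨Finset.mem_range.mpr (by omega), by omega, by omega, by omega,
      ⟨n + m - r, by omega⟩⟩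
  · intro k hk
    obtain ⟨_, h2, h3, h4, e, he⟩ := Finset.mem_filter.mp hk
    exact Finset.mem_range.mpr (Nat.lt_succ_iff.mpr (le_min (by omega) (by omega)))
  · intro r hr
    have h1 := Nat.lt_succ_iff.mp (Finset.mem_range.mp hr)
    obtain ⟨h2, h3⟩ := le_min_iff.mp h1
    omega
  · intro k hk
    obtain ⟨_, h2, h3, h4, e, he⟩ := Finset.mem_filter.mp hk
    omega
  · intro r hr
    have h1 := Nat.lt_succ_iff.mp (Finset.mem_range.mp hr)
    obtain ⟨h2, h3⟩ := le_min_iff.mp h1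
    have h4 : (n + m - (n + m - 2 * r)) / 2 = r := by omega
    simp only [h4]

/-- the quartic form: decomposition by degree and almost orthogonality in time -/
theorem quartic (T : ℝ) (hT : 0 < T) : ∃ C : ℝ, 0 < C ∧ ∀ (N : ℕ) (F : ℕ → S → ℂ)
    (h : ℕ → ℕ → ℕ → S → ℂ), 1 ≤ N → (∀ n, IsSphHarm n (F n)) →
    (∀ n m, ∀ r ≤ min n m, IsSphHarm (n + m - 2 * r) (h n m r)) →
    (∀ n m x, F n x * F m x = ∑ r ∈ Finset.range (min n m + 1), h n m r x) →
    ∫ t in Icc (0 : ℝ) T, ∫ x, ‖∑ n ∈ Finset.Ico N (2 * N),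
        Complex.exp (((t * Lam n : ℝ) : ℂ) * Complex.I) * F n x‖ ^ 4 ∂sig ≤
      C * ∑ k ∈ Finset.range (4 * N),
        ∑ b ∈ ((Finset.Ico N (2 * N)) ×ˢ (Finset.Ico N (2 * N))).image (fun p => ⌊Lam p.1 + Lam p.2⌋),
          (∑ p ∈ bandk N b k, √(∫ x, ‖h p.1 p.2 ((p.1 + p.2 - k) / 2) x‖ ^ 2 ∂sig)) ^ 2 := by
  classical
  obtain ⟨C, hC, htb⟩ := time_bound T hT
  refine ⟨C, hC, fun N F h hN hF hh hprod => ?_⟩
  let J : ℕ → Finset (ℕ × ℕ) := fun k => ((Finset.Ico N (2 * N)) ×ˢ (Finset.Ico N (2 * N))).filter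
    (fun p => p.1 ≤ p.2 + k ∧ p.2 ≤ p.1 + k ∧ k ≤ p.1 + p.2 ∧ Even (p.1 + p.2 + k))
  let v : ℕ → ℕ × ℕ → S → ℂ := fun k p x => h p.1 p.2 ((p.1 + p.2 - k) / 2) x
  let ω : ℕ × ℕ → ℝ := fun p => Lam p.1 + Lam p.2
  let G : ℕ → ℝ → S → ℂ := fun k t x =>
    ∑ p ∈ J k, Complex.exp (((t * ω p : ℝ) : ℂ) * Complex.I) * v k p x
  have hv : ∀ k, ∀ p ∈ J k, IsSphHarm k (v k p) := by
    intro k p hp
    obtain ⟨hp1, h2, h3, h4, e, he⟩ := Finset.mem_filter.mp hp
    have h5 : (p.1 + p.2 - k) / 2 ≤ min p.1 p.2 := le_min (by omega) (by omega)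
    have h6 := hh p.1 p.2 _ h5
    have h7 : p.1 + p.2 - 2 * ((p.1 + p.2 - k) / 2) = k := by omega
    rw [h7] at h6
    exact h6
  have hG : ∀ k t, IsSphHarm k (G k t) := fun k t =>
    quartic_sum k (J k) _ (fun p hp => quartic_smul _ (hv k p hp))
  have hGc : ∀ k, Continuous (fun q : ℝ × S => G k q.1 q.2) := by
    intro k
    refine continuous_finsetSum _ (fun p hp => ?_)
    refine Continuous.mul ?_ ((quartic_cont (hv k p hp)).comp continuous_snd)
    fun_prop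
  have hsq : ∀ t x, (∑ n ∈ Finset.Ico N (2 * N),
      Complex.exp (((t * Lam n : ℝ) : ℂ) * Complex.I) * F n x) ^ 2 =
      ∑ k ∈ Finset.range (4 * N), G k t x := by
    intro t x
    rw [sq, Finset.sum_mul_sum, ← Finset.sum_product']
    have h1 : ∀ p ∈ (Finset.Ico N (2 * N)) ×ˢ (Finset.Ico N (2 * N)),
        Complex.exp (((t * Lam p.1 : ℝ) : ℂ) * Complex.I) * F p.1 x *
          (Complex.exp (((t * Lam p.2 : ℝ) : ℂ) * Complex.I) * F p.2 x) =
        ∑ k ∈ Finset.range (4 * N),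
          if p.1 ≤ p.2 + k ∧ p.2 ≤ p.1 + k ∧ k ≤ p.1 + p.2 ∧ Even (p.1 + p.2 + k) then
            Complex.exp (((t * ω p : ℝ) : ℂ) * Complex.I) * v k p x else 0 := by
      intro p hp
      obtain ⟨hp1, hp2⟩ := Finset.mem_product.mp hp
      have hp1' := (Finset.mem_Ico.mp hp1).2
      have hp2' := (Finset.mem_Ico.mp hp2).2
      rw [← Finset.sum_filter, ← Finset.mul_sum]
      have h2 : ∑ k ∈ (Finset.range (4 * N)).filter
          (fun k => p.1 ≤ p.2 + k ∧ p.2 ≤ p.1 + k ∧ k ≤ p.1 + p.2 ∧ Even (p.1 + p.2 + k)),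
          v k p x = F p.1 x * F p.2 x := by
        rw [hprod]
        exact (quartic_reindex N p.1 p.2 hp1' hp2' (fun r => h p.1 p.2 r x)).symm
      have h3 : Complex.exp (((t * ω p : ℝ) : ℂ) * Complex.I) =
          Complex.exp (((t * Lam p.1 : ℝ) : ℂ) * Complex.I) *
          Complex.exp (((t * Lam p.2 : ℝ) : ℂ) * Complex.I) := by
        rw [← Complex.exp_add]
        congr 1
        simp only [ω]
        push_cast
        ring
      rw [h2, h3]
      ring
    rw [Finset.sum_congr rfl h1, Finset.sum_comm]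
    refine Finset.sum_congr rfl (fun k _ => ?_)
    rw [← Finset.sum_filter]
  have h4 : ∀ t, ∫ x, ‖∑ n ∈ Finset.Ico N (2 * N),
        Complex.exp (((t * Lam n : ℝ) : ℂ) * Complex.I) * F n x‖ ^ 4 ∂sig =
      ∑ k ∈ Finset.range (4 * N), ∫ x, ‖G k t x‖ ^ 2 ∂sig := by
    intro t
    rw [← quartic_orth _ (fun k => G k t) (fun k _ => hG k t)]
    refine integral_congr_ae (Filter.Eventually.of_forall fun x => ?_)
    simp only []
    rw [← hsq t x, norm_pow]
    ring
  have hint : ∀ k, IntegrableOn (fun t => ∫ x, ‖G k t x‖ ^ 2 ∂sig) (Icc (0:ℝ) T) volume := by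
    intro k
    have h5 : Continuous (Function.uncurry (fun (t : ℝ) (x : S) => ‖G k t x‖ ^ 2)) :=
      ((hGc k).norm).pow 2
    have h6 := continuous_parametric_integral_of_continuous (μ := sig) h5
      (isCompact_univ : IsCompact (univ : Set S))
    simp only [Measure.restrict_univ] at h6
    exact h6.integrableOn_Icc
  calc ∫ t in Icc (0 : ℝ) T, ∫ x, ‖∑ n ∈ Finset.Ico N (2 * N),
        Complex.exp (((t * Lam n : ℝ) : ℂ) * Complex.I) * F n x‖ ^ 4 ∂sig
      = ∫ t in Icc (0 : ℝ) T, ∑ k ∈ Finset.range (4 * N), ∫ x, ‖G k t x‖ ^ 2 ∂sig :=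
        integral_congr_ae (Filter.Eventually.of_forall fun t => h4 t)
    _ = ∑ k ∈ Finset.range (4 * N), ∫ t in Icc (0 : ℝ) T, ∫ x, ‖G k t x‖ ^ 2 ∂sig :=
        integral_finsetSum _ (fun k _ => hint k)
    _ ≤ ∑ k ∈ Finset.range (4 * N), C *
        ∑ b ∈ ((Finset.Ico N (2 * N)) ×ˢ (Finset.Ico N (2 * N))).image
          (fun p => ⌊Lam p.1 + Lam p.2⌋),
          (∑ p ∈ bandk N b k, √(∫ x, ‖h p.1 p.2 ((p.1 + p.2 - k) / 2) x‖ ^ 2 ∂sig)) ^ 2 := by
        refine Finset.sum_le_sum (fun k _ => ?_)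
        refine (htb (J k) ω (v k) (fun p hp => quartic_cont (hv k p hp))).trans ?_
        refine mul_le_mul_of_nonneg_left ?_ hC.le
        have h5 : ∀ b, (J k).filter (fun j => ⌊ω j⌋ = b) = bandk N b k := by
          intro b
          ext p
          simp only [J, bandk, band, Finset.mem_filter, ω]
          tauto
        simp only [h5]
        refine Finset.sum_le_sum_of_subset_of_nonneg ?_ (fun _ _ _ => sq_nonneg _)
        intro b hb
        obtain ⟨p, hp, hpb⟩ := Finset.mem_image.mp hb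
        exact Finset.mem_image.mpr ⟨p, (Finset.mem_filter.mp hp).1, hpb⟩
    _ = _ := by rw [Finset.mul_sum]

end Pool.Agent.Helper442.DR
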