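import Mathlib
import Pool.Agent.Helper442.DR.Defs

open MeasureTheory Set Metric Real
open scoped ENNReal

namespace Pool.Agent.Helper442.DR






open MvPolynomial in
/-- linear form -/
noncomputable def zL (a : Fin 3 → ℂ) : MvPolynomial (Fin 3) ℂ :=
  C (a 0) * X 0 + C (a 1) * X 1 + C (a 2) * X 2

open MvPolynomial in
noncomputable def zR : MvPolynomial (Fin 3) ℂ := X 0 ^ 2 + X 1 ^ 2 + X 2 ^ 2

open MvPolynomial in
noncomputable def zD (a : Fin 3 → ℂ) (F : MvPolynomial (Fin 3) ℂ) : MvPolynomial (Fin 3) ℂ :=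
  C (a 0) * pderiv 0 F + C (a 1) * pderiv 1 F + C (a 2) * pderiv 2 F

open MvPolynomial in
noncomputable def zLap (F : MvPolynomial (Fin 3) ℂ) : MvPolynomial (Fin 3) ℂ :=
  ∑ i, pderiv i (pderiv i F)

open MvPolynomial in
theorem zonal_euler (n : ℕ) (F : MvPolynomial (Fin 3) ℂ) (hF : F.IsHomogeneous n) :
    X 0 * pderiv 0 F + X 1 * pderiv 1 F + X 2 * pderiv 2 F = (n : MvPolynomial (Fin 3) ℂ) * F := by
  have h := hF.sum_X_mul_pderiv
  rw [Fin.sum_univ_three] at h
  rw [h]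
  simp

open MvPolynomial in
theorem zonal_lapL (a : Fin 3 → ℂ) (F : MvPolynomial (Fin 3) ℂ) :
    zLap (zL a * F) = zL a * zLap F + 2 * zD a F := by
  simp only [zLap, zL, zD, Fin.sum_univ_three, map_add, Derivation.leibniz, pderiv_C, pderiv_X,
    smul_eq_mul, Pi.single_apply]
  simp
  ring

open MvPolynomial in
theorem zonal_lapR (F : MvPolynomial (Fin 3) ℂ) :
    zLap (zR * F) = zR * zLap F + 6 * F +
      4 * (X 0 * pderiv 0 F + X 1 * pderiv 1 F + X 2 * pderiv 2 F) := by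
  have hz : zR = X 0 * X 0 + X 1 * X 1 + X 2 * X 2 := by rw [zR]; ring
  rw [hz]
  simp only [zLap, Fin.sum_univ_three, map_add, Derivation.leibniz,
    pderiv_C, pderiv_X, smul_eq_mul, Pi.single_apply]
  simp
  ring

open MvPolynomial in
theorem zonal_DL (a : Fin 3 → ℂ) (ha : a 0 ^ 2 + a 1 ^ 2 + a 2 ^ 2 = 1)
    (F : MvPolynomial (Fin 3) ℂ) :
    zD a (zL a * F) = F + zL a * zD a F := by
  have h1 : (C (a 0) : MvPolynomial (Fin 3) ℂ) ^ 2 + C (a 1) ^ 2 + C (a 2) ^ 2 = 1 := by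
    rw [← map_pow, ← map_pow, ← map_pow, ← map_add, ← map_add, ha, map_one]
  simp only [zL, zD, map_add, Derivation.leibniz, pderiv_C, pderiv_X,
    smul_eq_mul, Pi.single_apply]
  simp
  linear_combination F * h1

open MvPolynomial in
theorem zonal_DR (a : Fin 3 → ℂ) (F : MvPolynomial (Fin 3) ℂ) :
    zD a (zR * F) = 2 * zL a * F + zR * zD a F := by
  simp only [zL, zR, zD, map_add, Derivation.leibniz, Derivation.leibniz_pow, pderiv_C, pderiv_X,
    smul_eq_mul, Pi.single_apply]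
  simp
  ring

open MvPolynomial in
/-- zonal polynomials -/
noncomputable def zZ (a : Fin 3 → ℂ) : ℕ → MvPolynomial (Fin 3) ℂ
  | 0 => 1
  | 1 => zL a
  | (n + 2) => C (((n : ℂ) + 2)⁻¹) *
      ((2 * (n : MvPolynomial (Fin 3) ℂ) + 3) * (zL a * zZ a (n + 1)) -
        ((n : MvPolynomial (Fin 3) ℂ) + 1) * (zR * zZ a n))

open MvPolynomial in
theorem zonal_rec (a : Fin 3 → ℂ) (n : ℕ) :
    ((n : MvPolynomial (Fin 3) ℂ) + 2) * zZ a (n + 2) =
      (2 * (n : MvPolynomial (Fin 3) ℂ) + 3) * (zL a * zZ a (n + 1)) -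
        ((n : MvPolynomial (Fin 3) ℂ) + 1) * (zR * zZ a n) := by
  have h : ((n : MvPolynomial (Fin 3) ℂ) + 2) * C (((n : ℂ) + 2)⁻¹) = 1 := by
    have h1 : ((n : MvPolynomial (Fin 3) ℂ) + 2) = C ((n : ℂ) + 2) := by
      simp only [map_add, map_natCast, map_ofNat]
    rw [h1, ← C_mul, mul_inv_cancel₀, C_1]
    exact_mod_cast (by positivity : ((n : ℝ) + 2) ≠ 0)
  rw [zZ, ← mul_assoc, h, one_mul]

open MvPolynomial in
theorem zonal_homL (a : Fin 3 → ℂ) : (zL a).IsHomogeneous 1 := by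
  have h : ∀ i, (C (a i) * X i : MvPolynomial (Fin 3) ℂ).IsHomogeneous 1 := by
    intro i
    have := (isHomogeneous_C (Fin 3) (a i)).mul (isHomogeneous_X ℂ i)
    simpa using this
  exact ((h 0).add (h 1)).add (h 2)

open MvPolynomial in
theorem zonal_homR : zR.IsHomogeneous 2 := by
  have h : ∀ i : Fin 3, (X i ^ 2 : MvPolynomial (Fin 3) ℂ).IsHomogeneous 2 := by
    intro i
    have := (isHomogeneous_X ℂ i).pow 2
    simpa using this
  exact ((h 0).add (h 1)).add (h 2)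

open MvPolynomial in
theorem zonal_hom (a : Fin 3 → ℂ) (n : ℕ) :
    (zZ a n).IsHomogeneous n ∧ (zZ a (n + 1)).IsHomogeneous (n + 1) := by
  induction n with
  | zero => exact ⟨isHomogeneous_one _ _, zonal_homL a⟩
  | succ n ih =>
    refine ⟨ih.2, ?_⟩
    have e1 : ((2 * (n : MvPolynomial (Fin 3) ℂ) + 3) * (zL a * zZ a (n + 1))).IsHomogeneous (n + 2) := by
      have h1 : (2 * (n : MvPolynomial (Fin 3) ℂ) + 3) = C (2 * (n : ℂ) + 3) := by
        simp only [map_add, map_mul, map_natCast, map_ofNat]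
      rw [h1]
      have := (isHomogeneous_C (Fin 3) (2 * (n : ℂ) + 3)).mul ((zonal_homL a).mul ih.2)
      have e : 0 + (1 + (n + 1)) = n + 2 := by omega
      rwa [e] at this
    have e2 : (((n : MvPolynomial (Fin 3) ℂ) + 1) * (zR * zZ a n)).IsHomogeneous (n + 2) := by
      have h1 : ((n : MvPolynomial (Fin 3) ℂ) + 1) = C ((n : ℂ) + 1) := by simp
      rw [h1]
      have := (isHomogeneous_C (Fin 3) ((n : ℂ) + 1)).mul (zonal_homR.mul ih.1)
      have e : 0 + (2 + n) = n + 2 := by omega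
      rwa [e] at this
    rw [show n + 1 + 1 = n + 2 from rfl, zZ]
    have := (isHomogeneous_C (Fin 3) (((n : ℂ) + 2)⁻¹)).mul (e1.sub e2)
    rwa [Nat.zero_add] at this

open MvPolynomial in
theorem zD_Cmul (a : Fin 3 → ℂ) (c : ℂ) (F : MvPolynomial (Fin 3) ℂ) :
    zD a (C c * F) = C c * zD a F := by
  simp only [zD, Derivation.leibniz, pderiv_C, smul_eq_mul, mul_zero, add_zero]
  ring

open MvPolynomial in
theorem zLap_Cmul (c : ℂ) (F : MvPolynomial (Fin 3) ℂ) :
    zLap (C c * F) = C c * zLap F := by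
  simp only [zLap, Derivation.leibniz, pderiv_C, smul_eq_mul, mul_zero, add_zero, Finset.mul_sum]

open MvPolynomial in
theorem zonal_main (a : Fin 3 → ℂ) (ha : a 0 ^ 2 + a 1 ^ 2 + a 2 ^ 2 = 1) (n : ℕ) :
    (zD a (zZ a (n + 1)) = ((n : MvPolynomial (Fin 3) ℂ) + 1) * zZ a n ∧
     zD a (zZ a (n + 2)) = ((n : MvPolynomial (Fin 3) ℂ) + 2) * zZ a (n + 1)) ∧
    (zLap (zZ a n) = 0 ∧ zLap (zZ a (n + 1)) = 0) := by
  have natC : ∀ c : ℕ, (c : MvPolynomial (Fin 3) ℂ) = C (c : ℂ) := fun c => by simp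
  have hcancel : ∀ (k : ℕ) (F G : MvPolynomial (Fin 3) ℂ),
      ((k : MvPolynomial (Fin 3) ℂ) + 2) * F = ((k : MvPolynomial (Fin 3) ℂ) + 2) * G → F = G := by
    intro k F G h
    have hne : ((k : MvPolynomial (Fin 3) ℂ) + 2) ≠ 0 := by
      have h1 : ((k : MvPolynomial (Fin 3) ℂ) + 2) = C ((k : ℂ) + 2) := by
        simp only [map_add, map_natCast, map_ofNat]
      rw [h1]
      intro h2
      rw [C_eq_zero] at h2
      have h3 : ((k + 2 : ℕ) : ℂ) = 0 := by push_cast; exact h2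
      rw [Nat.cast_eq_zero] at h3
      omega
    exact mul_left_cancel₀ hne h
  have Dadd : ∀ (F G : MvPolynomial (Fin 3) ℂ), zD a (F - G) = zD a F - zD a G := by
    intro F G
    simp only [zD, map_sub]; ring
  have Lapadd : ∀ (F G : MvPolynomial (Fin 3) ℂ), zLap (F - G) = zLap F - zLap G := by
    intro F G
    simp only [zLap, map_sub, Finset.sum_sub_distrib]
  have Dnat : ∀ (k : ℕ) (F : MvPolynomial (Fin 3) ℂ),
      zD a (((k : MvPolynomial (Fin 3) ℂ) + 2) * F) = ((k : MvPolynomial (Fin 3) ℂ) + 2) * zD a F := by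
    intro k F
    have h1 : ((k : MvPolynomial (Fin 3) ℂ) + 2) = C ((k : ℂ) + 2) := by
        simp only [map_add, map_natCast, map_ofNat]
    rw [h1, zD_Cmul]
  have Dnat1 : ∀ (k : ℕ) (F : MvPolynomial (Fin 3) ℂ),
      zD a (((k : MvPolynomial (Fin 3) ℂ) + 1) * F) = ((k : MvPolynomial (Fin 3) ℂ) + 1) * zD a F := by
    intro k F
    have h1 : ((k : MvPolynomial (Fin 3) ℂ) + 1) = C ((k : ℂ) + 1) := by simp
    rw [h1, zD_Cmul]
  have Dnat3 : ∀ (k : ℕ) (F : MvPolynomial (Fin 3) ℂ),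
      zD a ((2 * (k : MvPolynomial (Fin 3) ℂ) + 3) * F) =
        (2 * (k : MvPolynomial (Fin 3) ℂ) + 3) * zD a F := by
    intro k F
    have h1 : (2 * (k : MvPolynomial (Fin 3) ℂ) + 3) = C (2 * (k : ℂ) + 3) := by
        simp only [map_add, map_mul, map_natCast, map_ofNat]
    rw [h1, zD_Cmul]
  have Lnat : ∀ (k : ℕ) (F : MvPolynomial (Fin 3) ℂ),
      zLap (((k : MvPolynomial (Fin 3) ℂ) + 2) * F) = ((k : MvPolynomial (Fin 3) ℂ) + 2) * zLap F := by
    intro k F
    have h1 : ((k : MvPolynomial (Fin 3) ℂ) + 2) = C ((k : ℂ) + 2) := by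
        simp only [map_add, map_natCast, map_ofNat]
    rw [h1, zLap_Cmul]
  have Lnat1 : ∀ (k : ℕ) (F : MvPolynomial (Fin 3) ℂ),
      zLap (((k : MvPolynomial (Fin 3) ℂ) + 1) * F) = ((k : MvPolynomial (Fin 3) ℂ) + 1) * zLap F := by
    intro k F
    have h1 : ((k : MvPolynomial (Fin 3) ℂ) + 1) = C ((k : ℂ) + 1) := by simp
    rw [h1, zLap_Cmul]
  have Lnat3 : ∀ (k : ℕ) (F : MvPolynomial (Fin 3) ℂ),
      zLap ((2 * (k : MvPolynomial (Fin 3) ℂ) + 3) * F) =
        (2 * (k : MvPolynomial (Fin 3) ℂ) + 3) * zLap F := by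
    intro k F
    have h1 : (2 * (k : MvPolynomial (Fin 3) ℂ) + 3) = C (2 * (k : ℂ) + 3) := by
        simp only [map_add, map_mul, map_natCast, map_ofNat]
    rw [h1, zLap_Cmul]
  have D1 : zD a (1 : MvPolynomial (Fin 3) ℂ) = 0 := by simp [zD]
  have L1 : zLap (1 : MvPolynomial (Fin 3) ℂ) = 0 := by simp [zLap]
  have DL1 : zD a (zL a) = 1 := by
    have := zonal_DL a ha 1
    rw [mul_one, D1, mul_zero, add_zero] at this
    exact this
  have LL1 : zLap (zL a) = 0 := by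
    have := zonal_lapL a 1
    rw [mul_one, D1, L1, mul_zero, mul_zero, add_zero] at this
    exact this
  induction n with
  | zero =>
    refine ⟨⟨?_, ?_⟩, ?_, ?_⟩
    · simp only [Nat.zero_add, zZ, DL1, Nat.cast_zero, zero_add, mul_one]
    · apply hcancel 0
      rw [← Dnat, zonal_rec, Dadd, Dnat3, Dnat1, zonal_DL a ha, zonal_DR]
      simp only [zero_add, zZ, DL1, D1, Nat.cast_zero, mul_one, mul_zero, add_zero]
      ring
    · simp only [zZ, L1]
    · simp only [zero_add, zZ, LL1]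
  | succ n ih =>
    obtain ⟨⟨h1, h2⟩, h3, h4⟩ := ih
    have e2 : n + 1 + 1 = n + 2 := rfl
    have e3 : n + 1 + 2 = n + 3 := rfl
    rw [e2, e3]
    have hrec1 := zonal_rec a n
    have hrec2 := zonal_rec a (n + 1)
    rw [e2, e3] at hrec2
    push_cast at hrec2 ⊢
    refine ⟨⟨?_, ?_⟩, h4, ?_⟩
    · rw [h2]; ring
    · apply hcancel (n + 1)
      rw [← Dnat]
      have hr := zonal_rec a (n + 1)
      rw [e2, e3] at hr
      rw [hr, Dadd, Dnat3, Dnat1, zonal_DL a ha, zonal_DR, h1, h2]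
      push_cast
      linear_combination (-((n : MvPolynomial (Fin 3) ℂ) + 2)) * hrec1
    · apply hcancel n
      rw [← Lnat, hrec1, Lapadd, Lnat3, Lnat1, zonal_lapL, zonal_lapR,
        zonal_euler n _ (zonal_hom a n).1, h3, h4, h1]
      ring

open MvPolynomial in
theorem zonal_eval (x : S) (a : Fin 3 → ℂ) (ha : a = fun i => (((x : E) i : ℝ) : ℂ)) (y : S) (n : ℕ) :
    eval (fun i => (((y : E) i : ℝ) : ℂ)) (zZ a n) = ((leg n (dot x y) : ℝ) : ℂ) ∧
    eval (fun i => (((y : E) i : ℝ) : ℂ)) (zZ a (n + 1)) = ((leg (n + 1) (dot x y) : ℝ) : ℂ) := by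
  have hL : eval (fun i => (((y : E) i : ℝ) : ℂ)) (zL a) = ((dot x y : ℝ) : ℂ) := by
    subst ha
    simp only [zL, dot, Fin.sum_univ_three, map_add, map_mul, eval_C, eval_X]
    push_cast
    ring
  have hR : eval (fun i => (((y : E) i : ℝ) : ℂ)) zR = 1 := by
    have h1 : ‖(y : E)‖ = 1 := by simpa using y.2
    have h2 : ((y : E) 0) ^ 2 + ((y : E) 1) ^ 2 + ((y : E) 2) ^ 2 = 1 := by
      have h3 := EuclideanSpace.norm_sq_eq (y : E)
      rw [h1, Fin.sum_univ_three] at h3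
      simpa using h3.symm
    simp only [zR, map_add, map_pow, eval_X]
    have h4 := congrArg (fun t : ℝ => (t : ℂ)) h2
    push_cast at h4
    simpa using h4
  induction n with
  | zero => exact ⟨by simp [zZ, leg], by simp [zZ, leg, hL]⟩
  | succ n ih =>
    refine ⟨ih.2, ?_⟩
    rw [show n + 1 + 1 = n + 2 from rfl, zZ, leg]
    simp only [map_mul, map_sub, map_add, eval_C, map_natCast, map_ofNat, map_one, hL, hR, ih.1, ih.2]
    push_cast
    rw [div_eq_inv_mul]
    ring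

-- ===== TARGET (prove this; the lemmas above may be used with their sorry) =====
/-- the zonal functions are spherical harmonics -/
theorem zonal (j : ℕ) (x : S) : IsSphHarm j (fun y => ((leg j (dot x y) : ℝ) : ℂ)) := by
  set a : Fin 3 → ℂ := fun i => (((x : E) i : ℝ) : ℂ) with ha
  have hx : a 0 ^ 2 + a 1 ^ 2 + a 2 ^ 2 = 1 := by
    have h1 : ‖(x : E)‖ = 1 := by simpa using x.2
    have h2 : ((x : E) 0) ^ 2 + ((x : E) 1) ^ 2 + ((x : E) 2) ^ 2 = 1 := by
      have h3 := EuclideanSpace.norm_sq_eq (x : E)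
      rw [h1, Fin.sum_univ_three] at h3
      simpa using h3.symm
    simp only [ha]
    have h4 := congrArg (fun t : ℝ => (t : ℂ)) h2
    push_cast at h4
    simpa using h4
  exact ⟨zZ a j, (zonal_hom a j).1, (zonal_main a hx j).2.1, fun y => (zonal_eval x a ha y j).1.symm⟩

end Pool.Agent.Helper442.DR
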