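import Mathlib
import Pool.Agent.Helper442.DR.Defs
import Pool.Agent.Helper442.DR.G1a
import Pool.Agent.Helper442.DR.G1c
import Pool.Agent.Helper442.DR.G1b
import Pool.Agent.Helper442.DR.G2a
import Pool.Agent.Helper442.DR.G2c
import Pool.Agent.Helper442.DR.G2b
import Pool.Agent.Helper442.DR.M2
import Pool.Agent.Helper442.DR.M4

open MeasureTheory Set Metric Real
open scoped ENNReal

namespace Pool.Agent.Helper442.DR






















/-- leading coefficient of the Legendre polynomial -/
noncomputable def repro_c (k : ℕ) : ℝ :=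
  ((2 * k + 1).doubleFactorial : ℝ) / ((2 * k + 1) * (k.factorial : ℝ))

theorem repro_c_succ (n : ℕ) : repro_c (n + 2) = (2 * n + 3) / (n + 2) * repro_c (n + 1) := by
  unfold repro_c
  have h1 : (2 * (n + 2) + 1).doubleFactorial = (2 * n + 5) * (2 * (n + 1) + 1).doubleFactorial := by
    have : 2 * (n + 2) + 1 = (2 * n + 3) + 2 := by ring
    rw [this, Nat.doubleFactorial_add_two]
    ring_nf
  have h2 : (n + 2).factorial = (n + 2) * (n + 1).factorial := Nat.factorial_succ (n + 1)
  rw [h1, h2]
  push_cast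
  have h3 : ((n + 1).factorial : ℝ) ≠ 0 := by positivity
  have h4 : (2 * ((n : ℝ) + 2) + 1) ≠ 0 := by positivity
  have h5 : (2 * ((n : ℝ) + 1) + 1) ≠ 0 := by positivity
  have h6 : ((n : ℝ) + 2) ≠ 0 := by positivity
  field_simp
  ring

theorem repro_leg (k : ℕ) : (∃ a : ℕ → ℝ, ∀ t : ℝ, leg k t = repro_c k * t ^ k +
      ∑ i ∈ Finset.range k, a i * t ^ i) ∧
    (∃ a : ℕ → ℝ, ∀ t : ℝ, leg (k + 1) t = repro_c (k + 1) * t ^ (k + 1) +
      ∑ i ∈ Finset.range (k + 1), a i * t ^ i) := by
  induction k with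
  | zero =>
    refine ⟨⟨fun _ => 0, fun t => ?_⟩, ⟨fun _ => 0, fun t => ?_⟩⟩
    · simp [leg, repro_c]
    · simp [leg, repro_c, Nat.doubleFactorial]
      norm_num
  | succ n ih =>
    obtain ⟨⟨a0, h0⟩, ⟨a1, h1⟩⟩ := ih
    refine ⟨⟨a1, h1⟩, ?_⟩
    refine ⟨fun i => (2 * n + 3) / (n + 2) * (if i = 0 then 0 else a1 (i - 1)) -
      (n + 1) / (n + 2) * ((if i = n then repro_c n else 0) + if i < n then a0 i else 0),
      fun t => ?_⟩
    have e1 : ∑ i ∈ Finset.range (n + 1 + 1), (if i = 0 then 0 else a1 (i - 1)) * t ^ i =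
        t * ∑ i ∈ Finset.range (n + 1), a1 i * t ^ i := by
      rw [Finset.sum_range_succ', Finset.mul_sum]
      simp only [Nat.add_sub_cancel, Nat.succ_ne_zero, if_false, if_true, zero_mul, add_zero]
      refine Finset.sum_congr rfl (fun i _ => ?_)
      ring
    have e2 : ∑ i ∈ Finset.range (n + 1 + 1), (if i = n then repro_c n else 0) * t ^ i =
        repro_c n * t ^ n := by
      rw [Finset.sum_eq_single n]
      · rw [if_pos rfl]
      · intro b _ hb
        rw [if_neg hb, zero_mul]
      · intro hb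
        exact absurd (Finset.mem_range.2 (by omega)) hb
    have e3 : ∑ i ∈ Finset.range (n + 1 + 1), (if i < n then a0 i else 0) * t ^ i =
        ∑ i ∈ Finset.range n, a0 i * t ^ i := by
      rw [Finset.sum_range_succ, Finset.sum_range_succ, if_neg (by omega), if_neg (by omega),
        zero_mul, zero_mul, add_zero, add_zero]
      refine Finset.sum_congr rfl (fun i hi => ?_)
      rw [if_pos (Finset.mem_range.1 hi)]
    have e4 : ∑ i ∈ Finset.range (n + 1 + 1), ((2 * n + 3) / (n + 2) *
        (if i = 0 then 0 else a1 (i - 1)) - (n + 1) / (n + 2) *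
          ((if i = n then repro_c n else 0) + if i < n then a0 i else 0)) * t ^ i =
        (2 * n + 3) / (n + 2) * (t * ∑ i ∈ Finset.range (n + 1), a1 i * t ^ i) -
        (n + 1) / (n + 2) * (repro_c n * t ^ n + ∑ i ∈ Finset.range n, a0 i * t ^ i) := by
      rw [← e1, ← e2, ← e3, ← Finset.sum_add_distrib, Finset.mul_sum, Finset.mul_sum,
        ← Finset.sum_sub_distrib]
      refine Finset.sum_congr rfl (fun i _ => ?_)
      ring
    rw [e4]
    have e5 : leg (n + 1 + 1) t = ((2 * n + 3) * t * leg (n + 1) t - (n + 1) * leg n t) / (n + 2) := rfl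
    rw [e5, h0 t, h1 t]
    have e6 : repro_c (n + 1 + 1) = (2 * n + 3) / (n + 2) * repro_c (n + 1) := repro_c_succ n
    rw [e6]
    have h6 : ((n : ℝ) + 2) ≠ 0 := by positivity
    field_simp
    ring

theorem repro_cont (x : S) (i : ℕ) (P : MvPolynomial (Fin 3) ℂ) :
    Continuous (fun y : S => ((dot x y ^ i : ℝ) : ℂ) * ev P (y : E)) := by
  have h1 : ∀ j : Fin 3, Continuous (fun y : S => (y : E) j) := fun j => by fun_prop
  have h2 : Continuous (fun y : S => dot x y) := by
    unfold dot
    exact continuous_finset_sum _ (fun j _ => continuous_const.mul (h1 j))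
  have h3 : Continuous (fun y : S => ev P (y : E)) := by
    unfold ev
    exact (MvPolynomial.continuous_eval P).comp
      (continuous_pi (fun j => Complex.continuous_ofReal.comp (h1 j)))
  exact (Complex.continuous_ofReal.comp (h2.pow i)).mul h3

theorem repro_int (x : S) (i : ℕ) (P : MvPolynomial (Fin 3) ℂ) :
    Integrable (fun y : S => ((dot x y ^ i : ℝ) : ℂ) * ev P (y : E)) sig := by
  have : IsFiniteMeasure sig := by unfold sig; infer_instance
  exact (repro_cont x i P).integrable_of_hasCompactSupport (HasCompactSupport.of_compactSpace _)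

theorem repro_low (k i : ℕ) (hi : i < k) (g : MvPolynomial (Fin 3) ℂ) (hg : g.IsHomogeneous k)
    (hh : ∑ i, MvPolynomial.pderiv i (MvPolynomial.pderiv i g) = 0) (x : S) :
    ∫ y : S, ((dot x y ^ i : ℝ) : ℂ) * ev g (y : E) ∂sig = 0 := by
  have hL : (∑ j : Fin 3, MvPolynomial.C (((x : E) j : ℝ) : ℂ) * MvPolynomial.X j :
      MvPolynomial (Fin 3) ℂ).totalDegree ≤ 1 := by
    refine (MvPolynomial.totalDegree_finset_sum _ _).trans ?_
    refine Finset.sup_le (fun j _ => ?_)
    refine (MvPolynomial.totalDegree_mul _ _).trans ?_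
    rw [MvPolynomial.totalDegree_C, MvPolynomial.totalDegree_X]
  have hp : ((∑ j : Fin 3, MvPolynomial.C (((x : E) j : ℝ) : ℂ) * MvPolynomial.X j :
      MvPolynomial (Fin 3) ℂ) ^ i).totalDegree < k := by
    refine lt_of_le_of_lt (MvPolynomial.totalDegree_pow _ _) ?_
    nlinarith
  have h := low_sphere k g _ hg hh hp
  rw [← h]
  refine integral_congr_ae (Filter.Eventually.of_forall (fun y => ?_))
  simp only [ev, dot, map_pow, map_sum, map_mul, MvPolynomial.eval_C, MvPolynomial.eval_X]
  push_cast
  rfl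

-- ===== TARGET (prove this; the lemmas above may be used with their sorry) =====
/-- reproducing property of the Legendre kernels -/
theorem repro (j k : ℕ) (g : S → ℂ) (hg : IsSphHarm k g) (x : S) :
    ∫ y, (((2 * j + 1) / (4 * π) * leg j (dot x y) : ℝ) : ℂ) * g y ∂sig =
      if j = k then g x else 0 := by
  by_cases hjk : j = k
  · subst hjk
    rw [if_pos rfl]
    obtain ⟨P, hP1, hP2, hP3⟩ := hg
    obtain ⟨a, ha⟩ := (repro_leg j).1
    have hgx : ∀ y : S, g y = ev P (y : E) := hP3
    have e1 : ∀ y : S, (((2 * j + 1) / (4 * π) * leg j (dot x y) : ℝ) : ℂ) * g y =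
        (((2 * j + 1) / (4 * π) * repro_c j : ℝ) : ℂ) * (((dot x y ^ j : ℝ) : ℂ) * ev P (y : E)) +
        ∑ i ∈ Finset.range j, (((2 * j + 1) / (4 * π) * a i : ℝ) : ℂ) *
          (((dot x y ^ i : ℝ) : ℂ) * ev P (y : E)) := by
      intro y
      rw [hgx y, ha]
      push_cast
      rw [mul_add, add_mul, Finset.mul_sum, Finset.sum_mul]
      congr 1
      · ring
      · refine Finset.sum_congr rfl (fun i _ => ?_)
        ring
    rw [integral_congr_ae (Filter.Eventually.of_forall e1), integral_add, integral_finset_sum,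
      integral_const_mul, pow_k j P hP1 hP2 x, Finset.sum_eq_zero, add_zero, hgx x, ← mul_assoc,
      ← Complex.ofReal_mul]
    · have e2 : (2 * (j : ℝ) + 1) / (4 * π) * repro_c j *
          (4 * π * (j.factorial : ℝ) / ((2 * j + 1).doubleFactorial : ℝ)) = 1 := by
        unfold repro_c
        have h1 : (j.factorial : ℝ) ≠ 0 := by positivity
        have h2 : ((2 * j + 1).doubleFactorial : ℝ) ≠ 0 := by
          have := Nat.doubleFactorial_pos (2 * j + 1)
          positivity
        have h3 : (2 * (j : ℝ) + 1) ≠ 0 := by positivity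
        field_simp
      rw [e2, Complex.ofReal_one, one_mul]
    · intro i hi
      rw [integral_const_mul, repro_low j i (Finset.mem_range.1 hi) P hP1 hP2 x, mul_zero]
    · intro i _
      exact (repro_int x i P).const_mul _
    · exact (repro_int x j P).const_mul _
    · exact integrable_finset_sum _ (fun i _ => (repro_int x i P).const_mul _)
  · rw [if_neg hjk]
    have h1 := orth k j (Ne.symm hjk) g (fun y => ((leg j (dot x y) : ℝ) : ℂ)) hg (zonal j x)
    have e1 : ∀ y : S, (((2 * j + 1) / (4 * π) * leg j (dot x y) : ℝ) : ℂ) * g y =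
        (((2 * j + 1) / (4 * π) : ℝ) : ℂ) *
          (g y * (starRingEnd ℂ) ((leg j (dot x y) : ℝ) : ℂ)) := by
      intro y
      rw [Complex.conj_ofReal]
      push_cast
      ring
    rw [integral_congr_ae (Filter.Eventually.of_forall e1), integral_const_mul, h1, mul_zero]

end Pool.Agent.Helper442.DR
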