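import Mathlib
import Pool.Agent.Helper442.DR.Defs
import Pool.Agent.Helper442.DR.G1a
import Pool.Agent.Helper442.DR.G1c
import Pool.Agent.Helper442.DR.G1b
import Pool.Agent.Helper442.DR.G2a
import Pool.Agent.Helper442.DR.G2c

open MeasureTheory Set Metric Real
open scoped ENNReal

namespace Pool.Agent.Helper442.DR
















noncomputable def fiL (P : MvPolynomial (Fin 3) ℂ) : MvPolynomial (Fin 3) ℂ :=
  ∑ i, MvPolynomial.pderiv i (MvPolynomial.pderiv i P)

noncomputable def fiR : MvPolynomial (Fin 3) ℂ := ∑ i, MvPolynomial.X i ^ 2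

theorem fiL_hom {m : ℕ} {q : MvPolynomial (Fin 3) ℂ} (hq : q.IsHomogeneous m) :
    (fiL q).IsHomogeneous (m - 2) := by
  unfold fiL
  apply MvPolynomial.IsHomogeneous.sum
  intro i _
  have := (hq.pderiv (i := i)).pderiv (i := i)
  rwa [Nat.sub_sub] at this

theorem fiR_hom : (fiR).IsHomogeneous 2 := by
  unfold fiR
  apply MvPolynomial.IsHomogeneous.sum
  intro i _
  exact MvPolynomial.isHomogeneous_X_pow i 2

theorem fiL_small {m : ℕ} (hm : m < 2) {q : MvPolynomial (Fin 3) ℂ} (hq : q.IsHomogeneous m) :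
    fiL q = 0 := by
  unfold fiL
  apply Finset.sum_eq_zero
  intro i _
  have h1 : (MvPolynomial.pderiv i q).IsHomogeneous 0 := by
    have := hq.pderiv (i := i)
    rwa [show m - 1 = 0 by omega] at this
  rw [← MvPolynomial.totalDegree_zero_iff_isHomogeneous, MvPolynomial.totalDegree_eq_zero_iff_eq_C] at h1
  rw [h1, MvPolynomial.pderiv_C]

theorem fiL_mul {m : ℕ} {p : MvPolynomial (Fin 3) ℂ} (hp : p.IsHomogeneous m) :
    fiL (fiR * p) = fiR * fiL p + (4 * (m : MvPolynomial (Fin 3) ℂ) + 6) * p := by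
  have hR : ∀ i : Fin 3, MvPolynomial.pderiv i fiR = 2 * MvPolynomial.X i := by
    intro i
    unfold fiR
    rw [map_sum]
    rw [Finset.sum_eq_single i]
    · rw [MvPolynomial.pderiv_pow, MvPolynomial.pderiv_X_self]
      ring
    · intro j _ hj
      rw [MvPolynomial.pderiv_pow, MvPolynomial.pderiv_X_of_ne hj]
      ring
    · intro h
      exact absurd (Finset.mem_univ i) h
  have h1 : ∀ i : Fin 3, MvPolynomial.pderiv i (MvPolynomial.pderiv i (fiR * p)) =
      2 * p + 4 * (MvPolynomial.X i * MvPolynomial.pderiv i p) +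
        fiR * MvPolynomial.pderiv i (MvPolynomial.pderiv i p) := by
    intro i
    rw [MvPolynomial.pderiv_mul, hR, map_add, MvPolynomial.pderiv_mul, MvPolynomial.pderiv_mul,
      MvPolynomial.pderiv_mul, hR, MvPolynomial.pderiv_X_self]
    have h2 : MvPolynomial.pderiv i (2 : MvPolynomial (Fin 3) ℂ) = 0 := by
      rw [show (2 : MvPolynomial (Fin 3) ℂ) = MvPolynomial.C 2 from (map_ofNat MvPolynomial.C 2).symm,
        MvPolynomial.pderiv_C]
    rw [h2]
    ring
  have hE := hp.sum_X_mul_pderiv
  unfold fiL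
  rw [Finset.sum_congr rfl (fun i _ => h1 i), Finset.sum_add_distrib, Finset.sum_add_distrib,
    ← Finset.mul_sum, ← Finset.mul_sum, ← Finset.mul_sum, hE]
  simp only [Finset.sum_const, Finset.card_univ, Fintype.card_fin, nsmul_eq_mul]
  push_cast
  ring

theorem fi_solve : ∀ (m : ℕ) (q : MvPolynomial (Fin 3) ℂ), q.IsHomogeneous m → ∀ l : ℕ,
    ∃ p : MvPolynomial (Fin 3) ℂ, p.IsHomogeneous m ∧
      fiL (fiR * p) + (l : MvPolynomial (Fin 3) ℂ) * p = q := by
  intro m
  induction m using Nat.strong_induction_on with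
  | _ m ih =>
  intro q hq l
  obtain ⟨μ, hμ⟩ : ∃ μ : ℕ, μ = 4 * m + 6 + l := ⟨_, rfl⟩
  have hμ0 : (μ : ℂ) ≠ 0 := by
    have : 0 < μ := by omega
    exact_mod_cast this.ne'
  have hμc : (MvPolynomial.C ((μ : ℂ)⁻¹) : MvPolynomial (Fin 3) ℂ) * (μ : MvPolynomial (Fin 3) ℂ) = 1 := by
    rw [← map_natCast (MvPolynomial.C (σ := Fin 3) (R := ℂ)) μ, ← map_mul, inv_mul_cancel₀ hμ0, map_one]
  have hfin : ∀ p : MvPolynomial (Fin 3) ℂ, p.IsHomogeneous m →
      fiL (fiR * p) + (l : MvPolynomial (Fin 3) ℂ) * p =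
        fiR * fiL p + (μ : MvPolynomial (Fin 3) ℂ) * p := by
    intro p hp
    rw [fiL_mul hp, hμ]
    push_cast
    ring
  by_cases hm : m < 2
  · refine ⟨MvPolynomial.C ((μ : ℂ)⁻¹) * q, ?_, ?_⟩
    · have := (MvPolynomial.isHomogeneous_C (Fin 3) ((μ : ℂ)⁻¹)).mul hq
      rwa [zero_add] at this
    · have hp : (MvPolynomial.C ((μ : ℂ)⁻¹) * q).IsHomogeneous m := by
        have := (MvPolynomial.isHomogeneous_C (Fin 3) ((μ : ℂ)⁻¹)).mul hq
        rwa [zero_add] at this
      rw [hfin _ hp, fiL_small hm hp]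
      linear_combination q * hμc
  · obtain ⟨s, hs, hsq⟩ := ih (m - 2) (by omega) (fiL q) (fiL_hom hq) μ
    have hRs : (fiR * s).IsHomogeneous m := by
      have := fiR_hom.mul hs
      rwa [show 2 + (m - 2) = m by omega] at this
    have hp : (MvPolynomial.C ((μ : ℂ)⁻¹) * (q - fiR * s)).IsHomogeneous m := by
      have := (MvPolynomial.isHomogeneous_C (Fin 3) ((μ : ℂ)⁻¹)).mul (hq.sub hRs)
      rwa [zero_add] at this
    refine ⟨_, hp, ?_⟩
    have hLp : fiL (MvPolynomial.C ((μ : ℂ)⁻¹) * (q - fiR * s)) = s := by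
      have e1 : ∀ (c : ℂ) (a b : MvPolynomial (Fin 3) ℂ),
          fiL (MvPolynomial.C c * (a - b)) = MvPolynomial.C c * (fiL a - fiL b) := by
        intro c a b
        unfold fiL
        simp only [MvPolynomial.pderiv_C_mul, map_sub, Finset.sum_sub_distrib, ← Finset.mul_sum,
          mul_sub]
      rw [e1]
      linear_combination (MvPolynomial.C ((μ : ℂ)⁻¹) : MvPolynomial (Fin 3) ℂ) * (-hsq) + s * hμc
    rw [hfin _ hp, hLp]
    linear_combination (q - fiR * s) * hμc

theorem fi_aux : ∀ (d : ℕ) (q : MvPolynomial (Fin 3) ℂ), q.IsHomogeneous d →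
    ∃ h : ℕ → S → ℂ, (∀ k, IsSphHarm k (h k)) ∧ (∀ k, d < k → h k = 0) ∧
      ∀ x : S, MvPolynomial.eval (fun i => (((x : E) i : ℝ) : ℂ)) q = ∑ k ∈ Finset.range (d + 1), h k x := by
  intro d
  induction d using Nat.strong_induction_on with
  | _ d ih =>
  intro q hq
  have hzero : ∀ k, IsSphHarm k (0 : S → ℂ) := by
    intro k
    refine ⟨0, MvPolynomial.isHomogeneous_zero _ _ _, by simp, fun x => by simp⟩
  by_cases hd : d < 2
  · refine ⟨fun k => if k = d then (fun x => MvPolynomial.eval (fun i => (((x : E) i : ℝ) : ℂ)) q) else 0,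
      ?_, ?_, ?_⟩
    · intro k
      by_cases hk : k = d
      · subst hk
        simp only [if_true]
        exact ⟨q, hq, fiL_small hd hq, fun x => rfl⟩
      · simp only [if_neg hk]
        exact hzero k
    · intro k hk
      simp only [if_neg (by omega : ¬ k = d)]
    · intro x
      rw [Finset.sum_range_succ, Finset.sum_eq_zero]
      · simp
      · intro k hk
        rw [Finset.mem_range] at hk
        simp only [if_neg (by omega : ¬ k = d)]
        rfl
  · obtain ⟨p, hp, hpq⟩ := fi_solve (d - 2) (fiL q) (fiL_hom hq) 0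
    have hRp : (fiR * p).IsHomogeneous d := by
      have := fiR_hom.mul hp
      rwa [show 2 + (d - 2) = d by omega] at this
    obtain ⟨h', h1, h2, h3⟩ := ih (d - 2) (by omega) p hp
    have hH : (q - fiR * p).IsHomogeneous d := hq.sub hRp
    have hHh : fiL (q - fiR * p) = 0 := by
      have e1 : fiL (q - fiR * p) = fiL q - fiL (fiR * p) := by
        unfold fiL
        simp only [map_sub, Finset.sum_sub_distrib]
      rw [e1]
      rw [Nat.cast_zero, zero_mul, add_zero] at hpq
      rw [hpq, sub_self]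
    refine ⟨fun k => if k = d then
      (fun x => MvPolynomial.eval (fun i => (((x : E) i : ℝ) : ℂ)) (q - fiR * p)) else h' k, ?_, ?_, ?_⟩
    · intro k
      by_cases hk : k = d
      · subst hk
        simp only [if_true]
        exact ⟨q - fiR * p, hH, hHh, fun x => rfl⟩
      · simp only [if_neg hk]
        exact h1 k
    · intro k hk
      simp only [if_neg (by omega : ¬ k = d)]
      exact h2 k (by omega)
    · intro x
      have hR1 : MvPolynomial.eval (fun i => (((x : E) i : ℝ) : ℂ)) fiR = 1 := by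
        unfold fiR
        have hx : ‖(x : E)‖ = 1 := by
          have := x.2
          simpa using this
        have hx2 : ∑ i, ((x : E) i) ^ 2 = 1 := by
          have h4 := EuclideanSpace.norm_sq_eq (x : E)
          rw [hx] at h4
          simp only [Real.norm_eq_abs, sq_abs] at h4
          rw [← h4]
          norm_num
        simp only [map_sum, map_pow, MvPolynomial.eval_X]
        exact_mod_cast congrArg (fun r : ℝ => (r : ℂ)) hx2
      rw [Finset.sum_range_succ]
      simp only [if_true]
      have h5 : ∑ k ∈ Finset.range d, (if k = d then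
          (fun x : S => MvPolynomial.eval (fun i => (((x : E) i : ℝ) : ℂ)) (q - fiR * p)) else h' k) x =
          ∑ k ∈ Finset.range (d - 2 + 1), h' k x := by
        have h6 : ∑ k ∈ Finset.range d, (if k = d then
          (fun x : S => MvPolynomial.eval (fun i => (((x : E) i : ℝ) : ℂ)) (q - fiR * p)) else h' k) x =
          ∑ k ∈ Finset.range d, h' k x := by
          apply Finset.sum_congr rfl
          intro k hk
          rw [Finset.mem_range] at hk
          rw [if_neg (by omega)]
        rw [h6]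
        symm
        apply Finset.sum_subset
        · intro k hk
          rw [Finset.mem_range] at hk ⊢
          omega
        · intro k hk hk2
          rw [Finset.mem_range] at hk hk2
          rw [h2 k (by omega)]
          rfl
      rw [h5, ← h3 x, map_sub, map_mul, hR1]
      ring

-- ===== TARGET (prove this; the lemmas above may be used with their sorry) =====
/-- every homogeneous polynomial of degree d is, on the sphere, a sum of spherical harmonics (Fischer) -/
theorem fischer (d : ℕ) (q : MvPolynomial (Fin 3) ℂ) (hq : q.IsHomogeneous d) :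
    ∃ h : ℕ → S → ℂ, (∀ k, IsSphHarm k (h k)) ∧ (∀ k, d < k → h k = 0) ∧
      ∀ x : S, MvPolynomial.eval (fun i => (((x : E) i : ℝ) : ℂ)) q = ∑ k ∈ Finset.range (d + 1), h k x := by
  exact fi_aux d q hq

end Pool.Agent.Helper442.DR
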