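import Mathlib
import Pool.Agent.Helper442.DR.Defs

open MeasureTheory Set Metric Real
open scoped ENNReal

namespace Pool.Agent.Helper442.DR




-- ===== TARGET (prove this; the lemmas above may be used with their sorry) =====



lemma adw_zero : w 0 = 1 := by simp [w]

lemma adw_pos (r : ℕ) : 0 < w r := by
  unfold w
  have h := Nat.centralBinom_pos r
  have h' : (0 : ℝ) < (Nat.centralBinom r : ℝ) := by exact_mod_cast h
  positivity

lemma adw_succ (r : ℕ) : w (r + 1) = w r * ((2 * (r : ℝ) + 1) / (2 * (r : ℝ) + 2)) := by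
  unfold w
  have h := Nat.succ_mul_centralBinom_succ r
  have h' : ((r : ℝ) + 1) * (Nat.centralBinom (r + 1) : ℝ)
      = 2 * (2 * (r : ℝ) + 1) * (Nat.centralBinom r : ℝ) := by exact_mod_cast h
  have h1 : (Nat.centralBinom (r + 1) : ℝ)
      = 2 * (2 * (r : ℝ) + 1) * (Nat.centralBinom r : ℝ) / ((r : ℝ) + 1) := by
    rw [← h']
    field_simp
  rw [h1, pow_succ]
  field_simp
  ring

/-- coefficient with n = q + r, m = s + r -/
noncomputable def adc (q s r : ℕ) : ℝ :=
  w r * w q * w s / w (q + s + r) * ((2 * ((q : ℝ) + s) + 1) / (2 * ((q : ℝ) + s + r) + 1))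

lemma adkey (q s j : ℕ) :
    ((s : ℝ) + j + 2) * adc q (s + 1) (j + 1) =
      (2 * ((s : ℝ) + j) + 3) * (adc q s (j + 1) * (((q : ℝ) + s + 1) / (2 * ((q : ℝ) + s) + 1))
        + adc (q + 1) (s + 1) j * (((q : ℝ) + s + 2) / (2 * ((q : ℝ) + s) + 5)))
      - ((s : ℝ) + j + 1) * adc (q + 1) s j := by
  have hA := (adw_pos j).ne'
  have hB := (adw_pos q).ne'
  have hC := (adw_pos s).ne'
  have hE := (adw_pos (q + s + j + 1)).ne'
  unfold adc
  have e1 : q + (s + 1) + (j + 1) = (q + s + j + 1) + 1 := by ring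
  have e2 : q + s + (j + 1) = q + s + j + 1 := by ring
  have e3 : q + 1 + (s + 1) + j = (q + s + j + 1) + 1 := by ring
  have e4 : q + 1 + s + j = q + s + j + 1 := by ring
  rw [e1, e2, e3, e4, adw_succ (q + s + j + 1), adw_succ j, adw_succ q, adw_succ s]
  push_cast
  have p1 : (2 * ((q : ℝ) + s) + 1) ≠ 0 := by positivity
  have p2 : (2 * ((q : ℝ) + s) + 5) ≠ 0 := by positivity
  have p3 : (2 * ((q : ℝ) + (s + 1) + (j + 1)) + 1) ≠ 0 := by positivity
  have p4 : (2 * ((q : ℝ) + s + j + 1) + 1) ≠ 0 := by positivity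
  have p5 : (2 * ((q : ℝ) + s + j + 1) + 2) ≠ 0 := by positivity
  have p6 : (2 * (j : ℝ) + 2) ≠ 0 := by positivity
  have p7 : (2 * (q : ℝ) + 2) ≠ 0 := by positivity
  have p8 : (2 * (s : ℝ) + 2) ≠ 0 := by positivity
  have p9 : (2 * (q : ℝ) + 1) ≠ 0 := by positivity
  have p10 : (2 * (s : ℝ) + 1) ≠ 0 := by positivity
  have p11 : (2 * (j : ℝ) + 1) ≠ 0 := by positivity
  have p12 : (2 * ((q : ℝ) + s + (j + 1)) + 1) ≠ 0 := by positivity
  have p13 : (2 * ((q : ℝ) + 1 + (s + 1) + j) + 1) ≠ 0 := by positivity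
  have p14 : (2 * ((q : ℝ) + 1 + s + j) + 1) ≠ 0 := by positivity
  field_simp
  ring

lemma adkey0 (n m : ℕ) :
    ((m : ℝ) + 2) * adc n (m + 2) 0 =
      (2 * (m : ℝ) + 3) * (adc n (m + 1) 0 * (((n : ℝ) + m + 2) / (2 * ((n : ℝ) + m + 1) + 1))) := by
  have hB := (adw_pos n).ne'
  have hC := (adw_pos (m + 1)).ne'
  have hE := (adw_pos (n + m + 1)).ne'
  unfold adc
  have e1 : n + (m + 2) + 0 = (n + m + 1) + 1 := by ring
  have e2 : n + (m + 1) + 0 = n + m + 1 := by ring
  have e3 : m + 2 = (m + 1) + 1 := by ring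
  rw [e1, e2, adw_succ (n + m + 1), e3, adw_succ (m + 1), adw_zero]
  push_cast
  have p1 : (2 * ((n : ℝ) + m + 1) + 1) ≠ 0 := by positivity
  have p2 : (2 * ((n : ℝ) + m + 1) + 2) ≠ 0 := by positivity
  have p3 : (2 * ((m : ℝ) + 1) + 2) ≠ 0 := by positivity
  field_simp
  ring

lemma adkeyl (q m : ℕ) :
    ((m : ℝ) + 2) * adc q 0 (m + 2) =
      (2 * (m : ℝ) + 3) * (adc (q + 1) 0 (m + 1) * (((q : ℝ) + 1) / (2 * (q : ℝ) + 3))) := by
  have hB := (adw_pos q).ne'
  have hC := (adw_pos (m + 1)).ne'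
  have hE := (adw_pos (q + m + 2)).ne'
  unfold adc
  have e1 : q + 0 + (m + 2) = q + m + 2 := by ring
  have e2 : q + 1 + 0 + (m + 1) = q + m + 2 := by ring
  have e3 : w (m + 2) = w (m + 1) * ((2 * ((m + 1 : ℕ) : ℝ) + 1) / (2 * ((m + 1 : ℕ) : ℝ) + 2)) :=
    adw_succ (m + 1)
  rw [e1, e2, e3, adw_succ q, adw_zero]
  push_cast
  have p1 : (2 * (q : ℝ) + 3) ≠ 0 := by positivity
  have p2 : (2 * (q : ℝ) + 2) ≠ 0 := by positivity
  have p3 : (2 * ((m : ℝ) + 1) + 2) ≠ 0 := by positivity
  have p4 : (2 * ((q : ℝ) + 0 + (m + 2)) + 1) ≠ 0 := by positivity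
  have p5 : (2 * ((q : ℝ) + 1 + 0 + (m + 1)) + 1) ≠ 0 := by positivity
  field_simp
  ring


theorem adams_aux (x : ℝ) (p : ℕ → ℝ) (h0 : p 0 = 1) (h1 : p 1 = x)
    (hrec : ∀ n : ℕ, ((n : ℝ) + 2) * p (n + 2)
      = (2 * (n : ℝ) + 3) * x * p (n + 1) - ((n : ℝ) + 1) * p n) :
    ∀ m n : ℕ, m ≤ n →
      p n * p m = ∑ r ∈ Finset.range (m + 1), adc (n - r) (m - r) r * p ((n - r) + (m - r)) := by
  -- x p_k
  have hx : ∀ k : ℕ, x * p (k + 1)
      = (((k : ℝ) + 2) / (2 * (k : ℝ) + 3)) * p (k + 2)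
        + (((k : ℝ) + 1) / (2 * (k : ℝ) + 3)) * p k := by
    intro k
    have h := hrec k
    have h3 : (2 * (k : ℝ) + 3) ≠ 0 := by positivity
    field_simp
    linarith
  intro m
  induction m using Nat.strong_induction_on with
  | _ m ih =>
    intro n hmn
    rcases m with _ | m
    · simp only [zero_add, Finset.range_one, Finset.sum_singleton, Nat.sub_zero, add_zero]
      rw [h0]
      unfold adc
      rw [adw_zero]
      have hB := (adw_pos n).ne'
      simp only [add_zero]
      have p1 : (2 * ((n : ℝ)) + 1) ≠ 0 := by positivity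
      push_cast
      field_simp
      ring
    rcases m with _ | m
    · obtain ⟨n, rfl⟩ : ∃ n', n = n' + 1 := ⟨n - 1, by omega⟩
      rw [Finset.sum_range_succ, Finset.sum_range_succ, Finset.range_zero, Finset.sum_empty]
      simp only [zero_add, Nat.sub_zero, Nat.add_sub_cancel, Nat.sub_self, add_zero]
      rw [h1, mul_comm (p (n + 1)) x, hx n]
      have hc1 : adc (n + 1) 1 0 = ((n : ℝ) + 2) / (2 * (n : ℝ) + 3) := by
        unfold adc
        have hB := (adw_pos (n + 1)).ne'
        have e : n + 1 + 1 + 0 = (n + 1) + 1 := by ring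
        have hw1 : w 1 = 1 / 2 := by
          have := adw_succ 0
          rw [adw_zero] at this
          norm_num at this
          rw [this]
        rw [e, adw_succ (n + 1), adw_zero, hw1]
        push_cast
        have p1 : (2 * ((n : ℝ) + 1) + 1) ≠ 0 := by positivity
        have p2 : (2 * ((n : ℝ) + 1) + 2) ≠ 0 := by positivity
        have p3 : (2 * (n : ℝ) + 3) ≠ 0 := by positivity
        field_simp
        try ring
      have hc2 : adc n 0 1 = ((n : ℝ) + 1) / (2 * (n : ℝ) + 3) := by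
        unfold adc
        have hB := (adw_pos n).ne'
        have e : n + 0 + 1 = n + 1 := by ring
        have hw1 : w 1 = 1 / 2 := by
          have := adw_succ 0
          rw [adw_zero] at this
          norm_num at this
          rw [this]
        rw [e, adw_succ n, adw_zero, hw1]
        push_cast
        have p1 : (2 * (n : ℝ) + 1) ≠ 0 := by positivity
        have p2 : (2 * (n : ℝ) + 2) ≠ 0 := by positivity
        have p3 : (2 * (n : ℝ) + 3) ≠ 0 := by positivity
        field_simp
        try ring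
      rw [hc1, hc2]
    · -- step
      have ih1 := ih (m + 1) (by omega) n (by omega)
      have ih0 := ih m (by omega) n (by omega)
      have hm2 : ((m : ℝ) + 2) ≠ 0 := by positivity
      apply mul_left_cancel₀ hm2
      -- left side
      have hL : ((m : ℝ) + 2) * (p n * p (m + 1 + 1))
          = (2 * (m : ℝ) + 3) * (x * (p n * p (m + 1))) - ((m : ℝ) + 1) * (p n * p m) := by
        have h := hrec m
        calc ((m : ℝ) + 2) * (p n * p (m + 1 + 1)) = p n * (((m : ℝ) + 2) * p (m + 2)) := by ring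
          _ = _ := by rw [h]; ring
      rw [hL, ih1, ih0]
      -- x times the sum
      have hX : x * (∑ r ∈ Finset.range (m + 1 + 1), adc (n - r) (m + 1 - r) r * p (n - r + (m + 1 - r)))
          = (∑ r ∈ Finset.range (m + 2), adc (n - r) (m + 1 - r) r
              * ((((n - r : ℕ) : ℝ) + ((m + 1 - r : ℕ) : ℝ) + 1)
                / (2 * (((n - r : ℕ) : ℝ) + ((m + 1 - r : ℕ) : ℝ)) + 1)) * p (n - r + (m + 2 - r)))
          + ∑ r ∈ Finset.range (m + 2), adc (n - r) (m + 1 - r) r
              * ((((n - r : ℕ) : ℝ) + ((m + 1 - r : ℕ) : ℝ))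
                / (2 * (((n - r : ℕ) : ℝ) + ((m + 1 - r : ℕ) : ℝ)) + 1))
                * p (n - (r + 1) + (m + 2 - (r + 1))) := by
        rw [← Finset.sum_add_distrib, Finset.mul_sum]
        refine Finset.sum_congr rfl fun r hr => ?_
        have hr' : r < m + 2 := Finset.mem_range.mp hr
        obtain ⟨q, hq⟩ : ∃ q, n = q + r + 1 := ⟨n - r - 1, by omega⟩
        obtain ⟨s, hs⟩ : ∃ s, m + 1 = s + r := ⟨m + 1 - r, by omega⟩
        have a1 : n - r = q + 1 := by omega
        have a2 : m + 1 - r = s := by omega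
        have a3 : m + 2 - r = s + 1 := by omega
        have a4 : n - (r + 1) = q := by omega
        have a5 : m + 2 - (r + 1) = s := by omega
        rw [a1, a2, a3, a4, a5]
        have e1 : q + 1 + s = (q + s) + 1 := by ring
        have e2 : q + 1 + (s + 1) = (q + s) + 2 := by ring
        rw [e1, e2]
        have h := hx (q + s)
        calc x * (adc (q + 1) s r * p (q + s + 1)) = adc (q + 1) s r * (x * p (q + s + 1)) := by ring
          _ = _ := by
            rw [h]
            push_cast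
            have g1 : (2 * ((q : ℝ) + s) + 3) = 2 * ((q : ℝ) + 1 + s) + 1 := by ring
            rw [g1]
            ring
      rw [hX]
      -- split all sums
      set f : ℕ → ℝ := fun r => p (n - r + (m + 2 - r)) with hf
      have hT3 : ∑ r ∈ Finset.range (m + 1), adc (n - r) (m - r) r * p (n - r + (m - r))
          = ∑ r ∈ Finset.range (m + 1), adc (n - r) (m - r) r * f (r + 1) := by
        refine Finset.sum_congr rfl fun r hr => ?_
        have hr' : r < m + 1 := Finset.mem_range.mp hr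
        simp only [hf]
        congr 2
        omega
      rw [hT3]
      have hS : ∀ g : ℕ → ℝ, ∑ r ∈ Finset.range (m + 1 + 1 + 1), g r
          = g 0 + ∑ j ∈ Finset.range (m + 1), g (j + 1) + g (m + 2) := by
        intro g
        rw [Finset.sum_range_succ, Finset.sum_range_succ']
        ring
      rw [hS]
      have hS1 : ∀ g : ℕ → ℝ, ∑ r ∈ Finset.range (m + 2), g r
          = g 0 + ∑ j ∈ Finset.range (m + 1), g (j + 1) := by
        intro g
        rw [Finset.sum_range_succ']
        ring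
      have hS2 : ∀ g : ℕ → ℝ, ∑ r ∈ Finset.range (m + 2), g r
          = ∑ j ∈ Finset.range (m + 1), g j + g (m + 1) := by
        intro g
        rw [Finset.sum_range_succ]
      rw [hS1 (fun r => adc (n - r) (m + 1 - r) r
              * ((((n - r : ℕ) : ℝ) + ((m + 1 - r : ℕ) : ℝ) + 1)
                / (2 * (((n - r : ℕ) : ℝ) + ((m + 1 - r : ℕ) : ℝ)) + 1)) * p (n - r + (m + 2 - r))),
        hS2 (fun r => adc (n - r) (m + 1 - r) r
              * ((((n - r : ℕ) : ℝ) + ((m + 1 - r : ℕ) : ℝ))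
                / (2 * (((n - r : ℕ) : ℝ) + ((m + 1 - r : ℕ) : ℝ)) + 1))
                * p (n - (r + 1) + (m + 2 - (r + 1))))]
      simp only [Nat.sub_zero]
      -- the three pieces
      have P0 : ((m : ℝ) + 2) * (adc n (m + 1 + 1) 0 * p (n + (m + 1 + 1)))
          = (2 * (m : ℝ) + 3) * (adc n (m + 1) 0
              * (((n : ℝ) + ((m + 1 : ℕ) : ℝ) + 1) / (2 * ((n : ℝ) + ((m + 1 : ℕ) : ℝ)) + 1))
              * p (n + (m + 2))) := by
        have h := adkey0 n m
        have e : n + (m + 1 + 1) = n + (m + 2) := by ring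
        rw [e]
        have e' : ((n : ℝ) + ((m + 1 : ℕ) : ℝ) + 1) / (2 * ((n : ℝ) + ((m + 1 : ℕ) : ℝ)) + 1)
            = ((n : ℝ) + m + 2) / (2 * ((n : ℝ) + m + 1) + 1) := by
          push_cast
          congr 1 <;> ring
        rw [e']
        calc ((m : ℝ) + 2) * (adc n (m + 1 + 1) 0 * p (n + (m + 2)))
            = (((m : ℝ) + 2) * adc n (m + 2) 0) * p (n + (m + 2)) := by ring
          _ = _ := by rw [h]; ring
      have P2 : ((m : ℝ) + 2) * (adc (n - (m + 2)) (m + 1 + 1 - (m + 2)) (m + 2)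
            * p (n - (m + 2) + (m + 1 + 1 - (m + 2))))
          = (2 * (m : ℝ) + 3) * (adc (n - (m + 1)) (m + 1 - (m + 1)) (m + 1)
              * ((((n - (m + 1) : ℕ) : ℝ) + ((m + 1 - (m + 1) : ℕ) : ℝ))
                / (2 * (((n - (m + 1) : ℕ) : ℝ) + ((m + 1 - (m + 1) : ℕ) : ℝ)) + 1))
                * p (n - (m + 1 + 1) + (m + 2 - (m + 1 + 1)))) := by
        obtain ⟨q, hq⟩ : ∃ q, n = q + (m + 2) := ⟨n - (m + 2), by omega⟩
        have a1 : n - (m + 2) = q := by omega
        have a2 : m + 1 + 1 - (m + 2) = 0 := by omega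
        have a3 : n - (m + 1) = q + 1 := by omega
        have a4 : m + 1 - (m + 1) = 0 := by omega
        have a5 : n - (m + 1 + 1) = q := by omega
        have a6 : m + 2 - (m + 1 + 1) = 0 := by omega
        rw [a1, a2, a3, a4]
        have h := adkeyl q m
        have e' : (((q + 1 : ℕ) : ℝ) + ((0 : ℕ) : ℝ)) / (2 * (((q + 1 : ℕ) : ℝ) + ((0 : ℕ) : ℝ)) + 1)
            = ((q : ℝ) + 1) / (2 * (q : ℝ) + 3) := by
          push_cast
          congr 1 <;> ring
        rw [e']
        calc ((m : ℝ) + 2) * (adc q 0 (m + 2) * p (q + 0))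
            = (((m : ℝ) + 2) * adc q 0 (m + 2)) * p (q + 0) := by ring
          _ = _ := by rw [h]; ring
      have P1 : ∑ j ∈ Finset.range (m + 1), ((m : ℝ) + 2) * (adc (n - (j + 1)) (m + 1 + 1 - (j + 1)) (j + 1)
            * p (n - (j + 1) + (m + 1 + 1 - (j + 1))))
          = ∑ j ∈ Finset.range (m + 1), ((2 * (m : ℝ) + 3) * (adc (n - (j + 1)) (m + 1 - (j + 1)) (j + 1)
              * ((((n - (j + 1) : ℕ) : ℝ) + ((m + 1 - (j + 1) : ℕ) : ℝ) + 1)
                / (2 * (((n - (j + 1) : ℕ) : ℝ) + ((m + 1 - (j + 1) : ℕ) : ℝ)) + 1))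
                * p (n - (j + 1) + (m + 2 - (j + 1))))
            + (2 * (m : ℝ) + 3) * (adc (n - j) (m + 1 - j) j
              * ((((n - j : ℕ) : ℝ) + ((m + 1 - j : ℕ) : ℝ))
                / (2 * (((n - j : ℕ) : ℝ) + ((m + 1 - j : ℕ) : ℝ)) + 1))
                * p (n - (j + 1) + (m + 2 - (j + 1))))
            - ((m : ℝ) + 1) * (adc (n - j) (m - j) j * f (j + 1))) := by
        refine Finset.sum_congr rfl fun j hj => ?_
        have hj' : j < m + 1 := Finset.mem_range.mp hj
        obtain ⟨q, hq⟩ : ∃ q, n = q + j + 1 := ⟨n - j - 1, by omega⟩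
        obtain ⟨s, hs⟩ : ∃ s, m = s + j := ⟨m - j, by omega⟩
        have a1 : n - (j + 1) = q := by omega
        have a2 : m + 1 + 1 - (j + 1) = s + 1 := by omega
        have a3 : m + 1 - (j + 1) = s := by omega
        have a4 : m + 2 - (j + 1) = s + 1 := by omega
        have a5 : n - j = q + 1 := by omega
        have a6 : m + 1 - j = s + 1 := by omega
        have a7 : m - j = s := by omega
        have hm : (m : ℝ) = (s : ℝ) + j := by rw [hs]; push_cast; ring
        simp only [hf]
        rw [a1, a2, a3, a5, a6, a7, hm]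
        have h := adkey q s j
        have e' : (((q + 1 : ℕ) : ℝ) + ((s + 1 : ℕ) : ℝ))
              / (2 * (((q + 1 : ℕ) : ℝ) + ((s + 1 : ℕ) : ℝ)) + 1)
            = ((q : ℝ) + s + 2) / (2 * ((q : ℝ) + s) + 5) := by
          push_cast
          congr 1 <;> ring
        rw [e']
        calc ((s : ℝ) + j + 2) * (adc q (s + 1) (j + 1) * p (q + (s + 1)))
            = (((s : ℝ) + j + 2) * adc q (s + 1) (j + 1)) * p (q + (s + 1)) := by ring
          _ = _ := by rw [h]; ring
      rw [Finset.sum_sub_distrib, Finset.sum_add_distrib, ← Finset.mul_sum, ← Finset.mul_sum,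
        ← Finset.mul_sum, ← Finset.mul_sum] at P1
      linarith [P0, P1, P2]


theorem adams (n m : ℕ) (x : ℝ) : leg n x * leg m x =
    ∑ r ∈ Finset.range (min n m + 1), ad n m r * (2 * ((n + m - 2 * r : ℕ) : ℝ) + 1) *
      leg (n + m - 2 * r) x := by
  have hrec : ∀ n : ℕ, ((n : ℝ) + 2) * leg (n + 2) x
      = (2 * (n : ℝ) + 3) * x * leg (n + 1) x - ((n : ℝ) + 1) * leg n x := by
    intro n
    have h2 : ((n : ℝ) + 2) ≠ 0 := by positivity
    rw [leg]
    field_simp
  have h0 : leg 0 x = 1 := by rw [leg]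
  have h1 : leg 1 x = x := by rw [leg]
  have main := adams_aux x (fun k => leg k x) h0 h1 hrec
  have coef : ∀ a b r : ℕ, b ≤ a → r ≤ b →
      adc (a - r) (b - r) r * leg ((a - r) + (b - r)) x
        = ad a b r * (2 * ((a + b - 2 * r : ℕ) : ℝ) + 1) * leg (a + b - 2 * r) x := by
    intro a b r hba hrb
    obtain ⟨q, hq⟩ : ∃ q, a = q + r := ⟨a - r, by omega⟩
    obtain ⟨s, hs⟩ : ∃ s, b = s + r := ⟨b - r, by omega⟩
    have a1 : a - r = q := by omega
    have a2 : b - r = s := by omega
    have a3 : a + b - 2 * r = q + s := by omega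
    have a4 : a + b - r = q + s + r := by omega
    unfold adc ad
    rw [a1, a2, a3, a4]
    have hE := (adw_pos (q + s + r)).ne'
    push_cast
    have p1 : (2 * ((q : ℝ) + s + r) + 1) ≠ 0 := by positivity
    field_simp
  have coef' : ∀ a b r : ℕ, ad a b r = ad b a r := by
    intro a b r
    unfold ad
    rw [Nat.add_comm a b]
    ring
  rcases le_total m n with h | h
  · rw [min_eq_right h]
    have h' := main m n h
    rw [h']
    refine Finset.sum_congr rfl fun r hr => ?_
    have hr' : r < m + 1 := Finset.mem_range.mp hr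
    exact coef n m r h (by omega)
  · rw [min_eq_left h]
    have h' := main n m h
    rw [mul_comm, h']
    refine Finset.sum_congr rfl fun r hr => ?_
    have hr' : r < n + 1 := Finset.mem_range.mp hr
    rw [coef m n r h (by omega), coef' m n r, Nat.add_comm m n]

end Pool.Agent.Helper442.DR
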