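import Mathlib
import Pool.Agent.Helper442.DR.Defs
import Pool.Agent.Helper442.DR.M1
import Pool.Agent.Helper442.DR.M2
import Pool.Agent.Helper442.DR.M3
import Pool.Agent.Helper442.DR.M4
import Pool.Agent.Helper442.DR.M5

open MeasureTheory Set Metric Real
open scoped ENNReal

namespace Pool.Agent.Helper442.DR
















theorem leg_cont (j : ℕ) : Continuous (leg j) := by
  induction j using Nat.strong_induction_on with
  | _ j ih =>
    match j, ih with
    | 0, _ => 
      have : leg 0 = fun _ => 1 := by funext x; rw [leg]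
      rw [this]
      exact continuous_const
    | 1, _ =>
      have : leg 1 = fun x => x := by funext x; rw [leg]
      rw [this]
      exact continuous_id
    | (n + 2), ih =>
      have : leg (n + 2) = fun x =>
          ((2 * n + 3) * x * leg (n + 1) x - (n + 1) * leg n x) / (n + 2) := by
        funext x; rw [leg]
      rw [this]
      have h1 := ih (n + 1) (by omega)
      have h2 := ih n (by omega)
      fun_prop

theorem leg_one (j : ℕ) : leg j 1 = 1 := by
  induction j using Nat.strong_induction_on with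
  | _ j ih =>
    match j, ih with
    | 0, _ => rw [leg]
    | 1, _ => rw [leg]
    | (n + 2), ih =>
      rw [leg, ih (n + 1) (by omega), ih n (by omega)]
      have : (n : ℝ) + 2 ≠ 0 := by positivity
      field_simp
      ring

theorem dot_comm (x y : S) : dot x y = dot y x := by
  unfold dot
  exact Finset.sum_congr rfl fun i _ => mul_comm _ _

theorem dot_cont : Continuous (fun p : S × S => dot p.1 p.2) := by
  unfold dot
  fun_prop

theorem dot_self (x : S) : dot x x = 1 := by
  have h1 : ‖(x : E)‖ = 1 := by simpa using x.2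
  have h2 : ‖(x : E)‖ ^ 2 = ∑ i, (x : E) i ^ 2 := EuclideanSpace.real_norm_sq_eq _
  unfold dot
  rw [h1] at h2
  have : ∑ i, (x : E) i * (x : E) i = ∑ i, (x : E) i ^ 2 :=
    Finset.sum_congr rfl fun i _ => by ring
  rw [this, ← h2]
  norm_num

/-- kernel -/
noncomputable def Kr (j : ℕ) (x y : S) : ℝ := (2 * j + 1) / (4 * π) * leg j (dot x y)

theorem Kr_comm (j : ℕ) (x y : S) : Kr j x y = Kr j y x := by
  unfold Kr
  rw [dot_comm]

theorem Kr_cont (j : ℕ) : Continuous (fun p : S × S => Kr j p.1 p.2) := by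
  unfold Kr
  exact continuous_const.mul ((leg_cont j).comp dot_cont)

theorem harm_cont {n : ℕ} {f : S → ℂ} (hf : IsSphHarm n f) : Continuous f := by
  obtain ⟨P, -, -, h⟩ := hf
  have : f = fun x : S => MvPolynomial.eval (fun i => (((x : E) i : ℝ) : ℂ)) P := funext h
  rw [this]
  have h1 : Continuous fun v : Fin 3 → ℂ => MvPolynomial.eval v P := MvPolynomial.continuous_eval P
  refine h1.comp ?_
  fun_prop

theorem harm_smul {n : ℕ} {f : S → ℂ} (hf : IsSphHarm n f) (c : ℂ) :
    IsSphHarm n (fun x => c * f x) := by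
  obtain ⟨P, h1, h2, h3⟩ := hf
  refine ⟨MvPolynomial.C c * P, ?_, ?_, ?_⟩
  · have := (MvPolynomial.isHomogeneous_C (Fin 3) c).mul h1
    simpa using this
  · have h4 : ∀ i : Fin 3, MvPolynomial.pderiv i (MvPolynomial.pderiv i (MvPolynomial.C c * P)) =
        MvPolynomial.C c * MvPolynomial.pderiv i (MvPolynomial.pderiv i P) := by
      intro i
      rw [MvPolynomial.pderiv_C_mul, MvPolynomial.pderiv_C_mul]
    rw [Finset.sum_congr rfl fun i _ => h4 i, ← Finset.mul_sum, h2, mul_zero]
  · intro x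
    show c * f x = _
    rw [h3 x]
    simp

instance : IsFiniteMeasure sig := by
  unfold sig
  infer_instance

theorem int_c {F : S → ℂ} (hF : Continuous F) : Integrable F sig :=
  hF.integrable_of_hasCompactSupport (HasCompactSupport.of_compactSpace F)

theorem int_r {F : S → ℝ} (hF : Continuous F) : Integrable F sig :=
  hF.integrable_of_hasCompactSupport (HasCompactSupport.of_compactSpace F)

theorem int_c2 {F : S × S → ℂ} (hF : Continuous F) : Integrable F (sig.prod sig) :=
  hF.integrable_of_hasCompactSupport (HasCompactSupport.of_compactSpace F)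

theorem contInt {X : Type} [TopologicalSpace X] [FirstCountableTopology X]
    [LocallyCompactSpace X] (F : X → S → ℂ) (hF : Continuous (Function.uncurry F)) :
    Continuous fun x => ∫ y, F x y ∂sig := by
  have h := continuous_parametric_integral_of_continuous (μ := sig) hF (isCompact_univ (X := S))
  simpa using h

theorem swap (F : S → S → ℂ) (hF : Continuous (Function.uncurry F)) :
    ∫ x, ∫ y, F x y ∂sig ∂sig = ∫ y, ∫ x, F x y ∂sig ∂sig :=
  integral_integral_swap (int_c2 hF)


theorem repro' (j k : ℕ) (g : S → ℂ) (hg : IsSphHarm k g) (x : S) :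
    ∫ y, (Kr j x y : ℂ) * g y ∂sig = if j = k then g x else 0 := repro j k g hg x

theorem zonal' (j : ℕ) (x : S) : IsSphHarm j (fun y => (Kr j y x : ℂ)) := by
  have h := harm_smul (zonal j x) ((((2 * j + 1) / (4 * π) : ℝ)) : ℂ)
  have e : (fun y => (Kr j y x : ℂ)) =
      fun y => ((((2 * j + 1) / (4 * π) : ℝ)) : ℂ) * ((leg j (dot x y) : ℝ) : ℂ) := by
    funext y
    rw [Kr_comm]
    unfold Kr
    push_cast
    ring
  rw [e]
  exact h

open ComplexConjugate in
/-- the bilinear transform -/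
noncomputable def Tr (n m : ℕ) (h : S → ℂ) (x y : S) : ℂ :=
  ∫ z, (Kr n x z : ℂ) * (Kr m y z : ℂ) * h z ∂sig

theorem kc (j : ℕ) {X : Type} [TopologicalSpace X] {a b : X → S} (ha : Continuous a)
    (hb : Continuous b) : Continuous fun p => (Kr j (a p) (b p) : ℂ) :=
  Complex.continuous_ofReal.comp ((Kr_cont j).comp (ha.prodMk hb))

theorem Tr_cont (n m : ℕ) {h : S → ℂ} (hh : Continuous h) :
    Continuous fun p : S × S => Tr n m h p.1 p.2 := by
  unfold Tr
  apply contInt (X := S × S) (F := fun p z => (Kr n p.1 z : ℂ) * (Kr m p.2 z : ℂ) * h z)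
  refine ((kc n ?_ ?_).mul (kc m ?_ ?_)).mul (hh.comp ?_) <;> fun_prop

open ComplexConjugate in
theorem ident1 (n m : ℕ) {f g h : S → ℂ} (hf : IsSphHarm n f) (hg : IsSphHarm m g)
    (hh : Continuous h) :
    ∫ x, ∫ y, f x * g y * conj (Tr n m h x y) ∂sig ∂sig = ∫ z, f z * g z * conj (h z) ∂sig := by
  have cf := harm_cont hf
  have cg := harm_cont hg
  have e1 : ∀ x y, f x * g y * conj (Tr n m h x y) =
      ∫ z, f x * g y * ((Kr n x z : ℂ) * (Kr m y z : ℂ) * conj (h z)) ∂sig := by
    intro x y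
    unfold Tr
    rw [← integral_conj, ← integral_const_mul]
    congr 1
    funext z
    simp
  have e2 : ∀ x, ∫ y, f x * g y * conj (Tr n m h x y) ∂sig =
      ∫ z, f x * (Kr n x z : ℂ) * conj (h z) * g z ∂sig := by
    intro x
    simp only [e1]
    rw [swap]
    · congr 1
      funext z
      have h2 := repro' m m g hg z
      rw [if_pos rfl] at h2
      rw [← h2, ← integral_const_mul]
      congr 1
      funext y
      rw [Kr_comm m z y]
      ring
    · have c1 : Continuous fun p : S × S => (Kr n x p.2 : ℂ) := kc n continuous_const continuous_snd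
      have c2 : Continuous fun p : S × S => (Kr m p.1 p.2 : ℂ) := kc m continuous_fst continuous_snd
      exact (continuous_const.mul (cg.comp continuous_fst)).mul
        ((c1.mul c2).mul (Complex.continuous_conj.comp (hh.comp continuous_snd)))
  simp only [e2]
  rw [swap]
  · congr 1
    funext z
    have h2 := repro' n n f hf z
    rw [if_pos rfl] at h2
    rw [← h2]
    rw [show (∫ y, (Kr n z y : ℂ) * f y ∂sig) * g z * conj (h z) =
      (g z * conj (h z)) * ∫ y, (Kr n z y : ℂ) * f y ∂sig by ring, ← integral_const_mul]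
    congr 1
    funext x
    rw [Kr_comm n z x]
    ring
  · have c2 : Continuous fun p : S × S => (Kr n p.1 p.2 : ℂ) := kc n continuous_fst continuous_snd
    exact (((cf.comp continuous_fst).mul c2).mul
      (Complex.continuous_conj.comp (hh.comp continuous_snd))).mul (cg.comp continuous_snd)

open ComplexConjugate in
theorem ident2 (n m : ℕ) {h : S → ℂ} (hh : Continuous h) :
    ∫ x, ∫ y, Tr n m h x y * conj (Tr n m h x y) ∂sig ∂sig =
      ∫ z, h z * ∫ z', (Kr n z' z : ℂ) * (Kr m z' z : ℂ) * conj (h z') ∂sig ∂sig := by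
  have cT := Tr_cont n m hh
  have cTc : Continuous fun p : S × S => conj (Tr n m h p.1 p.2) :=
    Complex.continuous_conj.comp cT
  have e1 : ∀ x y, Tr n m h x y * conj (Tr n m h x y) =
      ∫ z, (Kr n x z : ℂ) * (Kr m y z : ℂ) * h z * conj (Tr n m h x y) ∂sig := by
    intro x y
    rw [integral_mul_const]
    rfl
  have c3 : Continuous fun p : (S × S) × S =>
      (Kr n p.1.1 p.2 : ℂ) * (Kr m p.1.2 p.2 : ℂ) * h p.2 * conj (Tr n m h p.1.1 p.1.2) := by
    refine (((kc n ?_ ?_).mul (kc m ?_ ?_)).mul (hh.comp ?_)).mul (cTc.comp ?_) <;> fun_prop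
  have e2 : ∀ x, ∫ y, Tr n m h x y * conj (Tr n m h x y) ∂sig =
      ∫ z, ∫ y, (Kr n x z : ℂ) * (Kr m y z : ℂ) * h z * conj (Tr n m h x y) ∂sig ∂sig := by
    intro x
    simp only [e1]
    rw [swap]
    exact c3.comp (g := fun p : (S × S) × S =>
      (Kr n p.1.1 p.2 : ℂ) * (Kr m p.1.2 p.2 : ℂ) * h p.2 * conj (Tr n m h p.1.1 p.1.2))
      (f := fun p : S × S => ((x, p.1), p.2)) (by fun_prop)
  simp only [e2]
  rw [swap (F := fun x z => ∫ y, (Kr n x z : ℂ) * (Kr m y z : ℂ) * h z *
    conj (Tr n m h x y) ∂sig)]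
  · congr 1
    funext z
    rw [← ident1 n m (zonal' n z) (zonal' m z) hh, ← integral_const_mul]
    congr 1
    funext x
    rw [← integral_const_mul]
    congr 1
    funext y
    ring
  · apply contInt (X := S × S) (F := fun p y => (Kr n p.1 p.2 : ℂ) * (Kr m y p.2 : ℂ) * h p.2 *
      conj (Tr n m h p.1 y))
    exact c3.comp (g := fun p : (S × S) × S =>
      (Kr n p.1.1 p.2 : ℂ) * (Kr m p.1.2 p.2 : ℂ) * h p.2 * conj (Tr n m h p.1.1 p.1.2))
      (f := fun p : (S × S) × S => ((p.1.1, p.2), p.1.2)) (by fun_prop)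


theorem II_add {F G : S → S → ℂ} (hF : Continuous (Function.uncurry F))
    (hG : Continuous (Function.uncurry G)) :
    ∫ x, ∫ y, (F x y + G x y) ∂sig ∂sig =
      (∫ x, ∫ y, F x y ∂sig ∂sig) + ∫ x, ∫ y, G x y ∂sig ∂sig := by
  rw [← integral_add (int_c (contInt F hF)) (int_c (contInt G hG))]
  congr 1
  funext x
  exact integral_add (int_c (hF.comp (Continuous.prodMk_right x)))
    (int_c (hG.comp (Continuous.prodMk_right x)))

theorem II_sub {F G : S → S → ℂ} (hF : Continuous (Function.uncurry F))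
    (hG : Continuous (Function.uncurry G)) :
    ∫ x, ∫ y, (F x y - G x y) ∂sig ∂sig =
      (∫ x, ∫ y, F x y ∂sig ∂sig) - ∫ x, ∫ y, G x y ∂sig ∂sig := by
  rw [← integral_sub (int_c (contInt F hF)) (int_c (contInt G hG))]
  congr 1
  funext x
  exact integral_sub (int_c (hF.comp (Continuous.prodMk_right x)))
    (int_c (hG.comp (Continuous.prodMk_right x)))

open ComplexConjugate in
theorem mulconj (z : ℂ) : z * conj z = ((‖z‖ ^ 2 : ℝ) : ℂ) := by
  rw [Complex.mul_conj']
  push_cast
  rfl

open ComplexConjugate in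
theorem pos (n m : ℕ) {f g h : S → ℂ} (hf : IsSphHarm n f) (hg : IsSphHarm m g)
    (hh : Continuous h) :
    0 ≤ (∫ x, ‖f x‖ ^ 2 ∂sig) * (∫ x, ‖g x‖ ^ 2 ∂sig)
      - 2 * (∫ z, f z * g z * conj (h z) ∂sig).re
      + (∫ z, h z * ∫ z', (Kr n z' z : ℂ) * (Kr m z' z : ℂ) * conj (h z') ∂sig ∂sig).re := by
  have cf := harm_cont hf
  have cg := harm_cont hg
  have cT := Tr_cont n m hh
  have cfg : Continuous fun p : S × S => f p.1 * g p.2 :=
    (cf.comp continuous_fst).mul (cg.comp continuous_snd)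
  have ccfg : Continuous fun p : S × S => conj (f p.1 * g p.2) := Complex.continuous_conj.comp cfg
  have ccT : Continuous fun p : S × S => conj (Tr n m h p.1 p.2) :=
    Complex.continuous_conj.comp cT
  have h1 : (∫ x, ∫ y, (((f x * g y * conj (f x * g y) - f x * g y * conj (Tr n m h x y))
      - conj (f x * g y) * Tr n m h x y) + Tr n m h x y * conj (Tr n m h x y)) ∂sig ∂sig) =
      (((∫ x, ∫ y, f x * g y * conj (f x * g y) ∂sig ∂sig) -
        ∫ x, ∫ y, f x * g y * conj (Tr n m h x y) ∂sig ∂sig) -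
        ∫ x, ∫ y, conj (f x * g y) * Tr n m h x y ∂sig ∂sig) +
        ∫ x, ∫ y, Tr n m h x y * conj (Tr n m h x y) ∂sig ∂sig := by
    rw [II_add (F := fun x y => (f x * g y * conj (f x * g y) - f x * g y * conj (Tr n m h x y))
      - conj (f x * g y) * Tr n m h x y) (G := fun x y => Tr n m h x y * conj (Tr n m h x y))
      (((cfg.mul ccfg).sub (cfg.mul ccT)).sub (ccfg.mul cT)) (cT.mul ccT)]
    rw [II_sub (F := fun x y => f x * g y * conj (f x * g y) - f x * g y * conj (Tr n m h x y))
      (G := fun x y => conj (f x * g y) * Tr n m h x y)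
      ((cfg.mul ccfg).sub (cfg.mul ccT)) (ccfg.mul cT)]
    rw [II_sub (F := fun x y => f x * g y * conj (f x * g y))
      (G := fun x y => f x * g y * conj (Tr n m h x y)) (cfg.mul ccfg) (cfg.mul ccT)]
  have h2 : ∀ x y, ((f x * g y * conj (f x * g y) - f x * g y * conj (Tr n m h x y))
      - conj (f x * g y) * Tr n m h x y) + Tr n m h x y * conj (Tr n m h x y) =
      ((‖f x * g y - Tr n m h x y‖ ^ 2 : ℝ) : ℂ) := by
    intro x y
    rw [← mulconj, map_sub]
    ring
  have h3 : (∫ x, ∫ y, ((‖f x * g y - Tr n m h x y‖ ^ 2 : ℝ) : ℂ) ∂sig ∂sig) =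
      ((∫ x, ∫ y, ‖f x * g y - Tr n m h x y‖ ^ 2 ∂sig ∂sig : ℝ) : ℂ) := by
    rw [← integral_complex_ofReal]
    congr 1
    funext x
    exact integral_complex_ofReal
  have h4 : 0 ≤ ∫ x, ∫ y, ‖f x * g y - Tr n m h x y‖ ^ 2 ∂sig ∂sig :=
    integral_nonneg fun x => integral_nonneg fun y => by positivity
  have h5 : (∫ x, ∫ y, f x * g y * conj (f x * g y) ∂sig ∂sig) =
      (((∫ x, ‖f x‖ ^ 2 ∂sig) * (∫ x, ‖g x‖ ^ 2 ∂sig) : ℝ) : ℂ) := by
    have e : ∀ x y, f x * g y * conj (f x * g y) = ((‖f x‖ ^ 2 * ‖g y‖ ^ 2 : ℝ) : ℂ) := by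
      intro x y
      rw [mulconj, norm_mul, mul_pow]
    simp only [e]
    have e2 : ∀ x, ∫ y, ((‖f x‖ ^ 2 * ‖g y‖ ^ 2 : ℝ) : ℂ) ∂sig =
        ((‖f x‖ ^ 2 * ∫ y, ‖g y‖ ^ 2 ∂sig : ℝ) : ℂ) := by
      intro x
      rw [integral_complex_ofReal, integral_const_mul]
    simp only [e2]
    rw [integral_complex_ofReal, integral_mul_const]
  have h6 : (∫ x, ∫ y, conj (f x * g y) * Tr n m h x y ∂sig ∂sig) =
      conj (∫ x, ∫ y, f x * g y * conj (Tr n m h x y) ∂sig ∂sig) := by
    rw [← integral_conj]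
    congr 1
    funext x
    rw [← integral_conj]
    congr 1
    funext y
    simp
  simp only [h2] at h1
  rw [h3, h5, h6, ident1 n m hf hg hh, ident2 n m hh] at h1
  have h7 := congrArg Complex.re h1
  simp only [Complex.add_re, Complex.sub_re, Complex.ofReal_re, Complex.conj_re] at h7
  linarith

theorem cs {a b : S → ℝ} (ha : Continuous a) (hb : Continuous b) :
    (∫ x, a x * b x ∂sig) ^ 2 ≤ (∫ x, a x ^ 2 ∂sig) * ∫ x, b x ^ 2 ∂sig := by
  have h : ∀ t : ℝ, 0 ≤ (∫ x, b x ^ 2 ∂sig) * (t * t) + (-2 * ∫ x, a x * b x ∂sig) * t +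
      ∫ x, a x ^ 2 ∂sig := by
    intro t
    have e : (∫ x, b x ^ 2 ∂sig) * (t * t) + (-2 * ∫ x, a x * b x ∂sig) * t +
        ∫ x, a x ^ 2 ∂sig = ∫ x, (a x - t * b x) ^ 2 ∂sig := by
      have e1 : ∀ x, (a x - t * b x) ^ 2 = (t * t) * b x ^ 2 + (-2 * t) * (a x * b x) + a x ^ 2 := by
        intro x
        ring
      simp only [e1]
      rw [integral_add, integral_add, integral_const_mul, integral_const_mul]
      · ring
      · exact (int_r (hb.pow 2)).const_mul _
      · exact (int_r (ha.mul hb)).const_mul _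
      · exact ((int_r (hb.pow 2)).const_mul _).add ((int_r (ha.mul hb)).const_mul _)
      · exact int_r (ha.pow 2)
    rw [e]
    exact integral_nonneg fun x => sq_nonneg _
  have := discrim_le_zero h
  unfold discrim at this
  nlinarith

theorem supb {k : ℕ} {H : S → ℂ} (hH : IsSphHarm k H) (x : S) :
    ‖H x‖ ^ 2 ≤ (2 * (k : ℝ) + 1) / (4 * π) * ∫ y, ‖H y‖ ^ 2 ∂sig := by
  have cH := harm_cont hH
  have h1 := repro' k k H hH x
  rw [if_pos rfl] at h1
  have h2 : ‖H x‖ ≤ ∫ y, |Kr k x y| * ‖H y‖ ∂sig := by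
    rw [← h1]
    refine (norm_integral_le_integral_norm _).trans (le_of_eq ?_)
    congr 1
    funext y
    rw [norm_mul, Complex.norm_real, Real.norm_eq_abs]
  have cK : Continuous fun y => Kr k x y := (Kr_cont k).comp (Continuous.prodMk_right x)
  have h3 := cs (a := fun y => |Kr k x y|) (b := fun y => ‖H y‖) cK.abs cH.norm
  have h4 : ∫ y, |Kr k x y| ^ 2 ∂sig = (2 * (k : ℝ) + 1) / (4 * π) := by
    have h5 := repro' k k _ (zonal' k x) x
    rw [if_pos rfl] at h5
    have e1 : ∀ y, (Kr k x y : ℂ) * (Kr k y x : ℂ) = ((|Kr k x y| ^ 2 : ℝ) : ℂ) := by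
      intro y
      rw [Kr_comm k y x, sq_abs]
      push_cast
      ring
    simp only [e1] at h5
    rw [integral_complex_ofReal] at h5
    have h6 : ∫ y, |Kr k x y| ^ 2 ∂sig = Kr k x x := by exact_mod_cast h5
    rw [h6]
    unfold Kr
    rw [dot_self, leg_one, mul_one]
  rw [h4] at h3
  have h7 : 0 ≤ ‖H x‖ := norm_nonneg _
  calc ‖H x‖ ^ 2 ≤ (∫ y, |Kr k x y| * ‖H y‖ ∂sig) ^ 2 := pow_le_pow_left₀ h7 h2 2
    _ ≤ _ := h3


theorem c2_pos (n m r : ℕ) : 0 < c2 n m r := by
  have hw : ∀ r, 0 < w r := by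
    intro r
    unfold w
    have : (0 : ℝ) < Nat.centralBinom r := by exact_mod_cast Nat.centralBinom_pos r
    positivity
  unfold c2 ad
  have h1 := hw r
  have h2 := hw (n - r)
  have h3 := hw (m - r)
  have h4 := hw (n + m - r)
  have h5 := Real.pi_pos
  positivity

theorem prodK (n m : ℕ) (z' z : S) : Kr n z' z * Kr m z' z =
    ∑ r ∈ Finset.range (min n m + 1), c2 n m r * Kr (n + m - 2 * r) z' z := by
  have h := adams n m (dot z' z)
  have e : Kr n z' z * Kr m z' z = (2 * n + 1) * (2 * m + 1) / (4 * π) * (1 / (4 * π)) *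
      (leg n (dot z' z) * leg m (dot z' z)) := by
    unfold Kr
    ring
  rw [e, h, Finset.mul_sum]
  refine Finset.sum_congr rfl fun r _ => ?_
  unfold Kr c2
  ring

open ComplexConjugate in
theorem innerN (n m : ℕ) {h : S → ℂ} (hh : Continuous h) (z : S) :
    ∫ z', (Kr n z' z : ℂ) * (Kr m z' z : ℂ) * conj (h z') ∂sig =
      ∑ r ∈ Finset.range (min n m + 1), (c2 n m r : ℂ) *
        conj (∫ z', (Kr (n + m - 2 * r) z z' : ℂ) * h z' ∂sig) := by
  have e : ∀ z', (Kr n z' z : ℂ) * (Kr m z' z : ℂ) * conj (h z') =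
      ∑ r ∈ Finset.range (min n m + 1), (c2 n m r : ℂ) *
        conj ((Kr (n + m - 2 * r) z z' : ℂ) * h z') := by
    intro z'
    have h1 : (Kr n z' z : ℂ) * (Kr m z' z : ℂ) =
        ∑ r ∈ Finset.range (min n m + 1), (c2 n m r : ℂ) * (Kr (n + m - 2 * r) z' z : ℂ) := by
      exact_mod_cast congrArg (fun t : ℝ => (t : ℂ)) (prodK n m z' z)
    rw [h1, Finset.sum_mul]
    refine Finset.sum_congr rfl fun r _ => ?_
    rw [map_mul, Complex.conj_ofReal, Kr_comm (n + m - 2 * r) z z']
    ring
  simp only [e]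
  rw [integral_finsetSum]
  · refine Finset.sum_congr rfl fun r _ => ?_
    rw [integral_const_mul, integral_conj]
  · intro r _
    apply int_c
    have c1 : Continuous fun z' : S => (Kr (n + m - 2 * r) z z' : ℂ) :=
      kc _ continuous_const continuous_id
    exact continuous_const.mul (Complex.continuous_conj.comp (c1.mul hh))

-- ===== TARGET (prove this; the lemmas above may be used with their sorry) =====
/-- the bilinear Bessel inequality -/
theorem bessel (n m : ℕ) (f g : S → ℂ) (hf : IsSphHarm n f) (hg : IsSphHarm m g) :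
    ∃ h : ℕ → S → ℂ, (∀ r ≤ min n m, IsSphHarm (n + m - 2 * r) (h r)) ∧
      (∀ x, f x * g x = ∑ r ∈ Finset.range (min n m + 1), h r x) ∧
      ∑ r ∈ Finset.range (min n m + 1), (c2 n m r)⁻¹ * ∫ x, ‖h r x‖ ^ 2 ∂sig ≤
        (∫ x, ‖f x‖ ^ 2 ∂sig) * ∫ x, ‖g x‖ ^ 2 ∂sig ∧
      (∀ r ≤ min n m, ∫ x, ‖h r x‖ ^ 2 ∂sig ≤ (2 * ((n + m - 2 * r : ℕ) : ℝ) + 1) / (4 * π) *
        ((∫ x, ‖f x‖ ^ 2 ∂sig) * ∫ x, ‖g x‖ ^ 2 ∂sig)) := by
  have cf := harm_cont hf
  have cg := harm_cont hg
  obtain ⟨P, hP1, -, hP3⟩ := id hf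
  obtain ⟨Q, hQ1, -, hQ3⟩ := id hg
  obtain ⟨H, hH, hH0, hHs⟩ := fischer (n + m) (P * Q) (hP1.mul hQ1)
  have hfg : ∀ x, f x * g x = ∑ k ∈ Finset.range (n + m + 1), H k x := by
    intro x
    rw [hP3 x, hQ3 x, ← map_mul]
    exact hHs x
  have cH : ∀ k, Continuous (H k) := fun k => harm_cont (hH k)
  set A : ℝ := ∫ x, ‖f x‖ ^ 2 ∂sig with hA
  set B : ℝ := ∫ x, ‖g x‖ ^ 2 ∂sig with hB
  have hA0 : 0 ≤ A := integral_nonneg fun x => by positivity
  have hB0 : 0 ≤ B := integral_nonneg fun x => by positivity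
  let q : ℕ → ℝ := fun k => ∫ x, ‖H k x‖ ^ 2 ∂sig
  have hq0 : ∀ k, 0 ≤ q k := fun k => integral_nonneg fun x => by positivity
  have hHH : ∀ k, ∫ x, H k x * (starRingEnd ℂ) (H k x) ∂sig = (q k : ℂ) := by
    intro k
    simp only [mulconj]
    exact integral_complex_ofReal
  have hR : ∀ k, ∫ z, f z * g z * (starRingEnd ℂ) (H k z) ∂sig = (q k : ℂ) := by
    intro k
    have e : ∀ z, f z * g z * (starRingEnd ℂ) (H k z) =
        ∑ j ∈ Finset.range (n + m + 1), H j z * (starRingEnd ℂ) (H k z) := by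
      intro z
      rw [hfg z, Finset.sum_mul]
    simp only [e]
    have hsw : ∫ z, ∑ j ∈ Finset.range (n + m + 1), H j z * (starRingEnd ℂ) (H k z) ∂sig =
        ∑ j ∈ Finset.range (n + m + 1), ∫ z, H j z * (starRingEnd ℂ) (H k z) ∂sig := by
      rw [integral_finsetSum]
      intro j _
      exact int_c ((cH j).mul (Complex.continuous_conj.comp (cH k)))
    rw [hsw]
    by_cases hk : k ∈ Finset.range (n + m + 1)
    · rw [Finset.sum_eq_single k]
      · exact hHH k
      · intro j _ hjk
        exact orth j k hjk _ _ (hH j) (hH k)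
      · intro h'
        exact absurd hk h'
    · have hk' : H k = 0 := hH0 k (by rw [Finset.mem_range] at hk; omega)
      rw [← hHH k, hk']
      simp
  have hvan : ∀ k0, (∀ r ≤ min n m, n + m - 2 * r ≠ k0) → H k0 = 0 := by
    intro k0 hk0
    have hle : ∀ s : ℝ, 2 * (s * q k0) ≤ A * B := by
      intro s
      have hs := harm_smul (hH k0) (s : ℂ)
      have h1 := pos n m hf hg (harm_cont hs)
      have e1 : ∫ z, f z * g z * (starRingEnd ℂ) ((s : ℂ) * H k0 z) ∂sig = ((s * q k0 : ℝ) : ℂ) := by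
        have e : ∀ z, f z * g z * (starRingEnd ℂ) ((s : ℂ) * H k0 z) =
            (s : ℂ) * (f z * g z * (starRingEnd ℂ) (H k0 z)) := by
          intro z
          rw [map_mul, Complex.conj_ofReal]
          ring
        simp only [e]
        rw [integral_const_mul, hR]
        push_cast
        rfl
      have e2 : ∀ z, ∫ z', (Kr n z' z : ℂ) * (Kr m z' z : ℂ) * (starRingEnd ℂ) ((s : ℂ) * H k0 z') ∂sig = 0 := by
        intro z
        rw [innerN n m (harm_cont hs) z]
        refine Finset.sum_eq_zero fun r hr => ?_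
        rw [repro' (n + m - 2 * r) k0 _ hs z,
          if_neg (hk0 r (by rw [Finset.mem_range] at hr; omega))]
        simp
      rw [e1] at h1
      simp only [e2, mul_zero, integral_zero, Complex.zero_re, add_zero, Complex.ofReal_re] at h1
      linarith
    have hq : q k0 = 0 := by
      by_contra hne
      have hpos : 0 < q k0 := lt_of_le_of_ne (hq0 k0) (Ne.symm hne)
      have h1 := hle ((A * B + 1) / (2 * q k0))
      have h2 : 2 * ((A * B + 1) / (2 * q k0) * q k0) = A * B + 1 := by
        field_simp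
      rw [h2] at h1
      linarith
    funext x
    have h1 := supb (hH k0) x
    have h2 : ∫ y, ‖H k0 y‖ ^ 2 ∂sig = 0 := hq
    rw [h2, mul_zero] at h1
    have h3 : ‖H k0 x‖ = 0 := by
      have := norm_nonneg (H k0 x)
      nlinarith
    exact norm_eq_zero.1 h3
  have hfg2 : ∀ x, f x * g x = ∑ r ∈ Finset.range (min n m + 1), H (n + m - 2 * r) x := by
    intro x
    rw [hfg x]
    have hinj : Set.InjOn (fun r => n + m - 2 * r) (Finset.range (min n m + 1) : Set ℕ) := by
      intro a ha b hb hab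
      simp only [Finset.coe_range, Set.mem_Iio] at ha hb
      simp only at hab
      omega
    rw [← Finset.sum_image (f := fun k => H k x) hinj]
    symm
    apply Finset.sum_subset
    · intro k hk
      rw [Finset.mem_image] at hk
      obtain ⟨r, -, rfl⟩ := hk
      rw [Finset.mem_range]
      omega
    · intro k _ hk
      have : H k = 0 := by
        apply hvan
        intro r hr h'
        apply hk
        rw [Finset.mem_image]
        exact ⟨r, by rw [Finset.mem_range]; omega, h'⟩
      rw [this]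
      rfl
  refine ⟨fun r => H (n + m - 2 * r), fun r _ => hH _, hfg2, ?_, ?_⟩
  · let hs : S → ℂ := fun z => ∑ r ∈ Finset.range (min n m + 1),
      (((c2 n m r)⁻¹ : ℝ) : ℂ) * H (n + m - 2 * r) z
    have chs : Continuous hs := by
      apply continuous_finsetSum
      intro r _
      exact continuous_const.mul (cH _)
    have h1 := pos n m hf hg chs
    have eR : ∫ z, f z * g z * (starRingEnd ℂ) (hs z) ∂sig =
        ((∑ r ∈ Finset.range (min n m + 1), (c2 n m r)⁻¹ * q (n + m - 2 * r) : ℝ) : ℂ) := by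
      have e : ∀ z, f z * g z * (starRingEnd ℂ) (hs z) = ∑ r ∈ Finset.range (min n m + 1),
          (((c2 n m r)⁻¹ : ℝ) : ℂ) * (f z * g z * (starRingEnd ℂ) (H (n + m - 2 * r) z)) := by
        intro z
        show f z * g z * (starRingEnd ℂ) (∑ r ∈ Finset.range (min n m + 1),
          (((c2 n m r)⁻¹ : ℝ) : ℂ) * H (n + m - 2 * r) z) = _
        rw [map_sum, Finset.mul_sum]
        refine Finset.sum_congr rfl fun r _ => ?_
        rw [map_mul, Complex.conj_ofReal]
        ring
      simp only [e]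
      rw [integral_finsetSum]
      · rw [Complex.ofReal_sum]
        refine Finset.sum_congr rfl fun r _ => ?_
        rw [integral_const_mul, hR, ← Complex.ofReal_mul]
      · intro r _
        apply int_c
        exact continuous_const.mul ((cf.mul cg).mul (Complex.continuous_conj.comp (cH _)))
    have einn : ∀ z, ∫ z', (Kr n z' z : ℂ) * (Kr m z' z : ℂ) * (starRingEnd ℂ) (hs z') ∂sig =
        (starRingEnd ℂ) (f z * g z) := by
      intro z
      rw [innerN n m chs z, hfg2 z, map_sum]
      refine Finset.sum_congr rfl fun r hr => ?_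
      have e : ∫ z', (Kr (n + m - 2 * r) z z' : ℂ) * hs z' ∂sig =
          (((c2 n m r)⁻¹ : ℝ) : ℂ) * H (n + m - 2 * r) z := by
        have e0 : ∀ z', (Kr (n + m - 2 * r) z z' : ℂ) * hs z' =
            ∑ r' ∈ Finset.range (min n m + 1), (((c2 n m r')⁻¹ : ℝ) : ℂ) *
              ((Kr (n + m - 2 * r) z z' : ℂ) * H (n + m - 2 * r') z') := by
          intro z'
          show (Kr (n + m - 2 * r) z z' : ℂ) * (∑ r' ∈ Finset.range (min n m + 1),
            (((c2 n m r')⁻¹ : ℝ) : ℂ) * H (n + m - 2 * r') z') = _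
          rw [Finset.mul_sum]
          refine Finset.sum_congr rfl fun r' _ => ?_
          ring
        simp only [e0]
        rw [integral_finsetSum]
        · rw [Finset.sum_eq_single r]
          · rw [integral_const_mul, repro' _ _ _ (hH _) z, if_pos rfl]
          · intro r' hr' hne
            rw [integral_const_mul, repro' _ _ _ (hH _) z, if_neg, mul_zero]
            rw [Finset.mem_range] at hr hr'
            omega
          · intro h'
            exact absurd hr h'
        · intro r' _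
          apply int_c
          have c1 : Continuous fun z' : S => (Kr (n + m - 2 * r) z z' : ℂ) :=
            kc _ continuous_const continuous_id
          exact continuous_const.mul (c1.mul (cH _))
      rw [e, map_mul, Complex.conj_ofReal, ← mul_assoc, ← Complex.ofReal_mul,
        mul_inv_cancel₀ (c2_pos n m r).ne', Complex.ofReal_one, one_mul]
    have eN : ∫ z, hs z * ∫ z', (Kr n z' z : ℂ) * (Kr m z' z : ℂ) * (starRingEnd ℂ) (hs z') ∂sig ∂sig =
        (starRingEnd ℂ) (∫ z, f z * g z * (starRingEnd ℂ) (hs z) ∂sig) := by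
      simp only [einn]
      rw [← integral_conj]
      congr 1
      funext z
      simp only [map_mul, Complex.conj_conj]
      ring
    rw [eN, eR] at h1
    simp only [Complex.ofReal_re, Complex.conj_ofReal] at h1
    show ∑ r ∈ Finset.range (min n m + 1), (c2 n m r)⁻¹ * q (n + m - 2 * r) ≤ A * B
    linarith
  · intro r _
    set k := n + m - 2 * r with hk
    show q k ≤ (2 * (k : ℝ) + 1) / (4 * π) * (A * B)
    set C : ℝ := (2 * (k : ℝ) + 1) / (4 * π) with hC
    have hC0 : 0 ≤ C := by
      have := Real.pi_pos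
      positivity
    have h1 : ∀ z, ‖H k z‖ ≤ √(C * q k) := by
      intro z
      apply Real.le_sqrt_of_sq_le
      exact supb (hH k) z
    have h2 : q k ≤ √(C * q k) * ∫ z, ‖f z‖ * ‖g z‖ ∂sig := by
      have e1 : q k = ‖∫ z, f z * g z * (starRingEnd ℂ) (H k z) ∂sig‖ := by
        rw [hR, Complex.norm_real, Real.norm_eq_abs, abs_of_nonneg (hq0 k)]
      rw [← integral_const_mul]
      refine (le_of_eq e1).trans ((norm_integral_le_integral_norm _).trans ?_)
      apply integral_mono
      · exact int_r ((cf.mul cg).mul (Complex.continuous_conj.comp (cH _))).norm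
      · exact (int_r (cf.norm.mul cg.norm)).const_mul _
      · intro z
        simp only [norm_mul, RCLike.norm_conj]
        have h3 := h1 z
        have h4 : 0 ≤ ‖f z‖ * ‖g z‖ := by positivity
        calc ‖f z‖ * ‖g z‖ * ‖H k z‖ ≤ ‖f z‖ * ‖g z‖ * √(C * q k) :=
              mul_le_mul_of_nonneg_left h3 h4
          _ = √(C * q k) * (‖f z‖ * ‖g z‖) := by ring
    have h3 := cs cf.norm cg.norm
    have h4 : 0 ≤ ∫ z, ‖f z‖ * ‖g z‖ ∂sig := integral_nonneg fun z => by positivity
    have h5 : q k ^ 2 ≤ C * q k * (A * B) := by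
      calc q k ^ 2 ≤ (√(C * q k) * ∫ z, ‖f z‖ * ‖g z‖ ∂sig) ^ 2 :=
            pow_le_pow_left₀ (hq0 k) h2 2
        _ = C * q k * (∫ z, ‖f z‖ * ‖g z‖ ∂sig) ^ 2 := by
            rw [mul_pow, Real.sq_sqrt (mul_nonneg hC0 (hq0 k))]
        _ ≤ C * q k * (A * B) := by
            apply mul_le_mul_of_nonneg_left h3 (mul_nonneg hC0 (hq0 k))
    rcases (hq0 k).eq_or_lt with h6 | h6
    · rw [← h6]
      positivity
    · have h7 : q k * q k ≤ q k * (C * (A * B)) := by nlinarith
      exact le_of_mul_le_mul_left h7 h6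


end Pool.Agent.Helper442.DR
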