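import Mathlib
import Pool.Agent.Helper442.DR.Defs
import Pool.Agent.Helper490.SH.Rot
import Pool.Agent.Helper490.SH.LamMod

set_option autoImplicit false

open MeasureTheory Set Metric Real MvPolynomial

namespace Pool.Agent.Helper297.Rel

open Pool.Helper490.SH

noncomputable section

/-- derivative along the rotation in the plane `(a,b)` on the sphere -/
structure DD (a b : Fin 3) (hab : a ≠ b) (g g' : S2 → ℝ) : Prop where
  c : Continuous g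
  c' : Continuous g'
  d : ∀ (w : S2) (t : ℝ), HasDerivAt (fun s => g (sphMap (rotI a b hab s) w))
    (g' (sphMap (rotI a b hab t) w)) t

variable {a b : Fin 3} {hab : a ≠ b}

theorem DD.int {g g' : S2 → ℝ} (h : DD a b hab g g') : ∫ w, g' w ∂sig = 0 := by
  obtain ⟨C, hC⟩ := isCompact_univ.exists_bound_of_continuousOn h.c'.continuousOn
  obtain ⟨C', hC'⟩ := isCompact_univ.exists_bound_of_continuousOn h.c.continuousOn
  have hd := hasDerivAt_integral_of_dominated_loc_of_deriv_le (μ := sig) (𝕜 := ℝ)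
      (F := fun t (w : S2) => g (sphMap (rotI a b hab t) w))
      (F' := fun t (w : S2) => g' (sphMap (rotI a b hab t) w)) (x₀ := 0) (s := Set.univ)
      (bound := fun _ => C) Filter.univ_mem
      (Filter.Eventually.of_forall fun t => (h.c.comp (sphMap_continuous _)).aestronglyMeasurable)
      (Integrable.of_bound ((h.c.comp (sphMap_continuous _)).aestronglyMeasurable) C'
        (Filter.Eventually.of_forall fun w => hC' _ (mem_univ _)))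
      ((h.c'.comp (sphMap_continuous _)).aestronglyMeasurable)
      (Filter.Eventually.of_forall fun w t _ => hC _ (mem_univ _))
      (integrable_const C)
      (Filter.Eventually.of_forall fun w t _ => h.d w t)
  have hconst : (fun t => ∫ w : S2, g (sphMap (rotI a b hab t) w) ∂sig) =
      fun _ => ∫ w : S2, g w ∂sig := by
    funext t
    exact integral_sphMap _ g h.c
  have h1 := hd.2
  rw [hconst] at h1
  have h2 := h1.unique (hasDerivAt_const (0:ℝ) _)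
  rw [← integral_sphMap (rotI a b hab 0) g' h.c']
  exact h2

theorem DD.mul {f f' g g' : S2 → ℝ} (h1 : DD a b hab f f') (h2 : DD a b hab g g') :
    DD a b hab (fun w => f w * g w) (fun w => f' w * g w + f w * g' w) :=
  ⟨h1.c.mul h2.c, (h1.c'.mul h2.c).add (h1.c.mul h2.c'), fun w t => (h1.d w t).mul (h2.d w t)⟩

theorem DD.add {f f' g g' : S2 → ℝ} (h1 : DD a b hab f f') (h2 : DD a b hab g g') :
    DD a b hab (fun w => f w + g w) (fun w => f' w + g' w) :=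
  ⟨h1.c.add h2.c, h1.c'.add h2.c', fun w t => (h1.d w t).add (h2.d w t)⟩

theorem DD.sub {f f' g g' : S2 → ℝ} (h1 : DD a b hab f f') (h2 : DD a b hab g g') :
    DD a b hab (fun w => f w - g w) (fun w => f' w - g' w) :=
  ⟨h1.c.sub h2.c, h1.c'.sub h2.c', fun w t => (h1.d w t).sub (h2.d w t)⟩

theorem DD.cmul {f f' : S2 → ℝ} (k : ℝ) (h1 : DD a b hab f f') :
    DD a b hab (fun w => k * f w) (fun w => k * f' w) :=
  ⟨continuous_const.mul h1.c, continuous_const.mul h1.c', fun w t => (h1.d w t).const_mul k⟩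

theorem DD.poly (a b : Fin 3) (hab : a ≠ b) (P : MvPolynomial (Fin 3) ℝ) :
    DD a b hab (fun w => ev P (w : E)) (fun w => ev (LP a b P) (w : E)) := by
  refine ⟨(contDiff_ev P).continuous.comp continuous_subtype_val,
    (contDiff_ev _).continuous.comp continuous_subtype_val, fun w t => ?_⟩
  have := comp_rot_hasDerivAt a b hab (ev P) ((contDiff_ev P).of_le (by exact_mod_cast le_top)) t (w : E)
  rw [LF_ev] at this
  exact this

theorem DD.comp {h h1 : ℝ → ℝ} (hb : ∀ t ∈ Icc (-1 : ℝ) 1, HasDerivAt h (h1 t) t)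
    (hc : ContinuousOn h1 (Icc (-1 : ℝ) 1)) {T T' : S2 → ℝ} (hT : DD a b hab T T')
    (hr : ∀ w, T w ∈ Icc (-1 : ℝ) 1) : DD a b hab (fun w => h (T w)) (fun w => h1 (T w) * T' w) :=
  ⟨ContinuousOn.comp_continuous (fun t ht => (hb t ht).continuousAt.continuousWithinAt) hT.c hr,
    (hc.comp_continuous hT.c hr).mul hT.c', fun w t => (hb _ (hr _)).comp t (hT.d w t)⟩

theorem ev_LP (a b : Fin 3) (P : MvPolynomial (Fin 3) ℝ) (y : E) :
    ev (LP a b P) y = y a * ev (pderiv b P) y - y b * ev (pderiv a P) y := by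
  simp [LP, ev]

theorem ev_pd_LP (k a b : Fin 3) (P : MvPolynomial (Fin 3) ℝ) (y : E) :
    ev (pderiv k (LP a b P)) y = ((if k = a then ev (pderiv b P) y else 0) +
      y a * ev (pderiv k (pderiv b P)) y) - ((if k = b then ev (pderiv a P) y else 0) +
      y b * ev (pderiv k (pderiv a P)) y) := by
  unfold LP
  rw [map_sub, pderiv_mul, pderiv_mul]
  have h : ∀ j : Fin 3, ∀ Q : MvPolynomial (Fin 3) ℝ,
      ev (pderiv k (X j : MvPolynomial (Fin 3) ℝ) * Q) y = if k = j then ev Q y else 0 := by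
    intro j Q
    by_cases hj : k = j
    · subst hj
      rw [pderiv_X_self, one_mul, if_pos rfl]
    · rw [pderiv_X_of_ne (Ne.symm hj), zero_mul, if_neg hj]
      simp [ev]
  have e1 : ∀ A B C D : MvPolynomial (Fin 3) ℝ, ev (A + B - (C + D)) y = (ev A y + ev B y) - (ev C y + ev D y) := by
    intro A B C D; simp [ev]
  rw [e1, h, h]
  simp [ev]

/-- the linear polynomial `e.y` -/
def tau (e : E) : MvPolynomial (Fin 3) ℝ := C (e 0) * X 0 + C (e 1) * X 1 + C (e 2) * X 2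

theorem ev_tau (e y : E) : ev (tau e) y = e 0 * y 0 + e 1 * y 1 + e 2 * y 2 := by
  simp [tau, ev]

theorem pd_tau (e : E) (k : Fin 3) : pderiv k (tau e) = C (e k) := by
  unfold tau
  fin_cases k <;> simp [pderiv_mul, pderiv_X_of_ne]

theorem ev_pd_tau (e y : E) (k : Fin 3) : ev (pderiv k (tau e)) y = e k := by
  rw [pd_tau]; simp [ev]

theorem ev_pd2_tau (e y : E) (k l : Fin 3) : ev (pderiv l (pderiv k (tau e))) y = 0 := by
  rw [pd_tau]; simp [ev]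

theorem sph (w : S2) : (w : E) 0 ^ 2 + (w : E) 1 ^ 2 + (w : E) 2 ^ 2 = 1 := by
  have h1 : ‖(w : E)‖ = 1 := mem_sphere_zero_iff_norm.1 w.2
  have h2 := EuclideanSpace.norm_sq_eq (w : E)
  rw [h1, Fin.sum_univ_three] at h2
  simp only [Real.norm_eq_abs, sq_abs, one_pow] at h2
  linarith

/-- sum of squares of the derivatives of `t` -/
theorem id1 (e w : S2) : ev (LP 0 1 (tau e)) (w : E) ^ 2 + ev (LP 0 2 (tau e)) (w : E) ^ 2 +
    ev (LP 1 2 (tau e)) (w : E) ^ 2 = 1 - ev (tau e) (w : E) ^ 2 := by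
  simp only [ev_LP, ev_pd_tau, ev_tau]
  have h1 := sph e
  have h2 := sph w
  linear_combination ((w : E) 0 ^ 2 + (w : E) 1 ^ 2 + (w : E) 2 ^ 2) * h1 + h2

/-- Laplacian of `t` -/
theorem id2 (e w : S2) : ev (LP 0 1 (LP 0 1 (tau e))) (w : E) + ev (LP 0 2 (LP 0 2 (tau e))) (w : E) +
    ev (LP 1 2 (LP 1 2 (tau e))) (w : E) = -2 * ev (tau e) (w : E) := by
  simp only [ev_LP, ev_pd_LP, ev_pd_tau, ev_pd2_tau, ev_tau]
  simp
  ring

/-- the commutator identity -/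
theorem id4 (e w : S2) (P : MvPolynomial (Fin 3) ℝ) :
    ev (LP 0 1 P) (w : E) * ((ev (LP 0 1 (LP 0 1 (tau e))) (w : E) * ev (LP 0 1 P) (w : E) + ev (LP 0 1 (tau e)) (w : E) * ev (LP 0 1 (LP 0 1 P)) (w : E)) + (ev (LP 0 1 (LP 0 2 (tau e))) (w : E) * ev (LP 0 2 P) (w : E) + ev (LP 0 2 (tau e)) (w : E) * ev (LP 0 1 (LP 0 2 P)) (w : E)) + (ev (LP 0 1 (LP 1 2 (tau e))) (w : E) * ev (LP 1 2 P) (w : E) + ev (LP 1 2 (tau e)) (w : E) * ev (LP 0 1 (LP 1 2 P)) (w : E))) +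
      ev (LP 0 2 P) (w : E) * ((ev (LP 0 2 (LP 0 1 (tau e))) (w : E) * ev (LP 0 1 P) (w : E) + ev (LP 0 1 (tau e)) (w : E) * ev (LP 0 2 (LP 0 1 P)) (w : E)) + (ev (LP 0 2 (LP 0 2 (tau e))) (w : E) * ev (LP 0 2 P) (w : E) + ev (LP 0 2 (tau e)) (w : E) * ev (LP 0 2 (LP 0 2 P)) (w : E)) + (ev (LP 0 2 (LP 1 2 (tau e))) (w : E) * ev (LP 1 2 P) (w : E) + ev (LP 1 2 (tau e)) (w : E) * ev (LP 0 2 (LP 1 2 P)) (w : E))) +
      ev (LP 1 2 P) (w : E) * ((ev (LP 1 2 (LP 0 1 (tau e))) (w : E) * ev (LP 0 1 P) (w : E) + ev (LP 0 1 (tau e)) (w : E) * ev (LP 1 2 (LP 0 1 P)) (w : E)) + (ev (LP 1 2 (LP 0 2 (tau e))) (w : E) * ev (LP 0 2 P) (w : E) + ev (LP 0 2 (tau e)) (w : E) * ev (LP 1 2 (LP 0 2 P)) (w : E)) + (ev (LP 1 2 (LP 1 2 (tau e))) (w : E) * ev (LP 1 2 P) (w : E) + ev (LP 1 2 (tau e)) (w : E) * ev (LP 1 2 (LP 1 2 P)) (w : E))) =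
    - ev (tau e) (w : E) * (ev (LP 0 1 P) (w : E) ^ 2 + ev (LP 0 2 P) (w : E) ^ 2 + ev (LP 1 2 P) (w : E) ^ 2) + ev (LP 0 1 (tau e)) (w : E) * (ev (LP 0 1 P) (w : E) * ev (LP 0 1 (LP 0 1 P)) (w : E) + ev (LP 0 2 P) (w : E) * ev (LP 0 1 (LP 0 2 P)) (w : E) + ev (LP 1 2 P) (w : E) * ev (LP 0 1 (LP 1 2 P)) (w : E)) +
        ev (LP 0 2 (tau e)) (w : E) * (ev (LP 0 1 P) (w : E) * ev (LP 0 2 (LP 0 1 P)) (w : E) + ev (LP 0 2 P) (w : E) * ev (LP 0 2 (LP 0 2 P)) (w : E) + ev (LP 1 2 P) (w : E) * ev (LP 0 2 (LP 1 2 P)) (w : E)) +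
        ev (LP 1 2 (tau e)) (w : E) * (ev (LP 0 1 P) (w : E) * ev (LP 1 2 (LP 0 1 P)) (w : E) + ev (LP 0 2 P) (w : E) * ev (LP 1 2 (LP 0 2 P)) (w : E) + ev (LP 1 2 P) (w : E) * ev (LP 1 2 (LP 1 2 P)) (w : E)) := by
  have c1 : pderiv 1 (pderiv 0 P) = pderiv 0 (pderiv 1 P) := pd_comm 1 0 P
  have c2 : pderiv 2 (pderiv 0 P) = pderiv 0 (pderiv 2 P) := pd_comm 2 0 P
  have c3 : pderiv 2 (pderiv 1 P) = pderiv 1 (pderiv 2 P) := pd_comm 2 1 P
  simp only [ev_LP, ev_pd_LP, ev_pd_tau, ev_pd2_tau, ev_tau, c1, c2, c3]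
  norm_num [Fin.ext_iff]
  ring

theorem id3 (n : ℕ) (P : MvPolynomial (Fin 3) ℝ) (hP : P.IsHomogeneous n)
    (hh : ∑ i, MvPolynomial.pderiv i (MvPolynomial.pderiv i P) = 0) (w : E) :
    ev (LP 0 1 (LP 0 1 P)) w + ev (LP 0 2 (LP 0 2 P)) w + ev (LP 1 2 (LP 1 2 P)) w =
      - ((n : ℝ) * (n + 1)) * ev P w := by
  have hEu : Eu P = MvPolynomial.C (n : ℝ) * P := by
    ext d
    rw [coeff_Eu, coeff_C_mul]
    by_cases hd : d.degree = n
    · rw [hd]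
    · rw [hP.coeff_eq_zero hd, mul_zero, mul_zero]
  have hEu2 : Eu (Eu P) = MvPolynomial.C (n : ℝ) * (MvPolynomial.C (n : ℝ) * P) := by
    conv_lhs => rw [hEu]
    ext d
    rw [coeff_Eu, coeff_C_mul, coeff_C_mul, coeff_C_mul]
    by_cases hd : d.degree = n
    · rw [hd]
    · rw [hP.coeff_eq_zero hd, mul_zero, mul_zero, mul_zero]
  have hLa : La P = 0 := by
    rw [Fin.sum_univ_three] at hh
    exact hh
  have h := Lam_eq P
  rw [hEu2, hEu, hLa] at h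
  have h2 := congrArg (fun Q => ev Q w) h
  simp only [ev, Lam, map_add, map_neg, map_mul, map_sub, eval_C, map_zero, mul_zero, sub_zero] at h2
  simp only [ev]
  linarith

theorem T_mem (e w : S2) : ev (tau e) (w : E) ∈ Icc (-1 : ℝ) 1 := by
  have h := id1 e w
  have h1 : ev (tau e) (w : E) ^ 2 ≤ 1 := by
    nlinarith [sq_nonneg (ev (LP 0 1 (tau e)) (w : E)), sq_nonneg (ev (LP 0 2 (tau e)) (w : E)),
      sq_nonneg (ev (LP 1 2 (tau e)) (w : E))]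
  exact abs_le.1 ((sq_le_one_iff_abs_le_one _).1 h1)

theorem alg (T tA tB tC tAA tAB tAC tBA tBB tBC tCA tCB tCC f fA fB fC fAA fAB fAC fBA fBB fBC fCA fCB fCC
    c0 c1 c2 c3 lam : ℝ) (q1 : tA ^ 2 + tB ^ 2 + tC ^ 2 = 1 - T ^ 2) (q2 : tAA + tBB + tCC = -2 * T)
    (q3 : fAA + fBB + fCC = - lam * f)
    (q4 : fA * ((tAA * fA + tA * fAA) + (tAB * fB + tB * fAB) + (tAC * fC + tC * fAC)) +
      fB * ((tBA * fA + tA * fBA) + (tBB * fB + tB * fBB) + (tBC * fC + tC * fBC)) +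
      fC * ((tCA * fA + tA * fCA) + (tCB * fB + tB * fCB) + (tCC * fC + tC * fCC)) =
    - T * (fA ^ 2 + fB ^ 2 + fC ^ 2) + tA * (fA * fAA + fB * fAB + fC * fAC) +
        tB * (fA * fBA + fB * fBB + fC * fBC) +
        tC * (fA * fCA + fB * fCB + fC * fCC)) (hb1 : 0 ≤ c1) :
    (((((c1 * tA) * ((tA * fA) + ((tB * fB) + (tC * fC))) + c0 * ((tAA * fA + tA * fAA) + ((tAB * fB + tB * fAB) + (tAC * fC + tC * fAC)))) * fA + (c0 * ((tA * fA) + ((tB * fB) + (tC * fC)))) * fAA) - ((1/2) * (((c1 * tA) * ((fA * fA) + ((fB * fB) + ((fC * fC) - (lam * (f * f))))) + c0 * ((fAA * fA + fA * fAA) + ((fAB * fB + fB * fAB) + ((fAC * fC + fC * fAC) - (lam * (fA * f + f * fA)))))) * tA + (c0 * ((fA * fA) + ((fB * fB) + ((fC * fC) - (lam * (f * f)))))) * tAA))) + ((((c1 * tB) * ((tA * fA) + ((tB * fB) + (tC * fC))) + c0 * ((tBA * fA + tA * fBA) + ((tBB * fB + tB * fBB) + (tBC * fC + tC * fBC))))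 * fB + (c0 * ((tA * fA) + ((tB * fB) + (tC * fC)))) * fBB) - ((1/2) * (((c1 * tB) * ((fA * fA) + ((fB * fB) + ((fC * fC) - (lam * (f * f))))) + c0 * ((fBA * fA + fA * fBA) + ((fBB * fB + fB * fBB) + ((fBC * fC + fC * fBC) - (lam * (fB * f + f * fB)))))) * tB + (c0 * ((fA * fA) + ((fB * fB) + ((fC * fC) - (lam * (f * f)))))) * tBB))) + ((((c1 * tC) * ((tA * fA) + ((tB * fB) + (tC * fC))) + c0 * ((tCA * fA + tA * fCA) + ((tCB * fB + tB * fCB) + (tCC * fC + tC * fCC)))) * fC + (c0 * ((tA * fA) + ((tB * fB) + (tC * fC)))) * fCC) - ((1/2) * (((c1 * tC) * ((fA * fA) + ((fB * fB) + ((fC * fC) - (lam * (f * f))))) + c0 * ((fCA * fA + fA * fCA) + ((fCB * fB + fB * fCB) + ((fCC * fC + fC * fCC) - (lam * (fC * f + f * fC)))))) * tC + (c0 * ((fA * fA) + ((fB * fB) + ((fC * fC) - (lam * (f * f)))))) * tCC)))) - (1/2) * (((((((1 - (T) ^ 2) * c2 - 2 * (T) * c1) * tA) * f + ((1 - (T) ^ 2) *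 c1) * fA) * fA + (((1 - (T) ^ 2) * c1) * f) * fAA) - ((1/2) * ((fA * f + f * fA) * (((1 - (T) ^ 2) * c2 - 2 * (T) * c1) * tA) + (f * f) * ((((1 - (T) ^ 2) * c3 - 4 * (T) * c2 - 2 * c1) * tA) * tA + ((1 - (T) ^ 2) * c2 - 2 * (T) * c1) * tAA)))) + ((((((1 - (T) ^ 2) * c2 - 2 * (T) * c1) * tB) * f + ((1 - (T) ^ 2) * c1) * fB) * fB + (((1 - (T) ^ 2) * c1) * f) * fBB) - ((1/2) * ((fB * f + f * fB) * (((1 - (T) ^ 2) * c2 - 2 * (T) * c1) * tB) + (f * f) * ((((1 - (T) ^ 2) * c3 - 4 * (T) * c2 - 2 * c1) * tB) * tB + ((1 - (T) ^ 2) * c2 - 2 * (T) * c1) * tBB)))) + ((((((1 - (T) ^ 2) * c2 - 2 * (T) * c1) * tC) * f + ((1 - (T) ^ 2) * c1) * fC) * fC + (((1 - (T) ^ 2) * c1) * f) * fCC) - ((1/2) * ((fC * f + f * fC) * (((1 - (T) ^ 2) * c2 - 2 * (T) * c1) * tC) + (f * f) * ((((1 - (T) ^ 2) * c3 - 4 * (T) * c2 - 2 * c1) * tC) * tC + ((1 - (T) ^ 2) * c2 - 2 * (T) * c1) * tCC))))) ≤ (1/4) * (((1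 - T ^ 2) ^ 2 * c3 - 6 * T * (1 - T ^ 2) * c2 + (6 * T ^ 2 - 2) * c1) * (f) ^ 2) - lam * ((T * c0 - (1 - T ^ 2) * c1) * (f) ^ 2) := by
  have hcs : 0 ≤ (1 - T ^ 2) * (fA ^ 2 + fB ^ 2 + fC ^ 2) - (tA * fA + tB * fB + tC * fC) ^ 2 := by
    rw [← q1]
    nlinarith [sq_nonneg (tA * fB - tB * fA), sq_nonneg (tA * fC - tC * fA), sq_nonneg (tB * fC - tC * fB)]
  have hm := mul_nonneg hb1 hcs
  have hid : ((1/4) * (((1 - T ^ 2) ^ 2 * c3 - 6 * T * (1 - T ^ 2) * c2 + (6 * T ^ 2 - 2) * c1) * (f) ^ 2) - lam * ((T * c0 - (1 - T ^ 2) * c1) * (f) ^ 2)) - ((((((c1 * tA) * ((tA * fA) + ((tB * fB) + (tC * fC))) + c0 * ((tAA * fA + tA * fAA) + ((tAB * fB + tB * fAB) + (tAC * fC + tC * fAC)))) * fA + (c0 * ((tA * fA) + ((tB * fB) + (tC * fC)))) * fAA) - ((1/2) * (((c1 * tA) * ((fA * fA) + ((fB * fB) + ((fC * fC) - (lam * (f * f))))) + c0 * ((fAA * fA + fA * fAA) + ((fAB * fB + fB * fAB) + ((fAC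 * fC + fC * fAC) - (lam * (fA * f + f * fA)))))) * tA + (c0 * ((fA * fA) + ((fB * fB) + ((fC * fC) - (lam * (f * f)))))) * tAA))) + ((((c1 * tB) * ((tA * fA) + ((tB * fB) + (tC * fC))) + c0 * ((tBA * fA + tA * fBA) + ((tBB * fB + tB * fBB) + (tBC * fC + tC * fBC)))) * fB + (c0 * ((tA * fA) + ((tB * fB) + (tC * fC)))) * fBB) - ((1/2) * (((c1 * tB) * ((fA * fA) + ((fB * fB) + ((fC * fC) - (lam * (f * f))))) + c0 * ((fBA * fA + fA * fBA) + ((fBB * fB + fB * fBB) + ((fBC * fC + fC * fBC) - (lam * (fB * f + f * fB)))))) * tB + (c0 * ((fA * fA) + ((fB * fB) + ((fC * fC) - (lam * (f * f)))))) * tBB))) + ((((c1 * tC) * ((tA * fA) + ((tB * fB) + (tC * fC))) + c0 * ((tCA * fA + tA * fCA) + ((tCB * fB + tB * fCB) + (tCC * fC + tC * fCC)))) * fC + (c0 * ((tA * fA) + ((tB * fB) + (tC * fC)))) * fCC) - ((1/2) * (((c1 * tC) * ((fA * fA) + ((fB * fB) + ((fC * fC) - (lam * (f * f))))) + c0 *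 ((fCA * fA + fA * fCA) + ((fCB * fB + fB * fCB) + ((fCC * fC + fC * fCC) - (lam * (fC * f + f * fC)))))) * tC + (c0 * ((fA * fA) + ((fB * fB) + ((fC * fC) - (lam * (f * f)))))) * tCC)))) - (1/2) * (((((((1 - (T) ^ 2) * c2 - 2 * (T) * c1) * tA) * f + ((1 - (T) ^ 2) * c1) * fA) * fA + (((1 - (T) ^ 2) * c1) * f) * fAA) - ((1/2) * ((fA * f + f * fA) * (((1 - (T) ^ 2) * c2 - 2 * (T) * c1) * tA) + (f * f) * ((((1 - (T) ^ 2) * c3 - 4 * (T) * c2 - 2 * c1) * tA) * tA + ((1 - (T) ^ 2) * c2 - 2 * (T) * c1) * tAA)))) + ((((((1 - (T) ^ 2) * c2 - 2 * (T) * c1) * tB) * f + ((1 - (T) ^ 2) * c1) * fB) * fB + (((1 - (T) ^ 2) * c1) * f) * fBB) - ((1/2) * ((fB * f + f * fB) * (((1 - (T) ^ 2) * c2 - 2 * (T) * c1) * tB) + (f * f) * ((((1 - (T) ^ 2) * c3 - 4 * (T) * c2 - 2 * c1) * tB) * tB + ((1 - (T) ^ 2) * c2 - 2 * (T) * c1) * tBB)))) + ((((((1 - (T) ^ 2) * c2 - 2 * (T) * c1) * tC) * f + ((1 - (T)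 ^ 2) * c1) * fC) * fC + (((1 - (T) ^ 2) * c1) * f) * fCC) - ((1/2) * ((fC * f + f * fC) * (((1 - (T) ^ 2) * c2 - 2 * (T) * c1) * tC) + (f * f) * ((((1 - (T) ^ 2) * c3 - 4 * (T) * c2 - 2 * c1) * tC) * tC + ((1 - (T) ^ 2) * c2 - 2 * (T) * c1) * tCC)))))) =
      c1 * ((1 - T ^ 2) * (fA ^ 2 + fB ^ 2 + fC ^ 2) - (tA * fA + tB * fB + tC * fC) ^ 2) := by
    linear_combination ((1/2) * c1 * ((fA ^ 2 + fB ^ 2 + fC ^ 2) - lam * f ^ 2) - (1/4) * f ^ 2 * ((1 - (T) ^ 2) * c3 - 4 * (T) * c2 - 2 * c1)) * q1 +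
      ((1/2) * c0 * ((fA ^ 2 + fB ^ 2 + fC ^ 2) - lam * f ^ 2) - (1/4) * f ^ 2 * ((1 - (T) ^ 2) * c2 - 2 * (T) * c1)) * q2 +
      (- c0 * (tA * fA + tB * fB + tC * fC) + (1/2) * ((1 - (T) ^ 2) * c1) * f) * q3 + (- c0) * q4
  linarith

theorem int3 {f g h : S2 → ℝ} (hf : Continuous f) (hg : Continuous g) (hh : Continuous h)
    (zf : ∫ w, f w ∂sig = 0) (zg : ∫ w, g w ∂sig = 0) (zh : ∫ w, h w ∂sig = 0) :
    Continuous (fun w => f w + g w + h w) ∧ ∫ w, (f w + g w + h w) ∂sig = 0 := by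
  have hint : ∀ g : S2 → ℝ, Continuous g → Integrable g sig := fun g hg =>
    Continuous.integrable_of_hasCompactSupport hg (HasCompactSupport.of_compactSpace _)
  refine ⟨(hf.add hg).add hh, ?_⟩
  have e1 : ∫ w, (f w + g w + h w) ∂sig = ∫ w, (f w + g w) ∂sig + ∫ w, h w ∂sig :=
    integral_add (hint _ (hf.add hg)) (hint _ hh)
  have e2 : ∫ w, (f w + g w) ∂sig = ∫ w, f w ∂sig + ∫ w, g w ∂sig :=
    integral_add (hint _ hf) (hint _ hg)
  rw [e1, e2, zf, zg, zh]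
  ring

theorem fin3 {w1 w2 R L : S2 → ℝ} (lam : ℝ) (c1 : Continuous w1) (c2 : Continuous w2) (cR : Continuous R)
    (cL : Continuous L) (z1 : ∫ w, w1 w ∂sig = 0) (z2 : ∫ w, w2 w ∂sig = 0)
    (h : ∀ w, w1 w - (1/2) * w2 w ≤ (1/4) * R w - lam * L w) :
    lam * ∫ w, L w ∂sig ≤ (1/4) * ∫ w, R w ∂sig := by
  have hint : ∀ g : S2 → ℝ, Continuous g → Integrable g sig := fun g hg =>
    Continuous.integrable_of_hasCompactSupport hg (HasCompactSupport.of_compactSpace _)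
  have hm : ∫ w, (w1 w - (1/2) * w2 w) ∂sig ≤ ∫ w, ((1/4) * R w - lam * L w) ∂sig :=
    integral_mono (hint _ (c1.sub (continuous_const.mul c2)))
      (hint _ ((continuous_const.mul cR).sub (continuous_const.mul cL))) h
  have e1 : ∫ w, (w1 w - (1/2) * w2 w) ∂sig = ∫ w, w1 w ∂sig - ∫ w, (1/2) * w2 w ∂sig :=
    integral_sub (hint _ c1) (hint _ (continuous_const.mul c2))
  have e2 : ∫ w, ((1/4) * R w - lam * L w) ∂sig = ∫ w, (1/4) * R w ∂sig - ∫ w, lam * L w ∂sig :=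
    integral_sub (hint _ (continuous_const.mul cR)) (hint _ (continuous_const.mul cL))
  rw [e1, e2, integral_const_mul, integral_const_mul, integral_const_mul, z1, z2] at hm
  linarith

theorem rellich0 (n : ℕ) (P : MvPolynomial (Fin 3) ℝ) (hP : P.IsHomogeneous n)
    (hh : ∑ i, MvPolynomial.pderiv i (MvPolynomial.pderiv i P) = 0) (e : S2) (b b1 b2 b3 : ℝ → ℝ)
    (h1 : ∀ t ∈ Icc (-1 : ℝ) 1, HasDerivAt b (b1 t) t) (h2 : ∀ t ∈ Icc (-1 : ℝ) 1, HasDerivAt b1 (b2 t) t)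
    (h3 : ∀ t ∈ Icc (-1 : ℝ) 1, HasDerivAt b2 (b3 t) t) (hc : ContinuousOn b3 (Icc (-1 : ℝ) 1))
    (hpos : ∀ t ∈ Icc (-1 : ℝ) 1, 0 ≤ b1 t) :
    (n : ℝ) * (n + 1) * ∫ y : S2, (ev (tau e) (y : E) * b (ev (tau e) (y : E)) -
        (1 - ev (tau e) (y : E) ^ 2) * b1 (ev (tau e) (y : E))) * (ev P (y : E)) ^ 2 ∂sig ≤
      (1 / 4) * ∫ y : S2, ((1 - ev (tau e) (y : E) ^ 2) ^ 2 * b3 (ev (tau e) (y : E)) -
        6 * ev (tau e) (y : E) * (1 - ev (tau e) (y : E) ^ 2) * b2 (ev (tau e) (y : E)) +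
        (6 * ev (tau e) (y : E) ^ 2 - 2) * b1 (ev (tau e) (y : E))) * (ev P (y : E)) ^ 2 ∂sig := by
  obtain ⟨lam, hlam⟩ : ∃ lam : ℝ, lam = (n : ℝ) * (n + 1) := ⟨_, rfl⟩
  have cb : ContinuousOn b (Icc (-1 : ℝ) 1) := fun t ht => (h1 t ht).continuousAt.continuousWithinAt
  have cb1 : ContinuousOn b1 (Icc (-1 : ℝ) 1) := fun t ht => (h2 t ht).continuousAt.continuousWithinAt
  have cb2 : ContinuousOn b2 (Icc (-1 : ℝ) 1) := fun t ht => (h3 t ht).continuousAt.continuousWithinAt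
  -- beta and its derivatives
  have k1 : ∀ t ∈ Icc (-1 : ℝ) 1, HasDerivAt (fun s => (1 - s ^ 2) * b1 s)
      ((fun s => (1 - s ^ 2) * b2 s - 2 * s * b1 s) t) t := by
    intro t ht
    have := ((hasDerivAt_const t (1:ℝ)).sub (hasDerivAt_pow 2 t)).mul (h2 t ht)
    refine this.congr_deriv ?_
    simp
    ring
  have k2 : ∀ t ∈ Icc (-1 : ℝ) 1, HasDerivAt (fun s => (1 - s ^ 2) * b2 s - 2 * s * b1 s)
      ((fun s => (1 - s ^ 2) * b3 s - 4 * s * b2 s - 2 * b1 s) t) t := by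
    intro t ht
    have := (((hasDerivAt_const t (1:ℝ)).sub (hasDerivAt_pow 2 t)).mul (h3 t ht)).sub
      (((hasDerivAt_id t).const_mul 2).mul (h2 t ht))
    refine this.congr_deriv ?_
    simp
    ring
  have ck1 : ContinuousOn (fun s => (1 - s ^ 2) * b2 s - 2 * s * b1 s) (Icc (-1 : ℝ) 1) := by
    fun_prop
  have ck2 : ContinuousOn (fun s => (1 - s ^ 2) * b3 s - 4 * s * b2 s - 2 * b1 s) (Icc (-1 : ℝ) 1) := by
    fun_prop
  have hr := T_mem e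
  -- building blocks
  have pl : ∀ (a b : Fin 3) (hab : a ≠ b) (Q : MvPolynomial (Fin 3) ℝ), DD a b hab (fun w => ev Q (w : E))
    (fun w => ev (LP a b Q) (w : E)) := DD.poly
  have Vint : ∀ (a c : Fin 3) (hac : a ≠ c), ∫ w : S2, (((((b1 (ev (tau e) (w : E)) * ev (LP a c (tau e)) (w : E)) * ((ev (LP 0 1 (tau e)) (w : E) * ev (LP 0 1 P) (w : E)) + ((ev (LP 0 2 (tau e)) (w : E) * ev (LP 0 2 P) (w : E)) + (ev (LP 1 2 (tau e)) (w : E) * ev (LP 1 2 P) (w : E)))) + b (ev (tau e) (w : E)) * ((ev (LP a c (LP 0 1 (tau e))) (w : E) * ev (LP 0 1 P) (w : E) + ev (LP 0 1 (tau e)) (w : E) * ev (LP a c (LP 0 1 P)) (w : E)) + ((ev (LP a c (LP 0 2 (tau e))) (w : E) * ev (LP 0 2 P) (w : E) + ev (LP 0 2 (tau e)) (w : E) * ev (LP a c (LP 0 2 P)) (w : E)) + (ev (LP a c (LP 1 2 (tau e))) (w : E) * ev (LP 1 2 P) (w : E) + ev (LP 1 2 (tau e)) (w : E) * ev (LP a c (LP 1 2 P)) (w : E))))) * ev (LP a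 c P) (w : E) + (b (ev (tau e) (w : E)) * ((ev (LP 0 1 (tau e)) (w : E) * ev (LP 0 1 P) (w : E)) + ((ev (LP 0 2 (tau e)) (w : E) * ev (LP 0 2 P) (w : E)) + (ev (LP 1 2 (tau e)) (w : E) * ev (LP 1 2 P) (w : E))))) * ev (LP a c (LP a c P)) (w : E)) - ((1/2) * (((b1 (ev (tau e) (w : E)) * ev (LP a c (tau e)) (w : E)) * ((ev (LP 0 1 P) (w : E) * ev (LP 0 1 P) (w : E)) + ((ev (LP 0 2 P) (w : E) * ev (LP 0 2 P) (w : E)) + ((ev (LP 1 2 P) (w : E) * ev (LP 1 2 P) (w : E)) - (lam * (ev P (w : E) * ev P (w : E)))))) + b (ev (tau e) (w : E)) * ((ev (LP a c (LP 0 1 P)) (w : E) * ev (LP 0 1 P) (w : E) + ev (LP 0 1 P) (w : E) * ev (LP a c (LP 0 1 P)) (w : E)) + ((ev (LP a c (LP 0 2 P)) (w : E) * ev (LP 0 2 P) (w : E) + ev (LP 0 2 P) (w : E) * ev (LP a c (LP 0 2 P)) (w : E)) + ((ev (LP a c (LP 1 2 P)) (w : E) * ev (LP 1 2 P) (w : E) + ev (LP 1 2 P) (w : E) * ev (LP a c (LP 1 2 P)) (w : E))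 - (lam * (ev (LP a c P) (w : E) * ev P (w : E) + ev P (w : E) * ev (LP a c P) (w : E))))))) * ev (LP a c (tau e)) (w : E) + (b (ev (tau e) (w : E)) * ((ev (LP 0 1 P) (w : E) * ev (LP 0 1 P) (w : E)) + ((ev (LP 0 2 P) (w : E) * ev (LP 0 2 P) (w : E)) + ((ev (LP 1 2 P) (w : E) * ev (LP 1 2 P) (w : E)) - (lam * (ev P (w : E) * ev P (w : E))))))) * ev (LP a c (LP a c (tau e))) (w : E))))) ∂sig = 0 ∧ Continuous (fun w : S2 => (((((b1 (ev (tau e) (w : E)) * ev (LP a c (tau e)) (w : E)) * ((ev (LP 0 1 (tau e)) (w : E) * ev (LP 0 1 P) (w : E)) + ((ev (LP 0 2 (tau e)) (w : E) * ev (LP 0 2 P) (w : E)) + (ev (LP 1 2 (tau e)) (w : E) * ev (LP 1 2 P) (w : E)))) + b (ev (tau e) (w : E)) * ((ev (LP a c (LP 0 1 (tau e))) (w : E) * ev (LP 0 1 P) (w : E) + ev (LP 0 1 (tau e)) (w : E) * ev (LP a c (LP 0 1 P)) (w : E)) + ((ev (LP a c (LP 0 2 (tau e))) (w : E) * ev (LP 0 2 P) (w : E) + ev (LP 0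 2 (tau e)) (w : E) * ev (LP a c (LP 0 2 P)) (w : E)) + (ev (LP a c (LP 1 2 (tau e))) (w : E) * ev (LP 1 2 P) (w : E) + ev (LP 1 2 (tau e)) (w : E) * ev (LP a c (LP 1 2 P)) (w : E))))) * ev (LP a c P) (w : E) + (b (ev (tau e) (w : E)) * ((ev (LP 0 1 (tau e)) (w : E) * ev (LP 0 1 P) (w : E)) + ((ev (LP 0 2 (tau e)) (w : E) * ev (LP 0 2 P) (w : E)) + (ev (LP 1 2 (tau e)) (w : E) * ev (LP 1 2 P) (w : E))))) * ev (LP a c (LP a c P)) (w : E)) - ((1/2) * (((b1 (ev (tau e) (w : E)) * ev (LP a c (tau e)) (w : E)) * ((ev (LP 0 1 P) (w : E) * ev (LP 0 1 P) (w : E)) + ((ev (LP 0 2 P) (w : E) * ev (LP 0 2 P) (w : E)) + ((ev (LP 1 2 P) (w : E) * ev (LP 1 2 P) (w : E)) - (lam * (ev P (w : E) * ev P (w : E)))))) + b (ev (tau e) (w : E)) * ((ev (LP a c (LP 0 1 P)) (w : E) * ev (LP 0 1 P) (w : E) + ev (LP 0 1 P) (w : E) * ev (LP a c (LP 0 1 P)) (w : E)) + ((ev (LP a c (LP 0 2 P)) (w : E) * ev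 (LP 0 2 P) (w : E) + ev (LP 0 2 P) (w : E) * ev (LP a c (LP 0 2 P)) (w : E)) + ((ev (LP a c (LP 1 2 P)) (w : E) * ev (LP 1 2 P) (w : E) + ev (LP 1 2 P) (w : E) * ev (LP a c (LP 1 2 P)) (w : E)) - (lam * (ev (LP a c P) (w : E) * ev P (w : E) + ev P (w : E) * ev (LP a c P) (w : E))))))) * ev (LP a c (tau e)) (w : E) + (b (ev (tau e) (w : E)) * ((ev (LP 0 1 P) (w : E) * ev (LP 0 1 P) (w : E)) + ((ev (LP 0 2 P) (w : E) * ev (LP 0 2 P) (w : E)) + ((ev (LP 1 2 P) (w : E) * ev (LP 1 2 P) (w : E)) - (lam * (ev P (w : E) * ev P (w : E))))))) * ev (LP a c (LP a c (tau e))) (w : E)))))) := by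
    intro a c hac
    have bT := DD.comp h1 cb1 (pl a c hac (tau e)) hr
    have Y := ((pl a c hac (LP 0 1 (tau e))).mul (pl a c hac (LP 0 1 P))).add
      (((pl a c hac (LP 0 2 (tau e))).mul (pl a c hac (LP 0 2 P))).add
        ((pl a c hac (LP 1 2 (tau e))).mul (pl a c hac (LP 1 2 P))))
    have Q := ((pl a c hac (LP 0 1 P)).mul (pl a c hac (LP 0 1 P))).add
      (((pl a c hac (LP 0 2 P)).mul (pl a c hac (LP 0 2 P))).add
        (((pl a c hac (LP 1 2 P)).mul (pl a c hac (LP 1 2 P))).sub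
          (((pl a c hac P).mul (pl a c hac P)).cmul lam)))
    have V := ((bT.mul Y).mul (pl a c hac (LP a c P))).sub
      (((bT.mul Q).mul (pl a c hac (LP a c (tau e)))).cmul (1/2))
    exact ⟨V.int, V.c'⟩
  have Wint : ∀ (a c : Fin 3) (hac : a ≠ c), ∫ w : S2, (((((((1 - (ev (tau e) (w : E)) ^ 2) * b2 (ev (tau e) (w : E)) - 2 * (ev (tau e) (w : E)) * b1 (ev (tau e) (w : E))) * ev (LP a c (tau e)) (w : E)) * ev P (w : E) + ((1 - (ev (tau e) (w : E)) ^ 2) * b1 (ev (tau e) (w : E))) * ev (LP a c P) (w : E)) * ev (LP a c P) (w : E) + (((1 - (ev (tau e) (w : E)) ^ 2) * b1 (ev (tau e) (w : E))) * ev P (w : E)) * ev (LP a c (LP a c P)) (w : E)) - ((1/2) * ((ev (LP a c P) (w : E) * ev P (w : E) + ev P (w : E) * ev (LP a c P) (w : E)) * (((1 - (ev (tau e) (w : E)) ^ 2) * b2 (ev (tau e) (w : E)) - 2 * (ev (tau e) (w : E)) * b1 (ev (tau e) (w : E))) * ev (LP a c (tau e)) (w : E)) + (ev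 P (w : E) * ev P (w : E)) * ((((1 - (ev (tau e) (w : E)) ^ 2) * b3 (ev (tau e) (w : E)) - 4 * (ev (tau e) (w : E)) * b2 (ev (tau e) (w : E)) - 2 * b1 (ev (tau e) (w : E))) * ev (LP a c (tau e)) (w : E)) * ev (LP a c (tau e)) (w : E) + ((1 - (ev (tau e) (w : E)) ^ 2) * b2 (ev (tau e) (w : E)) - 2 * (ev (tau e) (w : E)) * b1 (ev (tau e) (w : E))) * ev (LP a c (LP a c (tau e))) (w : E)))))) ∂sig = 0 ∧ Continuous (fun w : S2 => (((((((1 - (ev (tau e) (w : E)) ^ 2) * b2 (ev (tau e) (w : E)) - 2 * (ev (tau e) (w : E)) * b1 (ev (tau e) (w : E))) * ev (LP a c (tau e)) (w : E)) * ev P (w : E) + ((1 - (ev (tau e) (w : E)) ^ 2) * b1 (ev (tau e) (w : E))) * ev (LP a c P) (w : E)) * ev (LP a c P) (w : E) + (((1 - (ev (tau e) (w : E)) ^ 2) * b1 (ev (tau e) (w : E))) * ev P (w : E)) * ev (LP a c (LP a c P)) (w : E)) - ((1/2) * ((ev (LP a c P) (w : E) * ev P (w : E) + ev P (w : E) * ev (LP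 a c P) (w : E)) * (((1 - (ev (tau e) (w : E)) ^ 2) * b2 (ev (tau e) (w : E)) - 2 * (ev (tau e) (w : E)) * b1 (ev (tau e) (w : E))) * ev (LP a c (tau e)) (w : E)) + (ev P (w : E) * ev P (w : E)) * ((((1 - (ev (tau e) (w : E)) ^ 2) * b3 (ev (tau e) (w : E)) - 4 * (ev (tau e) (w : E)) * b2 (ev (tau e) (w : E)) - 2 * b1 (ev (tau e) (w : E))) * ev (LP a c (tau e)) (w : E)) * ev (LP a c (tau e)) (w : E) + ((1 - (ev (tau e) (w : E)) ^ 2) * b2 (ev (tau e) (w : E)) - 2 * (ev (tau e) (w : E)) * b1 (ev (tau e) (w : E))) * ev (LP a c (LP a c (tau e))) (w : E))))))) := by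
    intro a c hac
    have be := DD.comp k1 ck1 (pl a c hac (tau e)) hr
    have be1 := DD.comp k2 ck2 (pl a c hac (tau e)) hr
    have W := ((be.mul (pl a c hac P)).mul (pl a c hac (LP a c P))).sub
      ((((pl a c hac P).mul (pl a c hac P)).mul (be1.mul (pl a c hac (LP a c (tau e))))).cmul (1/2))
    exact ⟨W.int, W.c'⟩
  obtain ⟨VA, VAc⟩ := Vint 0 1 (by decide)
  obtain ⟨VB, VBc⟩ := Vint 0 2 (by decide)
  obtain ⟨VC, VCc⟩ := Vint 1 2 (by decide)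
  obtain ⟨WA, WAc⟩ := Wint 0 1 (by decide)
  obtain ⟨WB, WBc⟩ := Wint 0 2 (by decide)
  obtain ⟨WC, WCc⟩ := Wint 1 2 (by decide)

  obtain ⟨cw1, z1⟩ := int3 VAc VBc VCc VA VB VC
  obtain ⟨cw2, z2⟩ := int3 WAc WBc WCc WA WB WC
  have hTc : Continuous (fun w : S2 => ev (tau e) (w : E)) := (contDiff_ev _).continuous.comp continuous_subtype_val
  have hPc : Continuous (fun w : S2 => ev P (w : E)) := (contDiff_ev _).continuous.comp continuous_subtype_val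
  have c0 : Continuous (fun w : S2 => b (ev (tau e) (w : E))) := cb.comp_continuous hTc hr
  have c1 : Continuous (fun w : S2 => b1 (ev (tau e) (w : E))) := cb1.comp_continuous hTc hr
  have c2 : Continuous (fun w : S2 => b2 (ev (tau e) (w : E))) := cb2.comp_continuous hTc hr
  have c3 : Continuous (fun w : S2 => b3 (ev (tau e) (w : E))) := hc.comp_continuous hTc hr
  have cR : Continuous (fun w : S2 => ((1 - ev (tau e) (w : E) ^ 2) ^ 2 * b3 (ev (tau e) (w : E)) - 6 * ev (tau e) (w : E) * (1 - ev (tau e) (w : E) ^ 2) * b2 (ev (tau e) (w : E)) + (6 * ev (tau e) (w : E) ^ 2 - 2) * b1 (ev (tau e) (w : E))) * (ev P (w : E)) ^ 2) :=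
    ((((((continuous_const.sub (hTc.pow 2)).pow 2).mul c3).sub
      (((continuous_const.mul hTc).mul (continuous_const.sub (hTc.pow 2))).mul c2)).add
      (((continuous_const.mul (hTc.pow 2)).sub continuous_const).mul c1)).mul (hPc.pow 2))
  have cL : Continuous (fun w : S2 => (ev (tau e) (w : E) * b (ev (tau e) (w : E)) - (1 - ev (tau e) (w : E) ^ 2) * b1 (ev (tau e) (w : E))) * (ev P (w : E)) ^ 2) :=
    (((hTc.mul c0).sub ((continuous_const.sub (hTc.pow 2)).mul c1)).mul (hPc.pow 2))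
  rw [← hlam]
  refine fin3 lam cw1 cw2 cR cL z1 z2 ?_
  intro w
  have q3 := id3 n P hP hh (w : E)
  rw [← hlam] at q3
  exact alg _ _ _ _ _ _ _ _ _ _ _ _ _ _ _ _ _ _ _ _ _ _ _ _ _ _ _ _ _ _ lam (id1 e w) (id2 e w) q3 (id4 e w P) (hpos _ (hr w))

end

end Pool.Agent.Helper297.Rel


-- ======== the job file ========

open MeasureTheory Set Metric Real
open scoped ENNReal

namespace Pool.Agent.Helper442.DR




-- ===== TARGET (prove this; the lemmas above may be used with their sorry) =====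
/-- Rellich type inequality for a real harmonic homogeneous polynomial on the sphere; `t = e.y` -/
theorem rellich (n : ℕ) (P : MvPolynomial (Fin 3) ℝ) (hP : P.IsHomogeneous n)
    (hh : ∑ i, MvPolynomial.pderiv i (MvPolynomial.pderiv i P) = 0) (e : S) (b b1 b2 b3 : ℝ → ℝ)
    (h1 : ∀ t ∈ Icc (-1 : ℝ) 1, HasDerivAt b (b1 t) t) (h2 : ∀ t ∈ Icc (-1 : ℝ) 1, HasDerivAt b1 (b2 t) t)
    (h3 : ∀ t ∈ Icc (-1 : ℝ) 1, HasDerivAt b2 (b3 t) t) (hc : ContinuousOn b3 (Icc (-1 : ℝ) 1))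
    (hpos : ∀ t ∈ Icc (-1 : ℝ) 1, 0 ≤ b1 t) :
    (n : ℝ) * (n + 1) * ∫ y : S, (dot e y * b (dot e y) - (1 - dot e y ^ 2) * b1 (dot e y)) *
        (MvPolynomial.eval (fun i => (y : E) i) P) ^ 2 ∂sig ≤
      (1 / 4) * ∫ y : S, ((1 - dot e y ^ 2) ^ 2 * b3 (dot e y) - 6 * dot e y * (1 - dot e y ^ 2) * b2 (dot e y) +
        (6 * dot e y ^ 2 - 2) * b1 (dot e y)) * (MvPolynomial.eval (fun i => (y : E) i) P) ^ 2 ∂sig := by
  have hdot : ∀ y : S, dot e y = Pool.Helper490.SH.ev (Pool.Agent.Helper297.Rel.tau (e : E)) (y : E) := by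
    intro y
    rw [Pool.Agent.Helper297.Rel.ev_tau]
    simp [dot, Fin.sum_univ_three]
  simp only [hdot]
  exact Pool.Agent.Helper297.Rel.rellich0 n P hP hh e b b1 b2 b3 h1 h2 h3 hc hpos

end Pool.Agent.Helper442.DR
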