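import Mathlib
import Pool.Agent.Helper442.DR.Defs
import Pool.Agent.Helper442.DR.S1

open MeasureTheory Set Metric Real
open scoped ENNReal

namespace Pool.Agent.Helper442.DR







theorem S2_dot_mem (e y : S) : dot e y ∈ Icc (-1 : ℝ) 1 := by
  have h1 : dot e y = inner ℝ (y : E) (e : E) := by
    simp [dot, PiLp.inner_apply]
  have h2 := abs_real_inner_le_norm (y : E) (e : E)
  have he : ‖(e : E)‖ = 1 := norm_eq_of_mem_sphere e
  have hy : ‖(y : E)‖ = 1 := norm_eq_of_mem_sphere y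
  rw [he, hy, mul_one] at h2
  rw [h1]
  exact abs_le.mp h2

theorem S2_dot_cont (e : S) : Continuous (fun y : S => dot e y) := by
  unfold dot
  refine continuous_finsetSum _ fun i _ => continuous_const.mul ?_
  have : Continuous (fun x : E => x i) := by fun_prop
  exact this.comp continuous_subtype_val

theorem S2_int (g : S → ℝ) (hg : Continuous g) : Integrable g sig := by
  unfold sig
  exact hg.integrable_of_hasCompactSupport (HasCompactSupport.of_compactSpace g)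

theorem S2_ev_cont (P : MvPolynomial (Fin 3) ℝ) :
    Continuous (fun y : S => MvPolynomial.eval (fun i => (y : E) i) P) := by
  have h1 : Continuous (fun y : S => (fun i => (y : E) i : Fin 3 → ℝ)) := by
    refine continuous_pi fun i => ?_
    have : Continuous (fun x : E => x i) := by fun_prop
    exact this.comp continuous_subtype_val
  exact (MvPolynomial.continuous_eval P).comp h1

/-- derivative of `X = v^(-1/2)` -/
theorem S2_X (ε : ℝ) (hε : 0 < ε) (t : ℝ) (ht : t ∈ Icc (-1 : ℝ) 1) :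
    HasDerivAt (fun t => (√(ε + (1 - t) / 2))⁻¹) ((√(ε + (1 - t) / 2))⁻¹ ^ 3 / 4) t := by
  have hv : 0 < ε + (1 - t) / 2 := by linarith [ht.2]
  have h1 : HasDerivAt (fun t : ℝ => ε + (1 - t) / 2) (-1 / 2) t := by
    have := (((hasDerivAt_id t).const_sub 1).div_const 2).const_add ε
    simpa using this
  have h2 := (h1.sqrt hv.ne').inv (Real.sqrt_pos.mpr hv).ne'
  refine h2.congr_deriv ?_
  have h3 : √(ε + (1 - t) / 2) ≠ 0 := (Real.sqrt_pos.mpr hv).ne'
  generalize √(ε + (1 - t) / 2) = z at h3 ⊢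
  field_simp
  try norm_num

theorem S2_exp (n : ℕ) (hn : 2 ≤ n) (u : ℝ) (hu0 : 0 ≤ u) (hu1 : u ≤ 1) :
    (1 - u) ^ n * (1 + n * u) ^ 2 ≤ 8 * (1 - u) := by
  have hn' : (2 : ℝ) ≤ (n : ℝ) := by exact_mod_cast hn
  obtain ⟨m, rfl⟩ : ∃ m, n = m + 1 := ⟨n - 1, by omega⟩
  have h1 : (1 - u) ^ m ≤ Real.exp (-(m * u)) := by
    have h2 : 1 - u ≤ Real.exp (-u) := by linarith [Real.add_one_le_exp (-u)]
    calc (1 - u) ^ m ≤ (Real.exp (-u)) ^ m := pow_le_pow_left₀ (by linarith) h2 m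
      _ = Real.exp (-(m * u)) := by rw [← Real.exp_nat_mul]; congr 1; ring
  push_cast at hn' ⊢
  have hm : ((m : ℝ) + 1) * u / 2 ≤ m * u := by nlinarith
  set x : ℝ := ((m : ℝ) + 1) * u with hx
  have hx0 : 0 ≤ x := by positivity
  have h3 : (1 - u) ^ m ≤ Real.exp (-(x / 2)) := h1.trans (Real.exp_le_exp.mpr (by linarith))
  have h4 : (1 + x) ^ 2 ≤ 8 * Real.exp (x / 2) := by
    have h5 := Real.quadratic_le_exp_of_nonneg (show (0 : ℝ) ≤ x / 2 by positivity)
    nlinarith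
  have h6 : (1 - u) ^ m * (1 + x) ^ 2 ≤ 8 := by
    calc (1 - u) ^ m * (1 + x) ^ 2 ≤ Real.exp (-(x / 2)) * (8 * Real.exp (x / 2)) :=
          mul_le_mul h3 h4 (by positivity) (Real.exp_pos _).le
      _ = 8 * (Real.exp (-(x / 2)) * Real.exp (x / 2)) := by ring
      _ = 8 := by rw [← Real.exp_add]; simp
  calc (1 - u) ^ (m + 1) * (1 + x) ^ 2 = ((1 - u) ^ m * (1 + x) ^ 2) * (1 - u) := by ring
    _ ≤ 8 * (1 - u) := mul_le_mul_of_nonneg_right h6 (by linarith)

/-- the algebra: `v = q^2 + u`, `X^2 v = 1` -/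
theorem S2_alg (q X u : ℝ) (hq : 0 < q) (hX : 0 < X) (hu0 : 0 ≤ u) (hu1 : u ≤ 1)
    (hXv : X ^ 2 * (q ^ 2 + u) = 1) :
    (1 - u) * (q * X) ^ 3 ≤ ((1 - 2 * u) * (q * X) - (1 - (1 - 2 * u) ^ 2) * (q / 4 * X ^ 3)) + q ∧
    (1 - (1 - 2 * u) ^ 2) ^ 2 * (15 * q / 64 * X ^ 7) -
      6 * (1 - 2 * u) * (1 - (1 - 2 * u) ^ 2) * (3 * q / 16 * X ^ 5) +
      (6 * (1 - 2 * u) ^ 2 - 2) * (q / 4 * X ^ 3) ≤ 10 / q ^ 2 := by
  have hqX : q * X ≤ 1 := by
    have : (q * X) ^ 2 ≤ 1 ^ 2 := by nlinarith [mul_nonneg (sq_nonneg X) hu0]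
    exact (pow_le_pow_iff_left₀ (by positivity) (by norm_num) (by norm_num)).mp this
  have hX2u : X ^ 2 * u ≤ 1 := by nlinarith [mul_nonneg (sq_nonneg X) (sq_nonneg q)]
  have hX2u0 : 0 ≤ X ^ 2 * u := by positivity
  have hXu : X * u ≤ 1 := by
    have : (X * u) ^ 2 ≤ 1 ^ 2 := by
      calc (X * u) ^ 2 = (X ^ 2 * u) * u := by ring
        _ ≤ 1 * 1 := mul_le_mul hX2u hu1 hu0 (by norm_num)
        _ = 1 ^ 2 := by norm_num
    exact (pow_le_pow_iff_left₀ (by positivity) (by norm_num) (by norm_num)).mp this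
  constructor
  · have e1 : (1 - 2 * u) * (q * X) - (1 - (1 - 2 * u) ^ 2) * (q / 4 * X ^ 3) =
        -(q * (X * u)) + (1 - u) * (q * X) ^ 3 := by
      have e2 : u * X ^ 2 = 1 - q ^ 2 * X ^ 2 := by linarith
      calc (1 - 2 * u) * (q * X) - (1 - (1 - 2 * u) ^ 2) * (q / 4 * X ^ 3)
          = q * X * ((1 - 2 * u) - (1 - u) * (u * X ^ 2)) := by ring
        _ = q * X * ((1 - 2 * u) - (1 - u) * (1 - q ^ 2 * X ^ 2)) := by rw [e2]
        _ = -(q * (X * u)) + (1 - u) * (q * X) ^ 3 := by ring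
    rw [e1]
    have : q * (X * u) ≤ q * 1 := mul_le_mul_of_nonneg_left hXu hq.le
    linarith
  · set a : ℝ := X ^ 2 * u with ha
    have hqX3 : 0 < q * X ^ 3 := by positivity
    have e1 : (1 - (1 - 2 * u) ^ 2) ^ 2 * (15 * q / 64 * X ^ 7) -
      6 * (1 - 2 * u) * (1 - (1 - 2 * u) ^ 2) * (3 * q / 16 * X ^ 5) +
      (6 * (1 - 2 * u) ^ 2 - 2) * (q / 4 * X ^ 3) =
        (q * X ^ 3) * ((1 - u) ^ 2 * a ^ 2 * (15 / 4) - (1 - 2 * u) * (1 - u) * a * (9 / 2) +
          (6 * (1 - 2 * u) ^ 2 - 2) / 4) := by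
      rw [ha]; ring
    have e2 : (1 - u) ^ 2 * a ^ 2 * (15 / 4) ≤ 15 / 4 := by
      have h1 : (1 - u) ^ 2 ≤ 1 := by nlinarith
      have h2 : a ^ 2 ≤ 1 := by nlinarith
      have h3 : (1 - u) ^ 2 * a ^ 2 ≤ 1 * 1 := mul_le_mul h1 h2 (sq_nonneg _) (by norm_num)
      linarith
    have e3 : -((1 - 2 * u) * (1 - u) * a * (9 / 2)) ≤ 9 / 2 := by
      have h1 : -(1 - 2 * u) * (1 - u) ≤ 1 := by nlinarith
      have h2 : (-(1 - 2 * u) * (1 - u)) * a ≤ 1 := by
        have h3 : (-(1 - 2 * u) * (1 - u)) * a ≤ 1 * a := mul_le_mul_of_nonneg_right h1 hX2u0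
        linarith
      linarith
    have e4 : (6 * (1 - 2 * u) ^ 2 - 2) / 4 ≤ 1 := by nlinarith
    have e5 : (1 - u) ^ 2 * a ^ 2 * (15 / 4) - (1 - 2 * u) * (1 - u) * a * (9 / 2) +
          (6 * (1 - 2 * u) ^ 2 - 2) / 4 ≤ 10 := by linarith
    rw [e1]
    calc (q * X ^ 3) * ((1 - u) ^ 2 * a ^ 2 * (15 / 4) - (1 - 2 * u) * (1 - u) * a * (9 / 2) +
          (6 * (1 - 2 * u) ^ 2 - 2) / 4) ≤ (q * X ^ 3) * 10 :=
          mul_le_mul_of_nonneg_left e5 hqX3.le
      _ ≤ 10 / q ^ 2 := by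
          rw [le_div_iff₀ (by positivity)]
          have h1 : (q * X) ^ 3 ≤ 1 := pow_le_one₀ (by positivity) hqX
          nlinarith

theorem S2_real (n : ℕ) (hn : 2 ≤ n) (P : MvPolynomial (Fin 3) ℝ) (hP : P.IsHomogeneous n)
    (hh : ∑ i, MvPolynomial.pderiv i (MvPolynomial.pderiv i P) = 0) (e : S) :
    ∫ y, ((1 + dot e y) / 2) ^ n * (MvPolynomial.eval (fun i => (y : E) i) P) ^ 2 ∂sig ≤
      28 / √n * ∫ y : S, (MvPolynomial.eval (fun i => (y : E) i) P) ^ 2 ∂sig := by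
  have hn' : (2 : ℝ) ≤ (n : ℝ) := by exact_mod_cast hn
  have hn0 : (0 : ℝ) < (n : ℝ) := by linarith
  set ε : ℝ := 1 / (n : ℝ) with hε
  have hε0 : 0 < ε := by positivity
  set q : ℝ := 1 / √(n : ℝ) with hq
  have hsn : 0 < √(n : ℝ) := Real.sqrt_pos.mpr hn0
  have hq0 : 0 < q := by positivity
  have hq2 : q ^ 2 = ε := by
    rw [hq, hε, div_pow, Real.sq_sqrt hn0.le, one_pow]
  set X : ℝ → ℝ := fun t => (√(ε + (1 - t) / 2))⁻¹ with hX
  have hXd : ∀ t ∈ Icc (-1 : ℝ) 1, HasDerivAt X (X t ^ 3 / 4) t := fun t ht => S2_X ε hε0 t ht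
  have hXpos : ∀ t ∈ Icc (-1 : ℝ) 1, 0 < X t := fun t ht =>
    inv_pos.mpr (Real.sqrt_pos.mpr (by linarith [ht.2]))
  have hXv : ∀ t ∈ Icc (-1 : ℝ) 1, X t ^ 2 * (q ^ 2 + (1 - t) / 2) = 1 := by
    intro t ht
    have hv : 0 < ε + (1 - t) / 2 := by linarith [ht.2]
    rw [hq2]
    simp only [hX]
    rw [inv_pow, Real.sq_sqrt hv.le]
    exact inv_mul_cancel₀ hv.ne'
  have hXc : ContinuousOn X (Icc (-1 : ℝ) 1) := fun t ht =>
    (hXd t ht).continuousAt.continuousWithinAt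
  have h1 : ∀ t ∈ Icc (-1 : ℝ) 1, HasDerivAt (fun t => q * X t) (q / 4 * X t ^ 3) t := by
    intro t ht
    refine ((hXd t ht).const_mul q).congr_deriv ?_
    ring
  have h2 : ∀ t ∈ Icc (-1 : ℝ) 1, HasDerivAt (fun t => q / 4 * X t ^ 3) (3 * q / 16 * X t ^ 5) t := by
    intro t ht
    refine (((hXd t ht).pow 3).const_mul (q / 4)).congr_deriv ?_
    norm_num
    ring
  have h3 : ∀ t ∈ Icc (-1 : ℝ) 1,
      HasDerivAt (fun t => 3 * q / 16 * X t ^ 5) (15 * q / 64 * X t ^ 7) t := by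
    intro t ht
    refine (((hXd t ht).pow 5).const_mul (3 * q / 16)).congr_deriv ?_
    norm_num
    ring
  have hc : ContinuousOn (fun t => 15 * q / 64 * X t ^ 7) (Icc (-1 : ℝ) 1) :=
    continuousOn_const.mul (hXc.pow 7)
  have hpos : ∀ t ∈ Icc (-1 : ℝ) 1, 0 ≤ q / 4 * X t ^ 3 := by
    intro t ht
    have := hXpos t ht
    positivity
  have hR := rellich n P hP hh e (fun t => q * X t) (fun t => q / 4 * X t ^ 3)
    (fun t => 3 * q / 16 * X t ^ 5) (fun t => 15 * q / 64 * X t ^ 7) h1 h2 h3 hc hpos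
  simp only [] at hR
  -- notation
  set F : S → ℝ := fun y => (MvPolynomial.eval (fun i => (y : E) i) P) ^ 2 with hF
  have hF0 : ∀ y, 0 ≤ F y := fun y => sq_nonneg _
  have hFc : Continuous F := (S2_ev_cont P).pow 2
  have hcomp : ∀ g : ℝ → ℝ, ContinuousOn g (Icc (-1 : ℝ) 1) →
      Continuous (fun y : S => g (dot e y)) := fun g hg =>
    hg.comp_continuous (S2_dot_cont e) (fun y => S2_dot_mem e y)
  set A : ℝ → ℝ := fun t => t * (q * X t) - (1 - t ^ 2) * (q / 4 * X t ^ 3) with hA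
  set B : ℝ → ℝ := fun t => (1 - t ^ 2) ^ 2 * (15 * q / 64 * X t ^ 7) -
      6 * t * (1 - t ^ 2) * (3 * q / 16 * X t ^ 5) + (6 * t ^ 2 - 2) * (q / 4 * X t ^ 3) with hB
  have hAc : ContinuousOn A (Icc (-1 : ℝ) 1) := by
    simp only [hA]
    exact (continuousOn_id.mul (continuousOn_const.mul hXc)).sub
      ((continuousOn_const.sub (continuousOn_id.pow 2)).mul (continuousOn_const.mul (hXc.pow 3)))
  have hBc : ContinuousOn B (Icc (-1 : ℝ) 1) := by
    simp only [hB]
    exact ((((continuousOn_const.sub (continuousOn_id.pow 2)).pow 2).mul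
      (continuousOn_const.mul (hXc.pow 7))).sub
      (((continuousOn_const.mul continuousOn_id).mul (continuousOn_const.sub (continuousOn_id.pow 2))).mul
        (continuousOn_const.mul (hXc.pow 5)))).add
      (((continuousOn_const.mul (continuousOn_id.pow 2)).sub continuousOn_const).mul
        (continuousOn_const.mul (hXc.pow 3)))
  have hR' : (n : ℝ) * (n + 1) * ∫ y : S, A (dot e y) * F y ∂sig ≤
      (1 / 4) * ∫ y : S, B (dot e y) * F y ∂sig := hR
  have hpt : ∀ y : S, ((1 + dot e y) / 2) ^ n ≤ 8 * (A (dot e y) + q) ∧ B (dot e y) ≤ 10 * n := by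
    intro y
    have ht := S2_dot_mem e y
    set t := dot e y with htdef
    set u : ℝ := (1 - t) / 2 with hu
    have hu0 : 0 ≤ u := by rw [hu]; linarith [ht.2]
    have hu1 : u ≤ 1 := by rw [hu]; linarith [ht.1]
    have htu : t = 1 - 2 * u := by rw [hu]; ring
    have hXt := hXpos t ht
    obtain ⟨a1, a2⟩ := S2_alg q (X t) u hq0 hXt hu0 hu1 (hXv t ht)
    have hqX1 : (q * X t) ^ 2 * (1 + n * u) = 1 := by
      have h5 := hXv t ht
      have h6 : q ^ 2 * (n : ℝ) = 1 := by rw [hq2, hε]; field_simp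
      have h7 : (q * X t) ^ 2 * (1 + n * u) = X t ^ 2 * (q ^ 2 + (q ^ 2 * n) * u) := by ring
      rw [h7, h6, one_mul]
      exact h5
    have hqXle : q * X t ≤ 1 := by
      have h5 : 0 ≤ (q * X t) ^ 2 * (n * u) := by positivity
      have h6 : (q * X t) ^ 2 ≤ 1 ^ 2 := by nlinarith
      exact (pow_le_pow_iff_left₀ (by positivity) (by norm_num) (by norm_num)).mp h6
    constructor
    · have h5 := S2_exp n hn u hu0 hu1
      have h6 : (1 - u) ^ n ≤ 8 * ((1 - u) * (q * X t) ^ 3) := by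
        have h7 : (1 - u) ^ n = ((1 - u) ^ n * (1 + n * u) ^ 2) * ((q * X t) ^ 2) ^ 2 := by
          have : ((q * X t) ^ 2 * (1 + n * u)) ^ 2 = 1 := by rw [hqX1]; norm_num
          calc (1 - u) ^ n = (1 - u) ^ n * ((q * X t) ^ 2 * (1 + n * u)) ^ 2 := by rw [this, mul_one]
            _ = _ := by ring
        rw [h7]
        calc ((1 - u) ^ n * (1 + n * u) ^ 2) * ((q * X t) ^ 2) ^ 2
            ≤ (8 * (1 - u)) * ((q * X t) ^ 2) ^ 2 := mul_le_mul_of_nonneg_right h5 (by positivity)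
          _ = (8 * (1 - u) * (q * X t) ^ 3) * (q * X t) := by ring
          _ ≤ (8 * (1 - u) * (q * X t) ^ 3) * 1 := by
              refine mul_le_mul_of_nonneg_left hqXle ?_
              have : 0 ≤ 1 - u := by linarith
              positivity
          _ = 8 * ((1 - u) * (q * X t) ^ 3) := by ring
      have h8 : (1 + t) / 2 = 1 - u := by rw [hu]; ring
      rw [h8]
      refine h6.trans ?_
      have h9 : A t = (1 - 2 * u) * (q * X t) - (1 - (1 - 2 * u) ^ 2) * (q / 4 * X t ^ 3) := by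
        simp only [hA]
        rw [← htu]
      rw [h9]
      linarith
    · have h9 : B t = (1 - (1 - 2 * u) ^ 2) ^ 2 * (15 * q / 64 * X t ^ 7) -
          6 * (1 - 2 * u) * (1 - (1 - 2 * u) ^ 2) * (3 * q / 16 * X t ^ 5) +
          (6 * (1 - 2 * u) ^ 2 - 2) * (q / 4 * X t ^ 3) := by
        simp only [hB]
        rw [← htu]
      rw [h9]
      refine a2.trans (le_of_eq ?_)
      rw [hq2, hε]
      field_simp
  have iF : Integrable F sig := S2_int F hFc
  have iA : Integrable (fun y => A (dot e y) * F y) sig := S2_int _ ((hcomp A hAc).mul hFc)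
  have iB : Integrable (fun y => B (dot e y) * F y) sig := S2_int _ ((hcomp B hBc).mul hFc)
  have hI0 : 0 ≤ ∫ y, F y ∂sig := integral_nonneg hF0
  have k1 : ∫ y, B (dot e y) * F y ∂sig ≤ 10 * n * ∫ y, F y ∂sig := by
    rw [← integral_const_mul]
    refine integral_mono iB (iF.const_mul _) fun y => ?_
    exact mul_le_mul_of_nonneg_right (hpt y).2 (hF0 y)
  have k2 : ∫ y, A (dot e y) * F y ∂sig ≤ 5 / 2 * q * ∫ y, F y ∂sig := by
    have h5 : (n : ℝ) * ((n + 1) * ∫ y : S, A (dot e y) * F y ∂sig) ≤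
        (n : ℝ) * (5 / 2 * ∫ y, F y ∂sig) := by nlinarith
    have h6 := le_of_mul_le_mul_left h5 hn0
    have h7 : 5 / 2 * ∫ y, F y ∂sig ≤ ((n : ℝ) + 1) * (5 / 2 * q * ∫ y, F y ∂sig) := by
      have h8 : 1 ≤ ((n : ℝ) + 1) * q := by
        rw [hq, mul_one_div, le_div_iff₀ hsn, one_mul]
        have h9 : √(n : ℝ) ≤ √((n : ℝ) ^ 2) := Real.sqrt_le_sqrt (by nlinarith)
        rw [Real.sqrt_sq hn0.le] at h9
        linarith
      nlinarith [mul_le_mul_of_nonneg_right h8 hI0]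
    exact le_of_mul_le_mul_left (h6.trans h7) (by positivity)
  have k3 : ∫ y, ((1 + dot e y) / 2) ^ n * F y ∂sig ≤
      ∫ y, (8 * (A (dot e y) * F y) + 8 * q * F y) ∂sig := by
    refine integral_mono ?_ ((iA.const_mul 8).add (iF.const_mul (8 * q))) fun y => ?_
    · refine S2_int _ (Continuous.mul ?_ hFc)
      exact ((continuous_const.add (S2_dot_cont e)).div_const 2).pow n
    · have := mul_le_mul_of_nonneg_right (hpt y).1 (hF0 y)
      calc ((1 + dot e y) / 2) ^ n * F y ≤ 8 * (A (dot e y) + q) * F y := this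
        _ = 8 * (A (dot e y) * F y) + 8 * q * F y := by ring
  rw [integral_add (iA.const_mul 8) (iF.const_mul (8 * q)), integral_const_mul,
    integral_const_mul] at k3
  have k4 : 28 / √(n : ℝ) = 28 * q := by rw [hq]; ring
  rw [k4]
  calc ∫ y, ((1 + dot e y) / 2) ^ n * F y ∂sig
      ≤ 8 * (∫ y, A (dot e y) * F y ∂sig) + 8 * q * ∫ y, F y ∂sig := k3
    _ ≤ 28 * q * ∫ y, F y ∂sig := by linarith

theorem S2_split (n : ℕ) (f : S → ℂ) (hf : IsSphHarm n f) :
    ∃ P Q : MvPolynomial (Fin 3) ℝ, P.IsHomogeneous n ∧ Q.IsHomogeneous n ∧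
      ∑ i, MvPolynomial.pderiv i (MvPolynomial.pderiv i P) = 0 ∧
      ∑ i, MvPolynomial.pderiv i (MvPolynomial.pderiv i Q) = 0 ∧
      ∀ y : S, ‖f y‖ ^ 2 = (MvPolynomial.eval (fun i => (y : E) i) P) ^ 2 +
        (MvPolynomial.eval (fun i => (y : E) i) Q) ^ 2 := by
  classical
  obtain ⟨R, hR, hRh, hfR⟩ := hf
  set P : MvPolynomial (Fin 3) ℝ := ∑ d ∈ R.support, MvPolynomial.monomial d (R.coeff d).re with hP
  set Q : MvPolynomial (Fin 3) ℝ := ∑ d ∈ R.support, MvPolynomial.monomial d (R.coeff d).im with hQ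
  have cP : ∀ m, P.coeff m = (R.coeff m).re := by
    intro m
    rw [hP, MvPolynomial.coeff_sum]
    simp only [MvPolynomial.coeff_monomial]
    rw [Finset.sum_ite_eq' R.support m]
    by_cases hm : m ∈ R.support
    · simp [hm]
    · rw [if_neg hm]
      rw [MvPolynomial.notMem_support_iff] at hm
      simp [hm]
  have cQ : ∀ m, Q.coeff m = (R.coeff m).im := by
    intro m
    rw [hQ, MvPolynomial.coeff_sum]
    simp only [MvPolynomial.coeff_monomial]
    rw [Finset.sum_ite_eq' R.support m]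
    by_cases hm : m ∈ R.support
    · simp [hm]
    · rw [if_neg hm]
      rw [MvPolynomial.notMem_support_iff] at hm
      simp [hm]
  have hdec : R = MvPolynomial.map Complex.ofRealHom P +
      MvPolynomial.C Complex.I * MvPolynomial.map Complex.ofRealHom Q := by
    ext m
    rw [MvPolynomial.coeff_add, MvPolynomial.coeff_C_mul, MvPolynomial.coeff_map,
      MvPolynomial.coeff_map, cP, cQ]
    simp only [Complex.ofRealHom_eq_coe]
    rw [mul_comm, Complex.re_add_im]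
  have hPh : P.IsHomogeneous n := by
    intro m hm
    refine hR ?_
    rintro h0
    rw [cP, h0] at hm
    exact hm rfl
  have hQh : Q.IsHomogeneous n := by
    intro m hm
    refine hR ?_
    rintro h0
    rw [cQ, h0] at hm
    exact hm rfl
  have hlap : ∑ i, MvPolynomial.pderiv i (MvPolynomial.pderiv i R) =
      MvPolynomial.map Complex.ofRealHom (∑ i, MvPolynomial.pderiv i (MvPolynomial.pderiv i P)) +
      MvPolynomial.C Complex.I * MvPolynomial.map Complex.ofRealHom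
        (∑ i, MvPolynomial.pderiv i (MvPolynomial.pderiv i Q)) := by
    rw [map_sum, map_sum, Finset.mul_sum, ← Finset.sum_add_distrib]
    refine Finset.sum_congr rfl fun i _ => ?_
    conv_lhs => rw [hdec]
    simp only [map_add, MvPolynomial.pderiv_C_mul, MvPolynomial.pderiv_map]
  rw [hRh] at hlap
  have hzero : ∀ m, (∑ i, MvPolynomial.pderiv i (MvPolynomial.pderiv i P)).coeff m = 0 ∧
      (∑ i, MvPolynomial.pderiv i (MvPolynomial.pderiv i Q)).coeff m = 0 := by
    intro m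
    have h1 := congrArg (MvPolynomial.coeff m) hlap
    rw [MvPolynomial.coeff_add, MvPolynomial.coeff_C_mul, MvPolynomial.coeff_map,
      MvPolynomial.coeff_map, MvPolynomial.coeff_zero] at h1
    simp only [Complex.ofRealHom_eq_coe] at h1
    have h2 := congrArg Complex.re h1
    have h3 := congrArg Complex.im h1
    simp at h2 h3
    exact ⟨h2.symm, h3.symm⟩
  refine ⟨P, Q, hPh, hQh, ?_, ?_, ?_⟩
  · ext m
    rw [(hzero m).1, MvPolynomial.coeff_zero]
  · ext m
    rw [(hzero m).2, MvPolynomial.coeff_zero]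
  · intro y
    have hev : ∀ p : MvPolynomial (Fin 3) ℝ,
        MvPolynomial.eval (fun i => (((y : E) i : ℝ) : ℂ)) (MvPolynomial.map Complex.ofRealHom p) =
        ((MvPolynomial.eval (fun i => (y : E) i) p : ℝ) : ℂ) := by
      intro p
      induction p using MvPolynomial.induction_on with
      | C a => simp
      | add p q hp hq => simp [hp, hq]
      | mul_X p i hp => simp [hp]
    rw [hfR y, hdec, map_add, map_mul, MvPolynomial.eval_C, hev, hev]
    rw [← Complex.normSq_eq_norm_sq, Complex.normSq_apply]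
    simp
    ring

-- ===== TARGET (prove this; the lemmas above may be used with their sorry) =====
/-- local energy estimate for spherical harmonics -/
theorem local_energy : ∃ C : ℝ, 0 < C ∧ ∀ (n : ℕ) (f : S → ℂ), 1 ≤ n → IsSphHarm n f → ∀ e : S,
    ∫ y, ((1 + dot e y) / 2) ^ n * ‖f y‖ ^ 2 ∂sig ≤ C / √n * ∫ y, ‖f y‖ ^ 2 ∂sig := by
  refine ⟨28, by norm_num, fun n f hn hf e => ?_⟩
  obtain ⟨P, Q, hP, hQ, hPh, hQh, hfy⟩ := S2_split n f hf
  have iP : Integrable (fun y : S => (MvPolynomial.eval (fun i => (y : E) i) P) ^ 2) sig :=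
    S2_int _ ((S2_ev_cont P).pow 2)
  have iQ : Integrable (fun y : S => (MvPolynomial.eval (fun i => (y : E) i) Q) ^ 2) sig :=
    S2_int _ ((S2_ev_cont Q).pow 2)
  have hwc : Continuous (fun y : S => ((1 + dot e y) / 2) ^ n) :=
    ((continuous_const.add (S2_dot_cont e)).div_const 2).pow n
  have iwP : Integrable (fun y : S => ((1 + dot e y) / 2) ^ n *
      (MvPolynomial.eval (fun i => (y : E) i) P) ^ 2) sig := S2_int _ (hwc.mul ((S2_ev_cont P).pow 2))
  have iwQ : Integrable (fun y : S => ((1 + dot e y) / 2) ^ n *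
      (MvPolynomial.eval (fun i => (y : E) i) Q) ^ 2) sig := S2_int _ (hwc.mul ((S2_ev_cont Q).pow 2))
  have e1 : ∫ y, ((1 + dot e y) / 2) ^ n * ‖f y‖ ^ 2 ∂sig =
      (∫ y, ((1 + dot e y) / 2) ^ n * (MvPolynomial.eval (fun i => (y : E) i) P) ^ 2 ∂sig) +
      ∫ y, ((1 + dot e y) / 2) ^ n * (MvPolynomial.eval (fun i => (y : E) i) Q) ^ 2 ∂sig := by
    rw [← integral_add iwP iwQ]
    refine integral_congr_ae (Filter.Eventually.of_forall fun y => ?_)
    simp only [hfy y]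
    ring
  have e2 : ∫ y, ‖f y‖ ^ 2 ∂sig =
      (∫ y : S, (MvPolynomial.eval (fun i => (y : E) i) P) ^ 2 ∂sig) +
      ∫ y : S, (MvPolynomial.eval (fun i => (y : E) i) Q) ^ 2 ∂sig := by
    rw [← integral_add iP iQ]
    refine integral_congr_ae (Filter.Eventually.of_forall fun y => ?_)
    simp only [hfy y]
  rw [e1, e2, mul_add]
  rcases Nat.lt_or_ge n 2 with h | h
  · have hn1 : n = 1 := by omega
    subst hn1
    have hone : ∀ R : MvPolynomial (Fin 3) ℝ,
        ∫ y, ((1 + dot e y) / 2) ^ 1 * (MvPolynomial.eval (fun i => (y : E) i) R) ^ 2 ∂sig ≤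
        28 / √((1 : ℕ) : ℝ) * ∫ y : S, (MvPolynomial.eval (fun i => (y : E) i) R) ^ 2 ∂sig := by
      intro R
      have iR : Integrable (fun y : S => (MvPolynomial.eval (fun i => (y : E) i) R) ^ 2) sig :=
        S2_int _ ((S2_ev_cont R).pow 2)
      rw [← integral_const_mul]
      refine integral_mono (S2_int _ (hwc.mul ((S2_ev_cont R).pow 2))) (iR.const_mul _) fun y => ?_
      refine mul_le_mul_of_nonneg_right ?_ (sq_nonneg _)
      have := (S2_dot_mem e y).2
      simp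
      linarith
    exact add_le_add (hone P) (hone Q)
  · exact add_le_add (S2_real n h P hP hPh e) (S2_real n h Q hQ hQh e)

end Pool.Agent.Helper442.DR
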