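import Mathlib
import Pool.Agent.Helper442.DR.Defs
import Pool.Agent.Helper442.DR.G2c
import Pool.Agent.Helper442.DR.G2b
import Pool.Agent.Helper442.DR.M2
import Pool.Agent.Helper442.DR.M4
import Pool.Agent.Helper442.DR.M1

open MeasureTheory Set Metric Real
open scoped ENNReal

namespace Pool.Agent.Helper442.DR
















-- ===== TARGET (prove this; the lemmas above may be used with their sorry) =====
/-- coefficients of the expansion of `((1+t)/2)^L` -/
noncomputable def hxmu (L k : ℕ) : ℝ :=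
  (L.factorial : ℝ) * (L.descFactorial k : ℝ) / ((L + k + 1).factorial : ℝ)

theorem hx_desc (L i : ℕ) :
    (L.descFactorial (i + 1) : ℝ) = ((L : ℝ) - i) * (L.descFactorial i : ℝ) := by
  rw [Nat.descFactorial_succ, Nat.cast_mul]
  rcases le_or_gt i L with h | h
  · rw [Nat.cast_sub h]
  · rw [Nat.descFactorial_eq_zero_iff_lt.mpr h]
    simp

theorem hx_mu_zero (L k : ℕ) (h : L < k) : hxmu L k = 0 := by
  unfold hxmu
  rw [Nat.descFactorial_eq_zero_iff_lt.mpr h]
  simp

theorem hx_fac (n : ℕ) : ((n + 1).factorial : ℝ) = ((n : ℝ) + 1) * (n.factorial : ℝ) := by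
  rw [Nat.factorial_succ]
  push_cast
  ring

theorem hx_rec0 (L : ℕ) : hxmu L 0 + hxmu L 1 = 2 * hxmu (L + 1) 0 := by
  unfold hxmu
  have hF : (L.factorial : ℝ) ≠ 0 := by positivity
  have hL1 : ((L : ℝ) + 1) ≠ 0 := by positivity
  have hL2 : ((L : ℝ) + 1 + 1) ≠ 0 := by positivity
  have e1 := hx_desc L 0
  have f1 : ((L + 0 + 1).factorial : ℝ) = ((L : ℝ) + 1) * (L.factorial : ℝ) := hx_fac L
  have f2 : ((L + 1 + 1).factorial : ℝ) = ((L : ℝ) + 1 + 1) * (((L : ℝ) + 1) * (L.factorial : ℝ)) := by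
    rw [hx_fac (L + 1), hx_fac L]
    push_cast
    ring
  have e1' : (L.descFactorial 1 : ℝ) = (L : ℝ) := by
    rw [show (1 : ℕ) = 0 + 1 from rfl, e1]
    simp
  rw [f1, f2, e1', Nat.descFactorial_zero, Nat.descFactorial_zero]
  push_cast
  field_simp
  ring

theorem hx_rec1 (L i : ℕ) :
    (2 * ((i : ℝ) + 1) + 1) * hxmu L (i + 1) + ((i : ℝ) + 1) * hxmu L i
      + ((i : ℝ) + 1 + 1) * hxmu L (i + 2) =
      2 * ((2 * ((i : ℝ) + 1) + 1) * hxmu (L + 1) (i + 1)) := by
  unfold hxmu
  have hF : (L.factorial : ℝ) ≠ 0 := by positivity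
  have hG : ((L + i + 1).factorial : ℝ) ≠ 0 := by positivity
  have hL2 : ((L : ℝ) + i + 2) ≠ 0 := by positivity
  have hL3 : ((L : ℝ) + i + 3) ≠ 0 := by positivity
  have e1 := hx_desc L i
  have e2 : (L.descFactorial (i + 2) : ℝ) = ((L : ℝ) - i - 1) * (((L : ℝ) - i) * (L.descFactorial i : ℝ)) := by
    rw [show i + 2 = (i + 1) + 1 from rfl, hx_desc L (i + 1), e1]
    push_cast
    ring
  have e3 : ((L + 1).descFactorial (i + 1) : ℝ) = ((L : ℝ) + 1) * (L.descFactorial i : ℝ) := by
    rw [Nat.succ_descFactorial_succ]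
    push_cast
    ring
  have f1 : ((L + (i + 1) + 1).factorial : ℝ) = ((L : ℝ) + i + 2) * ((L + i + 1).factorial : ℝ) := by
    rw [show L + (i + 1) + 1 = (L + i + 1) + 1 by ring, hx_fac]
    push_cast
    ring
  have f2 : ((L + (i + 2) + 1).factorial : ℝ) =
      ((L : ℝ) + i + 3) * (((L : ℝ) + i + 2) * ((L + i + 1).factorial : ℝ)) := by
    rw [show L + (i + 2) + 1 = (L + i + 1 + 1) + 1 by ring, hx_fac, hx_fac]
    push_cast
    ring
  have f3 : ((L + 1 + (i + 1) + 1).factorial : ℝ) =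
      ((L : ℝ) + i + 3) * (((L : ℝ) + i + 2) * ((L + i + 1).factorial : ℝ)) := by
    rw [show L + 1 + (i + 1) + 1 = (L + i + 1 + 1) + 1 by ring, hx_fac, hx_fac]
    push_cast
    ring
  rw [e1, e2, e3, f1, f2, f3, hx_fac L]
  field_simp
  ring

theorem hx_leg3 (m : ℕ) (t : ℝ) :
    (2 * ((m : ℝ) + 1) + 1) * t * leg (m + 1) t =
      ((m : ℝ) + 2) * leg (m + 2) t + ((m : ℝ) + 1) * leg m t := by
  have h : leg (m + 2) t = ((2 * m + 3) * t * leg (m + 1) t - (m + 1) * leg m t) / (m + 2) := by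
    rw [leg]
  have hm : ((m : ℝ) + 2) ≠ 0 := by positivity
  rw [h]
  field_simp
  ring

theorem hx_tel (mu : ℕ → ℝ) (t : ℝ) (m : ℕ) :
    ∑ k ∈ Finset.range (m + 1), (2 * (k : ℝ) + 1) * mu k * (1 + t) * leg k t -
      ∑ j ∈ Finset.range (m + 1), ((2 * (j : ℝ) + 1) * mu j + (j : ℝ) * mu (j - 1) +
        ((j : ℝ) + 1) * mu (j + 1)) * leg j t =
      ((m : ℝ) + 1) * (mu m * leg (m + 1) t - mu (m + 1) * leg m t) := by
  induction m with
  | zero =>
    rw [Finset.sum_range_one, Finset.sum_range_one]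
    have h0 : leg 0 t = 1 := by rw [leg]
    have h1 : leg 1 t = t := by rw [leg]
    simp only [zero_add, h0, h1]
    push_cast
    ring
  | succ m ih =>
    rw [Finset.sum_range_succ, Finset.sum_range_succ (fun j : ℕ => ((2 * (j : ℝ) + 1) * mu j +
      (j : ℝ) * mu (j - 1) + ((j : ℝ) + 1) * mu (j + 1)) * leg j t)]
    have h3 := hx_leg3 m t
    have e : m + 1 - 1 = m := rfl
    rw [e]
    push_cast
    have key : (2 * ((m : ℝ) + 1) + 1) * mu (m + 1) * (1 + t) * leg (m + 1) t =
        (2 * ((m : ℝ) + 1) + 1) * mu (m + 1) * leg (m + 1) t +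
          mu (m + 1) * (((m : ℝ) + 2) * leg (m + 2) t + ((m : ℝ) + 1) * leg m t) := by
      rw [← h3]; ring
    rw [key]
    linear_combination ih

theorem hx_expand (L : ℕ) (t : ℝ) :
    ∑ k ∈ Finset.range (L + 1), (2 * (k : ℝ) + 1) * hxmu L k * leg k t = ((1 + t) / 2) ^ L := by
  induction L with
  | zero =>
    rw [Finset.sum_range_one]
    have h0 : leg 0 t = 1 := by rw [leg]
    rw [h0]
    simp [hxmu]
  | succ L ih =>
    have h := hx_tel (hxmu L) t (L + 1)
    rw [hx_mu_zero L (L + 1) (by omega), hx_mu_zero L (L + 1 + 1) (by omega)] at h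
    rw [pow_succ, ← ih]
    have h1 : ∑ k ∈ Finset.range (L + 1 + 1), (2 * (k : ℝ) + 1) * hxmu L k * (1 + t) * leg k t =
        (∑ k ∈ Finset.range (L + 1), (2 * (k : ℝ) + 1) * hxmu L k * leg k t) * (1 + t) := by
      rw [Finset.sum_range_succ, hx_mu_zero L (L + 1) (by omega), Finset.sum_mul]
      have : ∑ k ∈ Finset.range (L + 1), (2 * (k : ℝ) + 1) * hxmu L k * (1 + t) * leg k t =
          ∑ k ∈ Finset.range (L + 1), (2 * (k : ℝ) + 1) * hxmu L k * leg k t * (1 + t) :=
        Finset.sum_congr rfl fun k _ => by ring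
      rw [this]
      ring
    have h2 : ∑ j ∈ Finset.range (L + 1 + 1), ((2 * (j : ℝ) + 1) * hxmu L j +
        (j : ℝ) * hxmu L (j - 1) + ((j : ℝ) + 1) * hxmu L (j + 1)) * leg j t =
        2 * ∑ j ∈ Finset.range (L + 1 + 1), (2 * (j : ℝ) + 1) * hxmu (L + 1) j * leg j t := by
      rw [Finset.mul_sum]
      refine Finset.sum_congr rfl fun j _ => ?_
      rcases j with _ | i
      · have := hx_rec0 L
        push_cast
        linear_combination (leg 0 t) * this
      · have := hx_rec1 L i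
        have e : i + 1 - 1 = i := rfl
        rw [e]
        push_cast
        linear_combination (leg (i + 1) t) * this
    rw [h1, h2] at h
    linear_combination (-1 / 2) * h

theorem hx_leg_cont : ∀ j : ℕ, Continuous (leg j)
  | 0 => by
      have : leg 0 = fun _ => (1 : ℝ) := by funext x; rw [leg]
      rw [this]; exact continuous_const
  | 1 => by
      have : leg 1 = fun x => x := by funext x; rw [leg]
      rw [this]; exact continuous_id
  | (n + 2) => by
      have h1 := hx_leg_cont (n + 1)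
      have h0 := hx_leg_cont n
      have : leg (n + 2) = fun x : ℝ =>
          ((2 * (n : ℝ) + 3) * x * leg (n + 1) x - ((n : ℝ) + 1) * leg n x) / ((n : ℝ) + 2) := by
        funext x; rw [leg]
      rw [this]
      fun_prop

theorem hx_dot_cont (x : S) : Continuous (fun y : S => dot x y) := by
  unfold dot
  fun_prop

theorem hx_harm_cont (k : ℕ) (g : S → ℂ) (hg : IsSphHarm k g) : Continuous g := by
  obtain ⟨P, _, _, h⟩ := hg
  have : g = fun x : S => MvPolynomial.eval (fun i => (((x : E) i : ℝ) : ℂ)) P := funext h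
  rw [this]
  exact (MvPolynomial.continuous_eval P).comp
    (continuous_pi fun i => Complex.continuous_ofReal.comp (by fun_prop))

theorem hx_int (j k : ℕ) (g : S → ℂ) (hg : IsSphHarm k g) (x : S) (c : ℝ) :
    Integrable (fun y : S => ((c * leg j (dot x y) : ℝ) : ℂ) * g y) sig := by
  haveI : IsFiniteMeasure sig := inferInstanceAs (IsFiniteMeasure (volume : Measure E).toSphere)
  have hc : Continuous (fun y : S => ((c * leg j (dot x y) : ℝ) : ℂ) * g y) := by
    refine Continuous.mul ?_ (hx_harm_cont k g hg)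
    exact Complex.continuous_ofReal.comp
      (continuous_const.mul ((hx_leg_cont j).comp (hx_dot_cont x)))
  exact hc.integrable_of_hasCompactSupport (HasCompactSupport.of_compactSpace _)

theorem hx_main (L k : ℕ) (g : S → ℂ) (hg : IsSphHarm k g) (x : S) :
    ∫ y, ((((1 + dot x y) / 2) ^ L : ℝ) : ℂ) * g y ∂sig =
      ∑ j ∈ Finset.range (L + 1), ((4 * π * hxmu L j : ℝ) : ℂ) * (if j = k then g x else 0) := by
  have hpi : (π : ℝ) ≠ 0 := Real.pi_ne_zero
  have e1 : (fun y : S => ((((1 + dot x y) / 2) ^ L : ℝ) : ℂ) * g y) =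
      fun y : S => ∑ j ∈ Finset.range (L + 1),
        (((2 * (j : ℝ) + 1) * hxmu L j * leg j (dot x y) : ℝ) : ℂ) * g y := by
    funext y
    rw [← hx_expand L (dot x y), Complex.ofReal_sum, Finset.sum_mul]
  rw [e1, integral_finsetSum _ (fun j _ => hx_int j k g hg x _)]
  refine Finset.sum_congr rfl fun j _ => ?_
  rw [← repro j k g hg x, ← integral_const_mul]
  refine integral_congr_ae (Filter.Eventually.of_forall fun y => ?_)
  have hr : (2 * (j : ℝ) + 1) * hxmu L j * leg j (dot x y) =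
      (4 * π * hxmu L j) * ((2 * (j : ℝ) + 1) / (4 * π) * leg j (dot x y)) := by
    field_simp
  simp only [hr]
  push_cast
  ring

/-- the kernels `((1+t)/2)^L` -/
theorem power_kernel (L k : ℕ) (hk : k ≤ L) (g : S → ℂ) (hg : IsSphHarm k g) (x : S) :
    ∫ y, ((((1 + dot x y) / 2) ^ L : ℝ) : ℂ) * g y ∂sig =
      ((4 * π * (L.factorial : ℝ) ^ 2 / (((L - k).factorial : ℝ) * ((L + k + 1).factorial : ℝ)) : ℝ) : ℂ) * g x := by
  rw [hx_main L k g hg x, Finset.sum_eq_single k]
  · rw [if_pos rfl]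
    congr 2
    unfold hxmu
    have h1 : ((L - k).factorial : ℝ) * (L.descFactorial k : ℝ) = (L.factorial : ℝ) := by
      exact_mod_cast Nat.factorial_mul_descFactorial hk
    have h2 : ((L - k).factorial : ℝ) ≠ 0 := by positivity
    have h3 : ((L + k + 1).factorial : ℝ) ≠ 0 := by positivity
    rw [← h1]
    field_simp
  · intro j _ hj
    rw [if_neg hj, mul_zero]
  · intro h
    exact absurd (Finset.mem_range.mpr (by omega)) h
theorem power_kernel_high (L k : ℕ) (hk : L < k) (g : S → ℂ) (hg : IsSphHarm k g) (x : S) :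
    ∫ y, ((((1 + dot x y) / 2) ^ L : ℝ) : ℂ) * g y ∂sig = 0 := by
  rw [hx_main L k g hg x]
  refine Finset.sum_eq_zero fun j hj => ?_
  rw [if_neg (by have := Finset.mem_range.mp hj; omega), mul_zero]

end Pool.Agent.Helper442.DR
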