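import Mathlib
import Pool.Agent.Helper442.DR.Defs
import Pool.Agent.Helper442.DR.M3
import Pool.Agent.Helper442.DR.M4
import Pool.Agent.Helper442.DR.M6
import Pool.Agent.Helper442.DR.M7
import Pool.Agent.Helper442.DR.S2
import Pool.Agent.Helper442.DR.S3

open MeasureTheory Set Metric Real
open scoped ENNReal

namespace Pool.Agent.Helper442.DR


















instance sig_fin4 : IsFiniteMeasure sig := by
  unfold sig
  infer_instance

lemma sph_cont4 {n : ℕ} {f : S → ℂ} (hf : IsSphHarm n f) : Continuous f := by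
  obtain ⟨P, -, -, hP⟩ := hf
  have : f = fun x : S => MvPolynomial.eval (fun i => (((x : E) i : ℝ) : ℂ)) P := funext hP
  rw [this]
  refine (MvPolynomial.continuous_eval P).comp (continuous_pi fun i => Complex.continuous_ofReal.comp ?_)
  fun_prop

lemma int_cont4 {X : Type*} [NormedAddCommGroup X] {F : S → X} (hF : Continuous F) :
    Integrable F sig := by
  have := hF.continuousOn.integrableOn_compact (μ := sig) (isCompact_univ (X := S))
  rwa [integrableOn_univ] at this

lemma conj_harm4 {n : ℕ} {f : S → ℂ} (hf : IsSphHarm n f) :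
    IsSphHarm n (fun x => (starRingEnd ℂ) (f x)) := by
  obtain ⟨P, h1, h2, hP⟩ := hf
  refine ⟨MvPolynomial.map (starRingEnd ℂ) P, h1.map _, ?_, ?_⟩
  · have : ∀ i, MvPolynomial.pderiv i (MvPolynomial.pderiv i (MvPolynomial.map (starRingEnd ℂ) P)) =
        MvPolynomial.map (starRingEnd ℂ) (MvPolynomial.pderiv i (MvPolynomial.pderiv i P)) := by
      intro i
      rw [MvPolynomial.pderiv_map, MvPolynomial.pderiv_map]
    simp only [this]
    rw [← map_sum, h2, map_zero]
  · intro x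
    show (starRingEnd ℂ) (f x) = _
    rw [hP x]
    generalize P = Q
    induction Q using MvPolynomial.induction_on with
    | C a => simp
    | add p q hp hq => simp only [map_add, hp, hq]
    | mul_X p i hp => simp only [map_mul, hp, MvPolynomial.eval_X, MvPolynomial.map_X, Complex.conj_ofReal]

lemma weight4 (N : ℕ) (K : ℕ → ℕ) (hK : ∀ r < N, ∀ s < N, K r = K s → r = s) (h : ℕ → S → ℂ)
    (hh : ∀ r < N, IsSphHarm (K r) (h r)) (l : ℕ → ℂ) :
    ∫ y, (∑ r ∈ Finset.range N, l r * h r y) * (starRingEnd ℂ) (∑ s ∈ Finset.range N, h s y) ∂sig =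
      ∑ r ∈ Finset.range N, l r * ((∫ y, ‖h r y‖ ^ 2 ∂sig : ℝ) : ℂ) := by
  have hc : ∀ r < N, Continuous (h r) := fun r hr => sph_cont4 (hh r hr)
  have e1 : ∀ y, (∑ r ∈ Finset.range N, l r * h r y) * (starRingEnd ℂ) (∑ s ∈ Finset.range N, h s y) =
      ∑ r ∈ Finset.range N, ∑ s ∈ Finset.range N, l r * (h r y * (starRingEnd ℂ) (h s y)) := by
    intro y
    rw [map_sum, Finset.sum_mul_sum]
    refine Finset.sum_congr rfl fun r _ => Finset.sum_congr rfl fun s _ => ?_
    ring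
  simp only [e1]
  have hci : ∀ r < N, ∀ s < N, Integrable (fun y => l r * (h r y * (starRingEnd ℂ) (h s y))) sig := by
    intro r hr s hs
    apply int_cont4
    exact continuous_const.mul ((hc r hr).mul (Complex.continuous_conj.comp (hc s hs)))
  rw [integral_finsetSum]
  · refine Finset.sum_congr rfl fun r hr => ?_
    have hr' := Finset.mem_range.1 hr
    rw [integral_finsetSum]
    · rw [Finset.sum_eq_single r]
      · rw [integral_const_mul]
        congr 1
        rw [← integral_complex_ofReal]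
        congr 1
        ext y
        rw [Complex.mul_conj, Complex.normSq_eq_norm_sq]
      · intro s hs hsr
        have hs' := Finset.mem_range.1 hs
        rw [integral_const_mul, orth (K r) (K s) (fun e => hsr (hK r hr' s hs' e).symm) _ _ (hh r hr') (hh s hs'),
          mul_zero]
      · intro h
        exact absurd hr h
    · intro s hs
      exact hci r hr' s (Finset.mem_range.1 hs)
  · intro r hr
    apply integrable_finsetSum
    intro s hs
    exact hci r (Finset.mem_range.1 hr) s (Finset.mem_range.1 hs)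

/-- kernel multiplier -/
noncomputable def mu4 (n k : ℕ) : ℝ :=
  if k ≤ n then 4 * π * (n.factorial : ℝ) ^ 2 / (((n - k).factorial : ℝ) * ((n + k + 1).factorial : ℝ)) else 0

lemma mu4_nonneg (n k : ℕ) : 0 ≤ mu4 n k := by
  unfold mu4
  split_ifs
  · positivity
  · exact le_rfl

lemma ker4 (n k : ℕ) (g : S → ℂ) (hg : IsSphHarm k g) (x : S) :
    ∫ y, ((((1 + dot x y) / 2) ^ n : ℝ) : ℂ) * g y ∂sig = ((mu4 n k : ℝ) : ℂ) * g x := by
  unfold mu4
  split_ifs with h
  · exact power_kernel n k h g hg x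
  · rw [power_kernel_high n k (not_le.1 h) g hg x]
    simp

lemma fac4 (n : ℕ) : ∀ k : ℕ, k ≤ n →
    (1 - (k : ℝ) * (k + 1) / (n + 2)) * (((n - k).factorial : ℝ) * ((n + k + 1).factorial : ℝ)) ≤
      (n.factorial : ℝ) * ((n + 1).factorial : ℝ) := by
  intro k
  induction k with
  | zero => intro _; simp
  | succ k ih =>
    intro hk
    have hk' : k ≤ n := by omega
    have h0 := ih hk'
    have hnk : n - k = (n - (k + 1)) + 1 := by omega
    have hpos : (0 : ℝ) < ((n - (k + 1)).factorial : ℝ) * ((n + k + 1).factorial : ℝ) := by positivity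
    set Q := ((n - (k + 1)).factorial : ℝ) * ((n + k + 1).factorial : ℝ) with hQ
    have e1 : (((n - k).factorial : ℝ) * ((n + k + 1).factorial : ℝ)) = ((n : ℝ) - k) * Q := by
      rw [hnk, Nat.factorial_succ]
      push_cast
      rw [show ((n - (k + 1) : ℕ) : ℝ) = (n : ℝ) - (k + 1) from by rw [Nat.cast_sub hk]; push_cast; ring]
      rw [hQ]; ring
    have e2 : (((n - (k + 1)).factorial : ℝ) * ((n + (k + 1) + 1).factorial : ℝ)) = ((n : ℝ) + k + 2) * Q := by
      rw [show n + (k + 1) + 1 = (n + k + 1) + 1 from by ring, Nat.factorial_succ]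
      push_cast
      rw [hQ]; ring
    rw [e1] at h0
    rw [e2]
    have hn2 : (0 : ℝ) < (n : ℝ) + 2 := by positivity
    have hkn : (k : ℝ) + 1 ≤ n := by exact_mod_cast hk
    rcases le_or_gt 0 (1 - (k : ℝ) * (k + 1) / (n + 2)) with hB | hB
    · have hb : (k : ℝ) * (k + 1) ≤ n + 2 := by
        rw [sub_nonneg, div_le_one hn2] at hB
        exact hB
      have key : (1 - ((k + 1 : ℕ) : ℝ) * (((k + 1 : ℕ) : ℝ) + 1) / (n + 2)) * ((n : ℝ) + k + 2) ≤
          (1 - (k : ℝ) * (k + 1) / (n + 2)) * ((n : ℝ) - k) := by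
        have ea : (1 - ((k + 1 : ℕ) : ℝ) * (((k + 1 : ℕ) : ℝ) + 1) / (n + 2)) * ((n : ℝ) + k + 2) =
            (((n : ℝ) + 2) - ((k : ℝ) + 1) * (k + 2)) * (n + k + 2) / (n + 2) := by
          push_cast
          field_simp
          ring
        have eb : (1 - (k : ℝ) * (k + 1) / (n + 2)) * ((n : ℝ) - k) =
            (((n : ℝ) + 2) - (k : ℝ) * (k + 1)) * (n - k) / (n + 2) := by
          field_simp
        rw [ea, eb]
        apply div_le_div_of_nonneg_right _ hn2.le
        have hk0 : (0 : ℝ) ≤ k := Nat.cast_nonneg k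
        nlinarith [mul_nonneg hk0 hk0, mul_nonneg (mul_nonneg hk0 hk0) hk0]
      calc (1 - ((k + 1 : ℕ) : ℝ) * (((k + 1 : ℕ) : ℝ) + 1) / (n + 2)) * (((n : ℝ) + k + 2) * Q)
          = ((1 - ((k + 1 : ℕ) : ℝ) * (((k + 1 : ℕ) : ℝ) + 1) / (n + 2)) * ((n : ℝ) + k + 2)) * Q := by ring
        _ ≤ ((1 - (k : ℝ) * (k + 1) / (n + 2)) * ((n : ℝ) - k)) * Q :=
            mul_le_mul_of_nonneg_right key hpos.le
        _ = (1 - (k : ℝ) * (k + 1) / (n + 2)) * (((n : ℝ) - k) * Q) := by ring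
        _ ≤ _ := h0
    · have hB2 : (1 - ((k + 1 : ℕ) : ℝ) * ((k + 1 : ℕ) + 1) / (n + 2)) ≤ 0 := by
        rw [sub_neg, one_lt_div hn2] at hB
        rw [sub_nonpos, one_le_div hn2]
        push_cast
        have hk0 : (0 : ℝ) ≤ k := Nat.cast_nonneg k
        nlinarith
      refine le_trans (mul_nonpos_of_nonpos_of_nonneg hB2 (by positivity)) (by positivity)

lemma mu4_low (n k : ℕ) (hn : 1 ≤ n) (hk : 4 * (k * (k + 1)) ≤ 3 * (n + 2)) :
    1 ≤ (n + 1) / π * mu4 n k := by
  have hkn : k ≤ n := by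
    by_contra h
    have : n + 1 ≤ k := by omega
    have h2 : (n + 1) * (n + 2) ≤ k * (k + 1) := Nat.mul_le_mul this (by omega)
    nlinarith
  have h0 := fac4 n k hkn
  unfold mu4
  rw [if_pos hkn]
  have hn2 : (0 : ℝ) < (n : ℝ) + 2 := by positivity
  have h1 : (1 / 4 : ℝ) ≤ 1 - (k : ℝ) * (k + 1) / (n + 2) := by
    have : (k : ℝ) * (k + 1) / (n + 2) ≤ 3 / 4 := by
      rw [div_le_iff₀ hn2]
      have : (4 * ((k : ℝ) * (k + 1)) : ℝ) ≤ 3 * (n + 2) := by exact_mod_cast hk
      linarith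
    linarith
  have hD : (0 : ℝ) < ((n - k).factorial : ℝ) * ((n + k + 1).factorial : ℝ) := by positivity
  set D := ((n - k).factorial : ℝ) * ((n + k + 1).factorial : ℝ) with hDdef
  have h2 : (1 / 4 : ℝ) * D ≤ (n.factorial : ℝ) * ((n + 1).factorial : ℝ) :=
    le_trans (mul_le_mul_of_nonneg_right h1 hD.le) h0
  rw [Nat.factorial_succ] at h2
  push_cast at h2
  have hpi := Real.pi_pos
  have e : ((n : ℝ) + 1) / π * (4 * π * (n.factorial : ℝ) ^ 2 / D) =
      4 * ((n.factorial : ℝ) * (((n : ℝ) + 1) * (n.factorial : ℝ))) / D := by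
    field_simp
  rw [e, le_div_iff₀ hD]
  linarith

lemma c2_high4 (n r : ℕ) (hn : 1 ≤ n) (hr : r ≤ n) (hk : 3 * (n + 2) < 4 * ((n + n - 2 * r) * ((n + n - 2 * r) + 1))) :
    c2 n n r ≤ 14 * √n := by
  have h := c2_le n n n r hn le_rfl (by omega) le_rfl (by omega) (by simpa using hr)
  refine h.trans ?_
  obtain ⟨j, rfl⟩ := Nat.exists_eq_add_of_le hr
  have hj : r + j - r = j := by omega
  rw [hj]
  have hkj : r + j + (r + j) - 2 * r = 2 * j := by omega
  rw [hkj] at hk
  set n := r + j with hndef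
  have hnpos : (0 : ℝ) < n := by exact_mod_cast hn
  have hX : (4 * (n : ℝ) / 14) ^ 2 ≤ ((r : ℝ) + 1) * ((j : ℝ) + 1) * ((j : ℝ) + 1) := by
    have hnr : (n : ℝ) = r + j := by rw [hndef]; push_cast; ring
    have hkR : (3 : ℝ) * (n + 2) < 4 * ((2 * j) * (2 * j + 1)) := by exact_mod_cast hk
    have hr0 : (0 : ℝ) ≤ r := Nat.cast_nonneg r
    have hj0 : (0 : ℝ) ≤ j := Nat.cast_nonneg j
    rcases le_or_gt (n : ℝ) (2 * j) with hc | hc
    · have h1 : (n : ℝ) ^ 2 / 4 ≤ ((j : ℝ) + 1) * ((j : ℝ) + 1) := by nlinarith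
      have h2 : ((j : ℝ) + 1) * ((j : ℝ) + 1) ≤ ((r : ℝ) + 1) * (((j : ℝ) + 1) * ((j : ℝ) + 1)) := by
        have : 0 ≤ (r : ℝ) * (((j : ℝ) + 1) * ((j : ℝ) + 1)) := by positivity
        linarith
      have h3 : (0 : ℝ) ≤ (n : ℝ) ^ 2 := by positivity
      nlinarith
    · have h1 : (n : ℝ) / 2 ≤ (r : ℝ) + 1 := by linarith
      have h2 : 3 * (n : ℝ) / 16 ≤ ((j : ℝ) + 1) * ((j : ℝ) + 1) := by nlinarith
      have h3 : (n : ℝ) / 2 * (3 * (n : ℝ) / 16) ≤ ((r : ℝ) + 1) * (((j : ℝ) + 1) * ((j : ℝ) + 1)) :=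
        mul_le_mul h1 h2 (by positivity) (by positivity)
      have h4 : (0 : ℝ) ≤ (n : ℝ) ^ 2 := by positivity
      nlinarith
  have hs : 4 * (n : ℝ) / 14 ≤ √(((r : ℝ) + 1) * ((j : ℝ) + 1) * ((j : ℝ) + 1)) :=
    Real.le_sqrt_of_sq_le hX
  have hspos : 0 < √(((r : ℝ) + 1) * ((j : ℝ) + 1) * ((j : ℝ) + 1)) := by positivity
  have hp : (n : ℝ) ^ (3 / 2 : ℝ) = n * √n := by
    rw [show (3 / 2 : ℝ) = 1 + 1 / 2 from by norm_num, Real.rpow_add hnpos, Real.rpow_one,
      Real.sqrt_eq_rpow]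
  rw [div_le_iff₀ hspos, hp]
  have hsn : 0 ≤ √(n : ℝ) := Real.sqrt_nonneg _
  nlinarith [mul_le_mul_of_nonneg_left hs hsn]

/-- the `L^4` bound for spherical harmonics (Sogge) -/
theorem sogge4 : ∃ C : ℝ, 0 < C ∧ ∀ (n : ℕ) (f : S → ℂ), 1 ≤ n → IsSphHarm n f →
    ∫ y, ‖f y‖ ^ 4 ∂sig ≤ C * √n * (∫ y, ‖f y‖ ^ 2 ∂sig) ^ 2 := by
  obtain ⟨C, hC, hle⟩ := local_energy
  refine ⟨14 + C, by positivity, ?_⟩
  intro n f hn hf
  obtain ⟨h, hh, hsum, hbes, -⟩ := bessel n n f (fun x => (starRingEnd ℂ) (f x)) hf (conj_harm4 hf)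
  rw [min_self] at hh hbes
  simp only [min_self] at hsum
  have hconj : ∀ x, ‖(starRingEnd ℂ) (f x)‖ = ‖f x‖ := fun x => by simp
  simp only [hconj] at hbes
  set A := ∫ y, ‖f y‖ ^ 2 ∂sig with hA
  have hA0 : 0 ≤ A := integral_nonneg fun y => by positivity
  have hcf : Continuous f := sph_cont4 hf
  have hnpos : (0 : ℝ) < n := by exact_mod_cast hn
  have hsn : 0 < √(n : ℝ) := Real.sqrt_pos.2 hnpos
  set K : ℕ → ℕ := fun r => n + n - 2 * r with hKdef
  have hK : ∀ r < n + 1, ∀ s < n + 1, K r = K s → r = s := by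
    intro r hr s hs e
    simp only [hKdef] at e
    omega
  have hh' : ∀ r < n + 1, IsSphHarm (K r) (h r) := fun r hr => hh r (by omega)
  have hff : ∀ y, ((‖f y‖ ^ 2 : ℝ) : ℂ) = ∑ r ∈ Finset.range (n + 1), h r y := by
    intro y
    rw [← hsum y, Complex.mul_conj, Complex.normSq_eq_norm_sq]
  set a : ℕ → ℝ := fun r => ∫ y, ‖h r y‖ ^ 2 ∂sig with hadef
  have ha0 : ∀ r, 0 ≤ a r := fun r => integral_nonneg fun y => by positivity
  -- fourth power
  have h4 : ∫ y, ‖f y‖ ^ 4 ∂sig = ∑ r ∈ Finset.range (n + 1), a r := by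
    have e := weight4 (n + 1) K hK h hh' (fun _ => 1)
    simp only [one_mul] at e
    have e2 : ∫ y, (∑ r ∈ Finset.range (n + 1), h r y) * (starRingEnd ℂ) (∑ s ∈ Finset.range (n + 1), h s y) ∂sig =
        ((∫ y, ‖f y‖ ^ 4 ∂sig : ℝ) : ℂ) := by
      rw [← integral_complex_ofReal]
      congr 1
      ext y
      rw [← hff y, Complex.conj_ofReal]
      push_cast
      ring
    rw [e2] at e
    have e3 := congrArg Complex.re e
    rw [Complex.ofReal_re, Complex.re_sum] at e3
    simpa using e3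
  -- kernel
  have hker : ∀ x : S, (((∫ y, ((1 + dot x y) / 2) ^ n * ‖f y‖ ^ 2 ∂sig : ℝ)) : ℂ) =
      ∑ r ∈ Finset.range (n + 1), ((mu4 n (K r) : ℝ) : ℂ) * h r x := by
    intro x
    have hdc : Continuous (fun y : S => dot x y) := by
      unfold dot
      refine continuous_finsetSum _ fun i _ => continuous_const.mul ?_
      fun_prop
    rw [← integral_complex_ofReal]
    have : ∀ y : S, ((((1 + dot x y) / 2) ^ n * ‖f y‖ ^ 2 : ℝ) : ℂ) =
        ∑ r ∈ Finset.range (n + 1), ((((1 + dot x y) / 2) ^ n : ℝ) : ℂ) * h r y := by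
      intro y
      rw [Complex.ofReal_mul, hff y, Finset.mul_sum]
    simp only [this]
    rw [integral_finsetSum]
    · refine Finset.sum_congr rfl fun r hr => ?_
      exact ker4 n (K r) (h r) (hh' r (Finset.mem_range.1 hr)) x
    · intro r hr
      apply int_cont4
      refine (Complex.continuous_ofReal.comp ?_).mul (sph_cont4 (hh' r (Finset.mem_range.1 hr)))
      exact ((continuous_const.add hdc).div_const 2).pow n
  set G : S → ℝ := fun x => ∫ y, ((1 + dot x y) / 2) ^ n * ‖f y‖ ^ 2 ∂sig with hG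
  have hGc : Continuous G := by
    have : Continuous (fun x => ((G x : ℝ) : ℂ)) := by
      have e : (fun x => ((G x : ℝ) : ℂ)) = fun x => ∑ r ∈ Finset.range (n + 1), ((mu4 n (K r) : ℝ) : ℂ) * h r x :=
        funext hker
      rw [e]
      exact continuous_finsetSum _ fun r hr => continuous_const.mul (sph_cont4 (hh' r (Finset.mem_range.1 hr)))
    have h2 := Complex.continuous_re.comp this
    exact h2
  have hmu : ∑ r ∈ Finset.range (n + 1), mu4 n (K r) * a r = ∫ x, G x * ‖f x‖ ^ 2 ∂sig := by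
    have e := weight4 (n + 1) K hK h hh' (fun r => ((mu4 n (K r) : ℝ) : ℂ))
    have e2 : ∫ y, (∑ r ∈ Finset.range (n + 1), ((mu4 n (K r) : ℝ) : ℂ) * h r y) *
        (starRingEnd ℂ) (∑ s ∈ Finset.range (n + 1), h s y) ∂sig =
        ((∫ x, G x * ‖f x‖ ^ 2 ∂sig : ℝ) : ℂ) := by
      rw [← integral_complex_ofReal]
      congr 1
      ext y
      rw [← hff y, Complex.conj_ofReal, ← hker y]
      push_cast
      ring
    rw [e2] at e
    have e3 := congrArg Complex.re e
    rw [Complex.ofReal_re, Complex.re_sum] at e3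
    rw [e3]
    refine Finset.sum_congr rfl fun r _ => ?_
    rw [← Complex.ofReal_mul, Complex.ofReal_re]
  have hGle : ∀ x, G x ≤ C / √n * A := fun x => hle n f hn hf x
  have hint : ∫ x, G x * ‖f x‖ ^ 2 ∂sig ≤ C / √n * A * A := by
    have : ∫ x, G x * ‖f x‖ ^ 2 ∂sig ≤ ∫ x, (C / √n * A) * ‖f x‖ ^ 2 ∂sig := by
      apply integral_mono
      · exact int_cont4 (hGc.mul (hcf.norm.pow 2))
      · exact int_cont4 (continuous_const.mul (hcf.norm.pow 2))
      · intro x
        exact mul_le_mul_of_nonneg_right (hGle x) (by positivity)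
    refine this.trans (le_of_eq ?_)
    rw [integral_const_mul]
  have hterm : ∀ r ∈ Finset.range (n + 1), a r ≤ 14 * √n * ((c2 n n r)⁻¹ * a r) +
      ((n : ℝ) + 1) / π * (mu4 n (K r) * a r) := by
    intro r hr
    have hr' : r ≤ n := by have := Finset.mem_range.1 hr; omega
    have hc := c2_pos n n r
    have t1 : 0 ≤ 14 * √n * ((c2 n n r)⁻¹ * a r) := by
      have := ha0 r
      positivity
    have t2 : 0 ≤ ((n : ℝ) + 1) / π * (mu4 n (K r) * a r) := by
      have := ha0 r
      have := mu4_nonneg n (K r)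
      positivity
    by_cases hlow : 4 * (K r * (K r + 1)) ≤ 3 * (n + 2)
    · have := mul_le_mul_of_nonneg_right (mu4_low n (K r) hn hlow) (ha0 r)
      rw [one_mul] at this
      nlinarith
    · have hcc := c2_high4 n r hn hr' (not_le.1 hlow)
      have h1 : a r = c2 n n r * ((c2 n n r)⁻¹ * a r) := by
        rw [← mul_assoc, mul_inv_cancel₀ hc.ne', one_mul]
      have h2 : c2 n n r * ((c2 n n r)⁻¹ * a r) ≤ 14 * √n * ((c2 n n r)⁻¹ * a r) := by
        refine mul_le_mul_of_nonneg_right hcc ?_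
        have := ha0 r
        positivity
      linarith
  have hfin : ∑ r ∈ Finset.range (n + 1), a r ≤ 14 * √n * (A * A) + ((n : ℝ) + 1) / π * (C / √n * A * A) := by
    refine (Finset.sum_le_sum hterm).trans ?_
    rw [Finset.sum_add_distrib, ← Finset.mul_sum, ← Finset.mul_sum]
    refine add_le_add ?_ ?_
    · exact mul_le_mul_of_nonneg_left hbes (by positivity)
    · rw [hmu]
      exact mul_le_mul_of_nonneg_left hint (by positivity)
  rw [h4]
  refine hfin.trans ?_
  have hpi : (2 : ℝ) ≤ π := by linarith [Real.pi_gt_three]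
  have hq : ((n : ℝ) + 1) / π * (C / √n * A * A) ≤ C * √n * (A * A) := by
    have h1 : ((n : ℝ) + 1) / π ≤ n := by
      rw [div_le_iff₀ Real.pi_pos]
      have : (1 : ℝ) ≤ n := by exact_mod_cast hn
      nlinarith
    have h2 : (0 : ℝ) ≤ C / √n * A * A := by positivity
    refine (mul_le_mul_of_nonneg_right h1 h2).trans (le_of_eq ?_)
    have h3 : (n : ℝ) = √n * √n := (Real.mul_self_sqrt hnpos.le).symm
    have h4 : (n : ℝ) * (C / √n) = C * √n := by
      rw [mul_div_assoc', div_eq_iff hsn.ne']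
      rw [mul_assoc, ← h3]
      ring
    calc (n : ℝ) * (C / √n * A * A) = ((n : ℝ) * (C / √n)) * (A * A) := by ring
      _ = C * √n * (A * A) := by rw [h4]
  nlinarith

end Pool.Agent.Helper442.DR
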