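import Mathlib
import Pool.Agent.Helper442.DR.Defs
import Pool.Agent.Helper442.DR.M4
import Pool.Agent.Helper442.DR.M6
import Pool.Agent.Helper442.DR.M7
import Pool.Agent.Helper442.DR.S4
import Pool.Agent.Helper442.DR.H2w
import Pool.Agent.Helper442.DR.M11q

open MeasureTheory Set Metric Real
open scoped ENNReal

namespace Pool.Agent.Helper442.DR





















instance : IsFiniteMeasure sig := by
  unfold sig
  infer_instance

theorem cont_sph {n : ℕ} {f : S → ℂ} (hf : IsSphHarm n f) : Continuous f := by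
  obtain ⟨P, _, _, h⟩ := hf
  have e : f = fun x : S => MvPolynomial.eval (fun i => (((x : E) i : ℝ) : ℂ)) P := funext h
  rw [e]
  apply (MvPolynomial.continuous_eval P).comp
  apply continuous_pi
  intro i
  exact Complex.continuous_ofReal.comp (by fun_prop)

theorem int_of_cont {G : Type} [NormedAddCommGroup G] [SecondCountableTopology G] (f : S → G)
    (hf : Continuous f) : Integrable f sig :=
  hf.integrable_of_hasCompactSupport (HasCompactSupport.of_compactSpace f)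

theorem key_cx (u : S → ℂ) : ((∫ x, ‖u x‖ ^ 2 ∂sig : ℝ) : ℂ) = ∫ x, u x * (starRingEnd ℂ) (u x) ∂sig := by
  rw [← integral_complex_ofReal]
  congr 1
  funext x
  rw [Complex.mul_conj']
  push_cast
  rfl

theorem sum_norm_sq (n m : ℕ) (f g : S → ℂ) (h : ℕ → S → ℂ)
    (hh : ∀ r ≤ min n m, IsSphHarm (n + m - 2 * r) (h r))
    (hsum : ∀ x, f x * g x = ∑ r ∈ Finset.range (min n m + 1), h r x) :
    ∑ r ∈ Finset.range (min n m + 1), ∫ x, ‖h r x‖ ^ 2 ∂sig = ∫ x, ‖f x * g x‖ ^ 2 ∂sig := by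
  apply Complex.ofReal_injective
  rw [key_cx (fun x => f x * g x), Complex.ofReal_sum]
  simp_rw [key_cx, hsum, map_sum, Finset.sum_mul_sum]
  have hc : ∀ r ∈ Finset.range (min n m + 1), Continuous (h r) := fun r hr =>
    cont_sph (hh r (by have := Finset.mem_range.1 hr; omega))
  have hint : ∀ r ∈ Finset.range (min n m + 1), ∀ s ∈ Finset.range (min n m + 1),
      Integrable (fun x => h r x * (starRingEnd ℂ) (h s x)) sig := fun r hr s hs =>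
    int_of_cont _ ((hc r hr).mul (Complex.continuous_conj.comp (hc s hs)))
  rw [integral_finsetSum _ (fun r hr => integrable_finsetSum _ (fun s hs => hint r hr s hs))]
  apply Finset.sum_congr rfl
  intro r hr
  rw [integral_finsetSum _ (fun s hs => hint r hr s hs)]
  rw [Finset.sum_eq_single r]
  · intro s hs hsr
    have h1 := Finset.mem_range.1 hr
    have h2 := Finset.mem_range.1 hs
    exact orth (n + m - 2 * r) (n + m - 2 * s) (by omega) _ _ (hh r (by omega)) (hh s (by omega))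
  · intro hr'
    exact absurd hr hr'

theorem cs_four (f g : S → ℂ) (hf : Continuous f) (hg : Continuous g) :
    ∫ x, ‖f x * g x‖ ^ 2 ∂sig ≤ √(∫ x, ‖f x‖ ^ 4 ∂sig) * √(∫ x, ‖g x‖ ^ 4 ∂sig) := by
  have hm : ∀ u : S → ℂ, Continuous u → MemLp (fun x => ‖u x‖ ^ 2) (ENNReal.ofReal 2) sig := by
    intro u hu
    have hcu : Continuous (fun x => ‖u x‖ ^ 2) := by fun_prop
    obtain ⟨B, hB⟩ := (isCompact_univ.bddAbove_image (f := fun x => ‖u x‖ ^ 2) hcu.continuousOn)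
    refine MemLp.of_bound hcu.aestronglyMeasurable B (Filter.Eventually.of_forall fun x => ?_)
    rw [Real.norm_of_nonneg (by positivity)]
    exact hB (Set.mem_image_of_mem _ (Set.mem_univ x))
  have h := integral_mul_le_Lp_mul_Lq_of_nonneg (μ := sig) (p := 2) (q := 2)
    (f := fun x => ‖f x‖ ^ 2) (g := fun x => ‖g x‖ ^ 2) Real.HolderConjugate.two_two
    (Filter.Eventually.of_forall fun x => by positivity) (Filter.Eventually.of_forall fun x => by positivity)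
    (hm f hf) (hm g hg)
  have e : ∀ u : S → ℂ, (∫ x, (‖u x‖ ^ 2) ^ (2:ℝ) ∂sig) ^ (1 / (2:ℝ)) = √(∫ x, ‖u x‖ ^ 4 ∂sig) := by
    intro u
    rw [Real.sqrt_eq_rpow]
    congr 2
    funext x
    rw [show ((2:ℝ)) = ((2:ℕ):ℝ) by norm_num, Real.rpow_natCast]
    ring
  rw [e f, e g] at h
  calc ∫ x, ‖f x * g x‖ ^ 2 ∂sig = ∫ x, ‖f x‖ ^ 2 * ‖g x‖ ^ 2 ∂sig := by
        congr 1
        funext x
        rw [norm_mul, mul_pow]
    _ ≤ _ := h

theorem sogge_prod (C : ℝ) (hC : 0 < C) (hs : ∀ (n : ℕ) (f : S → ℂ), 1 ≤ n → IsSphHarm n f →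
    ∫ y, ‖f y‖ ^ 4 ∂sig ≤ C * √n * (∫ y, ‖f y‖ ^ 2 ∂sig) ^ 2) (N n m : ℕ) (hN : 1 ≤ N)
    (hn : n ∈ Finset.Ico N (2 * N)) (hm : m ∈ Finset.Ico N (2 * N)) (f g : S → ℂ)
    (hf : IsSphHarm n f) (hg : IsSphHarm m g) :
    ∫ x, ‖f x * g x‖ ^ 2 ∂sig ≤ (2 * C) * √N * ((∫ x, ‖f x‖ ^ 2 ∂sig) * ∫ x, ‖g x‖ ^ 2 ∂sig) := by
  have hD : 0 ≤ C * √(2 * N) := by positivity
  have hb : ∀ (k : ℕ) (u : S → ℂ), k ∈ Finset.Ico N (2 * N) → IsSphHarm k u →
      √(∫ x, ‖u x‖ ^ 4 ∂sig) ≤ √(C * √(2 * N)) * ∫ x, ‖u x‖ ^ 2 ∂sig := by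
    intro k u hk hu
    have hk' := Finset.mem_Ico.1 hk
    have h1 := hs k u (by omega) hu
    have h2 : √(k:ℝ) ≤ √(2 * N) := Real.sqrt_le_sqrt (by exact_mod_cast hk'.2.le)
    have h3 : 0 ≤ ∫ x, ‖u x‖ ^ 2 ∂sig := integral_nonneg fun x => by positivity
    calc √(∫ x, ‖u x‖ ^ 4 ∂sig) ≤ √(C * √(2 * N) * (∫ x, ‖u x‖ ^ 2 ∂sig) ^ 2) := by
          apply Real.sqrt_le_sqrt
          exact h1.trans (by gcongr)
      _ = √(C * √(2 * N)) * ∫ x, ‖u x‖ ^ 2 ∂sig := by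
          rw [Real.sqrt_mul hD, Real.sqrt_sq h3]
  have ha : 0 ≤ ∫ x, ‖f x‖ ^ 2 ∂sig := integral_nonneg fun x => by positivity
  have hb' : 0 ≤ ∫ x, ‖g x‖ ^ 2 ∂sig := integral_nonneg fun x => by positivity
  calc ∫ x, ‖f x * g x‖ ^ 2 ∂sig ≤ √(∫ x, ‖f x‖ ^ 4 ∂sig) * √(∫ x, ‖g x‖ ^ 4 ∂sig) :=
        cs_four f g (cont_sph hf) (cont_sph hg)
    _ ≤ (√(C * √(2 * N)) * ∫ x, ‖f x‖ ^ 2 ∂sig) * (√(C * √(2 * N)) * ∫ x, ‖g x‖ ^ 2 ∂sig) :=
        mul_le_mul (hb n f hn hf) (hb m g hm hg) (Real.sqrt_nonneg _) (by positivity)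
    _ = (√(C * √(2 * N)) * √(C * √(2 * N))) * ((∫ x, ‖f x‖ ^ 2 ∂sig) * ∫ x, ‖g x‖ ^ 2 ∂sig) := by ring
    _ = (C * √(2 * N)) * ((∫ x, ‖f x‖ ^ 2 ∂sig) * ∫ x, ‖g x‖ ^ 2 ∂sig) := by
        rw [Real.mul_self_sqrt hD]
    _ ≤ (2 * C) * √N * ((∫ x, ‖f x‖ ^ 2 ∂sig) * ∫ x, ‖g x‖ ^ 2 ∂sig) := by
        apply mul_le_mul_of_nonneg_right _ (by positivity)
        rw [Real.sqrt_mul (by norm_num)]
        have h2 : √(2:ℝ) ≤ 2 := by
          rw [Real.sqrt_le_left (by norm_num)]; norm_num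
        have hCN : 0 ≤ C * √(N:ℝ) := by positivity
        nlinarith

-- ===== TARGET (prove this; the lemmas above may be used with their sorry) =====
/-- the sharp dyadic estimate -/
theorem dyadic2 (T : ℝ) (hT : 0 < T) : ∃ C : ℝ, 0 < C ∧ ∀ (N : ℕ) (F : ℕ → S → ℂ), 1 ≤ N →
    (∀ n, IsSphHarm n (F n)) →
    ∫ t in Icc (0 : ℝ) T, ∫ x, ‖∑ n ∈ Finset.Ico N (2 * N),
        Complex.exp (((t * Lam n : ℝ) : ℂ) * Complex.I) * F n x‖ ^ 4 ∂sig ≤
      C * (N : ℝ) ^ (3 / 4 : ℝ) * (1 + Real.log N) * (∑ n ∈ Finset.Ico N (2 * N), ∫ x, ‖F n x‖ ^ 2 ∂sig) ^ 2 := by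
  obtain ⟨C1, hC1, hq⟩ := quartic T hT
  obtain ⟨C2, hC2, hw⟩ := weights2
  obtain ⟨C3, hC3, hs⟩ := sogge4
  refine ⟨C1 * (C2 * max 1 (2 * C3)), by positivity, ?_⟩
  intro N F hN hF
  choose h hh1 hh2 hh3 _ using fun n m => bessel n m (F n) (F m) (hF n) (hF m)
  have h1 := hq N F h hN hF hh1 hh2
  have h2 := hw (max 1 (2 * C3)) N (fun n => ∫ x, ‖F n x‖ ^ 2 ∂sig) (fun n m r => ∫ x, ‖h n m r x‖ ^ 2 ∂sig)
    (le_max_left _ _) hN (fun n => integral_nonneg fun x => by positivity)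
    (fun n m r => integral_nonneg fun x => by positivity) (fun n m => hh3 n m)
    (fun n m hn hm => by
      rw [sum_norm_sq n m (F n) (F m) (h n m) (hh1 n m) (hh2 n m)]
      refine (sogge_prod C3 hC3 hs N n m hN hn hm (F n) (F m) (hF n) (hF m)).trans ?_
      have ha : 0 ≤ ∫ x, ‖F n x‖ ^ 2 ∂sig := integral_nonneg fun x => by positivity
      have hb : 0 ≤ ∫ x, ‖F m x‖ ^ 2 ∂sig := integral_nonneg fun x => by positivity
      have hle : 2 * C3 ≤ max 1 (2 * C3) := le_max_right _ _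
      gcongr)
    (((Finset.Ico N (2 * N)) ×ˢ (Finset.Ico N (2 * N))).image (fun p => ⌊Lam p.1 + Lam p.2⌋))
  calc _ ≤ _ := h1
    _ ≤ C1 * (C2 * max 1 (2 * C3) * (N : ℝ) ^ (3 / 4 : ℝ) * (1 + Real.log N) *
        (∑ n ∈ Finset.Ico N (2 * N), ∫ x, ‖F n x‖ ^ 2 ∂sig) ^ 2) :=
        mul_le_mul_of_nonneg_left h2 hC1.le
    _ = _ := by ring

end Pool.Agent.Helper442.DR
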