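import Mathlib
import Pool.Agent.Helper442.DR.Defs
import Pool.Agent.Helper442.DR.M4
import Pool.Agent.Helper442.DR.H2d

open MeasureTheory Set Metric Real
open scoped ENNReal

namespace Pool.Agent.Helper442.DR










theorem cont_F {n : ℕ} {f : S → ℂ} (h : IsSphHarm n f) : Continuous f := by
  obtain ⟨P, _, _, hP⟩ := h
  have : f = fun x : S => MvPolynomial.eval (fun i => (((x : E) i : ℝ) : ℂ)) P := funext hP
  rw [this]
  have h1 : Continuous (fun x : S => (fun i => (((x : E) i : ℝ) : ℂ) : Fin 3 → ℂ)) := by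
    fun_prop
  exact (MvPolynomial.continuous_eval P).comp h1

instance finsig : IsFiniteMeasure sig := by
  unfold sig; infer_instance

theorem memLp_of_cont {f : S → ℂ} (hf : Continuous f) (p : ℝ≥0∞) : MemLp f p sig := by
  obtain ⟨C, hC⟩ := isCompact_univ.exists_bound_of_continuousOn (f := f) hf.continuousOn
  exact MemLp.of_bound hf.aestronglyMeasurable C (Filter.Eventually.of_forall fun x => hC x (mem_univ x))

theorem eL4 {f : S → ℂ} (hf : Continuous f) :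
    eLpNorm f 4 sig = ENNReal.ofReal ((∫ x, ‖f x‖ ^ 4 ∂sig) ^ (1/4 : ℝ)) := by
  rw [MemLp.eLpNorm_eq_integral_rpow_norm (by norm_num) (by norm_num) (memLp_of_cont hf 4)]
  have h4 : (4 : ℝ≥0∞).toReal = ((4:ℕ):ℝ) := by norm_num
  rw [h4]
  congr 2
  · apply integral_congr_ae
    exact Filter.Eventually.of_forall fun x => Real.rpow_natCast _ _
  · norm_num

theorem cont_I {G : ℝ → S → ℂ} (hG : Continuous (Function.uncurry G)) :
    Continuous (fun t => ∫ x, ‖G t x‖ ^ 4 ∂sig) := by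
  have h := continuous_parametric_integral_of_continuous (μ := sig)
    (f := fun t x => ‖G t x‖ ^ 4) (by
      have : (Function.uncurry fun (t : ℝ) (x : S) => ‖G t x‖ ^ 4)
        = fun p : ℝ × S => ‖Function.uncurry G p‖ ^ 4 := rfl
      rw [this]
      fun_prop) (s := univ) isCompact_univ
  simpa using h

/-- mixed norm -/
noncomputable def NN (T : ℝ) (G : ℝ → S → ℂ) : ℝ≥0∞ :=
  eLpNorm (fun t => (eLpNorm (G t) 4 sig).toReal) 4 (volume.restrict (Icc 0 T))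

theorem g_eq {G : ℝ → S → ℂ} (hG : Continuous (Function.uncurry G)) :
    (fun t => (eLpNorm (G t) 4 sig).toReal) = fun t => (∫ x, ‖G t x‖ ^ 4 ∂sig) ^ (1/4 : ℝ) := by
  funext t
  have h1 : Continuous (G t) := hG.comp (Continuous.prodMk_right t)
  rw [eL4 h1, ENNReal.toReal_ofReal]
  apply Real.rpow_nonneg
  exact integral_nonneg fun x => by positivity

theorem g_cont {G : ℝ → S → ℂ} (hG : Continuous (Function.uncurry G)) :
    Continuous (fun t => (eLpNorm (G t) 4 sig).toReal) := by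
  rw [g_eq hG]
  exact (cont_I hG).rpow_const (fun t => Or.inr (by norm_num))

theorem NN_eq (T : ℝ) {G : ℝ → S → ℂ} (hG : Continuous (Function.uncurry G)) :
    NN T G = ENNReal.ofReal ((∫ t in Icc 0 T, ∫ x, ‖G t x‖ ^ 4 ∂sig) ^ (1/4 : ℝ)) := by
  unfold NN
  have hc := g_cont hG
  have hm : MemLp (fun t => (eLpNorm (G t) 4 sig).toReal) 4 (volume.restrict (Icc 0 T)) := by
    obtain ⟨C, hC⟩ := (isCompact_Icc (a := (0:ℝ)) (b := T)).exists_bound_of_continuousOn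
      (f := fun t => (eLpNorm (G t) 4 sig).toReal) hc.continuousOn
    apply MemLp.of_bound hc.aestronglyMeasurable C
    exact (ae_restrict_iff' measurableSet_Icc).mpr (Filter.Eventually.of_forall hC)
  rw [MemLp.eLpNorm_eq_integral_rpow_norm (by norm_num) (by norm_num) hm]
  have h4 : (4 : ℝ≥0∞).toReal = ((4:ℕ):ℝ) := by norm_num
  rw [h4]
  congr 2
  · apply integral_congr_ae
    apply Filter.Eventually.of_forall
    intro t
    have ht := congr_fun (g_eq hG) t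
    try simp only at ht
    have h0 : 0 ≤ ∫ x, ‖G t x‖ ^ 4 ∂sig := integral_nonneg fun x => by positivity
    simp only
    rw [ht, Real.rpow_natCast, Real.norm_of_nonneg (Real.rpow_nonneg h0 _), ← Real.rpow_natCast,
      ← Real.rpow_mul h0]
    norm_num
  · norm_num

theorem NN_add (T : ℝ) {G G' : ℝ → S → ℂ} (hG : Continuous (Function.uncurry G))
    (hG' : Continuous (Function.uncurry G')) :
    NN T (fun t x => G t x + G' t x) ≤ NN T G + NN T G' := by
  unfold NN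
  have hm : ∀ t, ‖(eLpNorm (fun x => G t x + G' t x) 4 sig).toReal‖ ≤
      ((fun t => (eLpNorm (G t) 4 sig).toReal) + fun t => (eLpNorm (G' t) 4 sig).toReal) t := by
    intro t
    have h1 : Continuous (G t) := hG.comp (Continuous.prodMk_right t)
    have h2 : Continuous (G' t) := hG'.comp (Continuous.prodMk_right t)
    have h3 := eLpNorm_add_le (μ := sig) h1.aestronglyMeasurable h2.aestronglyMeasurable
      (p := 4) (by norm_num)
    have f1 := (memLp_of_cont h1 4).eLpNorm_ne_top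
    have f2 := (memLp_of_cont h2 4).eLpNorm_ne_top
    rw [Real.norm_of_nonneg ENNReal.toReal_nonneg]
    have h4 := ENNReal.toReal_mono (ENNReal.add_ne_top.mpr ⟨f1, f2⟩) h3
    rw [ENNReal.toReal_add f1 f2] at h4
    exact h4
  refine (eLpNorm_mono_real hm).trans ?_
  exact eLpNorm_add_le (g_cont hG).aestronglyMeasurable (g_cont hG').aestronglyMeasurable
    (by norm_num)

theorem quart {X D Q : ℝ} (hX : 0 ≤ X) (hD : 0 ≤ D) (hQ : 0 ≤ Q) (h : X ≤ D * Q ^ 2) :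
    X ^ (1/4 : ℝ) ≤ D ^ (1/4 : ℝ) * √Q := by
  have h1 : X ^ (1/4 : ℝ) ≤ (D * Q ^ 2) ^ (1/4 : ℝ) := Real.rpow_le_rpow hX h (by norm_num)
  refine h1.trans (le_of_eq ?_)
  rw [Real.mul_rpow hD (by positivity), ← Real.rpow_natCast Q 2, ← Real.rpow_mul hQ,
    Real.sqrt_eq_rpow]
  norm_num

theorem const_zero {f : S → ℂ} (h : IsSphHarm 0 f) : ∃ c : ℂ, ∀ x, f x = c := by
  obtain ⟨P, hP0, _, hP⟩ := h
  rw [← MvPolynomial.totalDegree_zero_iff_isHomogeneous,
    MvPolynomial.totalDegree_eq_zero_iff_eq_C] at hP0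
  refine ⟨MvPolynomial.coeff 0 P, fun x => ?_⟩
  rw [hP x, hP0]
  simp

theorem sig_pos : 0 < sig.real univ := by
  have h1 : sig univ ≠ 0 := by
    unfold sig
    rw [Measure.toSphere_apply_univ]
    apply mul_ne_zero
    · simp
    · exact (Metric.measure_ball_pos volume (0:E) one_pos).ne'
  exact ENNReal.toReal_pos h1 (measure_ne_top _ _)


noncomputable def blk (F : ℕ → S → ℂ) (N M : ℕ) (t : ℝ) (x : S) : ℂ :=
  ∑ n ∈ Finset.Ico N M, Complex.exp (((t * Lam n : ℝ) : ℂ) * Complex.I) * F n x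

theorem blk_cont {F : ℕ → S → ℂ} (hF : ∀ n, Continuous (F n)) (N M : ℕ) :
    Continuous (Function.uncurry (blk F N M)) := by
  have : Function.uncurry (blk F N M) = fun p : ℝ × S =>
      ∑ n ∈ Finset.Ico N M, Complex.exp (((p.1 * Lam n : ℝ) : ℂ) * Complex.I) * F n p.2 := rfl
  rw [this]
  apply continuous_finsetSum
  intro n _
  have := hF n
  fun_prop

theorem geo (q : ℝ) (hq0 : 0 ≤ q) (hq1 : q < 1) (J : ℕ) :
    ∑ j ∈ Finset.range J, q ^ j ≤ 1 / (1 - q) := by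
  rw [le_div_iff₀ (by linarith), mul_comm, mul_neg_geom_sum]
  have := pow_nonneg hq0 J
  linarith

theorem dyadic3 (s' : ℝ) (hs : 3 / 16 < s') (T : ℝ) (hT : 0 < T) : ∃ C : ℝ, 0 < C ∧
    ∀ (N : ℕ) (F : ℕ → S → ℂ), 1 ≤ N → (∀ n, IsSphHarm n (F n)) →
    ∫ t in Icc (0 : ℝ) T, ∫ x, ‖∑ n ∈ Finset.Ico N (2 * N),
        Complex.exp (((t * Lam n : ℝ) : ℂ) * Complex.I) * F n x‖ ^ 4 ∂sig ≤
      C * (N : ℝ) ^ (4 * s') * (∑ n ∈ Finset.Ico N (2 * N), ∫ x, ‖F n x‖ ^ 2 ∂sig) ^ 2 := by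
  obtain ⟨C, hC, h⟩ := dyadic2 T hT
  obtain ⟨ε, hεd⟩ : ∃ ε : ℝ, ε = 4 * s' - 3 / 4 := ⟨_, rfl⟩
  have hε : 0 < ε := by rw [hεd]; linarith
  refine ⟨C * (1 + 1 / ε), by positivity, ?_⟩
  intro N F hN hF
  refine (h N F hN hF).trans ?_
  have hN1 : (1:ℝ) ≤ N := by exact_mod_cast hN
  have hN0 : (0:ℝ) < N := by linarith
  have hlog : Real.log N ≤ (N:ℝ) ^ ε / ε := Real.log_le_rpow_div hN0.le hε
  have h1 : 1 ≤ (N:ℝ) ^ ε := Real.one_le_rpow hN1 hε.le
  have h2 : 1 + Real.log N ≤ (1 + 1 / ε) * (N:ℝ) ^ ε := by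
    have : (1 + 1 / ε) * (N:ℝ) ^ ε = (N:ℝ) ^ ε + (N:ℝ) ^ ε / ε := by ring
    rw [this]; linarith
  have h3 : (N:ℝ) ^ (3 / 4 : ℝ) * (N:ℝ) ^ ε = (N:ℝ) ^ (4 * s') := by
    rw [← Real.rpow_add hN0]; congr 1; rw [hεd]; ring
  have h4 : 0 ≤ (∑ n ∈ Finset.Ico N (2 * N), ∫ x, ‖F n x‖ ^ 2 ∂sig) ^ 2 := by positivity
  calc C * (N : ℝ) ^ (3 / 4 : ℝ) * (1 + Real.log N) *
        (∑ n ∈ Finset.Ico N (2 * N), ∫ x, ‖F n x‖ ^ 2 ∂sig) ^ 2
      ≤ C * (N : ℝ) ^ (3 / 4 : ℝ) * ((1 + 1 / ε) * (N:ℝ) ^ ε) *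
        (∑ n ∈ Finset.Ico N (2 * N), ∫ x, ‖F n x‖ ^ 2 ∂sig) ^ 2 := by gcongr
    _ = C * (1 + 1 / ε) * ((N : ℝ) ^ (3 / 4 : ℝ) * (N:ℝ) ^ ε) *
        (∑ n ∈ Finset.Ico N (2 * N), ∫ x, ‖F n x‖ ^ 2 ∂sig) ^ 2 := by ring
    _ = _ := by rw [h3]


theorem qtop (q : ℝ) : ENNReal.ofReal q ≠ ⊤ := ENNReal.ofReal_ne_top

theorem interp {f : S → ℂ} (hf : Continuous f) (q : ℝ) (h2 : 2 ≤ q) (h4 : q ≤ 4) :
    eLpNorm f (ENNReal.ofReal q) sig ≤
      eLpNorm f 2 sig ^ (1 - (2 - 4 / q)) * eLpNorm f 4 sig ^ (2 - 4 / q) := by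
  have hq0 : 0 < q := by linarith
  have e1 : eLpNorm f (ENNReal.ofReal q) sig = (∫⁻ x, ‖f x‖ₑ ^ q ∂sig) ^ (1 / q) := by
    rw [eLpNorm_eq_lintegral_rpow_enorm_toReal (by simpa using hq0) ENNReal.ofReal_ne_top,
      ENNReal.toReal_ofReal hq0.le]
  have e2 : eLpNorm f 2 sig = (∫⁻ x, ‖f x‖ₑ ^ (2:ℝ) ∂sig) ^ (1 / (2:ℝ)) := by
    rw [eLpNorm_eq_lintegral_rpow_enorm_toReal (by norm_num) (by norm_num)]
    norm_num
  have e3 : eLpNorm f 4 sig = (∫⁻ x, ‖f x‖ₑ ^ (4:ℝ) ∂sig) ^ (1 / (4:ℝ)) := by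
    rw [eLpNorm_eq_lintegral_rpow_enorm_toReal (by norm_num) (by norm_num)]
    norm_num
  have hm : Measurable (fun x => ‖f x‖ₑ) := hf.measurable.enorm
  have h := ENNReal.lintegral_mul_norm_pow_le (μ := sig) (f := fun x => ‖f x‖ₑ ^ (2:ℝ))
    (g := fun x => ‖f x‖ₑ ^ (4:ℝ)) (hm.pow_const _).aemeasurable (hm.pow_const _).aemeasurable
    (p := (4 - q) / 2) (q := (q - 2) / 2) (by linarith) (by linarith) (by ring)
  have e4 : ∀ x, (‖f x‖ₑ ^ (2:ℝ)) ^ ((4 - q) / 2) * (‖f x‖ₑ ^ (4:ℝ)) ^ ((q - 2) / 2)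
      = ‖f x‖ₑ ^ q := by
    intro x
    rw [← ENNReal.rpow_mul, ← ENNReal.rpow_mul, ← ENNReal.rpow_add_of_nonneg _ _ (by linarith) (by linarith)]
    congr 1
    ring
  simp only [e4] at h
  rw [e1, e2, e3, ← ENNReal.rpow_mul, ← ENNReal.rpow_mul]
  refine (ENNReal.rpow_le_rpow h (by positivity)).trans (le_of_eq ?_)
  rw [ENNReal.mul_rpow_of_nonneg _ _ (by positivity), ← ENNReal.rpow_mul, ← ENNReal.rpow_mul]
  congr 2
  · field_simp
    ring
  · field_simp
    ring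

theorem cont_Iq {G : ℝ → S → ℂ} (hG : Continuous (Function.uncurry G)) (q : ℝ) (hq : 0 ≤ q) :
    Continuous (fun t => ∫ x, ‖G t x‖ ^ q ∂sig) := by
  have h := continuous_parametric_integral_of_continuous (μ := sig)
    (f := fun t x => ‖G t x‖ ^ q) (by
      have : (Function.uncurry fun (t : ℝ) (x : S) => ‖G t x‖ ^ q)
        = fun p : ℝ × S => ‖Function.uncurry G p‖ ^ q := rfl
      rw [this]
      exact hG.norm.rpow_const (fun _ => Or.inr hq)) (s := univ) isCompact_univ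
  simpa using h

theorem gq_cont {G : ℝ → S → ℂ} (hG : Continuous (Function.uncurry G)) (q : ℝ) (hq : 0 < q) :
    Continuous (fun t => (eLpNorm (G t) (ENNReal.ofReal q) sig).toReal) := by
  have : (fun t => (eLpNorm (G t) (ENNReal.ofReal q) sig).toReal)
      = fun t => (∫ x, ‖G t x‖ ^ q ∂sig) ^ (1/q) := by
    funext t
    have h1 : Continuous (G t) := hG.comp (Continuous.prodMk_right t)
    rw [MemLp.eLpNorm_eq_integral_rpow_norm (by simpa using hq) ENNReal.ofReal_ne_top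
      (memLp_of_cont h1 _), ENNReal.toReal_ofReal hq.le, ENNReal.toReal_ofReal, one_div]
    apply Real.rpow_nonneg
    exact integral_nonneg fun x => by positivity
  rw [this]
  exact (cont_Iq hG q hq.le).rpow_const (fun t => Or.inr (by positivity))

/-- general mixed norm -/
noncomputable def NQ (p : ℝ≥0∞) (q T : ℝ) (G : ℝ → S → ℂ) : ℝ≥0∞ :=
  eLpNorm (fun t => (eLpNorm (G t) (ENNReal.ofReal q) sig).toReal) p (volume.restrict (Icc 0 T))

theorem NQ_add (p : ℝ≥0∞) (q T : ℝ) (hp : 1 ≤ p) (hq : 1 ≤ q) {G G' : ℝ → S → ℂ}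
    (hG : Continuous (Function.uncurry G))
    (hG' : Continuous (Function.uncurry G')) :
    NQ p q T (fun t x => G t x + G' t x) ≤ NQ p q T G + NQ p q T G' := by
  unfold NQ
  have hm : ∀ t, ‖(eLpNorm (fun x => G t x + G' t x) (ENNReal.ofReal q) sig).toReal‖ ≤
      ((fun t => (eLpNorm (G t) (ENNReal.ofReal q) sig).toReal) +
        fun t => (eLpNorm (G' t) (ENNReal.ofReal q) sig).toReal) t := by
    intro t
    have h1 : Continuous (G t) := hG.comp (Continuous.prodMk_right t)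
    have h2 : Continuous (G' t) := hG'.comp (Continuous.prodMk_right t)
    have h3 := eLpNorm_add_le (μ := sig) h1.aestronglyMeasurable h2.aestronglyMeasurable
      (p := ENNReal.ofReal q) (by simpa using hq)
    have f1 := (memLp_of_cont h1 (ENNReal.ofReal q)).eLpNorm_ne_top
    have f2 := (memLp_of_cont h2 (ENNReal.ofReal q)).eLpNorm_ne_top
    rw [Real.norm_of_nonneg ENNReal.toReal_nonneg]
    have h4 := ENNReal.toReal_mono (ENNReal.add_ne_top.mpr ⟨f1, f2⟩) h3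
    rw [ENNReal.toReal_add f1 f2] at h4
    exact h4
  refine (eLpNorm_mono_real hm).trans ?_
  exact eLpNorm_add_le (gq_cont hG q (by linarith)).aestronglyMeasurable
    (gq_cont hG' q (by linarith)).aestronglyMeasurable hp

/-- interpolation of the mixed norms -/
theorem NQ_interp (p : ℝ≥0∞) (q T : ℝ) (hT : 0 < T) (hp : 1 ≤ p) (h2 : 2 ≤ q) (h4 : q ≤ 4)
    (hpq : p * ENNReal.ofReal (2 - 4 / q) ≤ 4) : ∃ κ : ℝ, 0 < κ ∧
    ∀ (G : ℝ → S → ℂ), Continuous (Function.uncurry G) → ∀ A B : ℝ, 0 ≤ A → 0 ≤ B →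
      (∀ t, eLpNorm (G t) 2 sig ≤ ENNReal.ofReal A) → NN T G ≤ ENNReal.ofReal B →
      NQ p q T G ≤ ENNReal.ofReal (κ * (A ^ (1 - (2 - 4 / q)) * B ^ (2 - 4 / q))) := by
  have hq0 : 0 < q := by linarith
  have hq4 : 4 / q ≤ 2 := by rw [div_le_iff₀ hq0]; linarith
  have hq4' : 1 ≤ 4 / q := by rw [le_div_iff₀ hq0]; linarith
  obtain ⟨θ, hθ⟩ : ∃ θ : ℝ, θ = 2 - 4 / q := ⟨_, rfl⟩
  have hθ0 : 0 ≤ θ := by rw [hθ]; linarith
  have hθ1 : θ ≤ 1 := by rw [hθ]; linarith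
  have hμ : (volume.restrict (Icc (0:ℝ) T)) univ = ENNReal.ofReal T := by
    rw [Measure.restrict_apply_univ, Real.volume_Icc, sub_zero]
  -- pointwise bound
  have hpt : ∀ (G : ℝ → S → ℂ), Continuous (Function.uncurry G) → ∀ A : ℝ, 0 ≤ A →
      (∀ t, eLpNorm (G t) 2 sig ≤ ENNReal.ofReal A) → ∀ t,
      ‖(eLpNorm (G t) (ENNReal.ofReal q) sig).toReal‖ ≤
        A ^ (1 - θ) * (eLpNorm (G t) 4 sig).toReal ^ θ := by
    intro G hG A hA hGA t
    have h1 : Continuous (G t) := hG.comp (Continuous.prodMk_right t)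
    have hi := interp h1 q h2 h4
    rw [← hθ] at hi
    have f4 := (memLp_of_cont h1 4).eLpNorm_ne_top
    have hi2 : eLpNorm (G t) (ENNReal.ofReal q) sig ≤
        ENNReal.ofReal A ^ (1 - θ) * eLpNorm (G t) 4 sig ^ θ :=
      hi.trans (by gcongr; exact hGA t)
    rw [Real.norm_of_nonneg ENNReal.toReal_nonneg]
    have h5 := ENNReal.toReal_mono (by
      apply ENNReal.mul_ne_top
      · exact ENNReal.rpow_ne_top_of_nonneg (by linarith) ENNReal.ofReal_ne_top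
      · exact ENNReal.rpow_ne_top_of_nonneg hθ0 f4) hi2
    rw [ENNReal.toReal_mul, ← ENNReal.toReal_rpow, ← ENNReal.toReal_rpow,
      ENNReal.toReal_ofReal hA] at h5
    exact h5
  rw [← hθ] at hpq ⊢
  rcases hθ0.eq_or_lt with h0 | hpos
  · -- θ = 0
    refine ⟨(ENNReal.ofReal T ^ p.toReal⁻¹).toReal, ?_, ?_⟩
    · rw [← ENNReal.toReal_rpow, ENNReal.toReal_ofReal hT.le]; positivity
    intro G hG A B hA hB hGA hGB
    have hb : ∀ t, ‖(eLpNorm (G t) (ENNReal.ofReal q) sig).toReal‖ ≤ A := by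
      intro t
      have := hpt G hG A hA hGA t
      rw [← h0] at this
      simpa using this
    refine (eLpNorm_le_of_ae_bound (Filter.Eventually.of_forall hb)).trans (le_of_eq ?_)
    rw [hμ, ← h0, sub_zero, Real.rpow_one, Real.rpow_zero, mul_one,
      ENNReal.ofReal_mul ENNReal.toReal_nonneg, ENNReal.ofReal_toReal]
    exact ENNReal.rpow_ne_top_of_nonneg (by positivity) ENNReal.ofReal_ne_top
  · -- θ > 0
    obtain ⟨r, hr⟩ : ∃ r : ℝ≥0∞, r = p * ENNReal.ofReal θ := ⟨_, rfl⟩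
    obtain ⟨e, he⟩ : ∃ e : ℝ, e = 1 / r.toReal - 1 / (4 : ℝ≥0∞).toReal := ⟨_, rfl⟩
    refine ⟨(T ^ e) ^ θ, by positivity, ?_⟩
    intro G hG A B hA hB hGA hGB
    have hc := g_cont hG
    have hA1 : 0 ≤ A ^ (1 - θ) := by positivity
    have s1 : NQ p q T G ≤ eLpNorm (fun t => A ^ (1 - θ) * (‖(eLpNorm (G t) 4 sig).toReal‖ ^ θ)) p
        (volume.restrict (Icc 0 T)) := by
      apply eLpNorm_mono_real
      intro t
      have := hpt G hG A hA hGA t
      rw [Real.norm_of_nonneg (ENNReal.toReal_nonneg (a := eLpNorm (G t) 4 sig))]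
      exact this
    have s2 : eLpNorm (fun t => A ^ (1 - θ) * (‖(eLpNorm (G t) 4 sig).toReal‖ ^ θ)) p
        (volume.restrict (Icc 0 T)) = ENNReal.ofReal (A ^ (1 - θ)) *
        eLpNorm (fun t => (‖(eLpNorm (G t) 4 sig).toReal‖ ^ θ)) p (volume.restrict (Icc 0 T)) := by
      have := eLpNorm_const_smul (μ := volume.restrict (Icc 0 T)) (p := p) (A ^ (1 - θ))
        (fun t => (‖(eLpNorm (G t) 4 sig).toReal‖ ^ θ))
      rw [Real.enorm_eq_ofReal hA1] at this
      exact this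
    have s3 : eLpNorm (fun t => (‖(eLpNorm (G t) 4 sig).toReal‖ ^ θ)) p (volume.restrict (Icc 0 T))
        = (eLpNorm (fun t => (eLpNorm (G t) 4 sig).toReal) r (volume.restrict (Icc 0 T))) ^ θ := by
      rw [hr]
      exact eLpNorm_norm_rpow _ hpos
    have s4 : eLpNorm (fun t => (eLpNorm (G t) 4 sig).toReal) r (volume.restrict (Icc 0 T)) ≤
        ENNReal.ofReal B * ENNReal.ofReal (T ^ e) := by
      have h5 := eLpNorm_le_eLpNorm_mul_rpow_measure_univ (μ := volume.restrict (Icc 0 T))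
        (p := r) (q := 4) (by rw [hr]; exact hpq) hc.aestronglyMeasurable
      rw [hμ, ← he, ENNReal.ofReal_rpow_of_pos hT] at h5
      refine h5.trans ?_
      gcongr
      exact hGB
    refine s1.trans ?_
    rw [s2, s3]
    calc ENNReal.ofReal (A ^ (1 - θ)) *
          (eLpNorm (fun t => (eLpNorm (G t) 4 sig).toReal) r (volume.restrict (Icc 0 T))) ^ θ
        ≤ ENNReal.ofReal (A ^ (1 - θ)) * (ENNReal.ofReal B * ENNReal.ofReal (T ^ e)) ^ θ := by
          gcongr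
      _ = ENNReal.ofReal ((T ^ e) ^ θ * (A ^ (1 - θ) * B ^ θ)) := by
          rw [← ENNReal.ofReal_mul hB, ENNReal.ofReal_rpow_of_nonneg (by positivity) hpos.le,
            ← ENNReal.ofReal_mul hA1, Real.mul_rpow hB (by positivity)]
          congr 1
          ring

theorem eL2 {f : S → ℂ} (hf : Continuous f) :
    eLpNorm f 2 sig = ENNReal.ofReal (√(∫ x, ‖f x‖ ^ 2 ∂sig)) := by
  rw [MemLp.eLpNorm_eq_integral_rpow_norm (by norm_num) (by norm_num) (memLp_of_cont hf 2)]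
  have h4 : (2 : ℝ≥0∞).toReal = ((2:ℕ):ℝ) := by norm_num
  rw [h4, Real.sqrt_eq_rpow]
  congr 2
  · apply integral_congr_ae
    exact Filter.Eventually.of_forall fun x => Real.rpow_natCast _ _
  · norm_num

theorem energy {F : ℕ → S → ℂ} (hF : ∀ n, IsSphHarm n (F n)) (N M : ℕ) (t : ℝ) :
    ∫ x, ‖blk F N M t x‖ ^ 2 ∂sig = ∑ n ∈ Finset.Ico N M, ∫ x, ‖F n x‖ ^ 2 ∂sig := by
  have hFc : ∀ n, Continuous (F n) := fun n => cont_F (hF n)
  obtain ⟨c, hc⟩ : ∃ c : ℕ → ℂ, c = fun n => Complex.exp (((t * Lam n : ℝ) : ℂ) * Complex.I) :=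
    ⟨_, rfl⟩
  have hc1 : ∀ n, c n * (starRingEnd ℂ) (c n) = 1 := by
    intro n
    rw [Complex.mul_conj, Complex.normSq_eq_norm_sq, hc]
    simp only
    rw [Complex.norm_exp_ofReal_mul_I]
    norm_num
  have hint : ∀ n m, Integrable (fun x => (c n * (starRingEnd ℂ) (c m)) *
      (F n x * (starRingEnd ℂ) (F m x))) sig := by
    intro n m
    have h1 := hFc n
    have h2 := hFc m
    have h3 : Continuous (fun x => (c n * (starRingEnd ℂ) (c m)) *
      (F n x * (starRingEnd ℂ) (F m x))) := by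
      apply Continuous.mul continuous_const
      exact h1.mul (Complex.continuous_conj.comp h2)
    exact (memLp_of_cont h3 1).integrable le_rfl
  have hd : ∀ n, ∫ x, F n x * (starRingEnd ℂ) (F n x) ∂sig = ((∫ x, ‖F n x‖ ^ 2 ∂sig : ℝ) : ℂ) := by
    intro n
    rw [← integral_complex_ofReal]
    congr 1
    funext x
    rw [Complex.mul_conj, Complex.normSq_eq_norm_sq]
  have key : ((∫ x, ‖blk F N M t x‖ ^ 2 ∂sig : ℝ) : ℂ)
      = ((∑ n ∈ Finset.Ico N M, ∫ x, ‖F n x‖ ^ 2 ∂sig : ℝ) : ℂ) := by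
    rw [← integral_complex_ofReal]
    have e1 : ∀ x, ((‖blk F N M t x‖ ^ 2 : ℝ) : ℂ) = ∑ n ∈ Finset.Ico N M,
        ∑ m ∈ Finset.Ico N M, (c n * (starRingEnd ℂ) (c m)) *
          (F n x * (starRingEnd ℂ) (F m x)) := by
      intro x
      rw [← Complex.normSq_eq_norm_sq, ← Complex.mul_conj]
      have : blk F N M t x = ∑ n ∈ Finset.Ico N M, c n * F n x := by rw [hc]; rfl
      rw [this, map_sum, Finset.sum_mul_sum]
      apply Finset.sum_congr rfl
      intro n _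
      apply Finset.sum_congr rfl
      intro m _
      rw [map_mul]
      ring
    simp only [e1]
    rw [integral_finsetSum _ (fun n _ => integrable_finsetSum _ (fun m _ => hint n m))]
    push_cast
    apply Finset.sum_congr rfl
    intro n hn
    rw [integral_finsetSum _ (fun m _ => hint n m)]
    have e2 : ∀ m ∈ Finset.Ico N M, m ≠ n → ∫ x, (c n * (starRingEnd ℂ) (c m)) *
          (F n x * (starRingEnd ℂ) (F m x)) ∂sig = 0 := by
      intro m _ hmn
      rw [integral_const_mul, orth n m (Ne.symm hmn) (F n) (F m) (hF n) (hF m), mul_zero]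
    rw [Finset.sum_eq_single_of_mem n hn e2, integral_const_mul, hc1, one_mul, hd]
  exact_mod_cast key

theorem rpow_split {x θ : ℝ} (hx : 0 ≤ x) (h0 : 0 ≤ θ) (h1 : θ ≤ 1) {b : ℝ} (hb : 0 ≤ b) :
    x ^ (1 - θ) * (b * x) ^ θ = b ^ θ * x := by
  rw [Real.mul_rpow hb hx]
  have : x ^ (1 - θ) * x ^ θ = x := by
    rw [← Real.rpow_add_of_nonneg hx (by linarith) h0]
    simp
  calc x ^ (1 - θ) * (b ^ θ * x ^ θ) = b ^ θ * (x ^ (1 - θ) * x ^ θ) := by ring
    _ = _ := by rw [this]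

-- ===== TARGET (prove this; the lemmas above may be used with their sorry) =====
/-- the sharp range `2 ≤ q ≤ 4`, `1/p ≥ 1/2 - 1/q` -/
theorem final3 (p : ℝ≥0∞) (q s : ℝ) (hp : 1 ≤ p) (h2 : 2 ≤ q) (h4 : q ≤ 4)
    (hpq : p * ENNReal.ofReal (2 - 4 / q) ≤ 4) (hs : 3 / 8 * (1 - 2 / q) < s) :
    StrichartzFin p (ENNReal.ofReal q) s := by
  intro T hT
  obtain ⟨κ, hκ, hin⟩ := NQ_interp p q T hT hp h2 h4 hpq
  have hq0' : 0 < q := by linarith
  have hq4 : 4 / q ≤ 2 := by rw [div_le_iff₀ hq0']; linarith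
  have hq4' : 1 ≤ 4 / q := by rw [le_div_iff₀ hq0']; linarith
  obtain ⟨θ, hθ⟩ : ∃ θ : ℝ, θ = 2 - 4 / q := ⟨_, rfl⟩
  rw [← hθ] at hin
  have hθ0 : 0 ≤ θ := by rw [hθ]; linarith
  have hθ1 : θ ≤ 1 := by rw [hθ]; linarith
  have hsθ : 3 / 16 * θ < s := by
    have : 3 / 16 * θ = 3 / 8 * (1 - 2 / q) := by rw [hθ]; field_simp; ring
    rw [this]; exact hs
  obtain ⟨s', hs'⟩ : ∃ s' : ℝ, s' = 3 / 16 + (s - 3 / 16 * θ) / 2 := ⟨_, rfl⟩
  have hs'1 : 3 / 16 < s' := by rw [hs']; linarith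
  have hs'2 : s' * θ < s := by
    rw [hs']
    nlinarith
  have hs0 : 0 < s := by nlinarith
  obtain ⟨C, hC, hdy⟩ := dyadic3 s' hs'1 T hT
  obtain ⟨ρ, hρd⟩ : ∃ ρ : ℝ, ρ = (2:ℝ) ^ (-(s - s' * θ)) := ⟨_, rfl⟩
  have hρ0 : 0 < ρ := by rw [hρd]; positivity
  have hρ1 : ρ < 1 := by
    rw [hρd]; exact Real.rpow_lt_one_of_one_lt_of_neg (by norm_num) (by linarith)
  have hσ := sig_pos
  set σ := sig.real univ with hσd
  refine ⟨κ * ((T / σ) ^ (1/4 : ℝ)) ^ θ + κ * (C ^ (1/4 : ℝ)) ^ θ * (1 / (1 - ρ)), ?_⟩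
  intro K F0 hF0
  -- truncated family
  let F : ℕ → S → ℂ := fun n => if n < K then F0 n else fun _ => 0
  have hFh : ∀ n, IsSphHarm n (F n) := by
    intro n
    by_cases h : n < K
    · simp only [F, h, if_true]; exact hF0 n
    · simp only [F, h, if_false]
      refine ⟨0, MvPolynomial.isHomogeneous_zero _ _ _, by simp, by simp⟩
  have hFc : ∀ n, Continuous (F n) := fun n => cont_F (hFh n)
  let Q : ℝ := ∑ n ∈ Finset.range K, (1 + (n : ℝ)) ^ (2 * s) * ∫ x, ‖F0 n x‖ ^ 2 ∂sig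
  have hQd : Hnorm s K F0 = √Q := rfl
  let u : ℕ → ℝ := fun n => (1 + (n : ℝ)) ^ (2 * s) * ∫ x, ‖F n x‖ ^ 2 ∂sig
  have hint : ∀ n, 0 ≤ ∫ x, ‖F n x‖ ^ 2 ∂sig := fun n => integral_nonneg fun x => by positivity
  have hu0 : ∀ n, 0 ≤ u n := fun n => mul_nonneg (by positivity) (hint n)
  have huK : ∀ n, ¬ n < K → u n = 0 := by
    intro n h
    simp only [u, F, h, if_false]
    simp
  have hQu : Q = ∑ n ∈ Finset.range K, u n := by
    apply Finset.sum_congr rfl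
    intro n hn
    rw [Finset.mem_range] at hn
    simp only [u, F, hn, if_true]
  have hQ0 : 0 ≤ Q := by rw [hQu]; exact Finset.sum_nonneg fun n _ => hu0 n
  have hsub : ∀ A : Finset ℕ, ∑ n ∈ A, u n ≤ Q := by
    intro A
    rw [hQu]
    have h1 : ∑ n ∈ A, u n = ∑ n ∈ A.filter (fun n => n < K), u n := by
      rw [Finset.sum_filter]
      apply Finset.sum_congr rfl
      intro n _
      by_cases h : n < K
      · rw [if_pos h]
      · rw [if_neg h, huK n h]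
    rw [h1]
    apply Finset.sum_le_sum_of_subset_of_nonneg
    · intro n hn
      rw [Finset.mem_filter] at hn
      exact Finset.mem_range.mpr hn.2
    · intro n _ _; exact hu0 n
  -- the `L²` bound of a block
  have hL2 : ∀ N M t, eLpNorm (blk F N M t) 2 sig ≤
      ENNReal.ofReal (√(∑ n ∈ Finset.Ico N M, ∫ x, ‖F n x‖ ^ 2 ∂sig)) := by
    intro N M t
    have hc : Continuous (blk F N M t) := (blk_cont hFc N M).comp (Continuous.prodMk_right t)
    rw [eL2 hc, energy hFh]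
  -- zero block
  have hz0 : NN T (blk F 0 1) ≤ ENNReal.ofReal ((T / σ) ^ (1/4 : ℝ) * √Q) := by
    rw [NN_eq T (blk_cont hFc 0 1)]
    apply ENNReal.ofReal_le_ofReal
    apply quart
    · exact integral_nonneg fun t => integral_nonneg fun x => by positivity
    · positivity
    · exact hQ0
    · obtain ⟨c, hc⟩ := const_zero (hFh 0)
      have e1 : ∀ t x, ‖blk F 0 1 t x‖ ^ 4 = ‖c‖ ^ 4 := by
        intro t x
        simp [blk, hc x, Lam]
      have e2 : ∫ t in Icc 0 T, ∫ x, ‖blk F 0 1 t x‖ ^ 4 ∂sig = T * (σ * ‖c‖ ^ 4) := by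
        simp only [e1]
        rw [integral_const, integral_const, smul_eq_mul, smul_eq_mul]
        congr 1
        simp [hT.le]
      have e3 : σ * ‖c‖ ^ 2 ≤ Q := by
        have h1 := hsub {0}
        rw [Finset.sum_singleton] at h1
        have h2 : u 0 = σ * ‖c‖ ^ 2 := by
          simp only [u, hc]
          rw [integral_const, smul_eq_mul]
          simp [hσd]
        rw [h2] at h1; exact h1
      rw [e2]
      have h5 : (σ * ‖c‖ ^ 2) ^ 2 ≤ Q ^ 2 := pow_le_pow_left₀ (by positivity) e3 2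
      have h6 : T * (σ * ‖c‖ ^ 4) = T / σ * (σ * ‖c‖ ^ 2) ^ 2 := by
        field_simp
      rw [h6]
      exact mul_le_mul_of_nonneg_left h5 (by positivity)
  have hz : NQ p q T (blk F 0 1) ≤
      ENNReal.ofReal (κ * ((T / σ) ^ (1/4 : ℝ)) ^ θ * √Q) := by
    have h1 := hin (blk F 0 1) (blk_cont hFc 0 1) (√Q) ((T / σ) ^ (1/4 : ℝ) * √Q)
      (Real.sqrt_nonneg _) (by positivity) (fun t => (hL2 0 1 t).trans (by
        apply ENNReal.ofReal_le_ofReal
        apply Real.sqrt_le_sqrt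
        have h1 := hsub {0}
        rw [Finset.sum_singleton] at h1
        have h3 : u 0 = ∑ n ∈ Finset.Ico 0 1, ∫ x, ‖F n x‖ ^ 2 ∂sig := by
          simp [u]
        rw [← h3]; exact h1)) hz0
    rw [rpow_split (Real.sqrt_nonneg _) hθ0 hθ1 (by positivity), ← mul_assoc] at h1
    exact h1
  -- dyadic blocks
  have hb : ∀ j : ℕ, NQ p q T (blk F (2 ^ j) (2 * 2 ^ j)) ≤
      ENNReal.ofReal (κ * (C ^ (1/4 : ℝ)) ^ θ * ρ ^ j * √Q) := by
    intro j
    have hN1 : 1 ≤ 2 ^ j := Nat.one_le_two_pow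
    have hN0 : (0:ℝ) < ((2 ^ j : ℕ) : ℝ) := by positivity
    have h1 := hdy (2 ^ j) F hN1 hFh
    set N : ℕ := 2 ^ j with hNd
    set A : ℝ := ∑ n ∈ Finset.Ico N (2 * N), ∫ x, ‖F n x‖ ^ 2 ∂sig with hA
    have hA0 : 0 ≤ A := Finset.sum_nonneg fun n _ => hint n
    have hAQ : (N:ℝ) ^ (2 * s) * A ≤ Q := by
      refine le_trans ?_ (hsub (Finset.Ico N (2 * N)))
      rw [hA, Finset.mul_sum]
      apply Finset.sum_le_sum
      intro n hn
      rw [Finset.mem_Ico] at hn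
      apply mul_le_mul_of_nonneg_right _ (hint n)
      apply Real.rpow_le_rpow hN0.le _ (by linarith)
      have : (N:ℝ) ≤ n := by exact_mod_cast hn.1
      linarith
    have hX0 : 0 ≤ ∫ t in Icc 0 T, ∫ x, ‖blk F N (2 * N) t x‖ ^ 4 ∂sig :=
      integral_nonneg fun t => integral_nonneg fun x => by positivity
    have hA2 : √A ≤ (N:ℝ) ^ (-s) * √Q := by
      have h2 : A ≤ ((N:ℝ) ^ (-s)) ^ 2 * Q := by
        have h3 : A = ((N:ℝ) ^ (-s)) ^ 2 * ((N:ℝ) ^ (2 * s) * A) := by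
          rw [← mul_assoc, ← Real.rpow_natCast ((N:ℝ) ^ (-s)) 2, ← Real.rpow_mul hN0.le,
            ← Real.rpow_add hN0]
          have : -s * ((2:ℕ):ℝ) + 2 * s = 0 := by push_cast; ring
          rw [this]; simp
        rw [h3]
        exact mul_le_mul_of_nonneg_left hAQ (by positivity)
      refine (Real.sqrt_le_sqrt h2).trans (le_of_eq ?_)
      rw [Real.sqrt_mul (by positivity), Real.sqrt_sq (by positivity)]
    have hB : NN T (blk F N (2 * N)) ≤
        ENNReal.ofReal ((C ^ (1/4 : ℝ) * (N:ℝ) ^ s') * √A) := by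
      rw [NN_eq T (blk_cont hFc _ _)]
      apply ENNReal.ofReal_le_ofReal
      have h5 := quart hX0 (D := C * (N:ℝ) ^ (4 * s')) (by positivity) hA0 h1
      refine h5.trans (le_of_eq ?_)
      rw [Real.mul_rpow hC.le (by positivity), ← Real.rpow_mul hN0.le]
      congr 3
      ring
    have h6 := hin (blk F N (2 * N)) (blk_cont hFc _ _) (√A) _ (Real.sqrt_nonneg _)
      (by positivity) (fun t => hL2 _ _ t) hB
    rw [rpow_split (Real.sqrt_nonneg _) hθ0 hθ1 (by positivity)] at h6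
    refine h6.trans (ENNReal.ofReal_le_ofReal ?_)
    have h7 : (C ^ (1/4 : ℝ) * (N:ℝ) ^ s') ^ θ = (C ^ (1/4 : ℝ)) ^ θ * (N:ℝ) ^ (s' * θ) := by
      rw [Real.mul_rpow (by positivity) (by positivity), ← Real.rpow_mul hN0.le]
    have h8 : (N:ℝ) ^ (s' * θ) * (N:ℝ) ^ (-s) = ρ ^ j := by
      rw [← Real.rpow_add hN0, hρd, ← Real.rpow_natCast ((2:ℝ) ^ (-(s - s' * θ))) j,
        ← Real.rpow_mul (by norm_num), hNd]
      push_cast
      rw [← Real.rpow_natCast 2 j, ← Real.rpow_mul (by norm_num)]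
      congr 1
      ring
    calc κ * ((C ^ (1/4 : ℝ) * (N:ℝ) ^ s') ^ θ * √A)
        ≤ κ * ((C ^ (1/4 : ℝ) * (N:ℝ) ^ s') ^ θ * ((N:ℝ) ^ (-s) * √Q)) := by gcongr
      _ = κ * (C ^ (1/4 : ℝ)) ^ θ * ((N:ℝ) ^ (s' * θ) * (N:ℝ) ^ (-s)) * √Q := by
          rw [h7]; ring
      _ = _ := by rw [h8]
  -- summation
  have hq1 : (1:ℝ) ≤ q := by linarith
  have hsum : ∀ J : ℕ, NQ p q T (blk F 0 (2 ^ J)) ≤
      ENNReal.ofReal ((κ * ((T / σ) ^ (1/4 : ℝ)) ^ θ +
        κ * (C ^ (1/4 : ℝ)) ^ θ * ∑ j ∈ Finset.range J, ρ ^ j) * √Q) := by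
    intro J
    induction J with
    | zero => simpa using hz
    | succ J ih =>
      have e1 : blk F 0 (2 ^ (J+1)) = fun t x => blk F 0 (2 ^ J) t x + blk F (2 ^ J) (2 * 2 ^ J) t x := by
        funext t x
        simp only [blk]
        rw [Finset.sum_Ico_consecutive _ (Nat.zero_le _) (by omega), pow_succ, mul_comm]
      rw [e1]
      refine (NQ_add p q T hp hq1 (blk_cont hFc _ _) (blk_cont hFc _ _)).trans ?_
      refine (add_le_add ih (hb J)).trans ?_
      rw [← ENNReal.ofReal_add (by positivity) (by positivity)]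
      apply ENNReal.ofReal_le_ofReal
      rw [Finset.sum_range_succ]
      apply le_of_eq
      ring
  have hsol : sol K F0 = blk F 0 (2 ^ K) := by
    funext t x
    simp only [sol, blk]
    have h1 : ∑ n ∈ Finset.Ico 0 (2 ^ K), Complex.exp (((t * Lam n : ℝ) : ℂ) * Complex.I) * F n x
        = ∑ n ∈ Finset.range K, Complex.exp (((t * Lam n : ℝ) : ℂ) * Complex.I) * F n x := by
      rw [← Finset.range_eq_Ico]
      symm
      apply Finset.sum_subset
      · intro n hn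
        rw [Finset.mem_range] at hn ⊢
        exact hn.trans Nat.lt_two_pow_self
      · intro n _ hn
        rw [Finset.mem_range] at hn
        simp only [F, hn, if_false, mul_zero]
    rw [h1]
    apply Finset.sum_congr rfl
    intro n hn
    rw [Finset.mem_range] at hn
    simp only [F, hn, if_true]
  have hfin := hsum K
  rw [← hsol] at hfin
  refine le_trans hfin ?_
  apply ENNReal.ofReal_le_ofReal
  rw [hQd]
  apply mul_le_mul_of_nonneg_right _ (Real.sqrt_nonneg _)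
  have := geo ρ hρ0.le hρ1 K
  have h7 : κ * (C ^ (1/4 : ℝ)) ^ θ * ∑ j ∈ Finset.range K, ρ ^ j ≤
      κ * (C ^ (1/4 : ℝ)) ^ θ * (1 / (1 - ρ)) :=
    mul_le_mul_of_nonneg_left this (by positivity)
  linarith

end Pool.Agent.Helper442.DR
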