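import Mathlib
import Pool.Agent.Helper442.DR.Defs
import Pool.Agent.Helper442.DR.M4

open MeasureTheory Set Metric Real
open scoped ENNReal

namespace Pool.Agent.Helper442.DR









instance q1_sig_fin : IsFiniteMeasure sig := by unfold sig; infer_instance

lemma q1_sph_cont {n : ℕ} {f : S → ℂ} (hf : IsSphHarm n f) : Continuous f := by
  obtain ⟨P, _, _, h⟩ := hf
  have : f = fun x : S => MvPolynomial.eval (fun i => (((x : E) i : ℝ) : ℂ)) P := funext h
  rw [this]
  exact (MvPolynomial.continuous_eval P).comp (by fun_prop)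

lemma q1_cint {f : S → ℂ} (hf : Continuous f) : Integrable f sig :=
  hf.integrable_of_hasCompactSupport (HasCompactSupport.of_compactSpace f)

lemma q1_sol_cont (K : ℕ) (F : ℕ → S → ℂ) (hF : ∀ n, IsSphHarm n (F n)) (t : ℝ) : Continuous (sol K F t) := by
  unfold sol
  have : ∀ n, Continuous (F n) := fun n => q1_sph_cont (hF n)
  fun_prop

lemma q1_l2 (K : ℕ) (F : ℕ → S → ℂ) (hF : ∀ n, IsSphHarm n (F n)) (t : ℝ) :
    ∫ x, ‖sol K F t x‖ ^ 2 ∂sig = ∑ n ∈ Finset.range K, ∫ x, ‖F n x‖ ^ 2 ∂sig := by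
  have hc : ∀ n, Continuous (F n) := fun n => q1_sph_cont (hF n)
  have hcc : ∀ n, Continuous (fun x => (starRingEnd ℂ) (F n x)) := fun n => Complex.continuous_conj.comp (hc n)
  set c : ℕ → ℂ := fun n => Complex.exp (((t * Lam n : ℝ) : ℂ) * Complex.I) with hcdef
  have hcn : ∀ n, c n * (starRingEnd ℂ) (c n) = 1 := by
    intro n
    rw [Complex.mul_conj, Complex.normSq_eq_norm_sq, Complex.norm_exp_ofReal_mul_I]
    simp
  have h1 : ((∫ x, ‖sol K F t x‖ ^ 2 ∂sig : ℝ) : ℂ) = ((∑ n ∈ Finset.range K, ∫ x, ‖F n x‖ ^ 2 ∂sig : ℝ) : ℂ) := by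
    rw [← integral_complex_ofReal]
    have e1 : ∀ x, ((‖sol K F t x‖ ^ 2 : ℝ) : ℂ) = ∑ n ∈ Finset.range K, ∑ m ∈ Finset.range K,
        (c n * (starRingEnd ℂ) (c m)) * (F n x * (starRingEnd ℂ) (F m x)) := by
      intro x
      have : ((‖sol K F t x‖ ^ 2 : ℝ) : ℂ) = sol K F t x * (starRingEnd ℂ) (sol K F t x) := by
        rw [Complex.mul_conj, Complex.normSq_eq_norm_sq]
      rw [this]
      unfold sol
      rw [map_sum, Finset.sum_mul_sum]
      apply Finset.sum_congr rfl
      intro n _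
      apply Finset.sum_congr rfl
      intro m _
      rw [map_mul]
      simp only [hcdef]
      ring
    simp only [e1]
    rw [integral_finsetSum _ (fun n _ => q1_cint (by
      have := hcc; have := hc
      fun_prop))]
    rw [Complex.ofReal_sum]
    apply Finset.sum_congr rfl
    intro n hn
    rw [integral_finsetSum _ (fun m _ => q1_cint (by
      have := hcc m; have := hc n
      fun_prop))]
    rw [Finset.sum_eq_single n]
    · rw [integral_const_mul, hcn, one_mul, ← integral_complex_ofReal]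
      apply integral_congr_ae
      refine Filter.Eventually.of_forall fun x => ?_
      simp only
      rw [Complex.mul_conj, Complex.normSq_eq_norm_sq]
    · intro m _ hmn
      rw [integral_const_mul, orth n m (Ne.symm hmn) _ _ (hF n) (hF m), mul_zero]
    · intro h; exact absurd hn h
  exact_mod_cast h1

lemma q1_H (s : ℝ) (hs : 0 ≤ s) (K : ℕ) (F : ℕ → S → ℂ) :
    √(∑ n ∈ Finset.range K, ∫ x, ‖F n x‖ ^ 2 ∂sig) ≤ Hnorm s K F := by
  unfold Hnorm
  apply Real.sqrt_le_sqrt
  apply Finset.sum_le_sum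
  intro n _
  have h1 : 0 ≤ ∫ x, ‖F n x‖ ^ 2 ∂sig := integral_nonneg fun x => by positivity
  have h2 : (1 : ℝ) ≤ (1 + (n : ℝ)) ^ (2 * s) := Real.one_le_rpow (by linarith [Nat.cast_nonneg (α := ℝ) n]) (by positivity)
  nlinarith

-- ===== TARGET (prove this; the lemmas above may be used with their sorry) =====
/-- `q ≤ 2`: the estimate holds for all `s ≥ 0` -/
theorem low_q (p q : ℝ≥0∞) (hp : 1 ≤ p) (hq : 1 ≤ q) (hq2 : q ≤ 2) (s : ℝ) (hs : 0 ≤ s) :
    StrichartzFin p q s := by

  intro T hT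
  have hq0 : q ≠ 0 := by rintro rfl; simp at hq
  have hqt : q ≠ ∞ := ne_top_of_le_ne_top (by norm_num) hq2
  set e : ℝ := 1 / q.toReal - 1 / (2 : ℝ≥0∞).toReal with he
  have he0 : 0 ≤ e := by
    have h1 : q.toReal ≤ 2 := by
      have := ENNReal.toReal_mono (by norm_num) hq2
      simpa using this
    have h2 : 0 < q.toReal := ENNReal.toReal_pos hq0 hqt
    rw [he]
    simp only [ENNReal.toReal_ofNat]
    have := one_div_le_one_div_of_le h2 h1
    linarith
  set A : ℝ≥0∞ := sig univ ^ e with hA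
  have hAt : A ≠ ∞ := ENNReal.rpow_ne_top_of_nonneg he0 (measure_ne_top _ _)
  set B : ℝ≥0∞ := (volume.restrict (Icc (0 : ℝ) T)) univ ^ p.toReal⁻¹ with hB
  have hBt : B ≠ ∞ := ENNReal.rpow_ne_top_of_nonneg (by positivity) (by
    rw [Measure.restrict_apply_univ]; simp)
  refine ⟨B.toReal * A.toReal, fun K F hF => ?_⟩
  have hH0 : 0 ≤ Hnorm s K F := Real.sqrt_nonneg _
  have hb : ∀ t : ℝ, (eLpNorm (sol K F t) q sig).toReal ≤ A.toReal * Hnorm s K F := by
    intro t
    have hcont := q1_sol_cont K F hF t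
    have hmem : MemLp (sol K F t) 2 sig := by
      have := hcont.memLp_of_hasCompactSupport (μ := sig) (p := 2) (HasCompactSupport.of_compactSpace _)
      exact this
    have h1 := eLpNorm_le_eLpNorm_mul_rpow_measure_univ (μ := sig) hq2 hcont.aestronglyMeasurable
    have h2 : eLpNorm (sol K F t) 2 sig = ENNReal.ofReal (√(∑ n ∈ Finset.range K, ∫ x, ‖F n x‖ ^ 2 ∂sig)) := by
      rw [MemLp.eLpNorm_eq_integral_rpow_norm (by norm_num) (by norm_num) hmem]
      congr 1
      rw [← q1_l2 K F hF t, Real.sqrt_eq_rpow]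
      simp
    have h3 : eLpNorm (sol K F t) q sig ≤ ENNReal.ofReal (Hnorm s K F) * A := by
      refine h1.trans ?_
      rw [h2]
      gcongr
      exact q1_H s hs K F
    have h4 := ENNReal.toReal_mono (ENNReal.mul_ne_top ENNReal.ofReal_ne_top hAt) h3
    rw [ENNReal.toReal_mul, ENNReal.toReal_ofReal hH0] at h4
    linarith
  have h5 := eLpNorm_le_of_ae_bound (μ := volume.restrict (Icc (0 : ℝ) T)) (p := p)
    (f := fun t => (eLpNorm (sol K F t) q sig).toReal) (C := A.toReal * Hnorm s K F)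
    (Filter.Eventually.of_forall fun t => by
      rw [Real.norm_of_nonneg ENNReal.toReal_nonneg]
      exact hb t)
  refine h5.trans ?_
  rw [← hB, mul_assoc, ENNReal.ofReal_mul (p := B.toReal) ENNReal.toReal_nonneg, ENNReal.ofReal_toReal hBt]

end Pool.Agent.Helper442.DR
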