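import Mathlib
import Pool.Agent.Helper442.DR.Defs
import Pool.Agent.Helper442.DR.M1
import Pool.Agent.Helper442.DR.M2
import Pool.Agent.Helper442.DR.M4
import Pool.Agent.Helper442.DR.M5
import Pool.Agent.Helper442.DR.M7

open MeasureTheory Set Metric Real
open scoped ENNReal

namespace Pool.Agent.Helper442.DR
















theorem q2_sig_fin : IsFiniteMeasure sig := by unfold sig; infer_instance

theorem q2_leg_cont : ∀ n, Continuous (leg n)
  | 0 => by
    have : leg 0 = fun _ => 1 := by funext x; simp [leg]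
    rw [this]; exact continuous_const
  | 1 => by
    have : leg 1 = fun x => x := by funext x; simp [leg]
    rw [this]; exact continuous_id
  | (n + 2) => by
    have h1 := q2_leg_cont (n + 1)
    have h0 := q2_leg_cont n
    have : leg (n + 2) = fun x => ((2 * n + 3) * x * leg (n + 1) x - (n + 1) * leg n x) / (n + 2) := by
      funext x; rw [leg]
    rw [this]; fun_prop

theorem q2_leg_one : ∀ n, leg n 1 = 1
  | 0 => by simp [leg]
  | 1 => by simp [leg]
  | (n + 2) => by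
    have h1 := q2_leg_one (n + 1)
    have h0 := q2_leg_one n
    rw [leg, h1, h0]
    have : (n : ℝ) + 2 ≠ 0 := by positivity
    field_simp
    ring

theorem q2_dot_cont (x : S) : Continuous (fun y : S => dot x y) := by
  unfold dot
  fun_prop

theorem q2_dot_self (x : S) : dot x x = 1 := by
  have h1 : ‖(x : E)‖ = 1 := by simp
  have h2 := EuclideanSpace.norm_sq_eq (x : E)
  rw [h1] at h2
  unfold dot
  simp only [Real.norm_eq_abs, sq_abs] at h2
  rw [Finset.sum_congr rfl (fun i _ => (sq ((x : E) i)).symm), ← h2]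
  norm_num

theorem q2_legd_cont (n : ℕ) (x : S) : Continuous (fun y : S => leg n (dot x y)) :=
  (q2_leg_cont n).comp (q2_dot_cont x)

theorem q2_cont_int (f : S → ℝ) (hf : Continuous f) : Integrable f sig := by
  have := q2_sig_fin
  exact hf.integrable_of_hasCompactSupport (HasCompactSupport.of_compactSpace f)

/-- inner products of Legendre kernels -/
theorem q2_leg_inner (j k : ℕ) (x : S) :
    ∫ y, leg j (dot x y) * leg k (dot x y) ∂sig = if j = k then 4 * π / (2 * j + 1) else 0 := by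
  have h := repro j k _ (zonal k x) x
  have h1 : ∀ y : S, (((2 * j + 1) / (4 * π) * leg j (dot x y) : ℝ) : ℂ) * ((leg k (dot x y) : ℝ) : ℂ)
      = (((2 * j + 1) / (4 * π) * (leg j (dot x y) * leg k (dot x y)) : ℝ) : ℂ) := by
    intro y
    push_cast
    ring
  simp_rw [h1] at h
  have h0 : ∫ y, (((2 * j + 1) / (4 * π) * (leg j (dot x y) * leg k (dot x y)) : ℝ) : ℂ) ∂sig
      = ((∫ y, ((2 * j + 1) / (4 * π) * (leg j (dot x y) * leg k (dot x y))) ∂sig : ℝ) : ℂ) :=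
    integral_ofReal
  rw [h0, integral_const_mul, q2_dot_self, q2_leg_one] at h
  have h2 : ((2 * (j:ℝ) + 1) / (4 * π)) * ∫ y, leg j (dot x y) * leg k (dot x y) ∂sig
      = if j = k then 1 else 0 := by
    by_cases hjk : j = k
    · rw [if_pos hjk] at h ⊢
      exact_mod_cast h
    · rw [if_neg hjk] at h ⊢
      exact_mod_cast h
  have hpi := Real.pi_pos
  have hj : (0:ℝ) < 2 * j + 1 := by positivity
  by_cases hjk : j = k
  · rw [if_pos hjk] at h2 ⊢
    rw [eq_div_iff hj.ne']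
    field_simp at h2
    linarith
  · rw [if_neg hjk] at h2 ⊢
    rcases mul_eq_zero.mp h2 with h3 | h3
    · exfalso
      have : 0 < (2 * (j:ℝ) + 1) / (4 * π) := by positivity
      linarith
    · exact h3

theorem q2_sum_four (n : ℕ) : ∑ r ∈ Finset.range (n + 1), 1 / (((r:ℝ) + 1) * (((n - r : ℕ) : ℝ) + 1))
    ≤ 2 * (1 + Real.log (n + 1)) / (n + 2) := by
  have h1 : ∀ r ∈ Finset.range (n + 1), 1 / (((r:ℝ) + 1) * (((n - r : ℕ) : ℝ) + 1))
      = (1 / ((n:ℝ) + 2)) * (1 / ((r:ℝ) + 1) + 1 / (((n - r : ℕ) : ℝ) + 1)) := by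
    intro r hr
    have hr' : r ≤ n := Nat.lt_succ_iff.mp (Finset.mem_range.mp hr)
    rw [Nat.cast_sub hr']
    have e1 : (0:ℝ) < (r:ℝ) + 1 := by positivity
    have e2 : (0:ℝ) < (n:ℝ) - r + 1 := by
      have : (r:ℝ) ≤ n := by exact_mod_cast hr'
      linarith
    have e3 : (0:ℝ) < (n:ℝ) + 2 := by positivity
    field_simp
    ring
  rw [Finset.sum_congr rfl h1, ← Finset.mul_sum, Finset.sum_add_distrib]
  have h2 : ∑ r ∈ Finset.range (n + 1), 1 / (((n - r : ℕ) : ℝ) + 1)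
      = ∑ r ∈ Finset.range (n + 1), 1 / ((r:ℝ) + 1) := by
    rw [← Finset.sum_range_reflect]
    apply Finset.sum_congr rfl
    intro r hr
    have hr' : r ≤ n := Nat.lt_succ_iff.mp (Finset.mem_range.mp hr)
    have : n - (n + 1 - 1 - r) = r := by omega
    rw [this]
  rw [h2]
  have h3 : ∑ r ∈ Finset.range (n + 1), 1 / ((r:ℝ) + 1) ≤ 1 + Real.log (n + 1) := by
    have h4 := harmonic_le_one_add_log (n + 1)
    have h5 : ((harmonic (n + 1) : ℚ) : ℝ) = ∑ r ∈ Finset.range (n + 1), 1 / ((r:ℝ) + 1) := by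
      unfold harmonic
      push_cast
      exact Finset.sum_congr rfl (fun r _ => by rw [one_div])
    rw [h5] at h4
    push_cast at h4
    exact h4
  have e3 : (0:ℝ) < (n:ℝ) + 2 := by positivity
  rw [div_mul_eq_mul_div, one_mul]
  apply div_le_div_of_nonneg_right _ e3.le
  linarith

theorem q2_ad_sq (n r : ℕ) (hn : 1 ≤ n) (hr : r ≤ n) :
    (ad n n r) ^ 2 ≤ 16 * π ^ 2 / ((n:ℝ) * ((r:ℝ) + 1) * (((n - r : ℕ) : ℝ) + 1) ^ 2) := by
  have hpi := Real.pi_pos
  have hn0 : (0:ℝ) < n := by exact_mod_cast hn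
  have h1 := c2_le n n n r hn le_rfl (by omega) le_rfl (by omega) (by rw [min_self]; exact hr)
  have h0 := c2_pos n n r
  unfold c2 at h1 h0
  have hA : (0:ℝ) < (2 * (n:ℝ) + 1) * (2 * n + 1) / (4 * π) := by positivity
  have had : 0 < ad n n r := by
    by_contra hcon
    rw [not_lt] at hcon
    have := mul_nonpos_of_nonneg_of_nonpos hA.le hcon
    linarith
  obtain ⟨a, ha⟩ : ∃ a : ℝ, a = (r:ℝ) + 1 := ⟨_, rfl⟩
  obtain ⟨b, hb⟩ : ∃ b : ℝ, b = (((n - r : ℕ) : ℝ) + 1) := ⟨_, rfl⟩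
  have ha0 : 0 < a := by rw [ha]; positivity
  have hb0 : 0 < b := by rw [hb]; positivity
  rw [← ha, ← hb] at h1 ⊢
  have hX : 0 < a * b * b := by positivity
  have h2 := mul_self_le_mul_self h0.le h1
  have h3 : (4 * (n : ℝ) ^ (3 / 2 : ℝ) / √(a * b * b)) * (4 * (n : ℝ) ^ (3 / 2 : ℝ) / √(a * b * b))
      = 16 * (n:ℝ) ^ 3 / (a * b * b) := by
    have e1 : (n : ℝ) ^ (3 / 2 : ℝ) * (n : ℝ) ^ (3 / 2 : ℝ) = (n:ℝ) ^ 3 := by
      rw [← Real.rpow_add hn0]
      norm_num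
    have e2 : √(a * b * b) * √(a * b * b) = a * b * b := Real.mul_self_sqrt hX.le
    rw [div_mul_div_comm, e2]
    congr 1
    linear_combination 16 * e1
  rw [h3] at h2
  have h4 : (n:ℝ) ^ 4 * 16 ≤ (2 * (n:ℝ) + 1) ^ 4 := by
    have : 2 * (n:ℝ) ≤ 2 * (n:ℝ) + 1 := by linarith
    have h5 := pow_le_pow_left₀ (by positivity) this 4
    calc (n:ℝ) ^ 4 * 16 = (2 * (n:ℝ)) ^ 4 := by ring
      _ ≤ _ := h5
  rw [le_div_iff₀ (by positivity)]
  rw [le_div_iff₀ hX] at h2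
  -- h2 : (c*ad)*(c*ad)*(a*b*b) ≤ 16 n^3
  have h5 : (2 * (n:ℝ) + 1) ^ 4 * ((ad n n r) ^ 2 * (a * b * b)) ≤ 256 * π ^ 2 * (n:ℝ) ^ 3 := by
    have e : (2 * (n:ℝ) + 1) ^ 4 * ((ad n n r) ^ 2 * (a * b * b))
        = 16 * π ^ 2 * ((2 * (n:ℝ) + 1) * (2 * n + 1) / (4 * π) * ad n n r
          * ((2 * (n:ℝ) + 1) * (2 * n + 1) / (4 * π) * ad n n r) * (a * b * b)) := by
      field_simp
      try ring
    rw [e]
    calc 16 * π ^ 2 * _ ≤ 16 * π ^ 2 * (16 * (n:ℝ) ^ 3) :=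
          mul_le_mul_of_nonneg_left h2 (by positivity)
      _ = 256 * π ^ 2 * (n:ℝ) ^ 3 := by ring
  have h6 : (n:ℝ) ^ 4 * 16 * ((ad n n r) ^ 2 * (a * b * b)) ≤ 256 * π ^ 2 * (n:ℝ) ^ 3 :=
    (mul_le_mul_of_nonneg_right h4 (by positivity)).trans h5
  have hn3 : (0:ℝ) < 16 * (n:ℝ) ^ 3 := by positivity
  have h7 : 16 * (n:ℝ) ^ 3 * ((ad n n r) ^ 2 * ((n:ℝ) * a * b ^ 2)) ≤ 16 * (n:ℝ) ^ 3 * (16 * π ^ 2) := by
    calc 16 * (n:ℝ) ^ 3 * ((ad n n r) ^ 2 * ((n:ℝ) * a * b ^ 2))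
        = (n:ℝ) ^ 4 * 16 * ((ad n n r) ^ 2 * (a * b * b)) := by ring
      _ ≤ 256 * π ^ 2 * (n:ℝ) ^ 3 := h6
      _ = _ := by ring
  exact le_of_mul_le_mul_left h7 hn3

theorem q2_four_eq (n : ℕ) (x : S) : ∫ y, |leg n (dot x y)| ^ 4 ∂sig
    = ∑ r ∈ Finset.range (n + 1), 4 * π * ((ad n n r) ^ 2 * (4 * ((n - r : ℕ) : ℝ) + 1)) := by
  obtain ⟨A, hA⟩ : ∃ A : ℕ → ℝ, A = fun r => ad n n r * (2 * ((n + n - 2 * r : ℕ) : ℝ) + 1) := ⟨_, rfl⟩
  have h1 : ∀ y : S, |leg n (dot x y)| ^ 4 = ∑ r ∈ Finset.range (n + 1), ∑ s ∈ Finset.range (n + 1),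
      (A r * A s) * (leg (n + n - 2 * r) (dot x y) * leg (n + n - 2 * s) (dot x y)) := by
    intro y
    have e := adams n n (dot x y)
    rw [min_self] at e
    have e1 : |leg n (dot x y)| ^ 4 = (leg n (dot x y) * leg n (dot x y))
        * (leg n (dot x y) * leg n (dot x y)) := by
      rw [show |leg n (dot x y)| ^ 4 = (|leg n (dot x y)| ^ 2) ^ 2 by ring, sq_abs]
      ring
    rw [e1, e, Finset.sum_mul_sum]
    refine Finset.sum_congr rfl (fun r _ => Finset.sum_congr rfl (fun s _ => ?_))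
    rw [hA]
    ring
  simp_rw [h1]
  have hci : ∀ r s : ℕ, Integrable (fun y : S => (A r * A s) *
      (leg (n + n - 2 * r) (dot x y) * leg (n + n - 2 * s) (dot x y))) sig := by
    intro r s
    apply q2_cont_int
    exact continuous_const.mul ((q2_legd_cont _ x).mul (q2_legd_cont _ x))
  rw [integral_finsetSum _ (fun r _ => integrable_finsetSum _ (fun s _ => hci r s))]
  refine Finset.sum_congr rfl (fun r hr => ?_)
  have hr' : r ≤ n := Nat.lt_succ_iff.mp (Finset.mem_range.mp hr)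
  rw [integral_finsetSum _ (fun s _ => hci r s)]
  rw [Finset.sum_eq_single r]
  · have hAr : A r = ad n n r * (2 * ((n + n - 2 * r : ℕ) : ℝ) + 1) := by rw [hA]
    rw [integral_const_mul, q2_leg_inner, if_pos rfl, hAr]
    have e2 : ((n + n - 2 * r : ℕ) : ℝ) = 2 * ((n - r : ℕ) : ℝ) := by
      have : n + n - 2 * r = 2 * (n - r) := by omega
      rw [this]
      push_cast
      ring
    rw [e2]
    have e3 : (0:ℝ) < 2 * (2 * ((n - r : ℕ) : ℝ)) + 1 := by positivity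
    field_simp
    ring
  · intro s hs hsr
    have hs' : s ≤ n := Nat.lt_succ_iff.mp (Finset.mem_range.mp hs)
    rw [integral_const_mul, q2_leg_inner, if_neg (by omega), mul_zero]
  · intro h
    exact absurd hr h

-- ===== TARGET (prove this; the lemmas above may be used with their sorry) =====
/-- fourth moment of the Legendre polynomials on the sphere -/
theorem leg_four : ∃ C : ℝ, 0 < C ∧ ∀ (n : ℕ) (x : S), 1 ≤ n →
    ∫ y, |leg n (dot x y)| ^ 4 ∂sig ≤ C * (1 + Real.log n) / (n : ℝ) ^ 2 := by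
  have hpi := Real.pi_pos
  refine ⟨1024 * π ^ 3, by positivity, fun n x hn => ?_⟩
  have hn0 : (0:ℝ) < n := by exact_mod_cast hn
  have hn1 : (1:ℝ) ≤ n := by exact_mod_cast hn
  rw [q2_four_eq]
  have h1 : ∑ r ∈ Finset.range (n + 1), 4 * π * ((ad n n r) ^ 2 * (4 * ((n - r : ℕ) : ℝ) + 1))
      ≤ ∑ r ∈ Finset.range (n + 1), (256 * π ^ 3 / n) * (1 / (((r:ℝ) + 1) * (((n - r : ℕ) : ℝ) + 1))) := by
    apply Finset.sum_le_sum
    intro r hr
    have hr' : r ≤ n := Nat.lt_succ_iff.mp (Finset.mem_range.mp hr)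
    have h2 := q2_ad_sq n r hn hr'
    obtain ⟨b, hb⟩ : ∃ b : ℝ, b = ((n - r : ℕ) : ℝ) := ⟨_, rfl⟩
    have hb0 : 0 ≤ b := by rw [hb]; positivity
    rw [← hb] at h2 ⊢
    have hr0 : (0:ℝ) < (r:ℝ) + 1 := by positivity
    calc 4 * π * ((ad n n r) ^ 2 * (4 * b + 1))
        ≤ 4 * π * ((16 * π ^ 2 / ((n:ℝ) * ((r:ℝ) + 1) * (b + 1) ^ 2)) * (4 * (b + 1))) := by
          apply mul_le_mul_of_nonneg_left _ (by positivity)
          exact mul_le_mul h2 (by linarith) (by positivity) (by positivity)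
      _ = (256 * π ^ 3 / n) * (1 / (((r:ℝ) + 1) * (b + 1))) := by
          field_simp
          ring
  refine h1.trans ?_
  rw [← Finset.mul_sum]
  have h3 := q2_sum_four n
  have h4 : (256 * π ^ 3 / n) * ∑ r ∈ Finset.range (n + 1), 1 / (((r:ℝ) + 1) * (((n - r : ℕ) : ℝ) + 1))
      ≤ (256 * π ^ 3 / n) * (2 * (1 + Real.log (n + 1)) / (n + 2)) :=
    mul_le_mul_of_nonneg_left h3 (by positivity)
  refine h4.trans ?_
  have h5 : Real.log (n + 1) ≤ 1 + Real.log n := by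
    have e1 : Real.log ((n:ℝ) + 1) ≤ Real.log (2 * n) :=
      Real.log_le_log (by positivity) (by linarith)
    rw [Real.log_mul (by norm_num) hn0.ne'] at e1
    have e2 : Real.log 2 ≤ 1 := by
      have := Real.log_two_lt_d9
      linarith
    linarith
  have hlog : 0 ≤ Real.log n := Real.log_nonneg hn1
  have h6 : 2 * (1 + Real.log (n + 1)) / ((n:ℝ) + 2) ≤ 4 * (1 + Real.log n) / n := by
    apply div_le_div₀ (by positivity) (by linarith) hn0 (by linarith)
  calc (256 * π ^ 3 / n) * (2 * (1 + Real.log (n + 1)) / (n + 2))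
      ≤ (256 * π ^ 3 / n) * (4 * (1 + Real.log n) / n) :=
        mul_le_mul_of_nonneg_left h6 (by positivity)
    _ = 1024 * π ^ 3 * (1 + Real.log n) / (n : ℝ) ^ 2 := by
        field_simp
        ring

theorem leg_two (n : ℕ) (x : S) : ∫ y, |leg n (dot x y)| ^ 2 ∂sig = 4 * π / (2 * n + 1) := by
  have h := q2_leg_inner n n x
  rw [if_pos rfl] at h
  rw [← h]
  congr 1
  funext y
  rw [sq_abs, sq]

end Pool.Agent.Helper442.DR
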