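import Mathlib
import Pool.Agent.Helper442.DR.Defs
import Pool.Agent.Helper442.DR.M1
import Pool.Agent.Helper442.DR.M2
import Pool.Agent.Helper442.DR.M4
import Pool.Agent.Helper442.DR.Q2

open MeasureTheory Set Metric Real
open scoped ENNReal

namespace Pool.Agent.Helper442.DR














-- ===== TARGET (prove this; the lemmas above may be used with their sorry) =====
theorem nf_cont_leg : ∀ n : ℕ, Continuous (leg n)
  | 0 => by
    have : leg 0 = fun _ => 1 := by funext x; rfl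
    rw [this]; exact continuous_const
  | 1 => by
    have : leg 1 = fun x => x := by funext x; rfl
    rw [this]; exact continuous_id
  | (n + 2) => by
    have h1 := nf_cont_leg (n + 1)
    have h0 := nf_cont_leg n
    have : leg (n + 2) = fun x => ((2 * n + 3) * x * leg (n + 1) x - (n + 1) * leg n x) / (n + 2) := by
      funext x; rfl
    rw [this]
    fun_prop

theorem nf_cont_dot (x : S) : Continuous (fun y : S => dot x y) := by
  unfold dot
  fun_prop

theorem nf_cont (n : ℕ) (x : S) : Continuous (fun y : S => leg n (dot x y)) :=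
  (nf_cont_leg n).comp (nf_cont_dot x)

instance nf_fin : IsFiniteMeasure sig := by unfold sig; infer_instance

theorem nf_key (n : ℕ) (x : S) (l : ℝ) (hl : 0 < l) :
    ∫ y, |leg n (dot x y)| ^ 2 ∂sig ≤ l * ∫ y, |leg n (dot x y)| ∂sig +
      (∫ y, |leg n (dot x y)| ^ 4 ∂sig) / l ^ 2 := by
  have hc := (nf_cont n x).abs
  have i1 : Integrable (fun y : S => |leg n (dot x y)|) sig :=
    hc.integrable_of_hasCompactSupport (HasCompactSupport.of_compactSpace _)
  have i2 : Integrable (fun y : S => |leg n (dot x y)| ^ 2) sig :=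
    (hc.pow 2).integrable_of_hasCompactSupport (HasCompactSupport.of_compactSpace _)
  have i4 : Integrable (fun y : S => |leg n (dot x y)| ^ 4) sig :=
    (hc.pow 4).integrable_of_hasCompactSupport (HasCompactSupport.of_compactSpace _)
  rw [← integral_const_mul, ← integral_div, ← integral_add (i1.const_mul l) (i4.div_const _)]
  refine integral_mono i2 ((i1.const_mul l).add (i4.div_const _)) ?_
  intro y
  simp only
  set a := |leg n (dot x y)| with ha
  have ha0 : 0 ≤ a := abs_nonneg _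
  rcases le_total a l with h | h
  · have h1 : a ^ 2 ≤ l * a := by nlinarith
    have h2 : 0 ≤ a ^ 4 / l ^ 2 := by positivity
    linarith
  · have h1 : a ^ 2 ≤ a ^ 4 / l ^ 2 := by
      rw [le_div_iff₀ (by positivity)]
      have : l ^ 2 ≤ a ^ 2 := by gcongr
      nlinarith [sq_nonneg a]
    have h2 : 0 ≤ l * a := by positivity
    linarith

theorem nf_lim (s : ℝ) (hs : s < 0) : Filter.Tendsto
    (fun n : ℕ => (1 + Real.log (1 + (n : ℝ))) * (1 + (n : ℝ)) ^ (2 * s)) Filter.atTop (nhds 0) := by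
  have h1 : Filter.Tendsto (fun x : ℝ => Real.log x / x ^ (-(2 * s))) Filter.atTop (nhds 0) :=
    (isLittleO_log_rpow_atTop (by linarith)).tendsto_div_nhds_zero
  have h2 : Filter.Tendsto (fun x : ℝ => x ^ (-(-(2 * s)))) Filter.atTop (nhds 0) :=
    tendsto_rpow_neg_atTop (by linarith)
  have h3 : Filter.Tendsto (fun x : ℝ => (1 + Real.log x) * x ^ (2 * s)) Filter.atTop (nhds 0) := by
    have h4 := h2.add h1
    rw [add_zero] at h4
    refine h4.congr' ?_
    filter_upwards [Filter.eventually_gt_atTop (0 : ℝ)] with x hx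
    rw [neg_neg, Real.rpow_neg hx.le, div_inv_eq_mul]
    ring
  have h5 : Filter.Tendsto (fun n : ℕ => 1 + (n : ℝ)) Filter.atTop Filter.atTop :=
    Filter.tendsto_atTop_add_const_left _ _ tendsto_natCast_atTop_atTop
  exact h3.comp h5

theorem nf_main (p q : ℝ≥0∞) (hp : 1 ≤ p) (hq : 1 ≤ q) (s : ℝ) (h : StrichartzFin p q s)
    (x : S) : ∃ G : ℝ, 0 ≤ G ∧ ∀ n : ℕ, ∫ y, |leg n (dot x y)| ∂sig ≤
      G * √((1 + (n : ℝ)) ^ (2 * s) * (4 * π / (2 * n + 1))) := by
  obtain ⟨C, hC⟩ := h 1 one_pos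
  set D : ℝ≥0∞ := sig Set.univ ^ (1 / (1 : ℝ≥0∞).toReal - 1 / q.toReal) with hD
  have hDfin : D ≠ ⊤ := by
    refine ENNReal.rpow_ne_top_of_nonneg ?_ (measure_ne_top _ _)
    rw [ENNReal.toReal_one, div_one]
    rcases eq_or_ne q ⊤ with hqt | hqt
    · rw [hqt]; simp
    · have h1 : 1 ≤ q.toReal := by
        have := ENNReal.toReal_mono hqt hq
        simpa using this
      have h2 : 1 / q.toReal ≤ 1 := by
        rw [div_le_one (by linarith)]
        exact h1
      linarith
  refine ⟨|C| * D.toReal, by positivity, fun n => ?_⟩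
  set f : S → ℝ := fun y => leg n (dot x y) with hf
  have hfc : Continuous f := nf_cont n x
  have hfm : ∀ r : ℝ≥0∞, MemLp f r sig := fun r =>
    hfc.memLp_of_hasCompactSupport (HasCompactSupport.of_compactSpace _)
  set F : ℕ → S → ℂ := fun m y => if m = n then ((f y : ℝ) : ℂ) else 0 with hF
  have hFh : ∀ m, IsSphHarm m (F m) := by
    intro m
    by_cases hm : m = n
    · subst hm
      have := zonal m x
      simpa [hF, hf] using this
    · refine ⟨0, MvPolynomial.isHomogeneous_zero _ _ _, by simp, ?_⟩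
      intro y
      simp [hF, hm]
  have hsol : ∀ t y, sol (n + 1) F t y =
      Complex.exp (((t * Lam n : ℝ) : ℂ) * Complex.I) * ((f y : ℝ) : ℂ) := by
    intro t y
    unfold sol
    rw [Finset.sum_eq_single n]
    · simp [hF]
    · intro m _ hm
      simp [hF, hm]
    · intro hn
      exact absurd (Finset.mem_range.2 (Nat.lt_succ_self n)) hn
  have hnorm : ∀ t, eLpNorm (sol (n + 1) F t) q sig = eLpNorm f q sig := by
    intro t
    refine eLpNorm_congr_norm_ae (Filter.Eventually.of_forall fun y => ?_)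
    rw [hsol, norm_mul, Complex.norm_exp_ofReal_mul_I, one_mul, Complex.norm_real]
  have hH : Hnorm s (n + 1) F = √((1 + (n : ℝ)) ^ (2 * s) * (4 * π / (2 * n + 1))) := by
    unfold Hnorm
    rw [Finset.sum_eq_single n]
    · congr 2
      rw [← leg_two n x]
      refine integral_congr_ae (Filter.Eventually.of_forall fun y => ?_)
      simp [hF, hf]
    · intro m _ hm
      simp [hF, hm]
    · intro hn
      exact absurd (Finset.mem_range.2 (Nat.lt_succ_self n)) hn
  have h1 := hC (n + 1) F hFh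
  rw [hH] at h1
  have h2 : (fun t => (eLpNorm (sol (n + 1) F t) q sig).toReal) = fun _ => (eLpNorm f q sig).toReal := by
    funext t
    rw [hnorm t]
  have hp0 : p ≠ 0 := (lt_of_lt_of_le one_pos hp).ne'
  have hvol : (volume.restrict (Icc (0 : ℝ) 1)) Set.univ = 1 := by
    rw [Measure.restrict_apply_univ, Real.volume_Icc]
    simp
  have hv0 : (volume.restrict (Icc (0 : ℝ) 1)) ≠ 0 := by
    intro h0
    rw [h0] at hvol
    simp at hvol
  rw [h2, eLpNorm_const _ hp0 hv0, hvol, ENNReal.one_rpow, mul_one] at h1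
  set R : ℝ := √((1 + (n : ℝ)) ^ (2 * s) * (4 * π / (2 * n + 1))) with hR
  have hR0 : 0 ≤ R := Real.sqrt_nonneg _
  have h3 : (eLpNorm f q sig).toReal ≤ |C| * R := by
    have h4 : ENNReal.ofReal (eLpNorm f q sig).toReal ≤ ENNReal.ofReal (|C| * R) := by
      have h5 : ‖(eLpNorm f q sig).toReal‖ₑ = ENNReal.ofReal (eLpNorm f q sig).toReal := by
        rw [← ofReal_norm, Real.norm_of_nonneg ENNReal.toReal_nonneg]
      rw [← h5]
      refine h1.trans (ENNReal.ofReal_le_ofReal ?_)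
      exact mul_le_mul_of_nonneg_right (le_abs_self C) hR0
    exact (ENNReal.ofReal_le_ofReal_iff (by positivity)).1 h4
  have h6 : eLpNorm f 1 sig ≤ eLpNorm f q sig * D :=
    eLpNorm_le_eLpNorm_mul_rpow_measure_univ hq (hfm q).1
  have h7 : ∫ y, |f y| ∂sig = (eLpNorm f 1 sig).toReal := by
    rw [eLpNorm_one_eq_lintegral_enorm, ← integral_norm_eq_lintegral_enorm (hfm 1).1]
    rfl
  have h8 : (eLpNorm f 1 sig).toReal ≤ (eLpNorm f q sig).toReal * D.toReal := by
    rw [← ENNReal.toReal_mul]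
    exact ENNReal.toReal_mono (ENNReal.mul_ne_top (hfm q).2.ne hDfin) h6
  change ∫ y, |f y| ∂sig ≤ _
  rw [h7]
  refine h8.trans ?_
  calc (eLpNorm f q sig).toReal * D.toReal ≤ (|C| * R) * D.toReal := by gcongr
    _ = |C| * D.toReal * R := by ring

/-- the estimate fails for every negative `s` -/
theorem neg_fails (p q : ℝ≥0∞) (hp : 1 ≤ p) (hq : 1 ≤ q) (s : ℝ) (hs : s < 0) : ¬ StrichartzFin p q s := by
  intro h
  set x0 : S := ⟨EuclideanSpace.single 0 1, by simp⟩ with hx0
  obtain ⟨G, hG0, hG⟩ := nf_main p q hp hq s h x0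
  obtain ⟨C, hC0, hC⟩ := leg_four
  have hlim := (nf_lim s hs).const_mul (C * G ^ 2 / 2)
  rw [mul_zero] at hlim
  have hev := hlim.eventually (gt_mem_nhds (show (0 : ℝ) < 1 by norm_num))
  obtain ⟨n, hn1, hn⟩ := ((Filter.eventually_ge_atTop 1).and hev).exists
  have hnpos : (0 : ℝ) < n := by exact_mod_cast hn1
  have hn1' : (1 : ℝ) ≤ n := by exact_mod_cast hn1
  have hlog : 0 ≤ Real.log n := Real.log_nonneg hn1'
  have hlog2 : Real.log n ≤ Real.log (1 + (n : ℝ)) := Real.log_le_log hnpos (by linarith)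
  set M1 : ℝ := ∫ y, |leg n (dot x0 y)| ∂sig with hM1
  set M4 : ℝ := ∫ y, |leg n (dot x0 y)| ^ 4 ∂sig with hM4
  set M2 : ℝ := 4 * π / (2 * n + 1) with hM2
  have h4 : M4 ≤ C * (1 + Real.log n) / (n : ℝ) ^ 2 := hC n x0 hn1
  set l : ℝ := √(C * (1 + Real.log n) / (2 * n)) with hl
  have hl2 : l ^ 2 = C * (1 + Real.log n) / (2 * n) := Real.sq_sqrt (by positivity)
  have hlpos : 0 < l := Real.sqrt_pos.2 (by positivity)
  have hk : M2 ≤ l * M1 + M4 / l ^ 2 := by
    have := nf_key n x0 l hlpos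
    rw [leg_two] at this
    exact this
  have hM2' : 4 / (n : ℝ) ≤ M2 := by
    rw [hM2, div_le_div_iff₀ hnpos (by positivity)]
    nlinarith [Real.pi_gt_three]
  have h5 : M4 / l ^ 2 ≤ 2 / n := by
    rw [hl2, div_le_div_iff₀ (by positivity) hnpos]
    have h6 : M4 * n ^ 2 ≤ C * (1 + Real.log n) := by
      rwa [le_div_iff₀ (by positivity)] at h4
    have h7 : 2 * (C * (1 + Real.log n) / (2 * n)) = C * (1 + Real.log n) / n := by
      field_simp
    rw [h7, le_div_iff₀ hnpos]
    calc M4 * n * n = M4 * n ^ 2 := by ring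
      _ ≤ _ := h6
  set R : ℝ := √((1 + (n : ℝ)) ^ (2 * s) * M2) with hR
  have hM2pos : 0 < M2 := lt_of_lt_of_le (by positivity) hM2'
  have hRs : R ^ 2 = (1 + (n : ℝ)) ^ (2 * s) * M2 := Real.sq_sqrt (by positivity)
  have h8 : M1 ≤ G * R := hG n
  have h9 : M2 / 2 ≤ l * (G * R) := by
    have : l * M1 ≤ l * (G * R) := by gcongr
    have h10 : 2 / (n : ℝ) ≤ M2 / 2 := by
      have : 2 / (n : ℝ) = (4 / n) / 2 := by ring
      rw [this]; gcongr
    linarith
  have h11 : (M2 / 2) ^ 2 ≤ (l * (G * R)) ^ 2 := by gcongr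
  have h12 : (l * (G * R)) ^ 2 = (C * (1 + Real.log n) / (2 * n)) * G ^ 2 *
      (1 + (n : ℝ)) ^ (2 * s) * M2 := by
    rw [mul_pow, mul_pow, hl2, hRs]; ring
  rw [h12] at h11
  have h13 : M2 / 4 ≤ (C * (1 + Real.log n) / (2 * n)) * G ^ 2 * (1 + (n : ℝ)) ^ (2 * s) := by
    have h14 : (M2 / 4) * M2 ≤ ((C * (1 + Real.log n) / (2 * n)) * G ^ 2 *
      (1 + (n : ℝ)) ^ (2 * s)) * M2 := by
      calc (M2 / 4) * M2 = (M2 / 2) ^ 2 := by ring
        _ ≤ _ := h11
    exact le_of_mul_le_mul_right h14 hM2pos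
  have h15 : 1 / (n : ℝ) ≤ (C * (1 + Real.log n) / (2 * n)) * G ^ 2 * (1 + (n : ℝ)) ^ (2 * s) := by
    refine le_trans ?_ h13
    have : 1 / (n : ℝ) = (4 / n) / 4 := by ring
    rw [this]; gcongr
  have h16 : 1 ≤ C * G ^ 2 / 2 * ((1 + Real.log n) * (1 + (n : ℝ)) ^ (2 * s)) := by
    have h17 : (C * (1 + Real.log n) / (2 * n)) * G ^ 2 * (1 + (n : ℝ)) ^ (2 * s) =
        (C * G ^ 2 / 2 * ((1 + Real.log n) * (1 + (n : ℝ)) ^ (2 * s))) / n := by
      field_simp
    rw [h17] at h15
    exact (div_le_div_iff_of_pos_right hnpos).1 h15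
  have h18 : C * G ^ 2 / 2 * ((1 + Real.log n) * (1 + (n : ℝ)) ^ (2 * s)) ≤
      C * G ^ 2 / 2 * ((1 + Real.log (1 + (n : ℝ))) * (1 + (n : ℝ)) ^ (2 * s)) := by
    gcongr
  linarith

end Pool.Agent.Helper442.DR
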