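import Mathlib
import Pool.Agent.Helper442.DR.Defs
import Pool.Agent.Helper442.DR.M1
import Pool.Agent.Helper442.DR.M2
import Pool.Agent.Helper442.DR.M4
import Pool.Agent.Helper442.DR.H2d

open MeasureTheory Set Metric Real
open scoped ENNReal

namespace Pool.Agent.Helper442.DR













namespace Q4h

theorem cont_F {n : ℕ} {f : S → ℂ} (h : IsSphHarm n f) : Continuous f := by
  obtain ⟨P, _, _, hP⟩ := h
  have : f = fun x : S => MvPolynomial.eval (fun i => (((x : E) i : ℝ) : ℂ)) P := funext hP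
  rw [this]
  have h1 : Continuous (fun x : S => (fun i => (((x : E) i : ℝ) : ℂ) : Fin 3 → ℂ)) := by
    fun_prop
  exact (MvPolynomial.continuous_eval P).comp h1

instance finsig : IsFiniteMeasure sig := by
  unfold sig; infer_instance

theorem memLp_of_cont {f : S → ℂ} (hf : Continuous f) (p : ℝ≥0∞) : MemLp f p sig := by
  obtain ⟨C, hC⟩ := isCompact_univ.exists_bound_of_continuousOn (f := f) hf.continuousOn
  exact MemLp.of_bound hf.aestronglyMeasurable C (Filter.Eventually.of_forall fun x => hC x (mem_univ x))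

theorem eL4 {f : S → ℂ} (hf : Continuous f) :
    eLpNorm f 4 sig = ENNReal.ofReal ((∫ x, ‖f x‖ ^ 4 ∂sig) ^ (1/4 : ℝ)) := by
  rw [MemLp.eLpNorm_eq_integral_rpow_norm (by norm_num) (by norm_num) (memLp_of_cont hf 4)]
  have h4 : (4 : ℝ≥0∞).toReal = ((4:ℕ):ℝ) := by norm_num
  rw [h4]
  congr 2
  · apply integral_congr_ae
    exact Filter.Eventually.of_forall fun x => Real.rpow_natCast _ _
  · norm_num

theorem cont_I {G : ℝ → S → ℂ} (hG : Continuous (Function.uncurry G)) :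
    Continuous (fun t => ∫ x, ‖G t x‖ ^ 4 ∂sig) := by
  have h := continuous_parametric_integral_of_continuous (μ := sig)
    (f := fun t x => ‖G t x‖ ^ 4) (by
      have : (Function.uncurry fun (t : ℝ) (x : S) => ‖G t x‖ ^ 4)
        = fun p : ℝ × S => ‖Function.uncurry G p‖ ^ 4 := rfl
      rw [this]
      fun_prop) (s := univ) isCompact_univ
  simpa using h

/-- mixed norm -/
noncomputable def NN (T : ℝ) (G : ℝ → S → ℂ) : ℝ≥0∞ :=
  eLpNorm (fun t => (eLpNorm (G t) 4 sig).toReal) 4 (volume.restrict (Icc 0 T))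

theorem g_eq {G : ℝ → S → ℂ} (hG : Continuous (Function.uncurry G)) :
    (fun t => (eLpNorm (G t) 4 sig).toReal) = fun t => (∫ x, ‖G t x‖ ^ 4 ∂sig) ^ (1/4 : ℝ) := by
  funext t
  have h1 : Continuous (G t) := hG.comp (Continuous.prodMk_right t)
  rw [eL4 h1, ENNReal.toReal_ofReal]
  apply Real.rpow_nonneg
  exact integral_nonneg fun x => by positivity

theorem g_cont {G : ℝ → S → ℂ} (hG : Continuous (Function.uncurry G)) :
    Continuous (fun t => (eLpNorm (G t) 4 sig).toReal) := by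
  rw [g_eq hG]
  exact (cont_I hG).rpow_const (fun t => Or.inr (by norm_num))

theorem NN_eq (T : ℝ) {G : ℝ → S → ℂ} (hG : Continuous (Function.uncurry G)) :
    NN T G = ENNReal.ofReal ((∫ t in Icc 0 T, ∫ x, ‖G t x‖ ^ 4 ∂sig) ^ (1/4 : ℝ)) := by
  unfold NN
  have hc := g_cont hG
  have hm : MemLp (fun t => (eLpNorm (G t) 4 sig).toReal) 4 (volume.restrict (Icc 0 T)) := by
    obtain ⟨C, hC⟩ := (isCompact_Icc (a := (0:ℝ)) (b := T)).exists_bound_of_continuousOn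
      (f := fun t => (eLpNorm (G t) 4 sig).toReal) hc.continuousOn
    apply MemLp.of_bound hc.aestronglyMeasurable C
    exact (ae_restrict_iff' measurableSet_Icc).mpr (Filter.Eventually.of_forall hC)
  rw [MemLp.eLpNorm_eq_integral_rpow_norm (by norm_num) (by norm_num) hm]
  have h4 : (4 : ℝ≥0∞).toReal = ((4:ℕ):ℝ) := by norm_num
  rw [h4]
  congr 2
  · apply integral_congr_ae
    apply Filter.Eventually.of_forall
    intro t
    have ht := congr_fun (g_eq hG) t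
    try simp only at ht
    have h0 : 0 ≤ ∫ x, ‖G t x‖ ^ 4 ∂sig := integral_nonneg fun x => by positivity
    simp only
    rw [ht, Real.rpow_natCast, Real.norm_of_nonneg (Real.rpow_nonneg h0 _), ← Real.rpow_natCast,
      ← Real.rpow_mul h0]
    norm_num
  · norm_num

theorem NN_add (T : ℝ) {G G' : ℝ → S → ℂ} (hG : Continuous (Function.uncurry G))
    (hG' : Continuous (Function.uncurry G')) :
    NN T (fun t x => G t x + G' t x) ≤ NN T G + NN T G' := by
  unfold NN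
  have hm : ∀ t, ‖(eLpNorm (fun x => G t x + G' t x) 4 sig).toReal‖ ≤
      ((fun t => (eLpNorm (G t) 4 sig).toReal) + fun t => (eLpNorm (G' t) 4 sig).toReal) t := by
    intro t
    have h1 : Continuous (G t) := hG.comp (Continuous.prodMk_right t)
    have h2 : Continuous (G' t) := hG'.comp (Continuous.prodMk_right t)
    have h3 := eLpNorm_add_le (μ := sig) h1.aestronglyMeasurable h2.aestronglyMeasurable
      (p := 4) (by norm_num)
    have f1 := (memLp_of_cont h1 4).eLpNorm_ne_top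
    have f2 := (memLp_of_cont h2 4).eLpNorm_ne_top
    rw [Real.norm_of_nonneg ENNReal.toReal_nonneg]
    have h4 := ENNReal.toReal_mono (ENNReal.add_ne_top.mpr ⟨f1, f2⟩) h3
    rw [ENNReal.toReal_add f1 f2] at h4
    exact h4
  refine (eLpNorm_mono_real hm).trans ?_
  exact eLpNorm_add_le (g_cont hG).aestronglyMeasurable (g_cont hG').aestronglyMeasurable
    (by norm_num)

theorem quart {X D Q : ℝ} (hX : 0 ≤ X) (hD : 0 ≤ D) (hQ : 0 ≤ Q) (h : X ≤ D * Q ^ 2) :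
    X ^ (1/4 : ℝ) ≤ D ^ (1/4 : ℝ) * √Q := by
  have h1 : X ^ (1/4 : ℝ) ≤ (D * Q ^ 2) ^ (1/4 : ℝ) := Real.rpow_le_rpow hX h (by norm_num)
  refine h1.trans (le_of_eq ?_)
  rw [Real.mul_rpow hD (by positivity), ← Real.rpow_natCast Q 2, ← Real.rpow_mul hQ,
    Real.sqrt_eq_rpow]
  norm_num

theorem const_zero {f : S → ℂ} (h : IsSphHarm 0 f) : ∃ c : ℂ, ∀ x, f x = c := by
  obtain ⟨P, hP0, _, hP⟩ := h
  rw [← MvPolynomial.totalDegree_zero_iff_isHomogeneous,
    MvPolynomial.totalDegree_eq_zero_iff_eq_C] at hP0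
  refine ⟨MvPolynomial.coeff 0 P, fun x => ?_⟩
  rw [hP x, hP0]
  simp

theorem sig_pos : 0 < sig.real univ := by
  have h1 : sig univ ≠ 0 := by
    unfold sig
    rw [Measure.toSphere_apply_univ]
    apply mul_ne_zero
    · simp
    · exact (Metric.measure_ball_pos volume (0:E) one_pos).ne'
  exact ENNReal.toReal_pos h1 (measure_ne_top _ _)


noncomputable def blk (F : ℕ → S → ℂ) (N M : ℕ) (t : ℝ) (x : S) : ℂ :=
  ∑ n ∈ Finset.Ico N M, Complex.exp (((t * Lam n : ℝ) : ℂ) * Complex.I) * F n x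

theorem blk_cont {F : ℕ → S → ℂ} (hF : ∀ n, Continuous (F n)) (N M : ℕ) :
    Continuous (Function.uncurry (blk F N M)) := by
  have : Function.uncurry (blk F N M) = fun p : ℝ × S =>
      ∑ n ∈ Finset.Ico N M, Complex.exp (((p.1 * Lam n : ℝ) : ℂ) * Complex.I) * F n p.2 := rfl
  rw [this]
  apply continuous_finsetSum
  intro n _
  have := hF n
  fun_prop

theorem geo (q : ℝ) (hq0 : 0 ≤ q) (hq1 : q < 1) (J : ℕ) :
    ∑ j ∈ Finset.range J, q ^ j ≤ 1 / (1 - q) := by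
  rw [le_div_iff₀ (by linarith), mul_comm, mul_neg_geom_sum]
  have := pow_nonneg hq0 J
  linarith

theorem dyadic3 (s' : ℝ) (hs : 3 / 16 < s') (T : ℝ) (hT : 0 < T) : ∃ C : ℝ, 0 < C ∧
    ∀ (N : ℕ) (F : ℕ → S → ℂ), 1 ≤ N → (∀ n, IsSphHarm n (F n)) →
    ∫ t in Icc (0 : ℝ) T, ∫ x, ‖∑ n ∈ Finset.Ico N (2 * N),
        Complex.exp (((t * Lam n : ℝ) : ℂ) * Complex.I) * F n x‖ ^ 4 ∂sig ≤
      C * (N : ℝ) ^ (4 * s') * (∑ n ∈ Finset.Ico N (2 * N), ∫ x, ‖F n x‖ ^ 2 ∂sig) ^ 2 := by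
  obtain ⟨C, hC, h⟩ := dyadic2 T hT
  obtain ⟨ε, hεd⟩ : ∃ ε : ℝ, ε = 4 * s' - 3 / 4 := ⟨_, rfl⟩
  have hε : 0 < ε := by rw [hεd]; linarith
  refine ⟨C * (1 + 1 / ε), by positivity, ?_⟩
  intro N F hN hF
  refine (h N F hN hF).trans ?_
  have hN1 : (1:ℝ) ≤ N := by exact_mod_cast hN
  have hN0 : (0:ℝ) < N := by linarith
  have hlog : Real.log N ≤ (N:ℝ) ^ ε / ε := Real.log_le_rpow_div hN0.le hε
  have h1 : 1 ≤ (N:ℝ) ^ ε := Real.one_le_rpow hN1 hε.le
  have h2 : 1 + Real.log N ≤ (1 + 1 / ε) * (N:ℝ) ^ ε := by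
    have : (1 + 1 / ε) * (N:ℝ) ^ ε = (N:ℝ) ^ ε + (N:ℝ) ^ ε / ε := by ring
    rw [this]; linarith
  have h3 : (N:ℝ) ^ (3 / 4 : ℝ) * (N:ℝ) ^ ε = (N:ℝ) ^ (4 * s') := by
    rw [← Real.rpow_add hN0]; congr 1; rw [hεd]; ring
  have h4 : 0 ≤ (∑ n ∈ Finset.Ico N (2 * N), ∫ x, ‖F n x‖ ^ 2 ∂sig) ^ 2 := by positivity
  calc C * (N : ℝ) ^ (3 / 4 : ℝ) * (1 + Real.log N) *
        (∑ n ∈ Finset.Ico N (2 * N), ∫ x, ‖F n x‖ ^ 2 ∂sig) ^ 2
      ≤ C * (N : ℝ) ^ (3 / 4 : ℝ) * ((1 + 1 / ε) * (N:ℝ) ^ ε) *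
        (∑ n ∈ Finset.Ico N (2 * N), ∫ x, ‖F n x‖ ^ 2 ∂sig) ^ 2 := by gcongr
    _ = C * (1 + 1 / ε) * ((N : ℝ) ^ (3 / 4 : ℝ) * (N:ℝ) ^ ε) *
        (∑ n ∈ Finset.Ico N (2 * N), ∫ x, ‖F n x‖ ^ 2 ∂sig) ^ 2 := by ring
    _ = _ := by rw [h3]


theorem qtop (q : ℝ) : ENNReal.ofReal q ≠ ⊤ := ENNReal.ofReal_ne_top

theorem interp {f : S → ℂ} (hf : Continuous f) (q : ℝ) (h2 : 2 ≤ q) (h4 : q ≤ 4) :
    eLpNorm f (ENNReal.ofReal q) sig ≤
      eLpNorm f 2 sig ^ (1 - (2 - 4 / q)) * eLpNorm f 4 sig ^ (2 - 4 / q) := by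
  have hq0 : 0 < q := by linarith
  have e1 : eLpNorm f (ENNReal.ofReal q) sig = (∫⁻ x, ‖f x‖ₑ ^ q ∂sig) ^ (1 / q) := by
    rw [eLpNorm_eq_lintegral_rpow_enorm_toReal (by simpa using hq0) ENNReal.ofReal_ne_top,
      ENNReal.toReal_ofReal hq0.le]
  have e2 : eLpNorm f 2 sig = (∫⁻ x, ‖f x‖ₑ ^ (2:ℝ) ∂sig) ^ (1 / (2:ℝ)) := by
    rw [eLpNorm_eq_lintegral_rpow_enorm_toReal (by norm_num) (by norm_num)]
    norm_num
  have e3 : eLpNorm f 4 sig = (∫⁻ x, ‖f x‖ₑ ^ (4:ℝ) ∂sig) ^ (1 / (4:ℝ)) := by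
    rw [eLpNorm_eq_lintegral_rpow_enorm_toReal (by norm_num) (by norm_num)]
    norm_num
  have hm : Measurable (fun x => ‖f x‖ₑ) := hf.measurable.enorm
  have h := ENNReal.lintegral_mul_norm_pow_le (μ := sig) (f := fun x => ‖f x‖ₑ ^ (2:ℝ))
    (g := fun x => ‖f x‖ₑ ^ (4:ℝ)) (hm.pow_const _).aemeasurable (hm.pow_const _).aemeasurable
    (p := (4 - q) / 2) (q := (q - 2) / 2) (by linarith) (by linarith) (by ring)
  have e4 : ∀ x, (‖f x‖ₑ ^ (2:ℝ)) ^ ((4 - q) / 2) * (‖f x‖ₑ ^ (4:ℝ)) ^ ((q - 2) / 2)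
      = ‖f x‖ₑ ^ q := by
    intro x
    rw [← ENNReal.rpow_mul, ← ENNReal.rpow_mul, ← ENNReal.rpow_add_of_nonneg _ _ (by linarith) (by linarith)]
    congr 1
    ring
  simp only [e4] at h
  rw [e1, e2, e3, ← ENNReal.rpow_mul, ← ENNReal.rpow_mul]
  refine (ENNReal.rpow_le_rpow h (by positivity)).trans (le_of_eq ?_)
  rw [ENNReal.mul_rpow_of_nonneg _ _ (by positivity), ← ENNReal.rpow_mul, ← ENNReal.rpow_mul]
  congr 2
  · field_simp
    ring
  · field_simp
    ring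

theorem cont_Iq {G : ℝ → S → ℂ} (hG : Continuous (Function.uncurry G)) (q : ℝ) (hq : 0 ≤ q) :
    Continuous (fun t => ∫ x, ‖G t x‖ ^ q ∂sig) := by
  have h := continuous_parametric_integral_of_continuous (μ := sig)
    (f := fun t x => ‖G t x‖ ^ q) (by
      have : (Function.uncurry fun (t : ℝ) (x : S) => ‖G t x‖ ^ q)
        = fun p : ℝ × S => ‖Function.uncurry G p‖ ^ q := rfl
      rw [this]
      exact hG.norm.rpow_const (fun _ => Or.inr hq)) (s := univ) isCompact_univ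
  simpa using h

theorem gq_cont {G : ℝ → S → ℂ} (hG : Continuous (Function.uncurry G)) (q : ℝ) (hq : 0 < q) :
    Continuous (fun t => (eLpNorm (G t) (ENNReal.ofReal q) sig).toReal) := by
  have : (fun t => (eLpNorm (G t) (ENNReal.ofReal q) sig).toReal)
      = fun t => (∫ x, ‖G t x‖ ^ q ∂sig) ^ (1/q) := by
    funext t
    have h1 : Continuous (G t) := hG.comp (Continuous.prodMk_right t)
    rw [MemLp.eLpNorm_eq_integral_rpow_norm (by simpa using hq) ENNReal.ofReal_ne_top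
      (memLp_of_cont h1 _), ENNReal.toReal_ofReal hq.le, ENNReal.toReal_ofReal, one_div]
    apply Real.rpow_nonneg
    exact integral_nonneg fun x => by positivity
  rw [this]
  exact (cont_Iq hG q hq.le).rpow_const (fun t => Or.inr (by positivity))

/-- general mixed norm -/
noncomputable def NQ (p : ℝ≥0∞) (q T : ℝ) (G : ℝ → S → ℂ) : ℝ≥0∞ :=
  eLpNorm (fun t => (eLpNorm (G t) (ENNReal.ofReal q) sig).toReal) p (volume.restrict (Icc 0 T))

theorem NQ_add (p : ℝ≥0∞) (q T : ℝ) (hp : 1 ≤ p) (hq : 1 ≤ q) {G G' : ℝ → S → ℂ}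
    (hG : Continuous (Function.uncurry G))
    (hG' : Continuous (Function.uncurry G')) :
    NQ p q T (fun t x => G t x + G' t x) ≤ NQ p q T G + NQ p q T G' := by
  unfold NQ
  have hm : ∀ t, ‖(eLpNorm (fun x => G t x + G' t x) (ENNReal.ofReal q) sig).toReal‖ ≤
      ((fun t => (eLpNorm (G t) (ENNReal.ofReal q) sig).toReal) +
        fun t => (eLpNorm (G' t) (ENNReal.ofReal q) sig).toReal) t := by
    intro t
    have h1 : Continuous (G t) := hG.comp (Continuous.prodMk_right t)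
    have h2 : Continuous (G' t) := hG'.comp (Continuous.prodMk_right t)
    have h3 := eLpNorm_add_le (μ := sig) h1.aestronglyMeasurable h2.aestronglyMeasurable
      (p := ENNReal.ofReal q) (by simpa using hq)
    have f1 := (memLp_of_cont h1 (ENNReal.ofReal q)).eLpNorm_ne_top
    have f2 := (memLp_of_cont h2 (ENNReal.ofReal q)).eLpNorm_ne_top
    rw [Real.norm_of_nonneg ENNReal.toReal_nonneg]
    have h4 := ENNReal.toReal_mono (ENNReal.add_ne_top.mpr ⟨f1, f2⟩) h3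
    rw [ENNReal.toReal_add f1 f2] at h4
    exact h4
  refine (eLpNorm_mono_real hm).trans ?_
  exact eLpNorm_add_le (gq_cont hG q (by linarith)).aestronglyMeasurable
    (gq_cont hG' q (by linarith)).aestronglyMeasurable hp

theorem eL2 {f : S → ℂ} (hf : Continuous f) :
    eLpNorm f 2 sig = ENNReal.ofReal (√(∫ x, ‖f x‖ ^ 2 ∂sig)) := by
  rw [MemLp.eLpNorm_eq_integral_rpow_norm (by norm_num) (by norm_num) (memLp_of_cont hf 2)]
  have h4 : (2 : ℝ≥0∞).toReal = ((2:ℕ):ℝ) := by norm_num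
  rw [h4, Real.sqrt_eq_rpow]
  congr 2
  · apply integral_congr_ae
    exact Filter.Eventually.of_forall fun x => Real.rpow_natCast _ _
  · norm_num

theorem energy {F : ℕ → S → ℂ} (hF : ∀ n, IsSphHarm n (F n)) (N M : ℕ) (t : ℝ) :
    ∫ x, ‖blk F N M t x‖ ^ 2 ∂sig = ∑ n ∈ Finset.Ico N M, ∫ x, ‖F n x‖ ^ 2 ∂sig := by
  have hFc : ∀ n, Continuous (F n) := fun n => cont_F (hF n)
  obtain ⟨c, hc⟩ : ∃ c : ℕ → ℂ, c = fun n => Complex.exp (((t * Lam n : ℝ) : ℂ) * Complex.I) :=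
    ⟨_, rfl⟩
  have hc1 : ∀ n, c n * (starRingEnd ℂ) (c n) = 1 := by
    intro n
    rw [Complex.mul_conj, Complex.normSq_eq_norm_sq, hc]
    simp only
    rw [Complex.norm_exp_ofReal_mul_I]
    norm_num
  have hint : ∀ n m, Integrable (fun x => (c n * (starRingEnd ℂ) (c m)) *
      (F n x * (starRingEnd ℂ) (F m x))) sig := by
    intro n m
    have h1 := hFc n
    have h2 := hFc m
    have h3 : Continuous (fun x => (c n * (starRingEnd ℂ) (c m)) *
      (F n x * (starRingEnd ℂ) (F m x))) := by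
      apply Continuous.mul continuous_const
      exact h1.mul (Complex.continuous_conj.comp h2)
    exact (memLp_of_cont h3 1).integrable le_rfl
  have hd : ∀ n, ∫ x, F n x * (starRingEnd ℂ) (F n x) ∂sig = ((∫ x, ‖F n x‖ ^ 2 ∂sig : ℝ) : ℂ) := by
    intro n
    rw [← integral_complex_ofReal]
    congr 1
    funext x
    rw [Complex.mul_conj, Complex.normSq_eq_norm_sq]
  have key : ((∫ x, ‖blk F N M t x‖ ^ 2 ∂sig : ℝ) : ℂ)
      = ((∑ n ∈ Finset.Ico N M, ∫ x, ‖F n x‖ ^ 2 ∂sig : ℝ) : ℂ) := by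
    rw [← integral_complex_ofReal]
    have e1 : ∀ x, ((‖blk F N M t x‖ ^ 2 : ℝ) : ℂ) = ∑ n ∈ Finset.Ico N M,
        ∑ m ∈ Finset.Ico N M, (c n * (starRingEnd ℂ) (c m)) *
          (F n x * (starRingEnd ℂ) (F m x)) := by
      intro x
      rw [← Complex.normSq_eq_norm_sq, ← Complex.mul_conj]
      have : blk F N M t x = ∑ n ∈ Finset.Ico N M, c n * F n x := by rw [hc]; rfl
      rw [this, map_sum, Finset.sum_mul_sum]
      apply Finset.sum_congr rfl
      intro n _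
      apply Finset.sum_congr rfl
      intro m _
      rw [map_mul]
      ring
    simp only [e1]
    rw [integral_finsetSum _ (fun n _ => integrable_finsetSum _ (fun m _ => hint n m))]
    push_cast
    apply Finset.sum_congr rfl
    intro n hn
    rw [integral_finsetSum _ (fun m _ => hint n m)]
    have e2 : ∀ m ∈ Finset.Ico N M, m ≠ n → ∫ x, (c n * (starRingEnd ℂ) (c m)) *
          (F n x * (starRingEnd ℂ) (F m x)) ∂sig = 0 := by
      intro m _ hmn
      rw [integral_const_mul, orth n m (Ne.symm hmn) (F n) (F m) (hF n) (hF m), mul_zero]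
    rw [Finset.sum_eq_single_of_mem n hn e2, integral_const_mul, hc1, one_mul, hd]
  exact_mod_cast key

theorem rpow_split {x θ : ℝ} (hx : 0 ≤ x) (h0 : 0 ≤ θ) (h1 : θ ≤ 1) {b : ℝ} (hb : 0 ≤ b) :
    x ^ (1 - θ) * (b * x) ^ θ = b ^ θ * x := by
  rw [Real.mul_rpow hb hx]
  have : x ^ (1 - θ) * x ^ θ = x := by
    rw [← Real.rpow_add_of_nonneg hx (by linarith) h0]
    simp
  calc x ^ (1 - θ) * (b ^ θ * x ^ θ) = b ^ θ * (x ^ (1 - θ) * x ^ θ) := by ring
    _ = _ := by rw [this]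

theorem leg_one (n : ℕ) : leg n 1 = 1 := by
  induction n using Nat.strong_induction_on with
  | _ n ih =>
    match n with
    | 0 => rfl
    | 1 => rfl
    | (n + 2) =>
      rw [leg, ih (n+1) (by omega), ih n (by omega)]
      have : (n:ℝ) + 2 ≠ 0 := by positivity
      field_simp
      ring

theorem dot_self (x : S) : dot x x = 1 := by
  unfold dot
  have h1 : ‖(x : E)‖ = 1 := by
    have := x.2
    rwa [mem_sphere_zero_iff_norm] at this
  have h2 := EuclideanSpace.norm_sq_eq (x : E)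
  rw [h1] at h2
  have h3 : ∀ i, (x : E) i * (x : E) i = ‖(x : E) i‖ ^ 2 := by
    intro i; rw [Real.norm_eq_abs, sq_abs, sq]
  simp only [h3]
  rw [← h2]; norm_num

theorem sup_one (n : ℕ) (f : S → ℂ) (hf : IsSphHarm n f) (x : S) :
    ‖f x‖ ≤ √((2 * n + 1) / (4 * π)) * √(∫ y, ‖f y‖ ^ 2 ∂sig) := by
  have hc := cont_F hf
  have hz := zonal n x
  have hzc := cont_F hz
  obtain ⟨k, hk⟩ : ∃ k : S → ℝ, k = fun y => leg n (dot x y) := ⟨_, rfl⟩
  have hkc : Continuous k := by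
    have h1 : Continuous (fun y => (((leg n (dot x y) : ℝ) : ℂ)).re) := Complex.continuous_re.comp hzc
    rw [hk]
    simpa using h1
  obtain ⟨m, hm⟩ : ∃ m : ℝ, m = (2 * n + 1) / (4 * π) := ⟨_, rfl⟩
  have hm0 : 0 < m := by rw [hm]; positivity
  have h1 := repro n n f hf x
  rw [if_pos rfl] at h1
  have h2 := repro n n _ hz x
  rw [if_pos rfl, dot_self, leg_one] at h2
  have h3 : ∫ y, k y ^ 2 ∂sig = 1 / m := by
    have h4 : ((m * ∫ y, k y ^ 2 ∂sig : ℝ) : ℂ) = 1 := by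
      have h5 : (fun y : S => (((2 * n + 1) / (4 * π) * leg n (dot x y) : ℝ) : ℂ) *
          ((leg n (dot x y) : ℝ) : ℂ)) = fun y => ((m * k y ^ 2 : ℝ) : ℂ) := by
        funext y
        rw [hk, hm]
        push_cast
        ring
      rw [h5, integral_complex_ofReal, integral_const_mul] at h2
      rw [h2]; simp
    have h6 : m * ∫ y, k y ^ 2 ∂sig = 1 := by exact_mod_cast h4
    field_simp
    linarith
  have hpq : (2:ℝ).HolderConjugate 2 := by rw [Real.holderConjugate_iff]; norm_num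
  have hCS := integral_mul_norm_le_Lp_mul_Lq (μ := sig) (f := fun y => (k y : ℂ)) (g := f) hpq
    (memLp_of_cont (Complex.continuous_ofReal.comp hkc) _) (memLp_of_cont hc _)
  have e1 : ∀ z : ℂ, ‖z‖ ^ (2:ℝ) = ‖z‖ ^ 2 := fun z => by
    rw [← Real.rpow_natCast]; norm_num
  simp only [e1] at hCS
  have e2 : ∫ y, ‖(k y : ℂ)‖ ^ 2 ∂sig = 1 / m := by
    rw [← h3]
    refine integral_congr_ae (Filter.Eventually.of_forall fun y => ?_)
    simp only
    rw [Complex.norm_real, Real.norm_eq_abs, sq_abs]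
  rw [e2] at hCS
  have e3 : ‖f x‖ ≤ m * ∫ y, ‖(k y : ℂ)‖ * ‖f y‖ ∂sig := by
    rw [← h1, ← integral_const_mul]
    refine (norm_integral_le_integral_norm _).trans (le_of_eq ?_)
    refine integral_congr_ae (Filter.Eventually.of_forall fun y => ?_)
    simp only
    rw [norm_mul, ← hm, Complex.ofReal_mul, norm_mul, Complex.norm_real m,
      Real.norm_of_nonneg hm0.le, hk]
    ring
  rw [← hm]
  refine e3.trans ((mul_le_mul_of_nonneg_left hCS hm0.le).trans (le_of_eq ?_))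
  rw [← Real.sqrt_eq_rpow, ← Real.sqrt_eq_rpow, ← mul_assoc]
  congr 1
  rw [Real.sqrt_div zero_le_one, Real.sqrt_one]
  have h7 : √m * √m = m := Real.mul_self_sqrt hm0.le
  have h8 : 0 < √m := Real.sqrt_pos.mpr hm0
  field_simp
  linarith

theorem sup_blk {F : ℕ → S → ℂ} (hF : ∀ n, IsSphHarm n (F n)) (N : ℕ) (t : ℝ) (x : S) :
    ‖blk F N (2 * N) t x‖ ≤ N * √(∑ n ∈ Finset.Ico N (2 * N), ∫ x, ‖F n x‖ ^ 2 ∂sig) := by
  unfold blk
  have h1 : ‖∑ n ∈ Finset.Ico N (2 * N), Complex.exp (((t * Lam n : ℝ) : ℂ) * Complex.I) * F n x‖ ≤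
      ∑ n ∈ Finset.Ico N (2 * N), √((2 * n + 1) / (4 * π)) * √(∫ y, ‖F n y‖ ^ 2 ∂sig) := by
    refine (norm_sum_le _ _).trans (Finset.sum_le_sum fun n _ => ?_)
    rw [norm_mul, Complex.norm_exp_ofReal_mul_I, one_mul]
    exact sup_one n (F n) (hF n) x
  refine h1.trans ?_
  refine (Real.sum_mul_le_sqrt_mul_sqrt _ _ _).trans ?_
  have h2 : ∀ n : ℕ, √(∫ y, ‖F n y‖ ^ 2 ∂sig) ^ 2 = ∫ y, ‖F n y‖ ^ 2 ∂sig := fun n =>
    Real.sq_sqrt (integral_nonneg fun y => by positivity)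
  simp only [h2]
  refine mul_le_mul_of_nonneg_right ?_ (Real.sqrt_nonneg _)
  rw [Real.sqrt_le_left (by positivity)]
  have h3 : ∀ n ∈ Finset.Ico N (2 * N), √((2 * (n:ℝ) + 1) / (4 * π)) ^ 2 ≤ N := by
    intro n hn
    rw [Finset.mem_Ico] at hn
    rw [Real.sq_sqrt (by positivity), div_le_iff₀ (by positivity)]
    have h4 : (n:ℝ) + 1 ≤ 2 * N := by exact_mod_cast hn.2
    have h5 : (3:ℝ) < π := Real.pi_gt_three
    have h6 : (0:ℝ) ≤ N := Nat.cast_nonneg N
    nlinarith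
  refine (Finset.sum_le_sum h3).trans (le_of_eq ?_)
  rw [Finset.sum_const, Nat.card_Ico, nsmul_eq_mul]
  have : 2 * N - N = N := by omega
  rw [this, sq]

/-- three term interpolation -/
theorem interp3 {f : S → ℂ} (hf : Continuous f) (q α M : ℝ) (h2 : 2 ≤ q) (hα0 : 0 ≤ α)
    (hα : α ≤ 1 / q) (hαq : α + 1 / q ≤ 1 / 2) (hM0 : 0 ≤ M) (hM : ∀ x, ‖f x‖ ≤ M) :
    eLpNorm f (ENNReal.ofReal q) sig ≤ ENNReal.ofReal M ^ (1 - 2 * α - 2 / q) *
      (eLpNorm f 2 sig ^ (2 / q - 2 * α) * eLpNorm f 4 sig ^ (4 * α)) := by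
  have hq0 : 0 < q := by linarith
  have hqα : q * α ≤ 1 := by
    have := mul_le_mul_of_nonneg_left hα hq0.le
    rwa [mul_one_div_cancel hq0.ne'] at this
  have hqα0 : 0 ≤ q * α := by positivity
  have hc : 0 ≤ 1 - 2 * α - 2 / q := by
    have : 2 / q = 2 * (1 / q) := by ring
    rw [this]; linarith
  have hr : q * (1 - 2 * α - 2 / q) = q - (2 + 2 * (q * α)) := by field_simp; ring
  have hrq : 0 ≤ q - (2 + 2 * (q * α)) := by rw [← hr]; positivity
  have e1 : eLpNorm f (ENNReal.ofReal q) sig = (∫⁻ x, ‖f x‖ₑ ^ q ∂sig) ^ (1 / q) := by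
    rw [eLpNorm_eq_lintegral_rpow_enorm_toReal (by simpa using hq0) ENNReal.ofReal_ne_top,
      ENNReal.toReal_ofReal hq0.le]
  have e2 : eLpNorm f 2 sig = (∫⁻ x, ‖f x‖ₑ ^ (2:ℝ) ∂sig) ^ (1 / (2:ℝ)) := by
    rw [eLpNorm_eq_lintegral_rpow_enorm_toReal (by norm_num) (by norm_num)]
    norm_num
  have e3 : eLpNorm f 4 sig = (∫⁻ x, ‖f x‖ₑ ^ (4:ℝ) ∂sig) ^ (1 / (4:ℝ)) := by
    rw [eLpNorm_eq_lintegral_rpow_enorm_toReal (by norm_num) (by norm_num)]
    norm_num
  have hm : Measurable (fun x => ‖f x‖ₑ) := hf.measurable.enorm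
  have h := ENNReal.lintegral_mul_norm_pow_le (μ := sig) (f := fun x => ‖f x‖ₑ ^ (2:ℝ))
    (g := fun x => ‖f x‖ₑ ^ (4:ℝ)) (hm.pow_const _).aemeasurable (hm.pow_const _).aemeasurable
    (p := 1 - q * α) (q := q * α) (by linarith) (by linarith) (by ring)
  have hpt : ∀ x, ‖f x‖ₑ ^ q ≤ ENNReal.ofReal M ^ (q - (2 + 2 * (q * α))) *
      ((‖f x‖ₑ ^ (2:ℝ)) ^ (1 - q * α) * (‖f x‖ₑ ^ (4:ℝ)) ^ (q * α)) := by
    intro x
    have h5 : ‖f x‖ₑ ≤ ENNReal.ofReal M := by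
      rw [← ofReal_norm_eq_enorm]
      exact ENNReal.ofReal_le_ofReal (hM x)
    have h6 : (‖f x‖ₑ ^ (2:ℝ)) ^ (1 - q * α) * (‖f x‖ₑ ^ (4:ℝ)) ^ (q * α)
        = ‖f x‖ₑ ^ (2 + 2 * (q * α)) := by
      rw [← ENNReal.rpow_mul, ← ENNReal.rpow_mul, ← ENNReal.rpow_add_of_nonneg _ _ (by nlinarith) (by nlinarith)]
      congr 1
      ring
    rw [h6]
    have h7 : ‖f x‖ₑ ^ q = ‖f x‖ₑ ^ (q - (2 + 2 * (q * α))) * ‖f x‖ₑ ^ (2 + 2 * (q * α)) := by
      rw [← ENNReal.rpow_add_of_nonneg _ _ hrq (by linarith)]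
      congr 1
      ring
    rw [h7]
    gcongr
  have hint : ∫⁻ x, ‖f x‖ₑ ^ q ∂sig ≤ ENNReal.ofReal M ^ (q - (2 + 2 * (q * α))) *
      ((∫⁻ x, ‖f x‖ₑ ^ (2:ℝ) ∂sig) ^ (1 - q * α) * (∫⁻ x, ‖f x‖ₑ ^ (4:ℝ) ∂sig) ^ (q * α)) := by
    refine (lintegral_mono hpt).trans ?_
    rw [lintegral_const_mul' _ _ (ENNReal.rpow_ne_top_of_nonneg hrq ENNReal.ofReal_ne_top)]
    gcongr
  rw [e1, e2, e3, ← ENNReal.rpow_mul, ← ENNReal.rpow_mul]
  refine (ENNReal.rpow_le_rpow hint (by positivity)).trans (le_of_eq ?_)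
  rw [ENNReal.mul_rpow_of_nonneg _ _ (by positivity), ENNReal.mul_rpow_of_nonneg _ _ (by positivity),
    ← ENNReal.rpow_mul, ← ENNReal.rpow_mul, ← ENNReal.rpow_mul]
  congr 2
  · field_simp
    ring
  · congr 1
    field_simp
  · field_simp

/-- interpolation of the mixed norms, three terms -/
theorem NQ3 (p : ℝ≥0∞) (q T : ℝ) (hp0 : p ≠ 0) (h2 : 2 ≤ q)
    (hα : (1 / p).toReal ≤ 1 / q) (hαq : (1 / p).toReal + 1 / q ≤ 1 / 2)
    (G : ℝ → S → ℂ) (hG : Continuous (Function.uncurry G)) (A B M : ℝ) (hA : 0 ≤ A) (hB : 0 ≤ B)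
    (hM : 0 ≤ M) (hGA : ∀ t, eLpNorm (G t) 2 sig ≤ ENNReal.ofReal A)
    (hGB : NN T G ≤ ENNReal.ofReal B) (hGM : ∀ t x, ‖G t x‖ ≤ M) :
    NQ p q T G ≤ ENNReal.ofReal (M ^ (1 - 2 * (1 / p).toReal - 2 / q) *
      A ^ (2 / q - 2 * (1 / p).toReal) * B ^ (4 * (1 / p).toReal)) := by
  have hq0 : 0 < q := by linarith
  obtain ⟨α, hαd⟩ : ∃ α : ℝ, α = (1 / p).toReal := ⟨_, rfl⟩
  rw [← hαd] at hα hαq ⊢
  have hα0 : 0 ≤ α := by rw [hαd]; exact ENNReal.toReal_nonneg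
  have e2q : 2 / q = 2 * (1 / q) := by ring
  have hb : 0 ≤ 2 / q - 2 * α := by rw [e2q]; linarith
  have hc : 0 ≤ 1 - 2 * α - 2 / q := by rw [e2q]; linarith
  have hD0 : 0 ≤ M ^ (1 - 2 * α - 2 / q) * A ^ (2 / q - 2 * α) := by positivity
  have hpt : ∀ t, ‖(eLpNorm (G t) (ENNReal.ofReal q) sig).toReal‖ ≤
      (M ^ (1 - 2 * α - 2 / q) * A ^ (2 / q - 2 * α)) * (eLpNorm (G t) 4 sig).toReal ^ (4 * α) := by
    intro t
    have h1 : Continuous (G t) := hG.comp (Continuous.prodMk_right t)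
    have hi := interp3 h1 q α M h2 hα0 hα hαq hM (hGM t)
    have f4 := (memLp_of_cont h1 4).eLpNorm_ne_top
    have hi2 : eLpNorm (G t) (ENNReal.ofReal q) sig ≤ ENNReal.ofReal M ^ (1 - 2 * α - 2 / q) *
        (ENNReal.ofReal A ^ (2 / q - 2 * α) * eLpNorm (G t) 4 sig ^ (4 * α)) :=
      hi.trans (by gcongr; exact hGA t)
    rw [Real.norm_of_nonneg ENNReal.toReal_nonneg]
    have h5 := ENNReal.toReal_mono (by
      apply ENNReal.mul_ne_top
      · exact ENNReal.rpow_ne_top_of_nonneg hc ENNReal.ofReal_ne_top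
      · apply ENNReal.mul_ne_top
        · exact ENNReal.rpow_ne_top_of_nonneg hb ENNReal.ofReal_ne_top
        · exact ENNReal.rpow_ne_top_of_nonneg (by positivity) f4) hi2
    rw [ENNReal.toReal_mul, ENNReal.toReal_mul, ← ENNReal.toReal_rpow, ← ENNReal.toReal_rpow,
      ← ENNReal.toReal_rpow, ENNReal.toReal_ofReal hA, ENNReal.toReal_ofReal hM, ← mul_assoc] at h5
    exact h5
  rcases hα0.eq_or_lt with h0 | hpos
  · have hptop : p = ⊤ := by
      by_contra hne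
      have : (1 / p).toReal ≠ 0 := by
        rw [one_div]
        refine (ENNReal.toReal_pos ?_ ?_).ne'
        · simpa using hne
        · simpa using hp0
      exact this (by rw [← hαd, ← h0])
    have hb' : ∀ t, ‖(eLpNorm (G t) (ENNReal.ofReal q) sig).toReal‖ ≤
        M ^ (1 - 2 * α - 2 / q) * A ^ (2 / q - 2 * α) * B ^ (4 * α) := by
      intro t
      have := hpt t
      rw [← h0] at this ⊢
      simpa using this
    refine (eLpNorm_le_of_ae_bound (Filter.Eventually.of_forall hb')).trans (le_of_eq ?_)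
    rw [hptop]
    simp
  · have hpt' : p ≠ ⊤ := by
      rintro rfl
      rw [hαd] at hpos
      simp at hpos
    have hp4 : p * ENNReal.ofReal (4 * α) = 4 := by
      rw [ENNReal.ofReal_mul (by norm_num), hαd, ENNReal.ofReal_toReal (by simpa using hp0)]
      rw [mul_comm, mul_assoc, one_div, ENNReal.inv_mul_cancel hp0 hpt']
      norm_num
    have hcg := g_cont hG
    have s1 : NQ p q T G ≤ eLpNorm (fun t => (M ^ (1 - 2 * α - 2 / q) * A ^ (2 / q - 2 * α)) *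
        (‖(eLpNorm (G t) 4 sig).toReal‖ ^ (4 * α))) p (volume.restrict (Icc 0 T)) := by
      apply eLpNorm_mono_real
      intro t
      have := hpt t
      rw [Real.norm_of_nonneg (ENNReal.toReal_nonneg (a := eLpNorm (G t) 4 sig))]
      exact this
    have s2 : eLpNorm (fun t => (M ^ (1 - 2 * α - 2 / q) * A ^ (2 / q - 2 * α)) *
        (‖(eLpNorm (G t) 4 sig).toReal‖ ^ (4 * α))) p (volume.restrict (Icc 0 T)) =
        ENNReal.ofReal (M ^ (1 - 2 * α - 2 / q) * A ^ (2 / q - 2 * α)) *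
        eLpNorm (fun t => (‖(eLpNorm (G t) 4 sig).toReal‖ ^ (4 * α))) p (volume.restrict (Icc 0 T)) := by
      have := eLpNorm_const_smul (μ := volume.restrict (Icc 0 T)) (p := p)
        (M ^ (1 - 2 * α - 2 / q) * A ^ (2 / q - 2 * α))
        (fun t => (‖(eLpNorm (G t) 4 sig).toReal‖ ^ (4 * α)))
      rw [Real.enorm_eq_ofReal hD0] at this
      exact this
    have s3 : eLpNorm (fun t => (‖(eLpNorm (G t) 4 sig).toReal‖ ^ (4 * α))) p (volume.restrict (Icc 0 T))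
        = (NN T G) ^ (4 * α) := by
      unfold NN
      rw [← hp4]
      exact eLpNorm_norm_rpow _ (by positivity)
    refine s1.trans ?_
    rw [s2, s3]
    calc ENNReal.ofReal (M ^ (1 - 2 * α - 2 / q) * A ^ (2 / q - 2 * α)) * (NN T G) ^ (4 * α)
        ≤ ENNReal.ofReal (M ^ (1 - 2 * α - 2 / q) * A ^ (2 / q - 2 * α)) *
          (ENNReal.ofReal B) ^ (4 * α) := by gcongr
      _ = _ := by
          rw [ENNReal.ofReal_rpow_of_nonneg hB (by positivity), ← ENNReal.ofReal_mul hD0]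

set_option maxHeartbeats 4000000 in
theorem high_fin (p : ℝ≥0∞) (q s : ℝ) (hp0 : p ≠ 0) (hp : 1 ≤ p) (h2 : 2 ≤ q)
    (hα : (1 / p).toReal ≤ 1 / q) (hαq : (1 / p).toReal + 1 / q ≤ 1 / 2)
    (hs : 1 - 2 / q - 5 / 4 * (1 / p).toReal < s) :
    StrichartzFin p (ENNReal.ofReal q) s := by
  intro T hT
  have hq0' : 0 < q := by linarith
  obtain ⟨a, had⟩ : ∃ a : ℝ, a = 4 * (1 / p).toReal := ⟨_, rfl⟩
  obtain ⟨b, hbd⟩ : ∃ b : ℝ, b = 2 / q - 2 * (1 / p).toReal := ⟨_, rfl⟩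
  obtain ⟨c, hcd⟩ : ∃ c : ℝ, c = 1 - 2 * (1 / p).toReal - 2 / q := ⟨_, rfl⟩
  have e2q : 2 / q = 2 * (1 / q) := by ring
  have ha0 : 0 ≤ a := by rw [had]; exact mul_nonneg (by norm_num) ENNReal.toReal_nonneg
  have hb0 : 0 ≤ b := by rw [hbd, e2q]; linarith
  have hc0 : 0 ≤ c := by rw [hcd, e2q]; linarith
  have ha1 : a ≤ 1 := by rw [had]; linarith
  have habc : c + b + a = 1 := by rw [had, hbd, hcd]; ring
  have hsa : c + 3 / 16 * a < s := by
    have : c + 3 / 16 * a = 1 - 2 / q - 5 / 4 * (1 / p).toReal := by rw [had, hcd]; ring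
    rw [this]; exact hs
  obtain ⟨s', hs'⟩ : ∃ s' : ℝ, s' = 3 / 16 + (s - (c + 3 / 16 * a)) / 2 := ⟨_, rfl⟩
  have hs'1 : 3 / 16 < s' := by rw [hs']; linarith
  have hs'2 : c + s' * a < s := by
    rw [hs']
    nlinarith
  have hs0 : 0 < s := by nlinarith
  obtain ⟨C, hC, hdy⟩ := dyadic3 s' hs'1 T hT
  obtain ⟨ρ, hρd⟩ : ∃ ρ : ℝ, ρ = (2:ℝ) ^ (-(s - (c + s' * a))) := ⟨_, rfl⟩
  have hρ0 : 0 < ρ := by rw [hρd]; positivity
  have hρ1 : ρ < 1 := by
    rw [hρd]; exact Real.rpow_lt_one_of_one_lt_of_neg (by norm_num) (by linarith)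
  have hσ := sig_pos
  set σ := sig.real univ with hσd
  refine ⟨((T / σ) ^ (1/4 : ℝ)) ^ a + (C ^ (1/4 : ℝ)) ^ a * (1 / (1 - ρ)), ?_⟩
  intro K F0 hF0
  -- truncated family
  let F : ℕ → S → ℂ := fun n => if n < K then F0 n else fun _ => 0
  have hFh : ∀ n, IsSphHarm n (F n) := by
    intro n
    by_cases h : n < K
    · simp only [F, h, if_true]; exact hF0 n
    · simp only [F, h, if_false]
      refine ⟨0, MvPolynomial.isHomogeneous_zero _ _ _, by simp, by simp⟩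
  have hFc : ∀ n, Continuous (F n) := fun n => cont_F (hFh n)
  let Q : ℝ := ∑ n ∈ Finset.range K, (1 + (n : ℝ)) ^ (2 * s) * ∫ x, ‖F0 n x‖ ^ 2 ∂sig
  have hQd : Hnorm s K F0 = √Q := rfl
  let u : ℕ → ℝ := fun n => (1 + (n : ℝ)) ^ (2 * s) * ∫ x, ‖F n x‖ ^ 2 ∂sig
  have hint : ∀ n, 0 ≤ ∫ x, ‖F n x‖ ^ 2 ∂sig := fun n => integral_nonneg fun x => by positivity
  have hu0 : ∀ n, 0 ≤ u n := fun n => mul_nonneg (by positivity) (hint n)
  have huK : ∀ n, ¬ n < K → u n = 0 := by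
    intro n h
    simp only [u, F, h, if_false]
    simp
  have hQu : Q = ∑ n ∈ Finset.range K, u n := by
    apply Finset.sum_congr rfl
    intro n hn
    rw [Finset.mem_range] at hn
    simp only [u, F, hn, if_true]
  have hQ0 : 0 ≤ Q := by rw [hQu]; exact Finset.sum_nonneg fun n _ => hu0 n
  have hsub : ∀ A : Finset ℕ, ∑ n ∈ A, u n ≤ Q := by
    intro A
    rw [hQu]
    have h1 : ∑ n ∈ A, u n = ∑ n ∈ A.filter (fun n => n < K), u n := by
      rw [Finset.sum_filter]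
      apply Finset.sum_congr rfl
      intro n _
      by_cases h : n < K
      · rw [if_pos h]
      · rw [if_neg h, huK n h]
    rw [h1]
    apply Finset.sum_le_sum_of_subset_of_nonneg
    · intro n hn
      rw [Finset.mem_filter] at hn
      exact Finset.mem_range.mpr hn.2
    · intro n _ _; exact hu0 n
  -- the `L²` bound of a block
  have hL2 : ∀ N M t, eLpNorm (blk F N M t) 2 sig ≤
      ENNReal.ofReal (√(∑ n ∈ Finset.Ico N M, ∫ x, ‖F n x‖ ^ 2 ∂sig)) := by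
    intro N M t
    have hc : Continuous (blk F N M t) := (blk_cont hFc N M).comp (Continuous.prodMk_right t)
    rw [eL2 hc, energy hFh]
  -- zero block
  have hz0 : NN T (blk F 0 1) ≤ ENNReal.ofReal ((T / σ) ^ (1/4 : ℝ) * √Q) := by
    rw [NN_eq T (blk_cont hFc 0 1)]
    apply ENNReal.ofReal_le_ofReal
    apply quart
    · exact integral_nonneg fun t => integral_nonneg fun x => by positivity
    · positivity
    · exact hQ0
    · obtain ⟨c, hc⟩ := const_zero (hFh 0)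
      have e1 : ∀ t x, ‖blk F 0 1 t x‖ ^ 4 = ‖c‖ ^ 4 := by
        intro t x
        simp [blk, hc x, Lam]
      have e2 : ∫ t in Icc 0 T, ∫ x, ‖blk F 0 1 t x‖ ^ 4 ∂sig = T * (σ * ‖c‖ ^ 4) := by
        simp only [e1]
        rw [integral_const, integral_const, smul_eq_mul, smul_eq_mul]
        congr 1
        simp [hT.le]
      have e3 : σ * ‖c‖ ^ 2 ≤ Q := by
        have h1 := hsub {0}
        rw [Finset.sum_singleton] at h1
        have h2 : u 0 = σ * ‖c‖ ^ 2 := by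
          simp only [u, hc]
          rw [integral_const, smul_eq_mul]
          simp [hσd]
        rw [h2] at h1; exact h1
      rw [e2]
      have h5 : (σ * ‖c‖ ^ 2) ^ 2 ≤ Q ^ 2 := pow_le_pow_left₀ (by positivity) e3 2
      have h6 : T * (σ * ‖c‖ ^ 4) = T / σ * (σ * ‖c‖ ^ 2) ^ 2 := by
        field_simp
      rw [h6]
      exact mul_le_mul_of_nonneg_left h5 (by positivity)
  have hz : NQ p q T (blk F 0 1) ≤
      ENNReal.ofReal (((T / σ) ^ (1/4 : ℝ)) ^ a * √Q) := by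
    have hA1 : √(∑ n ∈ Finset.Ico 0 1, ∫ x, ‖F n x‖ ^ 2 ∂sig) ≤ √Q := by
      apply Real.sqrt_le_sqrt
      have h1 := hsub {0}
      rw [Finset.sum_singleton] at h1
      have h3 : u 0 = ∑ n ∈ Finset.Ico 0 1, ∫ x, ‖F n x‖ ^ 2 ∂sig := by
        simp [u]
      rw [← h3]; exact h1
    have hM0 : ∀ t x, ‖blk F 0 1 t x‖ ≤ √Q := by
      intro t x
      have h3 : ‖blk F 0 1 t x‖ = ‖F 0 x‖ := by
        simp [blk, Lam]
      rw [h3]
      have h4 := sup_one 0 (F 0) (hFh 0) x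
      have h5 : √(∫ y, ‖F 0 y‖ ^ 2 ∂sig) ≤ √Q := by
        refine le_trans (le_of_eq ?_) hA1
        simp
      have h6 : √((2 * ((0:ℕ):ℝ) + 1) / (4 * π)) ≤ 1 := by
        apply Real.sqrt_le_one.mpr
        rw [div_le_one (by positivity)]
        have : (3:ℝ) < π := Real.pi_gt_three
        push_cast
        linarith
      calc ‖F 0 x‖ ≤ _ := h4
        _ ≤ 1 * √Q := mul_le_mul h6 h5 (Real.sqrt_nonneg _) zero_le_one
        _ = √Q := one_mul _
    have h1 := NQ3 p q T hp0 h2 hα hαq (blk F 0 1) (blk_cont hFc 0 1) (√Q)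
      ((T / σ) ^ (1/4 : ℝ) * √Q) (√Q)
      (Real.sqrt_nonneg _) (by positivity) (Real.sqrt_nonneg _)
      (fun t => (hL2 0 1 t).trans (ENNReal.ofReal_le_ofReal hA1)) hz0 hM0
    rw [← hcd, ← hbd, ← had] at h1
    have h7 : √Q ^ c * √Q ^ b * ((T / σ) ^ (1/4 : ℝ) * √Q) ^ a = ((T / σ) ^ (1/4 : ℝ)) ^ a * √Q := by
      rw [Real.mul_rpow (by positivity) (Real.sqrt_nonneg _)]
      have h8 : √Q ^ c * √Q ^ b * √Q ^ a = √Q := by
        rw [← Real.rpow_add_of_nonneg (Real.sqrt_nonneg _) hc0 hb0,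
          ← Real.rpow_add_of_nonneg (Real.sqrt_nonneg _) (by linarith) ha0]
        have : c + b + a = 1 := by linarith
        rw [this, Real.rpow_one]
      calc √Q ^ c * √Q ^ b * (((T / σ) ^ (1/4 : ℝ)) ^ a * √Q ^ a)
          = ((T / σ) ^ (1/4 : ℝ)) ^ a * (√Q ^ c * √Q ^ b * √Q ^ a) := by ring
        _ = _ := by rw [h8]
    rw [h7] at h1
    exact h1
  -- dyadic blocks
  have hb : ∀ j : ℕ, NQ p q T (blk F (2 ^ j) (2 * 2 ^ j)) ≤
      ENNReal.ofReal ((C ^ (1/4 : ℝ)) ^ a * ρ ^ j * √Q) := by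
    intro j
    have hN1 : 1 ≤ 2 ^ j := Nat.one_le_two_pow
    have hN0 : (0:ℝ) < ((2 ^ j : ℕ) : ℝ) := by positivity
    have h1 := hdy (2 ^ j) F hN1 hFh
    set N : ℕ := 2 ^ j with hNd
    set A : ℝ := ∑ n ∈ Finset.Ico N (2 * N), ∫ x, ‖F n x‖ ^ 2 ∂sig with hA
    have hA0 : 0 ≤ A := Finset.sum_nonneg fun n _ => hint n
    have hAQ : (N:ℝ) ^ (2 * s) * A ≤ Q := by
      refine le_trans ?_ (hsub (Finset.Ico N (2 * N)))
      rw [hA, Finset.mul_sum]
      apply Finset.sum_le_sum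
      intro n hn
      rw [Finset.mem_Ico] at hn
      apply mul_le_mul_of_nonneg_right _ (hint n)
      apply Real.rpow_le_rpow hN0.le _ (by linarith)
      have : (N:ℝ) ≤ n := by exact_mod_cast hn.1
      linarith
    have hX0 : 0 ≤ ∫ t in Icc 0 T, ∫ x, ‖blk F N (2 * N) t x‖ ^ 4 ∂sig :=
      integral_nonneg fun t => integral_nonneg fun x => by positivity
    have hA2 : √A ≤ (N:ℝ) ^ (-s) * √Q := by
      have h2 : A ≤ ((N:ℝ) ^ (-s)) ^ 2 * Q := by
        have h3 : A = ((N:ℝ) ^ (-s)) ^ 2 * ((N:ℝ) ^ (2 * s) * A) := by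
          rw [← mul_assoc, ← Real.rpow_natCast ((N:ℝ) ^ (-s)) 2, ← Real.rpow_mul hN0.le,
            ← Real.rpow_add hN0]
          have : -s * ((2:ℕ):ℝ) + 2 * s = 0 := by push_cast; ring
          rw [this]; simp
        rw [h3]
        exact mul_le_mul_of_nonneg_left hAQ (by positivity)
      refine (Real.sqrt_le_sqrt h2).trans (le_of_eq ?_)
      rw [Real.sqrt_mul (by positivity), Real.sqrt_sq (by positivity)]
    have hB : NN T (blk F N (2 * N)) ≤
        ENNReal.ofReal ((C ^ (1/4 : ℝ) * (N:ℝ) ^ s') * √A) := by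
      rw [NN_eq T (blk_cont hFc _ _)]
      apply ENNReal.ofReal_le_ofReal
      have h5 := quart hX0 (D := C * (N:ℝ) ^ (4 * s')) (by positivity) hA0 h1
      refine h5.trans (le_of_eq ?_)
      rw [Real.mul_rpow hC.le (by positivity), ← Real.rpow_mul hN0.le]
      congr 3
      ring
    have h6 := NQ3 p q T hp0 h2 hα hαq (blk F N (2 * N)) (blk_cont hFc _ _) (√A) _ (N * √A)
      (Real.sqrt_nonneg _) (by positivity) (by positivity) (fun t => hL2 _ _ t) hB
      (fun t x => sup_blk hFh N t x)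
    rw [← hcd, ← hbd, ← had] at h6
    refine h6.trans (ENNReal.ofReal_le_ofReal ?_)
    have h7 : (N * √A) ^ c * √A ^ b * (C ^ (1/4 : ℝ) * (N:ℝ) ^ s' * √A) ^ a =
        (C ^ (1/4 : ℝ)) ^ a * (N:ℝ) ^ (c + s' * a) * √A := by
      rw [Real.mul_rpow hN0.le (Real.sqrt_nonneg _),
        Real.mul_rpow (by positivity) (Real.sqrt_nonneg _),
        Real.mul_rpow (by positivity) (by positivity), ← Real.rpow_mul hN0.le,
        Real.rpow_add hN0]
      have h8 : √A ^ c * √A ^ b * √A ^ a = √A := by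
        rw [← Real.rpow_add_of_nonneg (Real.sqrt_nonneg _) hc0 hb0,
          ← Real.rpow_add_of_nonneg (Real.sqrt_nonneg _) (by linarith) ha0]
        have : c + b + a = 1 := by linarith
        rw [this, Real.rpow_one]
      calc (N:ℝ) ^ c * √A ^ c * √A ^ b * ((C ^ (1/4 : ℝ)) ^ a * (N:ℝ) ^ (s' * a) * √A ^ a)
          = (C ^ (1/4 : ℝ)) ^ a * ((N:ℝ) ^ c * (N:ℝ) ^ (s' * a)) * (√A ^ c * √A ^ b * √A ^ a) := by ring
        _ = _ := by rw [h8]
    have h8 : (N:ℝ) ^ (c + s' * a) * (N:ℝ) ^ (-s) = ρ ^ j := by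
      rw [← Real.rpow_add hN0, hρd, ← Real.rpow_natCast ((2:ℝ) ^ (-(s - (c + s' * a)))) j,
        ← Real.rpow_mul (by norm_num), hNd]
      push_cast
      rw [← Real.rpow_natCast 2 j, ← Real.rpow_mul (by norm_num)]
      congr 1
      ring
    rw [h7]
    calc (C ^ (1/4 : ℝ)) ^ a * (N:ℝ) ^ (c + s' * a) * √A
        ≤ (C ^ (1/4 : ℝ)) ^ a * (N:ℝ) ^ (c + s' * a) * ((N:ℝ) ^ (-s) * √Q) := by gcongr
      _ = (C ^ (1/4 : ℝ)) ^ a * ((N:ℝ) ^ (c + s' * a) * (N:ℝ) ^ (-s)) * √Q := by ring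
      _ = _ := by rw [h8]
  -- summation
  have hq1 : (1:ℝ) ≤ q := by linarith
  have hsum : ∀ J : ℕ, NQ p q T (blk F 0 (2 ^ J)) ≤
      ENNReal.ofReal ((((T / σ) ^ (1/4 : ℝ)) ^ a +
        (C ^ (1/4 : ℝ)) ^ a * ∑ j ∈ Finset.range J, ρ ^ j) * √Q) := by
    intro J
    induction J with
    | zero => simpa using hz
    | succ J ih =>
      have e1 : blk F 0 (2 ^ (J+1)) = fun t x => blk F 0 (2 ^ J) t x + blk F (2 ^ J) (2 * 2 ^ J) t x := by
        funext t x
        simp only [blk]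
        rw [Finset.sum_Ico_consecutive _ (Nat.zero_le _) (by omega), pow_succ, mul_comm]
      rw [e1]
      refine (NQ_add p q T hp hq1 (blk_cont hFc _ _) (blk_cont hFc _ _)).trans ?_
      refine (add_le_add ih (hb J)).trans ?_
      rw [← ENNReal.ofReal_add (by positivity) (by positivity)]
      apply ENNReal.ofReal_le_ofReal
      rw [Finset.sum_range_succ]
      apply le_of_eq
      ring
  have hsol : sol K F0 = blk F 0 (2 ^ K) := by
    funext t x
    simp only [sol, blk]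
    have h1 : ∑ n ∈ Finset.Ico 0 (2 ^ K), Complex.exp (((t * Lam n : ℝ) : ℂ) * Complex.I) * F n x
        = ∑ n ∈ Finset.range K, Complex.exp (((t * Lam n : ℝ) : ℂ) * Complex.I) * F n x := by
      rw [← Finset.range_eq_Ico]
      symm
      apply Finset.sum_subset
      · intro n hn
        rw [Finset.mem_range] at hn ⊢
        exact hn.trans Nat.lt_two_pow_self
      · intro n _ hn
        rw [Finset.mem_range] at hn
        simp only [F, hn, if_false, mul_zero]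
    rw [h1]
    apply Finset.sum_congr rfl
    intro n hn
    rw [Finset.mem_range] at hn
    simp only [F, hn, if_true]
  have hfin := hsum K
  rw [← hsol] at hfin
  refine le_trans hfin ?_
  apply ENNReal.ofReal_le_ofReal
  rw [hQd]
  apply mul_le_mul_of_nonneg_right _ (Real.sqrt_nonneg _)
  have := geo ρ hρ0.le hρ1 K
  have h7 : (C ^ (1/4 : ℝ)) ^ a * ∑ j ∈ Finset.range K, ρ ^ j ≤
      (C ^ (1/4 : ℝ)) ^ a * (1 / (1 - ρ)) :=
    mul_le_mul_of_nonneg_left this (by positivity)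
  linarith


/-- the case `p = q = ∞` -/
theorem high_top (s : ℝ) (hs : 1 < s) : StrichartzFin ⊤ ⊤ s := by
  intro T hT
  have hsum : Summable (fun n : ℕ => (1 + (n:ℝ)) ^ (1 - 2 * s)) := by
    have h1 : Summable (fun n : ℕ => (n:ℝ) ^ (1 - 2 * s)) :=
      Real.summable_nat_rpow.mpr (by linarith)
    have h2 := (summable_nat_add_iff 1).mpr h1
    refine h2.congr fun n => ?_
    push_cast
    rw [add_comm]
  refine ⟨√(∑' n : ℕ, (1 + (n:ℝ)) ^ (1 - 2 * s)), ?_⟩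
  intro K F hF
  have hb : ∀ t x, ‖sol K F t x‖ ≤ √(∑' n : ℕ, (1 + (n:ℝ)) ^ (1 - 2 * s)) * Hnorm s K F := by
    intro t x
    unfold sol Hnorm
    have h1 : ‖∑ n ∈ Finset.range K, Complex.exp (((t * Lam n : ℝ) : ℂ) * Complex.I) * F n x‖ ≤
        ∑ n ∈ Finset.range K, √((1 + (n:ℝ)) ^ (1 - 2 * s)) *
          √((1 + (n : ℝ)) ^ (2 * s) * ∫ y, ‖F n y‖ ^ 2 ∂sig) := by
      refine (norm_sum_le _ _).trans (Finset.sum_le_sum fun n _ => ?_)
      rw [norm_mul, Complex.norm_exp_ofReal_mul_I, one_mul]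
      refine (sup_one n (F n) (hF n) x).trans ?_
      rw [← Real.sqrt_mul (by positivity), ← Real.sqrt_mul (by positivity)]
      apply Real.sqrt_le_sqrt
      rw [← mul_assoc, ← Real.rpow_add (by positivity)]
      have h3 : 1 - 2 * s + 2 * s = 1 := by ring
      rw [h3, Real.rpow_one]
      refine mul_le_mul_of_nonneg_right ?_ (integral_nonneg fun y => by positivity)
      rw [div_le_iff₀ (by positivity)]
      have : (3:ℝ) < π := Real.pi_gt_three
      have : (0:ℝ) ≤ n := Nat.cast_nonneg n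
      nlinarith
    refine h1.trans ((Real.sum_mul_le_sqrt_mul_sqrt _ _ _).trans ?_)
    refine mul_le_mul ?_ (le_of_eq ?_) (Real.sqrt_nonneg _) (Real.sqrt_nonneg _)
    · apply Real.sqrt_le_sqrt
      have h2 : ∀ n ∈ Finset.range K, √((1 + (n:ℝ)) ^ (1 - 2 * s)) ^ 2 = (1 + (n:ℝ)) ^ (1 - 2 * s) :=
        fun n _ => Real.sq_sqrt (by positivity)
      rw [Finset.sum_congr rfl h2]
      exact hsum.sum_le_tsum _ (fun n _ => by positivity)
    · congr 1
      refine Finset.sum_congr rfl fun n _ => ?_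
      exact Real.sq_sqrt (mul_nonneg (by positivity) (integral_nonneg fun y => by positivity))
  have hB0 : 0 ≤ √(∑' n : ℕ, (1 + (n:ℝ)) ^ (1 - 2 * s)) * Hnorm s K F :=
    mul_nonneg (Real.sqrt_nonneg _) (Real.sqrt_nonneg _)
  have h1 : ∀ t, ‖(eLpNorm (sol K F t) ⊤ sig).toReal‖ ≤
      √(∑' n : ℕ, (1 + (n:ℝ)) ^ (1 - 2 * s)) * Hnorm s K F := by
    intro t
    rw [Real.norm_of_nonneg ENNReal.toReal_nonneg]
    have h2 := eLpNorm_le_of_ae_bound (p := ⊤) (μ := sig) (f := sol K F t)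
      (Filter.Eventually.of_forall (hb t))
    simp only [ENNReal.toReal_top, inv_zero, ENNReal.rpow_zero, one_mul] at h2
    have h3 := ENNReal.toReal_mono ENNReal.ofReal_ne_top h2
    rwa [ENNReal.toReal_ofReal hB0] at h3
  have h2 := eLpNorm_le_of_ae_bound (p := ⊤) (μ := volume.restrict (Icc 0 T))
    (Filter.Eventually.of_forall h1)
  simp only [ENNReal.toReal_top, inv_zero, ENNReal.rpow_zero, one_mul] at h2
  exact h2

end Q4h

-- ===== TARGET (prove this; the lemmas above may be used with their sorry) =====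
/-- `p ≥ q ≥ 2`, `1/p + 1/q ≤ 1/2`: the estimate holds for `s > 1 - 2/q - 5/(4p)` (here `a = 4/p`, `b = 2/q - 2/p`) -/
theorem upper_high (p q : ℝ≥0∞) (s : ℝ) (hq : 2 ≤ q) (hqp : q ≤ p) (hpq : 1 / p + 1 / q ≤ 1 / 2)
    (hs : 1 - 2 * (1 / q).toReal - 5 / 4 * (1 / p).toReal < s) : StrichartzFin p q s := by
  by_cases hqt : q = ⊤
  · subst hqt
    have hpt : p = ⊤ := top_le_iff.mp hqp
    subst hpt
    apply Q4h.high_top
    simpa using hs
  · have hq0 : q ≠ 0 := by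
      rintro rfl
      exact absurd hq (by norm_num)
    have hp0 : p ≠ 0 := by
      rintro rfl
      exact hq0 (le_zero_iff.mp hqp)
    have hp1 : 1 ≤ p := le_trans (by norm_num) (hq.trans hqp)
    have hqr : q = ENNReal.ofReal q.toReal := (ENNReal.ofReal_toReal hqt).symm
    have h2 : 2 ≤ q.toReal := by
      have := ENNReal.toReal_mono hqt hq
      simpa using this
    have h1q : (1 / q).toReal = 1 / q.toReal := by
      rw [one_div, ENNReal.toReal_inv, one_div]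
    have hα : (1 / p).toReal ≤ 1 / q.toReal := by
      rw [← h1q]
      refine ENNReal.toReal_mono (by simpa using hq0) ?_
      rw [one_div, one_div]
      exact ENNReal.inv_le_inv.mpr hqp
    have hαq : (1 / p).toReal + 1 / q.toReal ≤ 1 / 2 := by
      rw [← h1q, ← ENNReal.toReal_add (by simpa using hp0) (by simpa using hq0)]
      have := ENNReal.toReal_mono (by norm_num) hpq
      simpa using this
    rw [hqr]
    refine Q4h.high_fin p q.toReal s hp0 hp1 h2 hα hαq ?_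
    rw [h1q] at hs
    have : 2 / q.toReal = 2 * (1 / q.toReal) := by ring
    rw [this]; exact hs

end Pool.Agent.Helper442.DR
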