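import Mathlib
import Pool.Agent.Helper442.DR.Defs
import Pool.Agent.Helper442.DR.M1
import Pool.Agent.Helper442.DR.M2
import Pool.Agent.Helper442.DR.M4

open MeasureTheory Set Metric Real
open scoped ENNReal

namespace Pool.Agent.Helper442.DR













theorem q5_leg_one (n : ℕ) : leg n 1 = 1 := by
  induction n using Nat.twoStepInduction with
  | zero => rfl
  | one => rfl
  | more n h1 h2 =>
    rw [leg, h1, h2]
    field_simp
    ring

theorem q5_dot_self (x : S) : dot x x = 1 := by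
  have h : ‖(x : E)‖ = 1 := by simpa using x.2
  have h2 := EuclideanSpace.norm_sq_eq (x : E)
  rw [h] at h2
  unfold dot
  simp only [Real.norm_eq_abs, sq_abs] at h2
  rw [one_pow] at h2
  rw [h2]
  exact Finset.sum_congr rfl fun i _ => by ring

theorem q5_dot_comm (x y : S) : dot x y = dot y x := by
  unfold dot
  exact Finset.sum_congr rfl fun i _ => by ring

theorem q5_leg_cont (n : ℕ) : Continuous (leg n) := by
  induction n using Nat.twoStepInduction with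
  | zero => exact continuous_const
  | one => exact continuous_id
  | more n h1 h2 =>
    have : leg (n + 2) = fun x => ((2 * n + 3) * x * leg (n + 1) x - (n + 1) * leg n x) / (n + 2) := by
      funext x; rw [leg]
    rw [this]
    fun_prop

theorem q5_dot_cont (x : S) : Continuous (fun y : S => dot x y) := by
  unfold dot
  refine continuous_finset_sum _ fun i _ => ?_
  refine continuous_const.mul ?_
  exact (EuclideanSpace.proj (𝕜 := ℝ) i).continuous.comp continuous_subtype_val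

theorem zcont (j : ℕ) (x : S) : Continuous (fun y : S => leg j (dot x y)) :=
  (q5_leg_cont j).comp (q5_dot_cont x)

theorem zint {f : S → ℝ} (hf : Continuous f) : Integrable f sig := by
  haveI : IsFiniteMeasure sig := by unfold sig; infer_instance
  have := hf.integrable_of_hasCompactSupport (μ := sig) (HasCompactSupport.of_compactSpace f)
  exact this

theorem repro_real (j : ℕ) (x x' : S) :
    ∫ y, (2 * j + 1) / (4 * π) * leg j (dot x y) * leg j (dot x' y) ∂sig = leg j (dot x' x) := by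
  have h := repro j j _ (zonal j x') x
  rw [if_pos rfl] at h
  have h2 : ∫ y, ((((2 * j + 1) / (4 * π) * leg j (dot x y) * leg j (dot x' y) : ℝ)) : ℂ) ∂sig
      = ((leg j (dot x' x) : ℝ) : ℂ) := by
    rw [← h]
    refine integral_congr_ae (Filter.Eventually.of_forall fun y => ?_)
    push_cast
    ring
  rw [integral_complex_ofReal] at h2
  exact_mod_cast h2

theorem leg_abs (j : ℕ) (x x' : S) : |leg j (dot x' x)| ≤ 1 := by
  have hc : (0:ℝ) ≤ (2 * j + 1) / (4 * π) := by positivity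
  have a := repro_real j x x
  have b := repro_real j x' x'
  have c := repro_real j x x'
  rw [q5_dot_self, q5_leg_one] at a b
  have i1 : Integrable (fun y => (2 * j + 1) / (4 * π) * leg j (dot x y) * leg j (dot x y)) sig :=
    zint ((continuous_const.mul (zcont j x)).mul (zcont j x))
  have i2 : Integrable (fun y => (2 * j + 1) / (4 * π) * leg j (dot x' y) * leg j (dot x' y)) sig :=
    zint ((continuous_const.mul (zcont j x')).mul (zcont j x'))
  have i3 : Integrable (fun y => (2 * j + 1) / (4 * π) * leg j (dot x y) * leg j (dot x' y)) sig :=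
    zint ((continuous_const.mul (zcont j x)).mul (zcont j x'))
  have i12 : Integrable (fun y => (2 * j + 1) / (4 * π) * leg j (dot x y) * leg j (dot x y)
      + (2 * j + 1) / (4 * π) * leg j (dot x' y) * leg j (dot x' y)) sig := i1.add i2
  rw [abs_le]
  constructor
  · have h0 : 0 ≤ ∫ y, ((2 * j + 1) / (4 * π) * leg j (dot x y) * leg j (dot x y)
        + (2 * j + 1) / (4 * π) * leg j (dot x' y) * leg j (dot x' y))
        + 2 * ((2 * j + 1) / (4 * π) * leg j (dot x y) * leg j (dot x' y)) ∂sig := by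
      refine integral_nonneg fun y => ?_
      have : 0 ≤ (2 * j + 1) / (4 * π) * (leg j (dot x y) + leg j (dot x' y)) ^ 2 := by positivity
      simp only [Pi.zero_apply]
      nlinarith [this]
    rw [integral_add i12 (i3.const_mul 2), integral_add i1 i2, integral_const_mul, a, b, c]
      at h0
    linarith
  · have h0 : 0 ≤ ∫ y, ((2 * j + 1) / (4 * π) * leg j (dot x y) * leg j (dot x y)
        + (2 * j + 1) / (4 * π) * leg j (dot x' y) * leg j (dot x' y))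
        - 2 * ((2 * j + 1) / (4 * π) * leg j (dot x y) * leg j (dot x' y)) ∂sig := by
      refine integral_nonneg fun y => ?_
      have : 0 ≤ (2 * j + 1) / (4 * π) * (leg j (dot x y) - leg j (dot x' y)) ^ 2 := by positivity
      simp only [Pi.zero_apply]
      nlinarith [this]
    rw [integral_sub i12 (i3.const_mul 2), integral_add i1 i2, integral_const_mul, a, b, c]
      at h0
    linarith

theorem leg_low (z : ℝ) (hz : z ≤ 1) (h : ∀ j, |leg j z| ≤ 1) (n : ℕ) :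
    1 - n * (n + 1) / 2 * (1 - z) ≤ leg n z := by
  have hD : ∀ n : ℕ, -((1 - z) * ((n:ℝ) + 1) ^ 2) ≤ ((n:ℝ) + 1) * (leg (n + 1) z - leg n z) := by
    intro n
    induction n with
    | zero => simp [leg]
    | succ n ih =>
      have hr : ((n:ℝ) + 2) * leg (n + 2) z = (2 * n + 3) * z * leg (n + 1) z - (n + 1) * leg n z := by
        rw [leg]; field_simp
      have h1 := (abs_le.1 (h (n + 1))).2
      push_cast
      have h2 : (1 - z) * (2 * (n:ℝ) + 3) * (leg (n + 1) z) ≤ (1 - z) * (2 * (n:ℝ) + 3) * 1 :=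
        mul_le_mul_of_nonneg_left h1 (mul_nonneg (by linarith) (by positivity))
      nlinarith [h2, ih, hr]
  induction n with
  | zero => simp [leg]
  | succ n ih =>
    have h3 := hD n
    have h4 : -((1 - z) * ((n:ℝ) + 1)) ≤ leg (n + 1) z - leg n z := by
      have hp : (0:ℝ) < (n:ℝ) + 1 := by positivity
      by_contra hc
      push Not at hc
      have := mul_lt_mul_of_pos_left hc hp
      nlinarith
    push_cast
    nlinarith


/-- the pole -/
noncomputable def pole : S := ⟨EuclideanSpace.single 2 (1:ℝ), by simp [mem_sphere_zero_iff_norm]⟩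

theorem dot_pole (y : S) : dot pole y = (y : E) 2 := by
  unfold dot pole
  rw [Fin.sum_univ_three]
  simp

def cap (a : ℝ) : Set S := {y | 1 - 4 * a ^ 2 ≤ (y : E) 2}

theorem cap_meas (a : ℝ) : MeasurableSet (cap a) := by
  apply IsClosed.measurableSet
  apply isClosed_le continuous_const
  exact (EuclideanSpace.proj (𝕜 := ℝ) (2 : Fin 3)).continuous.comp continuous_subtype_val

open scoped Pointwise in
theorem cap_low (a : ℝ) (ha : 0 < a) (ha2 : a ≤ 1 / 4) :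
    ENNReal.ofReal (a ^ 2 / 4) ≤ sig (cap a) := by
  unfold sig
  rw [Measure.toSphere_apply' _ (cap_meas a)]
  have hB : volume ((fun v : E => (WithLp.ofLp v : Fin 3 → ℝ)) ⁻¹' (Set.pi Set.univ
      (fun i : Fin 3 => if i = 2 then Ioo (1/2 : ℝ) (3/4) else Ioo (0:ℝ) a)))
      = ENNReal.ofReal (a ^ 2 / 4) := by
    rw [(PiLp.volume_preserving_ofLp (Fin 3)).measure_preimage_emb
      (MeasurableEquiv.toLp 2 (Fin 3 → ℝ)).symm.measurableEmbedding]
    rw [volume_pi, Measure.pi_pi, Fin.prod_univ_three]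
    simp only [show ¬ (0 : Fin 3) = 2 by decide, show ¬ (1 : Fin 3) = 2 by decide, if_true, if_false, Real.volume_Ioo]
    rw [← ENNReal.ofReal_mul (by linarith), ← ENNReal.ofReal_mul (by nlinarith)]
    congr 1
    ring
  have hsub : (fun v : E => (WithLp.ofLp v : Fin 3 → ℝ)) ⁻¹' (Set.pi Set.univ
      (fun i : Fin 3 => if i = 2 then Ioo (1/2 : ℝ) (3/4) else Ioo (0:ℝ) a)) ⊆
      Ioo (0:ℝ) 1 • ((Subtype.val : S → E) '' cap a) := by
    intro v hv
    have h0 : 0 < v 0 ∧ v 0 < a := by simpa using hv 0 (Set.mem_univ _)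
    have h1 : 0 < v 1 ∧ v 1 < a := by simpa using hv 1 (Set.mem_univ _)
    have h2 : 1 / 2 < v 2 ∧ v 2 < 3 / 4 := by simpa using hv 2 (Set.mem_univ _)
    have hn : ‖v‖ ^ 2 = v 0 ^ 2 + v 1 ^ 2 + v 2 ^ 2 := by
      rw [EuclideanSpace.norm_sq_eq, Fin.sum_univ_three]
      simp [sq_abs]
    have hpos : 0 ≤ ‖v‖ := norm_nonneg v
    have hv2 : v 2 ≤ ‖v‖ := by
      by_contra hc
      push Not at hc
      nlinarith [sq_nonneg (v 0), sq_nonneg (v 1), mul_pos (sub_pos.2 hc) (show (0:ℝ) < v 2 by linarith)]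
    have hv0 : 0 < ‖v‖ := by linarith
    have hv1 : ‖v‖ < 1 := by
      by_contra hc
      push Not at hc
      nlinarith [h0.1, h0.2, h1.1, h1.2, h2.1, h2.2]
    refine Set.mem_smul.2 ⟨‖v‖, ⟨hv0, hv1⟩, (‖v‖)⁻¹ • v, ⟨⟨(‖v‖)⁻¹ • v, ?_⟩, ?_, rfl⟩, ?_⟩
    · rw [mem_sphere_zero_iff_norm, norm_smul, norm_inv, norm_norm, inv_mul_cancel₀ hv0.ne']
    · change 1 - 4 * a ^ 2 ≤ ((‖v‖)⁻¹ • v) 2
      have : ((‖v‖)⁻¹ • v) 2 = (‖v‖)⁻¹ * v 2 := by simp
      rw [this, inv_mul_eq_div, le_div_iff₀ hv0]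
      nlinarith [h0.1, h0.2, h1.1, h1.2, h2.1, h2.2, mul_pos ha ha]
    · rw [smul_smul, mul_inv_cancel₀ hv0.ne', one_smul]
  calc ENNReal.ofReal (a ^ 2 / 4) ≤ volume (Ioo (0:ℝ) 1 • ((Subtype.val : S → E) '' cap a)) := by
        rw [← hB]; exact measure_mono hsub
    _ ≤ _ := by
        have : (1 : ℝ≥0∞) ≤ (Module.finrank ℝ E : ℝ≥0∞) := by
          have : Module.finrank ℝ E = 3 := by simp [E]
          rw [this]; norm_num
        calc volume (Ioo (0:ℝ) 1 • ((Subtype.val : S → E) '' cap a))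
            = 1 * volume (Ioo (0:ℝ) 1 • ((Subtype.val : S → E) '' cap a)) := (one_mul _).symm
          _ ≤ _ := mul_le_mul' this le_rfl


theorem q5_harm_smul (n : ℕ) (f : S → ℂ) (hf : IsSphHarm n f) (c : ℂ) :
    IsSphHarm n (fun x => c * f x) := by
  obtain ⟨P, h1, h2, h3⟩ := hf
  refine ⟨MvPolynomial.C c * P, h1.C_mul c, ?_, ?_⟩
  · simp only [MvPolynomial.pderiv_C_mul, ← Finset.mul_sum, h2, mul_zero]
  · intro x
    simp [h3 x]

/-- the focusing data -/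
noncomputable def FF (N n : ℕ) : S → ℂ := fun x =>
  ((if N ≤ n then (2 * (n:ℝ) + 1) else 0 : ℝ) : ℂ) * ((leg n (dot pole x) : ℝ) : ℂ)

theorem FF_harm (N n : ℕ) : IsSphHarm n (FF N n) := q5_harm_smul n _ (zonal n pole) _

theorem FF_cont (N n : ℕ) : Continuous (FF N n) :=
  continuous_const.mul (Complex.continuous_ofReal.comp (zcont n pole))

theorem FF_norm (N n : ℕ) (h : N ≤ n) : ∫ x, ‖FF N n x‖ ^ 2 ∂sig = 4 * π * (2 * n + 1) := by
  have h1 := repro_real n pole pole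
  rw [q5_dot_self, q5_leg_one] at h1
  have h2 : ∀ x, ‖FF N n x‖ ^ 2 = (4 * π * (2 * n + 1)) *
      ((2 * n + 1) / (4 * π) * leg n (dot pole x) * leg n (dot pole x)) := by
    intro x
    have hpi := Real.pi_pos
    unfold FF
    rw [if_pos h, ← Complex.ofReal_mul, Complex.norm_real, Real.norm_eq_abs, sq_abs]
    field_simp
  simp_rw [h2]
  rw [integral_const_mul, h1, mul_one]

theorem rpow_bd (s : ℝ) (N m : ℕ) (hN : 1 ≤ N) (hm : m < N) :
    (1 + ((N + m : ℕ) : ℝ)) ^ (2 * s) ≤ 4 ^ |s| * (N:ℝ) ^ (2 * s) := by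
  have hN' : (1:ℝ) ≤ N := by exact_mod_cast hN
  have hm' : (m:ℝ) + 1 ≤ N := by exact_mod_cast hm
  have hm0 : (0:ℝ) ≤ m := Nat.cast_nonneg m
  push_cast
  rcases le_or_gt 0 s with hs | hs
  · calc (1 + ((N:ℝ) + m)) ^ (2 * s) ≤ (2 * (N:ℝ)) ^ (2 * s) :=
        Real.rpow_le_rpow (by positivity) (by linarith) (by linarith)
      _ = 4 ^ |s| * (N:ℝ) ^ (2 * s) := by
        rw [Real.mul_rpow (by norm_num) (by positivity), abs_of_nonneg hs,
          Real.rpow_mul (by norm_num) 2 s]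
        norm_num
  · have h4 : (1:ℝ) ≤ 4 ^ |s| := Real.one_le_rpow (by norm_num) (abs_nonneg s)
    calc (1 + ((N:ℝ) + m)) ^ (2 * s) ≤ (N:ℝ) ^ (2 * s) :=
        Real.rpow_le_rpow_of_nonpos (by linarith) (by linarith) (by linarith)
      _ = 1 * (N:ℝ) ^ (2 * s) := (one_mul _).symm
      _ ≤ _ := mul_le_mul_of_nonneg_right h4 (by positivity)

theorem Hn_bd (s : ℝ) (N : ℕ) (hN : 1 ≤ N) :
    Hnorm s (N + N) (FF N) ≤ √(16 * π * 4 ^ |s|) * (N:ℝ) ^ (s + 1) := by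
  have hN' : (1:ℝ) ≤ N := by exact_mod_cast hN
  have hN0 : (0:ℝ) < N := by linarith
  have hpi := Real.pi_pos
  unfold Hnorm
  rw [Finset.sum_range_add]
  have hz : ∑ n ∈ Finset.range N, (1 + (n : ℝ)) ^ (2 * s) * ∫ x, ‖FF N n x‖ ^ 2 ∂sig = 0 := by
    refine Finset.sum_eq_zero fun n hn => ?_
    have : ¬ N ≤ n := by simpa using hn
    simp [FF, this]
  rw [hz, zero_add]
  have hb : ∑ x ∈ Finset.range N, (1 + ((N + x : ℕ) : ℝ)) ^ (2 * s) * ∫ x_1, ‖FF N (N + x) x_1‖ ^ 2 ∂sig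
      ≤ ∑ x ∈ Finset.range N, 4 ^ |s| * (N:ℝ) ^ (2 * s) * (16 * π * N) := by
    refine Finset.sum_le_sum fun m hm => ?_
    have hm1 : m < N := Finset.mem_range.1 hm
    have hm' : (m:ℝ) + 1 ≤ N := by exact_mod_cast hm1
    rw [FF_norm N (N + m) (Nat.le_add_right _ _)]
    refine mul_le_mul (rpow_bd s N m hN hm1) ?_ (by positivity) (by positivity)
    push_cast
    nlinarith
  rw [Finset.sum_const, Finset.card_range, nsmul_eq_mul] at hb
  have he : (N:ℝ) * (4 ^ |s| * (N:ℝ) ^ (2 * s) * (16 * π * N)) =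
      (16 * π * 4 ^ |s|) * ((N:ℝ) ^ (s + 1)) ^ 2 := by
    have : ((N:ℝ) ^ (s + 1)) ^ 2 = (N:ℝ) ^ (2 * s) * (N:ℝ) ^ 2 := by
      rw [← Real.rpow_natCast ((N:ℝ) ^ (s + 1)) 2, ← Real.rpow_mul hN0.le,
        ← Real.rpow_natCast (N:ℝ) 2, ← Real.rpow_add hN0]
      congr 1
      push_cast
      ring
    rw [this]; ring
  calc √(∑ x ∈ Finset.range N, (1 + ((N + x : ℕ) : ℝ)) ^ (2 * s) * ∫ x_1, ‖FF N (N + x) x_1‖ ^ 2 ∂sig)
      ≤ √((16 * π * 4 ^ |s|) * ((N:ℝ) ^ (s + 1)) ^ 2) := Real.sqrt_le_sqrt (by rw [← he]; exact hb)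
    _ = _ := by rw [Real.sqrt_mul (by positivity), Real.sqrt_sq (by positivity)]

theorem final_contra (α β s C : ℝ) (hδ : s < 1 - 2 * α - 3 / 2 * β)
    (h : ∀ N : ℕ, 1 ≤ N → (N:ℝ) ^ 2 / 2 * (1 / (144 * (N:ℝ) ^ 2)) ^ α *
      ((N:ℝ) ^ (-(3:ℝ) / 2) / 4) ^ β ≤ C * (N:ℝ) ^ (s + 1)) : False := by
  set c0 : ℝ := 1 / 2 * (1 / 144) ^ α * (1 / 4) ^ β with hc0
  have hc : 0 < c0 := by positivity
  have key : ∀ N : ℕ, 1 ≤ N → c0 * (N:ℝ) ^ (1 - 2 * α - 3 / 2 * β - s) ≤ C := by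
    intro N hN
    have hN0 : (0:ℝ) < N := by exact_mod_cast hN
    have h1 := h N hN
    have e1 : (1 / (144 * (N:ℝ) ^ 2)) ^ α = (1 / 144) ^ α * (N:ℝ) ^ (-2 * α) := by
      have : 1 / (144 * (N:ℝ) ^ 2) = (1 / 144) * (N:ℝ) ^ (-2 : ℝ) := by
        rw [Real.rpow_neg hN0.le]
        norm_num
        ring
      rw [this, Real.mul_rpow (by norm_num) (by positivity), ← Real.rpow_mul hN0.le]
    have e2 : ((N:ℝ) ^ (-(3:ℝ) / 2) / 4) ^ β = (1 / 4) ^ β * (N:ℝ) ^ (-(3:ℝ) / 2 * β) := by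
      have : (N:ℝ) ^ (-(3:ℝ) / 2) / 4 = (1 / 4) * (N:ℝ) ^ (-(3:ℝ) / 2) := by ring
      rw [this, Real.mul_rpow (by norm_num) (by positivity), ← Real.rpow_mul hN0.le]
    have e3 : (N:ℝ) ^ 2 * (N:ℝ) ^ (-2 * α) * (N:ℝ) ^ (-(3:ℝ) / 2 * β) =
        (N:ℝ) ^ (1 - 2 * α - 3 / 2 * β - s) * (N:ℝ) ^ (s + 1) := by
      rw [← Real.rpow_natCast (N:ℝ) 2, ← Real.rpow_add hN0, ← Real.rpow_add hN0, ← Real.rpow_add hN0]
      congr 1
      push_cast
      ring
    have hp : (0:ℝ) < (N:ℝ) ^ (s + 1) := by positivity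
    have e4 : (N:ℝ) ^ 2 / 2 * (1 / (144 * (N:ℝ) ^ 2)) ^ α * ((N:ℝ) ^ (-(3:ℝ) / 2) / 4) ^ β =
        c0 * (N:ℝ) ^ (1 - 2 * α - 3 / 2 * β - s) * (N:ℝ) ^ (s + 1) := by
      rw [e1, e2, hc0]
      linear_combination (1 / 2 * (1 / 144) ^ α * (1 / 4) ^ β) * e3
    rw [e4] at h1
    exact le_of_mul_le_mul_right h1 hp
  have ht : Filter.Tendsto (fun N : ℕ => c0 * (N:ℝ) ^ (1 - 2 * α - 3 / 2 * β - s)) Filter.atTop
      Filter.atTop :=
    Filter.Tendsto.const_mul_atTop hc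
      ((tendsto_rpow_atTop (by linarith)).comp tendsto_natCast_atTop_atTop)
  obtain ⟨N, h1, h2⟩ := ((ht.eventually_gt_atTop C).and (Filter.eventually_ge_atTop 1)).exists
  exact absurd (key N h2) (not_le.2 h1)

theorem Lam_bd (N m : ℕ) (hm : m < N) : Lam (N + m) ≤ 4 * (N:ℝ) ^ ((3:ℝ) / 2) := by
  have hN : (1:ℝ) ≤ N := by
    have : 1 ≤ N := by omega
    exact_mod_cast this
  have hm' : (m:ℝ) + 1 ≤ N := by exact_mod_cast hm
  have hm0 : (0:ℝ) ≤ m := Nat.cast_nonneg m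
  unfold Lam
  rw [Real.sqrt_le_left (by positivity)]
  have : (4 * (N:ℝ) ^ ((3:ℝ) / 2)) ^ 2 = 16 * (N:ℝ) ^ 3 := by
    rw [mul_pow, ← Real.rpow_natCast ((N:ℝ) ^ ((3:ℝ) / 2)) 2, ← Real.rpow_mul (by linarith)]
    norm_num
  rw [this]
  push_cast
  have hx : (N:ℝ) + m ≤ 2 * N := by linarith
  have hx0 : 0 ≤ (N:ℝ) + m := by positivity
  have h1 : ((N:ℝ) + m - 1) * ((N:ℝ) + m + 2) ≤ 8 * (N:ℝ) ^ 2 := by nlinarith
  have h2 : 0 ≤ ((N:ℝ) + m - 1) * ((N:ℝ) + m + 2) := mul_nonneg (by linarith) (by linarith)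
  calc ((N:ℝ) + m) * ((N:ℝ) + m - 1) * ((N:ℝ) + m + 2)
      = ((N:ℝ) + m) * (((N:ℝ) + m - 1) * ((N:ℝ) + m + 2)) := by ring
    _ ≤ (2 * N) * (8 * (N:ℝ) ^ 2) := mul_le_mul hx h1 h2 (by positivity)
    _ = 16 * (N:ℝ) ^ 3 := by ring

theorem sol_low (N : ℕ) (hN : 1 ≤ N) (t : ℝ) (ht0 : 0 ≤ t) (ht : t ≤ (N:ℝ) ^ (-(3:ℝ) / 2) / 4)
    (x : S) (hx : x ∈ cap (1 / (6 * N))) : (N:ℝ) ^ 2 / 2 ≤ ‖sol (N + N) (FF N) t x‖ := by
  have hN' : (1:ℝ) ≤ N := by exact_mod_cast hN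
  have hN0 : (0:ℝ) < N := by linarith
  refine le_trans ?_ (Complex.re_le_norm _)
  unfold sol
  rw [Finset.sum_range_add, Complex.add_re, Complex.re_sum, Complex.re_sum]
  have hz : ∑ n ∈ Finset.range N, (Complex.exp (((t * Lam n : ℝ) : ℂ) * Complex.I) * FF N n x).re = 0 := by
    refine Finset.sum_eq_zero fun n hn => ?_
    have : ¬ N ≤ n := by simpa using hn
    simp [FF, this]
  rw [hz, zero_add]
  have hb : ∑ m ∈ Finset.range N, (N:ℝ) / 2 ≤ ∑ m ∈ Finset.range N,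
      (Complex.exp (((t * Lam (N + m) : ℝ) : ℂ) * Complex.I) * FF N (N + m) x).re := by
    refine Finset.sum_le_sum fun m hm => ?_
    have hm1 : m < N := Finset.mem_range.1 hm
    have hm' : (m:ℝ) + 1 ≤ N := by exact_mod_cast hm1
    have hm0 : (0:ℝ) ≤ m := Nat.cast_nonneg m
    unfold FF
    rw [if_pos (Nat.le_add_right _ _), ← Complex.ofReal_mul, Complex.re_mul_ofReal,
      Complex.exp_ofReal_mul_I_re]
    have hL0 : 0 ≤ Lam (N + m) := Real.sqrt_nonneg _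
    have hth0 : 0 ≤ t * Lam (N + m) := mul_nonneg ht0 hL0
    have hth : t * Lam (N + m) ≤ 1 := by
      calc t * Lam (N + m) ≤ ((N:ℝ) ^ (-(3:ℝ) / 2) / 4) * (4 * (N:ℝ) ^ ((3:ℝ) / 2)) :=
            mul_le_mul ht (Lam_bd N m hm1) hL0 (by positivity)
        _ = (N:ℝ) ^ (-(3:ℝ) / 2) * (N:ℝ) ^ ((3:ℝ) / 2) := by ring
        _ = 1 := by rw [← Real.rpow_add hN0]; norm_num
    have hcos : 1 / 2 ≤ Real.cos (t * Lam (N + m)) := by
      have := Real.one_sub_sq_div_two_le_cos (x := t * Lam (N + m))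
      nlinarith
    have hleg : 1 / 2 ≤ leg (N + m) (dot pole x) := by
      have hz1 : dot pole x ≤ 1 := by
        have := (abs_le.1 (leg_abs 1 x pole)).2
        simpa [leg] using this
      have h1 := leg_low (dot pole x) hz1 (fun j => leg_abs j x pole) (N + m)
      have h2 : 1 - 4 * (1 / (6 * (N:ℝ))) ^ 2 ≤ dot pole x := by rw [dot_pole]; exact hx
      have h3 : 1 - dot pole x ≤ 1 / (9 * (N:ℝ) ^ 2) := by
        have : 4 * (1 / (6 * (N:ℝ))) ^ 2 = 1 / (9 * (N:ℝ) ^ 2) := by field_simp; norm_num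
        linarith
      have h4 : (((N + m : ℕ) : ℝ) * (((N + m : ℕ) : ℝ) + 1) / 2) ≤ 3 * (N:ℝ) ^ 2 := by
        push_cast
        nlinarith
      have h5 : (((N + m : ℕ) : ℝ) * (((N + m : ℕ) : ℝ) + 1) / 2) * (1 - dot pole x) ≤
          3 * (N:ℝ) ^ 2 * (1 / (9 * (N:ℝ) ^ 2)) :=
        mul_le_mul h4 h3 (by linarith) (by positivity)
      have h6 : 3 * (N:ℝ) ^ 2 * (1 / (9 * (N:ℝ) ^ 2)) = 1 / 3 := by field_simp; norm_num
      rw [h6] at h5
      linarith
    have hc : 2 * (N:ℝ) ≤ 2 * ((N + m : ℕ) : ℝ) + 1 := by push_cast; linarith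
    have hcl : (2 * (N:ℝ)) * (1 / 2) ≤ (2 * ((N + m : ℕ) : ℝ) + 1) * leg (N + m) (dot pole x) :=
      mul_le_mul hc hleg (by norm_num) (by positivity)
    calc (N:ℝ) / 2 = (1 / 2) * ((2 * (N:ℝ)) * (1 / 2)) := by ring
      _ ≤ Real.cos (t * Lam (N + m)) * ((2 * ((N + m : ℕ) : ℝ) + 1) * leg (N + m) (dot pole x)) :=
          mul_le_mul hcos hcl (by positivity) (by linarith)
  rw [Finset.sum_const, Finset.card_range, nsmul_eq_mul] at hb
  calc (N:ℝ) ^ 2 / 2 = (N:ℝ) * ((N:ℝ) / 2) := by ring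
    _ ≤ _ := hb


theorem q5_sol_cont (N : ℕ) (t : ℝ) : Continuous (sol (N + N) (FF N) t) := by
  unfold sol
  refine continuous_finset_sum _ fun n _ => ?_
  exact continuous_const.mul (FF_cont N n)

theorem inner_low (N : ℕ) (hN : 1 ≤ N) (q : ℝ≥0∞) (hq : 1 ≤ q) (t : ℝ) (ht0 : 0 ≤ t)
    (ht : t ≤ (N:ℝ) ^ (-(3:ℝ) / 2) / 4) :
    (N:ℝ) ^ 2 / 2 * (1 / (144 * (N:ℝ) ^ 2)) ^ (1 / q.toReal) ≤
      (eLpNorm (sol (N + N) (FF N) t) q sig).toReal := by
  have hN' : (1:ℝ) ≤ N := by exact_mod_cast hN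
  have hN0 : (0:ℝ) < N := by linarith
  have hfin : eLpNorm (sol (N + N) (FF N) t) q sig ≠ ∞ := by
    haveI : IsFiniteMeasure sig := by unfold sig; infer_instance
    exact ((q5_sol_cont N t).memLp_of_hasCompactSupport (μ := sig) (p := q)
      (HasCompactSupport.of_compactSpace _)).eLpNorm_ne_top
  rw [← ENNReal.ofReal_le_iff_le_toReal hfin]
  have hcap := cap_low (1 / (6 * (N:ℝ))) (by positivity) (by
    rw [div_le_div_iff₀ (by positivity) (by norm_num)]; linarith)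
  have he : (1 / (6 * (N:ℝ))) ^ 2 / 4 = 1 / (144 * (N:ℝ) ^ 2) := by field_simp; norm_num
  rw [he] at hcap
  have hpos : sig (cap (1 / (6 * (N:ℝ)))) ≠ 0 := by
    intro h0
    rw [h0] at hcap
    have : 0 < 1 / (144 * (N:ℝ) ^ 2) := by positivity
    have := ENNReal.ofReal_pos.2 this
    exact absurd hcap (not_le.2 this)
  have hq0 : q ≠ 0 := by
    rintro rfl
    simp at hq
  calc ENNReal.ofReal ((N:ℝ) ^ 2 / 2 * (1 / (144 * (N:ℝ) ^ 2)) ^ (1 / q.toReal))
      = ENNReal.ofReal ((N:ℝ) ^ 2 / 2) * (ENNReal.ofReal (1 / (144 * (N:ℝ) ^ 2))) ^ (1 / q.toReal) := by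
        rw [ENNReal.ofReal_mul (by positivity),
          ENNReal.ofReal_rpow_of_pos (by positivity)]
    _ ≤ ENNReal.ofReal ((N:ℝ) ^ 2 / 2) * (sig (cap (1 / (6 * (N:ℝ))))) ^ (1 / q.toReal) := by
        gcongr
    _ = eLpNorm ((cap (1 / (6 * (N:ℝ)))).indicator (fun _ => ((N:ℝ) ^ 2 / 2 : ℝ))) q sig := by
        rw [eLpNorm_indicator_const' (cap_meas _) hpos hq0,
          Real.enorm_of_nonneg (by positivity)]
    _ ≤ eLpNorm (sol (N + N) (FF N) t) q sig := by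
        refine eLpNorm_mono fun x => ?_
        by_cases hx : x ∈ cap (1 / (6 * (N:ℝ)))
        · rw [Set.indicator_of_mem hx, Real.norm_of_nonneg (by positivity)]
          exact sol_low N hN t ht0 ht x hx
        · rw [Set.indicator_of_notMem hx, norm_zero]
          exact norm_nonneg _

theorem outer_low (N : ℕ) (hN : 1 ≤ N) (p q : ℝ≥0∞) (hp : 1 ≤ p) (hq : 1 ≤ q) :
    ENNReal.ofReal ((N:ℝ) ^ 2 / 2 * (1 / (144 * (N:ℝ) ^ 2)) ^ (1 / q.toReal) *
      ((N:ℝ) ^ (-(3:ℝ) / 2) / 4) ^ (1 / p.toReal)) ≤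
    eLpNorm (fun t => (eLpNorm (sol (N + N) (FF N) t) q sig).toReal) p
      (volume.restrict (Icc 0 1)) := by
  have hN' : (1:ℝ) ≤ N := by exact_mod_cast hN
  have hN0 : (0:ℝ) < N := by linarith
  set τ : ℝ := (N:ℝ) ^ (-(3:ℝ) / 2) / 4 with hτ
  have hτ0 : 0 < τ := by positivity
  have hτ1 : τ ≤ 1 := by
    have : (N:ℝ) ^ (-(3:ℝ) / 2) ≤ 1 := Real.rpow_le_one_of_one_le_of_nonpos hN' (by norm_num)
    rw [hτ]; linarith
  set d : ℝ := (N:ℝ) ^ 2 / 2 * (1 / (144 * (N:ℝ) ^ 2)) ^ (1 / q.toReal) with hd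
  have hd0 : 0 < d := by positivity
  have hm : (volume.restrict (Icc (0:ℝ) 1)) (Icc 0 τ) = ENNReal.ofReal τ := by
    rw [Measure.restrict_apply measurableSet_Icc,
      Set.inter_eq_left.2 (Set.Icc_subset_Icc le_rfl hτ1), Real.volume_Icc, sub_zero]
  have hp0 : p ≠ 0 := by
    rintro rfl
    simp at hp
  have hm0 : (volume.restrict (Icc (0:ℝ) 1)) (Icc 0 τ) ≠ 0 := by
    rw [hm]
    exact (ENNReal.ofReal_pos.2 hτ0).ne'
  calc ENNReal.ofReal (d * τ ^ (1 / p.toReal))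
      = ENNReal.ofReal d * (ENNReal.ofReal τ) ^ (1 / p.toReal) := by
        rw [ENNReal.ofReal_mul hd0.le, ENNReal.ofReal_rpow_of_pos hτ0]
    _ = eLpNorm ((Icc (0:ℝ) τ).indicator (fun _ => d)) p (volume.restrict (Icc 0 1)) := by
        rw [eLpNorm_indicator_const' measurableSet_Icc hm0 hp0, hm,
          Real.enorm_of_nonneg hd0.le]
    _ ≤ _ := by
        refine eLpNorm_mono fun t => ?_
        by_cases ht : t ∈ Icc (0:ℝ) τ
        · rw [Set.indicator_of_mem ht, Real.norm_of_nonneg hd0.le,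
            Real.norm_of_nonneg ENNReal.toReal_nonneg]
          exact inner_low N hN q hq t ht.1 ht.2
        · rw [Set.indicator_of_notMem ht, norm_zero]
          exact norm_nonneg _

-- ===== TARGET (prove this; the lemmas above may be used with their sorry) =====
/-- focusing at a point: the estimate fails for `s < 1 - 2/q - 3/(2p)` -/
theorem focus_fails (p q : ℝ≥0∞) (hp : 1 ≤ p) (hq : 1 ≤ q) (s : ℝ)
    (hs : s < 1 - 2 * (1 / q).toReal - 3 / 2 * (1 / p).toReal) : ¬ StrichartzFin p q s := by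
  intro hS
  obtain ⟨C, hC⟩ := hS 1 one_pos
  rw [ENNReal.toReal_div, ENNReal.toReal_div, ENNReal.toReal_one] at hs
  refine final_contra (1 / q.toReal) (1 / p.toReal) s (|C| * √(16 * π * 4 ^ |s|)) hs ?_
  intro N hN
  have hN' : (1:ℝ) ≤ N := by exact_mod_cast hN
  have hN0 : (0:ℝ) < N := by linarith
  have h1 := (outer_low N hN p q hp hq).trans (hC (N + N) (FF N) (fun n => FF_harm N n))
  have hpos : 0 < (N:ℝ) ^ 2 / 2 * (1 / (144 * (N:ℝ) ^ 2)) ^ (1 / q.toReal) *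
      ((N:ℝ) ^ (-(3:ℝ) / 2) / 4) ^ (1 / p.toReal) := by positivity
  rw [ENNReal.ofReal_le_ofReal_iff'] at h1
  have hH : 0 ≤ Hnorm s (N + N) (FF N) := Real.sqrt_nonneg _
  rcases h1 with h1 | h1
  · calc _ ≤ C * Hnorm s (N + N) (FF N) := h1
      _ ≤ |C| * Hnorm s (N + N) (FF N) := mul_le_mul_of_nonneg_right (le_abs_self C) hH
      _ ≤ |C| * (√(16 * π * 4 ^ |s|) * (N:ℝ) ^ (s + 1)) :=
          mul_le_mul_of_nonneg_left (Hn_bd s N hN) (abs_nonneg C)
      _ = _ := by ring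
  · exact absurd hpos (not_lt.2 h1)

end Pool.Agent.Helper442.DR
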