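import Mathlib
import Pool.Agent.Helper442.DR.Defs

open MeasureTheory Set Metric Real
open scoped ENNReal

namespace Pool.Agent.Helper442.DR

/-- the estimate for all absolutely convergent expansions (in particular for all smooth functions) -/
def StrichartzAbs (p q : ℝ≥0∞) (s : ℝ) : Prop :=
  ∀ T : ℝ, 0 < T → ∃ C : ℝ, ∀ F : ℕ → S → ℂ, (∀ n, IsSphHarm n (F n)) →
    (∃ u : ℕ → ℝ, Summable u ∧ ∀ n x, ‖F n x‖ ≤ u n) →
    Summable (fun n : ℕ => (1 + (n : ℝ)) ^ (2 * s) * ∫ x, ‖F n x‖ ^ 2 ∂sig) →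
    eLpNorm (fun t : ℝ => (eLpNorm (fun x => ∑' n : ℕ,
        Complex.exp (((t * Lam n : ℝ) : ℂ) * Complex.I) * F n x) q sig).toReal) p
        (volume.restrict (Icc 0 T)) ≤
      ENNReal.ofReal (C * √(∑' n : ℕ, (1 + (n : ℝ)) ^ (2 * s) * ∫ x, ‖F n x‖ ^ 2 ∂sig))

end Pool.Agent.Helper442.DR
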