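import Mathlib
import Pool.Agent.Helper442.DR.Defs
import Pool.Agent.Helper442.DR.X0

open MeasureTheory Set Metric Real
open scoped ENNReal

namespace Pool.Agent.Helper442.DR






-- ===== TARGET (prove this; the lemmas above may be used with their sorry) =====
theorem sig_fin : IsFiniteMeasure sig := by unfold sig; infer_instance

theorem harm_cont {n : ℕ} {f : S → ℂ} (h : IsSphHarm n f) : Continuous f := by
  obtain ⟨P, _, _, hP⟩ := h
  have : f = fun x : S => MvPolynomial.eval (fun i => (((x : E) i : ℝ) : ℂ)) P := funext hP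
  rw [this]
  refine (MvPolynomial.continuous_eval P).comp ?_
  refine continuous_pi fun i => Complex.continuous_ofReal.comp ?_
  exact (EuclideanSpace.proj (𝕜 := ℝ) i).continuous.comp continuous_subtype_val

theorem elp_const {α : Type*} [MeasurableSpace α] (μ : Measure α) (q : ℝ≥0∞) (δ : ℝ) (hδ : 0 ≤ δ) :
    eLpNorm (fun _ : α => δ) q μ = ENNReal.ofReal δ * eLpNorm (fun _ : α => (1:ℝ)) q μ := by
  have := eLpNorm_const_smul δ (fun _ : α => (1:ℝ)) q μ
  have e : (δ • (fun _ : α => (1:ℝ))) = fun _ : α => δ := by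
    funext x; simp
  rw [e] at this
  rw [this]
  congr 1
  rw [Real.enorm_eq_ofReal hδ]

theorem lemA (q : ℝ≥0∞) (hq : 1 ≤ q) (f g : S → ℂ) (hg : Continuous g) (δ : ℝ) (hδ : 0 ≤ δ)
    (hfg : ∀ x, ‖f x‖ ≤ ‖g x‖ + δ) :
    (eLpNorm f q sig).toReal ≤ (eLpNorm g q sig).toReal +
      δ * (eLpNorm (fun _ : S => (1:ℝ)) q sig).toReal := by
  have := sig_fin
  have hgm : AEStronglyMeasurable g sig := hg.aestronglyMeasurable
  obtain ⟨M, hM⟩ := (isCompact_univ (X := S)).exists_bound_of_continuousOn hg.continuousOn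
  have hgt : eLpNorm g q sig ≠ ⊤ :=
    (MemLp.of_bound hgm M (Filter.Eventually.of_forall fun x => hM x (mem_univ x))).2.ne
  have h1t : eLpNorm (fun _ : S => (1:ℝ)) q sig ≠ ⊤ := (memLp_const (1:ℝ)).2.ne
  have h1 : eLpNorm f q sig ≤ eLpNorm (fun x => ‖g x‖ + δ) q sig := eLpNorm_mono_real hfg
  have h2 : eLpNorm (fun x => ‖g x‖ + δ) q sig ≤ eLpNorm (fun x => ‖g x‖) q sig +
      eLpNorm (fun _ : S => δ) q sig :=
    eLpNorm_add_le hgm.norm aestronglyMeasurable_const hq
  have h3 : eLpNorm (fun x => ‖g x‖) q sig = eLpNorm g q sig := eLpNorm_norm g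
  rw [h3, elp_const sig q δ hδ] at h2
  have h5 := ENNReal.toReal_mono (by
    exact ENNReal.add_ne_top.2 ⟨hgt, ENNReal.mul_ne_top ENNReal.ofReal_ne_top h1t⟩) (h1.trans h2)
  rw [ENNReal.toReal_add hgt (ENNReal.mul_ne_top ENNReal.ofReal_ne_top h1t), ENNReal.toReal_mul,
    ENNReal.toReal_ofReal hδ] at h5
  exact h5

theorem sol_cont (K : ℕ) (F : ℕ → S → ℂ) (hF : ∀ n, IsSphHarm n (F n)) (t : ℝ) :
    Continuous (sol K F t) := by
  unfold sol
  exact continuous_finsetSum _ fun n _ => continuous_const.mul (harm_cont (hF n))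

theorem GK_cont (q : ℝ≥0∞) (hq : 1 ≤ q) (K : ℕ) (F : ℕ → S → ℂ) (hF : ∀ n, IsSphHarm n (F n)) :
    Continuous (fun t => (eLpNorm (sol K F t) q sig).toReal) := by
  have hb : ∀ n, ∃ M, ∀ x, ‖F n x‖ ≤ M := by
    intro n
    obtain ⟨M, hM⟩ := (isCompact_univ (X := S)).exists_bound_of_continuousOn
      (harm_cont (hF n)).continuousOn
    exact ⟨M, fun x => hM x (mem_univ x)⟩
  choose M hM using hb
  set d : ℝ → ℝ → ℝ := fun t s => ∑ n ∈ Finset.range K,
    ‖Complex.exp (((t * Lam n : ℝ) : ℂ) * Complex.I) - Complex.exp (((s * Lam n : ℝ) : ℂ) * Complex.I)‖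
      * |M n| with hd
  have hd0 : ∀ t s, 0 ≤ d t s := fun t s =>
    Finset.sum_nonneg fun n _ => mul_nonneg (norm_nonneg _) (abs_nonneg _)
  have hdsym : ∀ t s, d t s = d s t := fun t s =>
    Finset.sum_congr rfl fun n _ => by rw [norm_sub_rev]
  have hle : ∀ t s, (eLpNorm (sol K F t) q sig).toReal ≤ (eLpNorm (sol K F s) q sig).toReal +
      d t s * (eLpNorm (fun _ : S => (1:ℝ)) q sig).toReal := by
    intro t s
    refine lemA q hq _ _ (sol_cont K F hF s) _ (hd0 t s) fun x => ?_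
    have e : sol K F t x = sol K F s x + ∑ n ∈ Finset.range K,
        (Complex.exp (((t * Lam n : ℝ) : ℂ) * Complex.I) -
          Complex.exp (((s * Lam n : ℝ) : ℂ) * Complex.I)) * F n x := by
      unfold sol
      rw [← Finset.sum_add_distrib]
      exact Finset.sum_congr rfl fun n _ => by ring
    rw [e]
    refine (norm_add_le _ _).trans (add_le_add_right ?_ _)
    refine (norm_sum_le _ _).trans (Finset.sum_le_sum fun n _ => ?_)
    rw [norm_mul]
    exact mul_le_mul_of_nonneg_left ((hM n x).trans (le_abs_self _)) (norm_nonneg _)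
  rw [continuous_iff_continuousAt]
  intro t
  rw [ContinuousAt, tendsto_iff_dist_tendsto_zero]
  have hc : Continuous fun s => d s t * (eLpNorm (fun _ : S => (1:ℝ)) q sig).toReal := by
    rw [hd]
    refine Continuous.mul ?_ continuous_const
    refine continuous_finsetSum _ fun n _ => ?_
    fun_prop
  have h0 : d t t * (eLpNorm (fun _ : S => (1:ℝ)) q sig).toReal = 0 := by
    simp [hd]
  have hlim := hc.tendsto t
  rw [h0] at hlim
  refine squeeze_zero (fun s => dist_nonneg) (fun s => ?_) hlim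
  rw [Real.dist_eq, abs_le]
  have h1 := hle s t
  have h2 := hle t s
  rw [hdsym t s] at h2
  constructor <;> linarith

theorem Hnorm_nonneg (s : ℝ) (K : ℕ) (F : ℕ → S → ℂ) : 0 ≤ Hnorm s K F := Real.sqrt_nonneg _

theorem fin_to_abs (p q : ℝ≥0∞) (hp : 1 ≤ p) (hq : 1 ≤ q) (s : ℝ) (h : StrichartzFin p q s) :
    StrichartzAbs p q s := by
  intro T hT
  obtain ⟨C, hC⟩ := h T hT
  refine ⟨max C 0, ?_⟩
  rintro F hF ⟨u, hu, hFu⟩ hsum
  have := sig_fin
  have hu' : Summable (fun n => |u n|) := hu.abs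
  have hFu' : ∀ n x, ‖F n x‖ ≤ |u n| := fun n x => (hFu n x).trans (le_abs_self _)
  set R : ℝ≥0∞ := ENNReal.ofReal (max C 0 *
    √(∑' n : ℕ, (1 + (n : ℝ)) ^ (2 * s) * ∫ x, ‖F n x‖ ^ 2 ∂sig)) with hR
  set δ : ℕ → ℝ := fun K => ∑' n, |u (n + K)| with hδd
  have hδ0 : ∀ K, 0 ≤ δ K := fun K => tsum_nonneg fun n => abs_nonneg _
  have hδt : Filter.Tendsto δ Filter.atTop (nhds 0) := tendsto_sum_nat_add (fun n => |u n|)
  set c1 : ℝ := (eLpNorm (fun _ : S => (1:ℝ)) q sig).toReal with hc1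
  have hc10 : 0 ≤ c1 := ENNReal.toReal_nonneg
  set ν : Measure ℝ := volume.restrict (Icc 0 T) with hν
  have hc2 : eLpNorm (fun _ : ℝ => (1:ℝ)) p ν ≠ ⊤ := by
    have : IsFiniteMeasure ν := by rw [hν]; infer_instance
    exact (memLp_const (1:ℝ)).2.ne
  have hne : ∀ (n : ℕ) (t : ℝ) (x : S),
      ‖Complex.exp (((t * Lam n : ℝ) : ℂ) * Complex.I) * F n x‖ ≤ |u n| := by
    intro n t x
    rw [norm_mul, Complex.norm_exp_ofReal_mul_I, one_mul]
    exact hFu' n x
  have hpt : ∀ K t, (eLpNorm (fun x => ∑' n : ℕ,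
        Complex.exp (((t * Lam n : ℝ) : ℂ) * Complex.I) * F n x) q sig).toReal ≤
      (eLpNorm (sol K F t) q sig).toReal + δ K * c1 := by
    intro K t
    refine lemA q hq _ _ (sol_cont K F hF t) _ (hδ0 K) fun x => ?_
    have hs : Summable (fun n : ℕ => Complex.exp (((t * Lam n : ℝ) : ℂ) * Complex.I) * F n x) :=
      Summable.of_norm_bounded hu' (fun n => hne n t x)
    rw [← hs.sum_add_tsum_nat_add K]
    refine (norm_add_le _ _).trans (add_le_add_right ?_ _)
    exact tsum_of_norm_bounded (((summable_nat_add_iff K).2 hu').hasSum)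
      (fun n => hne (n + K) t x)
  have hmain : ∀ K, eLpNorm (fun t : ℝ => (eLpNorm (fun x => ∑' n : ℕ,
        Complex.exp (((t * Lam n : ℝ) : ℂ) * Complex.I) * F n x) q sig).toReal) p ν ≤
      R + ENNReal.ofReal (δ K * c1) * eLpNorm (fun _ : ℝ => (1:ℝ)) p ν := by
    intro K
    have h1 : eLpNorm (fun t : ℝ => (eLpNorm (fun x => ∑' n : ℕ,
        Complex.exp (((t * Lam n : ℝ) : ℂ) * Complex.I) * F n x) q sig).toReal) p ν ≤
        eLpNorm (fun t => (eLpNorm (sol K F t) q sig).toReal + δ K * c1) p ν := by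
      refine eLpNorm_mono_real fun t => ?_
      rw [Real.norm_of_nonneg ENNReal.toReal_nonneg]
      exact hpt K t
    have h2 : eLpNorm (fun t => (eLpNorm (sol K F t) q sig).toReal + δ K * c1) p ν ≤
        eLpNorm (fun t => (eLpNorm (sol K F t) q sig).toReal) p ν +
          eLpNorm (fun _ : ℝ => δ K * c1) p ν :=
      eLpNorm_add_le (GK_cont q hq K F hF).aestronglyMeasurable aestronglyMeasurable_const hp
    rw [elp_const ν p (δ K * c1) (mul_nonneg (hδ0 K) hc10)] at h2
    refine (h1.trans h2).trans (add_le_add_left ?_ _)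
    refine (hC K F hF).trans (ENNReal.ofReal_le_ofReal ?_)
    have h3 : Hnorm s K F ≤ √(∑' n : ℕ, (1 + (n : ℝ)) ^ (2 * s) * ∫ x, ‖F n x‖ ^ 2 ∂sig) := by
      unfold Hnorm
      apply Real.sqrt_le_sqrt
      refine hsum.sum_le_tsum _ fun n _ => ?_
      refine mul_nonneg (Real.rpow_nonneg (by positivity) _) (integral_nonneg fun x => by positivity)
    calc C * Hnorm s K F ≤ max C 0 * Hnorm s K F :=
          mul_le_mul_of_nonneg_right (le_max_left _ _) (Hnorm_nonneg s K F)
      _ ≤ _ := mul_le_mul_of_nonneg_left h3 (le_max_right _ _)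
  have hlim : Filter.Tendsto (fun K => R + ENNReal.ofReal (δ K * c1) *
      eLpNorm (fun _ : ℝ => (1:ℝ)) p ν) Filter.atTop (nhds (R + ENNReal.ofReal (0 * c1) *
      eLpNorm (fun _ : ℝ => (1:ℝ)) p ν)) := by
    refine tendsto_const_nhds.add ?_
    refine ENNReal.Tendsto.mul_const ?_ (Or.inr hc2)
    exact (ENNReal.continuous_ofReal.tendsto _).comp (hδt.mul_const c1)
  have hfin := ge_of_tendsto' hlim hmain
  simpa using hfin

theorem abs_to_fin (p q : ℝ≥0∞) (hp : 1 ≤ p) (hq : 1 ≤ q) (s : ℝ) (h : StrichartzAbs p q s) :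
    StrichartzFin p q s := by
  intro T hT
  obtain ⟨C, hC⟩ := h T hT
  refine ⟨C, fun K F hF => ?_⟩
  have hb : ∀ n, ∃ M, ∀ x, ‖F n x‖ ≤ M := by
    intro n
    obtain ⟨M, hM⟩ := (isCompact_univ (X := S)).exists_bound_of_continuousOn
      (harm_cont (hF n)).continuousOn
    exact ⟨M, fun x => hM x (mem_univ x)⟩
  choose M hM using hb
  set F' : ℕ → S → ℂ := fun n x => if n < K then F n x else 0 with hF'
  have hz : ∀ n, n ∉ Finset.range K → ∀ x, F' n x = 0 := by
    intro n hn x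
    rw [Finset.mem_range] at hn
    simp [hF', hn]
  have he : ∀ n, n ∈ Finset.range K → ∀ x, F' n x = F n x := by
    intro n hn x
    rw [Finset.mem_range] at hn
    simp [hF', hn]
  have hharm : ∀ n, IsSphHarm n (F' n) := by
    intro n
    by_cases hn : n ∈ Finset.range K
    · have : F' n = F n := funext (he n hn)
      rw [this]
      exact hF n
    · refine ⟨0, MvPolynomial.isHomogeneous_zero _ _ _, by simp, fun x => ?_⟩
      rw [hz n hn x]
      simp
  have h1 := hC F' hharm ⟨fun n => if n ∈ Finset.range K then M n else 0, ?_, ?_⟩ ?_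
  · have e1 : ∀ t : ℝ, (fun x => ∑' n : ℕ,
        Complex.exp (((t * Lam n : ℝ) : ℂ) * Complex.I) * F' n x) = sol K F t := by
      intro t
      funext x
      rw [tsum_eq_sum (s := Finset.range K) (fun n hn => by rw [hz n hn x, mul_zero])]
      unfold sol
      exact Finset.sum_congr rfl fun n hn => by rw [he n hn x]
    have e2 : ∑' n : ℕ, (1 + (n : ℝ)) ^ (2 * s) * ∫ x, ‖F' n x‖ ^ 2 ∂sig =
        ∑ n ∈ Finset.range K, (1 + (n : ℝ)) ^ (2 * s) * ∫ x, ‖F n x‖ ^ 2 ∂sig := by
      rw [tsum_eq_sum (s := Finset.range K) (fun n hn => by simp [hz n hn])]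
      exact Finset.sum_congr rfl fun n hn => by simp only [he n hn]
    simp only [e1, e2] at h1
    exact h1
  · exact summable_of_ne_finset_zero (s := Finset.range K) (fun n hn => by rw [if_neg hn])
  · intro n x
    by_cases hn : n ∈ Finset.range K
    · rw [he n hn x]
      simp only [hn, if_true]
      exact hM n x
    · rw [hz n hn x]
      simp [hn]
  · exact summable_of_ne_finset_zero (s := Finset.range K) (fun n hn => by simp [hz n hn])

end Pool.Agent.Helper442.DR
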